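import Pool.Agent.H75.AP.MertensA
import Pool.Agent.H1.Mertens

/-!
# Module MERTB (helpwanted): consequences of Mertens' first theorem

Let `A(t) = ∑_{p ≤ t} log p / p`, `|A(t) - log t| ≤ C` (module MERTA). For `1 < u ≤ v`, with
`1 / log p = 1 / log v + ∫_p^v dt / (t log² t)`:
`∑_{u < p ≤ v} 1/p = (A(v) - A(u)) / log v + ∫_u^v (A(t) - A(u)) / (t log² t) dt`
`≤ (log (v/u) + 2C) / log v + ∫_u^v (log t - log u + 2C) / (t log² t) dt = log (log v / log u) + 2C / log u`
(Abel summation: Mathlib `sum_mul_eq_sub_integral_mul` and variants in `Mathlib/NumberTheory/AbelSummation.lean`;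
or avoid integrals by cutting `(u, v]` into pieces `(t, t^(1+δ)]`, on which `1/log p` is almost constant: on such a piece
`∑ 1/p ≤ (A(t^(1+δ)) - A(t)) / log t ≤ δ + 2C / log t`; with `n` pieces, `(1+δ)^n = log v / log u`: the
total is `≤ n δ + 2C ∑ 1/((1+δ)^i log u) ≤ n δ + 2C (1+δ)/(δ log u)`, and `n δ → log R` as `δ → 0` for `log v/ log u = R`.)

* `mertens_ratio`: if `v ≤ u ^ R` the bound is `log R + 2C / log u` (for `v < u` the sum is empty/0; for `u ≤ v ≤ u^R` use monotonicity).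
* `mertens_upper`: take `u = 2`: `∑_{p ≤ v} 1/p ≤ 1/2 + log log v - log log 2 + 2C / log 2`.
* `mertens_low`: from `Pool.Agent.H1.Mertens`'s `mertens_lower` (`log log N - 1 ≤ ∑_{p < N} 1/p`), with `N = ⌊v⌋₊ + 1 ≥ v`.
* `logp_lower`: from `mertens_one`: `A(v) - A(u) ≥ log v - log u - 2C`.
-/

namespace Pool.Agent.H75.AP

open Finset

namespace MertB

lemma mem_PI {u v : ℝ} {p : ℕ} (hu : 0 ≤ u) :
    p ∈ PI u v ↔ p.Prime ∧ u < (p : ℝ) ∧ (p : ℝ) ≤ v := by
  simp only [PI, Finset.mem_filter, Finset.mem_range]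
  constructor
  · rintro ⟨h1, h2, h3⟩
    have h4 : (0 : ℝ) < p := lt_of_le_of_lt hu h3
    refine ⟨h2, h3, ?_⟩
    have h5 : p ≤ ⌊v⌋₊ := by omega
    by_contra hlt
    push Not at hlt
    by_cases hv : 0 ≤ v
    · have := (Nat.le_floor_iff hv).1 h5
      linarith
    · push Not at hv
      rw [Nat.floor_of_nonpos hv.le] at h5
      have : p = 0 := by omega
      rw [this] at h4; simp at h4
  · rintro ⟨h1, h2, h3⟩
    have : p ≤ ⌊v⌋₊ := Nat.le_floor h3
    exact ⟨by omega, h1, h2⟩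

lemma sum_split {u w v : ℝ} (hu : 0 ≤ u) (huw : u ≤ w) (hwv : w ≤ v) (f : ℕ → ℝ) :
    ∑ p ∈ PI u v, f p = ∑ p ∈ PI u w, f p + ∑ p ∈ PI w v, f p := by
  have hw : 0 ≤ w := hu.trans huw
  have hd : Disjoint (PI u w) (PI w v) := by
    rw [Finset.disjoint_left]
    intro p h1 h2
    have h3 := ((mem_PI hu).1 h1).2.2
    have h4 := ((mem_PI hw).1 h2).2.1
    linarith
  rw [← Finset.sum_union hd]
  refine Finset.sum_congr ?_ fun _ _ => rfl
  ext p
  rw [Finset.mem_union, mem_PI hu, mem_PI hu, mem_PI hw]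
  constructor
  · rintro ⟨h1, h2, h3⟩
    rcases le_or_gt (p : ℝ) w with h | h
    · exact Or.inl ⟨h1, h2, h⟩
    · exact Or.inr ⟨h1, h, h3⟩
  · rintro (⟨h1, h2, h3⟩ | ⟨h1, h2, h3⟩)
    · exact ⟨h1, h2, h3.trans hwv⟩
    · exact ⟨h1, lt_of_le_of_lt huw h2, h3⟩

lemma logp_upper : ∃ C : ℝ, 0 < C ∧ ∀ u v : ℝ, 1 ≤ u → u ≤ v →
    ∑ p ∈ PI u v, Real.log p / p ≤ Real.log v - Real.log u + C := by
  obtain ⟨C, hC, h⟩ := mertens_one
  refine ⟨2 * C, by positivity, ?_⟩
  intro u v hu huv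
  have h1 := sum_split (le_refl (0 : ℝ)) (by linarith : (0 : ℝ) ≤ u) huv
    (fun p : ℕ => Real.log p / p)
  have h2 := abs_le.1 (h u hu)
  have h3 := abs_le.1 (h v (hu.trans huv))
  linarith [h2.1, h3.2]

lemma piece : ∃ C : ℝ, 0 < C ∧ ∀ a b : ℝ, 1 < a → a ≤ b →
    ∑ p ∈ PI a b, 1 / (p : ℝ) ≤ (Real.log b - Real.log a + C) / Real.log a := by
  obtain ⟨C, hC, h⟩ := logp_upper
  refine ⟨C, hC, ?_⟩
  intro a b ha hab
  have hL : 0 < Real.log a := Real.log_pos ha
  rw [le_div_iff₀ hL]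
  refine le_trans ?_ (h a b ha.le hab)
  rw [Finset.sum_mul]
  refine Finset.sum_le_sum fun p hp => ?_
  rw [mem_PI (by linarith)] at hp
  have hp0 : (0 : ℝ) < p := by linarith [hp.2.1]
  have h1 : Real.log a ≤ Real.log p := Real.log_le_log (by linarith) hp.2.1.le
  rw [one_div, ← div_eq_inv_mul]
  exact div_le_div_of_nonneg_right h1 hp0.le

lemma sum_mono {u v w : ℝ} (hu : 0 ≤ u) (hvw : v ≤ w) :
    ∑ p ∈ PI u v, 1 / (p : ℝ) ≤ ∑ p ∈ PI u w, 1 / (p : ℝ) := by
  refine Finset.sum_le_sum_of_subset_of_nonneg ?_ fun p _ _ => by positivity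
  intro p hp
  rw [mem_PI hu] at hp ⊢
  exact ⟨hp.1, hp.2.1, hp.2.2.trans hvw⟩

end MertB

open MertB

theorem mertens_ratio (R ε : ℝ) (hR : 1 < R) (hε : 0 < ε) : ∃ u0 : ℝ, 1 < u0 ∧ ∀ u v : ℝ,
    u0 ≤ u → v ≤ u ^ R → ∑ p ∈ PI u v, 1 / (p : ℝ) ≤ Real.log R + ε := by
  obtain ⟨C, hC, hp⟩ := piece
  have hl : 0 < Real.log R := Real.log_pos hR
  obtain ⟨n, hn⟩ := exists_nat_ge (max (Real.log R) (2 * Real.log R ^ 2 / ε) + 1)
  have hn1 : Real.log R ≤ n := by
    have := le_max_left (Real.log R) (2 * Real.log R ^ 2 / ε); linarith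
  have hn2 : 2 * Real.log R ^ 2 / ε ≤ n := by
    have := le_max_right (Real.log R) (2 * Real.log R ^ 2 / ε); linarith
  have hn0 : (0 : ℝ) < n := lt_of_lt_of_le hl hn1
  set x : ℝ := Real.log R / n with hx
  have hx0 : 0 < x := by positivity
  have hx1 : x ≤ 1 := by rw [hx, div_le_one hn0]; exact hn1
  have hexp : Real.exp x - 1 ≤ x + x ^ 2 := by
    have := Real.abs_exp_sub_one_sub_id_le (x := x) (by rw [abs_of_pos hx0]; exact hx1)
    have := (abs_le.1 this).2
    linarith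
  have hnx : n * x = Real.log R := by rw [hx]; field_simp
  have hmain : n * (Real.exp x - 1) ≤ Real.log R + ε / 2 := by
    have h1 : n * (Real.exp x - 1) ≤ n * (x + x ^ 2) := mul_le_mul_of_nonneg_left hexp hn0.le
    have h2 : n * (x + x ^ 2) = Real.log R + Real.log R * x := by
      rw [mul_add, pow_two, ← mul_assoc, hnx]
    have h3 : Real.log R * x ≤ ε / 2 := by
      rw [hx, mul_div_assoc', div_le_iff₀ hn0]
      rw [div_le_iff₀ hε] at hn2
      nlinarith
    linarith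
  refine ⟨Real.exp (2 * n * C / ε + 1), ?_, ?_⟩
  · exact Real.one_lt_exp_iff.2 (by positivity)
  intro u v hu hv
  have hu1 : 1 < u := lt_of_lt_of_le (Real.one_lt_exp_iff.2 (by positivity)) hu
  set L := Real.log u with hL
  have hL1 : 2 * n * C / ε + 1 ≤ L := by
    rw [hL, Real.le_log_iff_exp_le (by linarith)]; exact hu
  have hL0 : 0 < L := by
    have : 0 ≤ 2 * n * C / ε := by positivity
    linarith
  -- induction over the pieces
  have key : ∀ k : ℕ, ∑ p ∈ PI u (Real.exp (L * Real.exp (k * x))), 1 / (p : ℝ) ≤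
      k * (Real.exp x - 1 + C / L) := by
    intro k
    induction k with
    | zero =>
      have h0 : Real.exp (L * Real.exp ((0 : ℕ) * x)) = u := by
        simp only [Nat.cast_zero, zero_mul, Real.exp_zero, mul_one]
        rw [hL, Real.exp_log (by linarith)]
      rw [h0]
      have h1 : PI u u = ∅ := by
        rw [Finset.eq_empty_iff_forall_notMem]
        intro p hp
        rw [mem_PI (by linarith)] at hp
        linarith [hp.2.1, hp.2.2]
      rw [h1]; simp
    | succ k ih =>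
      have hk0 : (0 : ℝ) ≤ k * x := by positivity
      have he1 : 1 ≤ Real.exp (k * x) := Real.one_le_exp hk0
      have h1 : u ≤ Real.exp (L * Real.exp (k * x)) := by
        rw [← Real.log_le_iff_le_exp (by linarith), ← hL]
        nlinarith
      have h2 : Real.exp (L * Real.exp (k * x)) ≤
          Real.exp (L * Real.exp ((k + 1 : ℕ) * x)) := by
        apply Real.exp_le_exp.2
        apply mul_le_mul_of_nonneg_left _ hL0.le
        apply Real.exp_le_exp.2
        push_cast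
        nlinarith
      rw [sum_split (by linarith) h1 h2]
      have h3 := hp (Real.exp (L * Real.exp (k * x))) (Real.exp (L * Real.exp ((k + 1 : ℕ) * x)))
        (lt_of_lt_of_le hu1 h1) h2
      rw [Real.log_exp, Real.log_exp] at h3
      have h4 : (L * Real.exp ((k + 1 : ℕ) * x) - L * Real.exp (k * x) + C) /
          (L * Real.exp (k * x)) ≤ Real.exp x - 1 + C / L := by
        rw [div_le_iff₀ (by positivity)]
        have h5 : Real.exp ((k + 1 : ℕ) * x) = Real.exp (k * x) * Real.exp x := by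
          rw [← Real.exp_add]; congr 1; push_cast; ring
        rw [h5]
        have h6 : (Real.exp x - 1 + C / L) * (L * Real.exp (k * x)) =
            L * (Real.exp (k * x) * Real.exp x) - L * Real.exp (k * x) + C * Real.exp (k * x) := by
          field_simp
        rw [h6]
        nlinarith
      have h7 : ((k + 1 : ℕ) : ℝ) * (Real.exp x - 1 + C / L) =
          k * (Real.exp x - 1 + C / L) + (Real.exp x - 1 + C / L) := by
        push_cast; ring
      rw [h7]
      linarith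
  have h1 := key n
  have h2 : Real.exp (L * Real.exp (n * x)) = u ^ R := by
    rw [hnx, Real.exp_log (by linarith), Real.rpow_def_of_pos (by linarith)]
  rw [h2] at h1
  have h3 := sum_mono (by linarith : (0 : ℝ) ≤ u) hv
  have h4 : n * (C / L) ≤ ε / 2 := by
    rw [mul_div_assoc', div_le_iff₀ hL0]
    have h5 : 2 * n * C / ε ≤ L := by linarith
    rw [div_le_iff₀ hε] at h5
    linarith
  have h5 : n * (Real.exp x - 1 + C / L) = n * (Real.exp x - 1) + n * (C / L) := by ring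
  linarith

theorem mertens_upper : ∃ C : ℝ, 0 < C ∧ ∀ v : ℝ, 3 ≤ v →
    ∑ p ∈ PI 0 v, 1 / (p : ℝ) ≤ Real.log (Real.log v) + C := by
  obtain ⟨C, hC, hp⟩ := piece
  refine ⟨4 + 4 + 2 * C, by positivity, ?_⟩
  intro v hv
  have hlogv : 1 ≤ Real.log v := by
    rw [Real.le_log_iff_exp_le (by linarith)]
    linarith [Real.exp_one_lt_d9]
  set s := √(Real.log v) with hs
  have hs1 : 1 ≤ s := by rw [hs]; exact Real.one_le_sqrt.2 hlogv
  have hss : s * s = Real.log v := Real.mul_self_sqrt (by linarith)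
  set k := ⌊s⌋₊ with hk
  have hk1 : 1 ≤ k := Nat.le_floor (by exact_mod_cast hs1)
  have hks : (k : ℝ) ≤ s := Nat.floor_le (by linarith)
  have hsk : s < k + 1 := Nat.lt_floor_add_one s
  -- harmonic type sums
  have hsum : ∀ m : ℕ, 1 ≤ m → ∑ i ∈ range m, (2 * (i : ℝ) + 3 + C) / ((i : ℝ) + 1) ^ 2 ≤
      2 * (1 + Real.log m) + (1 + C) * (2 - 1 / m) := by
    intro m hm
    induction m, hm using Nat.le_induction with
    | base => simp; linarith
    | succ m hm ih =>
      rw [Finset.sum_range_succ]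
      have hm0 : (0 : ℝ) < m := by exact_mod_cast hm
      have h1 : (2 * (m : ℝ) + 3 + C) / ((m : ℝ) + 1) ^ 2 =
          2 / ((m : ℝ) + 1) + (1 + C) / ((m : ℝ) + 1) ^ 2 := by
        field_simp; ring
      have h2 : 1 / ((m : ℝ) + 1) ≤ Real.log ((m + 1 : ℕ) : ℝ) - Real.log m := by
        rw [← Real.log_div (by positivity) hm0.ne']
        have h3 := Real.one_sub_inv_le_log_of_pos (x := ((m + 1 : ℕ) : ℝ) / m) (by positivity)
        have h4 : 1 - (((m + 1 : ℕ) : ℝ) / m)⁻¹ = 1 / ((m : ℝ) + 1) := by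
          push_cast; field_simp; ring
        rw [h4] at h3
        exact h3
      have h3 : 1 / ((m : ℝ) + 1) ^ 2 ≤ 1 / m - 1 / ((m : ℝ) + 1) := by
        have : 1 / (m : ℝ) - 1 / ((m : ℝ) + 1) = 1 / (m * ((m : ℝ) + 1)) := by
          field_simp; ring
        rw [this]
        apply one_div_le_one_div_of_le (by positivity)
        nlinarith
      have h5 : (1 + C) / ((m : ℝ) + 1) ^ 2 ≤ (1 + C) * (1 / m - 1 / ((m : ℝ) + 1)) := by
        rw [div_eq_mul_one_div]
        exact mul_le_mul_of_nonneg_left h3 (by linarith)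
      have h6 : 2 / ((m : ℝ) + 1) = 2 * (1 / ((m : ℝ) + 1)) := by ring
      rw [h1, h6]
      push_cast at h2 ⊢
      nlinarith
  have key : ∀ m : ℕ, ∑ p ∈ PI (Real.exp 1) (Real.exp (((m : ℝ) + 1) ^ 2)), 1 / (p : ℝ) ≤
      ∑ i ∈ range m, (2 * (i : ℝ) + 3 + C) / ((i : ℝ) + 1) ^ 2 := by
    intro m
    induction m with
    | zero =>
      have h1 : PI (Real.exp 1) (Real.exp ((((0 : ℕ) : ℝ) + 1) ^ 2)) = ∅ := by
        rw [Finset.eq_empty_iff_forall_notMem]
        intro p hp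
        rw [mem_PI (by positivity)] at hp
        simp at hp
        linarith [hp.2.1, hp.2.2]
      rw [h1]; simp
    | succ m ih =>
      have h1 : Real.exp 1 ≤ Real.exp (((m : ℝ) + 1) ^ 2) := by
        apply Real.exp_le_exp.2; nlinarith [Nat.cast_nonneg (α := ℝ) m]
      have h2 : Real.exp (((m : ℝ) + 1) ^ 2) ≤ Real.exp ((((m + 1 : ℕ) : ℝ) + 1) ^ 2) := by
        apply Real.exp_le_exp.2; push_cast; nlinarith [Nat.cast_nonneg (α := ℝ) m]
      rw [sum_split (by positivity) h1 h2, Finset.sum_range_succ]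
      have h3 := hp _ _ (lt_of_lt_of_le (Real.one_lt_exp_iff.2 one_pos) h1) h2
      rw [Real.log_exp, Real.log_exp] at h3
      have h4 : (((m + 1 : ℕ) : ℝ) + 1) ^ 2 - ((m : ℝ) + 1) ^ 2 + C = 2 * (m : ℝ) + 3 + C := by
        push_cast; ring
      rw [h4] at h3
      linarith
  have h1 : v ≤ Real.exp (((k : ℝ) + 1) ^ 2) := by
    rw [← Real.log_le_iff_le_exp (by linarith), ← hss]
    nlinarith
  have h2 : Real.exp 1 ≤ v := by linarith [Real.exp_one_lt_d9]
  have h3 : ∑ p ∈ PI 0 v, 1 / (p : ℝ) ≤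
      ∑ p ∈ PI 0 (Real.exp 1), 1 / (p : ℝ) +
      ∑ p ∈ PI (Real.exp 1) (Real.exp (((k : ℝ) + 1) ^ 2)), 1 / (p : ℝ) := by
    rw [sum_split (le_refl 0) (by positivity) h2]
    have := sum_mono (u := Real.exp 1) (by positivity) h1
    linarith
  have h4 : ∑ p ∈ PI 0 (Real.exp 1), 1 / (p : ℝ) ≤ 3 := by
    have h5 : PI 0 (Real.exp 1) ⊆ range 3 := by
      intro p hp
      rw [mem_PI (le_refl 0)] at hp
      rw [Finset.mem_range]
      have h6 : (p : ℝ) < 3 := lt_of_le_of_lt hp.2.2 (by linarith [Real.exp_one_lt_d9])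
      exact_mod_cast h6
    refine (Finset.sum_le_sum_of_subset_of_nonneg h5 fun p _ _ => by positivity).trans ?_
    simp [Finset.sum_range_succ]
    norm_num
  have h5 := key k
  have h6 := hsum k hk1
  have h7 : Real.log k ≤ 1 / 2 * Real.log (Real.log v) := by
    have h8 : Real.log k ≤ Real.log s := Real.log_le_log (by exact_mod_cast hk1) hks
    have h9 : Real.log s = 1 / 2 * Real.log (Real.log v) := by
      rw [hs, Real.log_sqrt (by linarith)]; ring
    linarith
  have h8 : (1 + C) * (2 - 1 / (k : ℝ)) ≤ (1 + C) * 2 := by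
    apply mul_le_mul_of_nonneg_left _ (by linarith)
    have : 0 ≤ 1 / (k : ℝ) := by positivity
    linarith
  linarith

theorem mertens_low : ∃ C : ℝ, 0 < C ∧ ∀ v : ℝ, 3 ≤ v →
    Real.log (Real.log v) - C ≤ ∑ p ∈ PI 0 v, 1 / (p : ℝ) := by
  refine ⟨1, one_pos, ?_⟩
  intro v hv
  have hN : 3 ≤ ⌊v⌋₊ := Nat.le_floor (by exact_mod_cast hv)
  have h1 := Pool.Agent.H1.mertens_lower (⌊v⌋₊ + 1) (by omega)
  have h2 : (⌊v⌋₊ + 1).primesBelow = PI 0 v := by
    ext p
    rw [Nat.mem_primesBelow, mem_PI (le_refl 0)]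
    constructor
    · rintro ⟨h3, h4⟩
      refine ⟨h4, by exact_mod_cast h4.pos, ?_⟩
      exact (Nat.le_floor_iff (by linarith)).1 (by omega)
    · rintro ⟨h3, h4, h5⟩
      have := Nat.le_floor h5
      exact ⟨by omega, h3⟩
  rw [h2] at h1
  have h3 : Real.log (Real.log v) ≤ Real.log (Real.log ((⌊v⌋₊ + 1 : ℕ) : ℝ)) := by
    apply Real.log_le_log (Real.log_pos (by linarith))
    apply Real.log_le_log (by linarith)
    push_cast
    exact (Nat.lt_floor_add_one v).le
  linarith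

theorem logp_lower : ∃ C : ℝ, 0 < C ∧ ∀ u v : ℝ, 1 ≤ u → u ≤ v →
    Real.log v - Real.log u - C ≤ ∑ p ∈ PI u v, Real.log p / p := by
  obtain ⟨C, hC, h⟩ := mertens_one
  refine ⟨2 * C, by positivity, ?_⟩
  intro u v hu huv
  have h1 := sum_split (le_refl (0 : ℝ)) (by linarith : (0 : ℝ) ≤ u) huv
    (fun p : ℕ => Real.log p / p)
  have h2 := abs_le.1 (h u hu)
  have h3 := abs_le.1 (h v (hu.trans huv))
  linarith [h2.2, h3.1]

end Pool.Agent.H75.AP
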