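import Pool.Agent.H75.AP.Defs

/-!
# Module MERTA (helpwanted): Mertens' first theorem

`∑_{n ≤ N} log n = N log N + O(N)` and `∑_{n ≤ N} log n = ∑_{d ≤ N} Λ(d) ⌊N/d⌋ = N ∑_{d ≤ N} Λ(d)/d + O(ψ(N))`, with
`ψ(N) = O(N)` (Mathlib: `Chebyshev.psi`, `Chebyshev.theta`, e.g. `Chebyshev.theta_le_log4_mul_x`, `Chebyshev.psi_le..`; or
use `log (N!)` and `Nat.factorization_factorial`/Legendre). So `∑_{d ≤ N} Λ(d)/d = log N + O(1)`, and the
prime powers contribute `∑_p ∑_{k ≥ 2} log p / p^k ≤ ∑_n log n / (n (n-1)) = O(1)`. Pass from integers `N = ⌊x⌋` to real `x`.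
(`PI 0 x` = primes `≤ x`.)  The folder `Pool/Agent/H1/Mertens.lean`, `Pool/Agent/H6/Cub/Smooth.lean` may contain useful pieces.
-/

namespace Pool.Agent.H75.AP

open Finset

namespace MertA

open Nat in
lemma fac_upper (p N : ℕ) (hp : p.Prime) :
    ((N !).factorization p : ℝ) * ((p : ℝ) - 1) ≤ N := by
  have := Fact.mk hp
  have h := sub_one_mul_padicValNat_factorial (p := p) N
  rw [← Nat.factorization_def _ hp] at h
  have h2 : (p - 1) * (N !).factorization p ≤ N := by rw [h]; exact Nat.sub_le _ _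
  have h3 : ((p - 1 : ℕ) : ℝ) = (p : ℝ) - 1 := by
    rw [Nat.cast_sub hp.one_lt.le]; simp
  rw [← h3, mul_comm]
  exact_mod_cast h2

open Nat in
lemma fac_lower (p N : ℕ) (hp : p.Prime) :
    (N : ℝ) / p - 1 ≤ ((N !).factorization p : ℝ) := by
  have := Fact.mk hp
  have h := padicValNat_factorial (p := p) (n := N) (b := Nat.log p N + 2) (by omega)
  rw [← Nat.factorization_def _ hp] at h
  have h2 : N / p ≤ (N !).factorization p := by
    rw [h]
    have h3 : N / p ^ 1 ≤ ∑ i ∈ Ico 1 (Nat.log p N + 2), N / p ^ i :=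
      Finset.single_le_sum (f := fun i => N / p ^ i) (fun i _ => Nat.zero_le _)
        (by rw [Finset.mem_Ico]; omega)
    simpa using h3
  have h4 : (N : ℝ) / p < (N / p : ℕ) + 1 := by
    rw [div_lt_iff₀ (by exact_mod_cast hp.pos)]
    have := Nat.lt_succ_iff.1 (Nat.lt_succ_of_le (le_refl (N / p)))
    have h5 : N < (N / p + 1) * p := by
      have := Nat.div_add_mod N p
      have h6 := Nat.mod_lt N hp.pos
      nlinarith
    exact_mod_cast h5
  have h7 : ((N / p : ℕ) : ℝ) ≤ ((N !).factorization p : ℝ) := by exact_mod_cast h2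
  linarith

/-- the primes up to `N` -/
def PN (N : ℕ) : Finset ℕ := (range (N + 1)).filter Nat.Prime

open Nat in
lemma log_fac (N : ℕ) : Real.log (N ! : ℕ) =
    ∑ p ∈ PN N, ((N !).factorization p : ℝ) * Real.log p := by
  rw [Real.log_nat_eq_sum_factorization, Finsupp.sum]
  refine Finset.sum_subset ?_ ?_
  · intro p hp
    rw [Nat.support_factorization, Nat.mem_primeFactors] at hp
    rw [PN, Finset.mem_filter, Finset.mem_range]
    exact ⟨Nat.lt_succ_of_le (hp.1.dvd_factorial.1 hp.2.1), hp.1⟩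
  · intro p _ hp
    rw [Finsupp.notMem_support_iff] at hp
    rw [hp]; simp

lemma log_le_sqrt (n : ℕ) (hn : 2 ≤ n) : Real.log n ≤ 2 * √((n : ℝ) - 1) := by
  have hn' : (2 : ℝ) ≤ n := by exact_mod_cast hn
  have h0 : (0 : ℝ) < n := by linarith
  have h1 : Real.log n = 2 * Real.log (√n) := by
    rw [Real.log_sqrt h0.le]; ring
  have h2 : Real.log (√(n : ℝ)) ≤ √n - 1 := Real.log_le_sub_one_of_pos (Real.sqrt_pos.2 h0)
  have h3 : √(n : ℝ) - 1 ≤ √((n : ℝ) - 1) := by
    have h4 : √(n : ℝ) ≤ √((n : ℝ) - 1) + 1 := by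
      rw [Real.sqrt_le_iff]
      have h5 := Real.sq_sqrt (show (0 : ℝ) ≤ (n : ℝ) - 1 by linarith)
      have h6 := Real.sqrt_nonneg ((n : ℝ) - 1)
      constructor
      · positivity
      · nlinarith
    linarith
  rw [h1]
  linarith

lemma tele (n : ℕ) (hn : 2 ≤ n) : Real.log n / (n * ((n : ℝ) - 1)) ≤
    4 * (1 / √((n : ℝ) - 1) - 1 / √n) := by
  have hn' : (2 : ℝ) ≤ n := by exact_mod_cast hn
  have h0 : (0 : ℝ) < n := by linarith
  have h1 : (0 : ℝ) < n - 1 := by linarith
  set a := √((n : ℝ) - 1) with ha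
  set b := √(n : ℝ) with hb
  have ha0 : 0 < a := Real.sqrt_pos.2 h1
  have hb0 : 0 < b := Real.sqrt_pos.2 h0
  have haa : a * a = n - 1 := Real.mul_self_sqrt h1.le
  have hbb : b * b = n := Real.mul_self_sqrt h0.le
  have hab : a ≤ b := Real.sqrt_le_sqrt (by linarith)
  have hlog := log_le_sqrt n hn
  rw [← ha] at hlog
  have e1 : Real.log n / (n * ((n : ℝ) - 1)) ≤ 2 / (b * b * a) := by
    rw [← haa, ← hbb]
    rw [div_le_div_iff₀ (by positivity) (by positivity)]
    have : Real.log (b * b) ≤ 2 * a := by rw [hbb]; exact hlog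
    have hpos : 0 < b * b * a := by positivity
    nlinarith
  have e2 : 2 / (b * b * a) ≤ 4 * (1 / a - 1 / b) := by
    have e3 : 1 / a - 1 / b = 1 / (a * b * (a + b)) := by
      have hd : b * b - a * a = 1 := by rw [hbb, haa]; ring
      field_simp
      linarith
    rw [e3, div_le_iff₀ (by positivity)]
    have e4 : 4 * (1 / (a * b * (a + b))) * (b * b * a) = 4 * b / (a + b) := by
      field_simp
    rw [e4, le_div_iff₀ (by positivity)]
    linarith
  exact e1.trans e2

lemma tail_sum (N : ℕ) : ∑ p ∈ PN N, Real.log p / (p * ((p : ℝ) - 1)) ≤ 4 := by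
  have h1 : ∑ p ∈ PN N, Real.log p / (p * ((p : ℝ) - 1)) ≤
      ∑ n ∈ Finset.Icc 2 (N + 1), Real.log n / (n * ((n : ℝ) - 1)) := by
    refine Finset.sum_le_sum_of_subset_of_nonneg ?_ ?_
    · intro p hp
      rw [PN, Finset.mem_filter, Finset.mem_range] at hp
      rw [Finset.mem_Icc]
      exact ⟨hp.2.two_le, by omega⟩
    · intro n hn _
      rw [Finset.mem_Icc] at hn
      have hn' : (2 : ℝ) ≤ n := by exact_mod_cast hn.1
      exact div_nonneg (Real.log_nonneg (by linarith)) (mul_nonneg (by linarith) (by linarith))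
  have h2 : ∀ M : ℕ, 1 ≤ M → ∑ n ∈ Finset.Icc 2 M, Real.log n / (n * ((n : ℝ) - 1)) ≤
      4 * (1 - 1 / √M) := by
    intro M hM
    induction M, hM using Nat.le_induction with
    | base => simp
    | succ M hM ih =>
      rw [Finset.sum_Icc_succ_top (by omega)]
      have := tele (M + 1) (by omega)
      push_cast at this ⊢
      rw [add_sub_cancel_right] at this ⊢
      linarith
  have h3 := h2 (N + 1) (by omega)
  have h4 : 0 ≤ 1 / √((N + 1 : ℕ) : ℝ) := by positivity
  linarith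

lemma theta_PN (N : ℕ) : ∑ p ∈ PN N, Real.log p ≤ Real.log 4 * N := by
  have h := Chebyshev.theta_le_log4_mul_x (x := (N : ℝ)) (by positivity)
  have h2 : Chebyshev.theta (N : ℝ) = ∑ p ∈ PN N, Real.log p := by
    rw [Chebyshev.theta_eq_sum_Icc, PN]
    refine Finset.sum_congr ?_ fun _ _ => rfl
    ext p
    simp only [Nat.floor_natCast, Finset.mem_filter, Finset.mem_Icc, Finset.mem_range]
    constructor
    · rintro ⟨⟨_, h⟩, hp⟩; exact ⟨by omega, hp⟩
    · rintro ⟨h, hp⟩; exact ⟨⟨by omega, by omega⟩, hp⟩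
  rw [← h2]; exact h

open Nat in
lemma upperN (N : ℕ) (hN : 1 ≤ N) :
    ∑ p ∈ PN N, Real.log p / p ≤ Real.log N + Real.log 4 := by
  have hN' : (0 : ℝ) < N := by exact_mod_cast hN
  have h1 : (N : ℝ) * ∑ p ∈ PN N, Real.log p / p ≤
      ∑ p ∈ PN N, ((N !).factorization p : ℝ) * Real.log p + ∑ p ∈ PN N, Real.log p := by
    rw [Finset.mul_sum, ← Finset.sum_add_distrib]
    refine Finset.sum_le_sum fun p hp => ?_
    rw [PN, Finset.mem_filter] at hp
    have h2 := fac_lower p N hp.2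
    have h3 : 0 ≤ Real.log p := Real.log_natCast_nonneg p
    have h4 : (N : ℝ) * (Real.log p / p) = ((N : ℝ) / p) * Real.log p := by ring
    rw [h4]
    nlinarith
  rw [← log_fac] at h1
  have h2 : Real.log (N ! : ℕ) ≤ N * Real.log N := by
    have : ((N ! : ℕ) : ℝ) ≤ (N : ℝ) ^ N := by exact_mod_cast Nat.factorial_le_pow N
    have h5 := Real.log_le_log (by exact_mod_cast Nat.factorial_pos N) this
    rwa [Real.log_pow] at h5
  have h3 := theta_PN N
  have h4 : (N : ℝ) * ∑ p ∈ PN N, Real.log p / p ≤ N * (Real.log N + Real.log 4) := by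
    linarith
  exact le_of_mul_le_mul_left h4 hN'

open Nat in
lemma lowerN (N : ℕ) (hN : 1 ≤ N) :
    Real.log N - 5 ≤ ∑ p ∈ PN N, Real.log p / p := by
  have hN' : (0 : ℝ) < N := by exact_mod_cast hN
  have h1 : ∑ p ∈ PN N, ((N !).factorization p : ℝ) * Real.log p ≤
      N * (∑ p ∈ PN N, Real.log p / p + ∑ p ∈ PN N, Real.log p / (p * ((p : ℝ) - 1))) := by
    rw [← Finset.sum_add_distrib, Finset.mul_sum]
    refine Finset.sum_le_sum fun p hp => ?_
    rw [PN, Finset.mem_filter] at hp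
    have h2 := fac_upper p N hp.2
    have h3 : 0 ≤ Real.log p := Real.log_natCast_nonneg p
    have h5 : (2 : ℝ) ≤ p := by exact_mod_cast hp.2.two_le
    have h6 : ((N !).factorization p : ℝ) ≤ N / ((p : ℝ) - 1) := by
      rw [le_div_iff₀ (by linarith)]; exact h2
    have h7 : (N : ℝ) * (Real.log p / p + Real.log p / (p * ((p : ℝ) - 1))) =
        N / ((p : ℝ) - 1) * Real.log p := by
      have h8 : (p : ℝ) ≠ 0 := by linarith
      have h9 : (p : ℝ) - 1 ≠ 0 := by linarith
      field_simp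
      ring
    rw [h7]
    exact mul_le_mul_of_nonneg_right h6 h3
  rw [← log_fac] at h1
  have h2 : (N : ℝ) * Real.log N - N ≤ Real.log (N ! : ℕ) := by
    have h3 := Real.pow_div_factorial_le_exp (N : ℝ) hN'.le N
    have h4 : (0 : ℝ) < (N ! : ℕ) := by exact_mod_cast Nat.factorial_pos N
    have h5 := Real.log_le_log (by positivity) h3
    rw [Real.log_exp, Real.log_div (by positivity) h4.ne', Real.log_pow] at h5
    linarith
  have h3 := tail_sum N
  have h4 : (N : ℝ) * (Real.log N - 5) ≤ N * ∑ p ∈ PN N, Real.log p / p := by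
    nlinarith
  exact le_of_mul_le_mul_left h4 hN'

lemma PI_zero (x : ℝ) : PI 0 x = PN ⌊x⌋₊ := by
  ext p
  simp only [PI, PN, Finset.mem_filter]
  constructor
  · rintro ⟨h1, h2, _⟩; exact ⟨h1, h2⟩
  · rintro ⟨h1, h2⟩; exact ⟨h1, h2, by exact_mod_cast h2.pos⟩

end MertA

open MertA in
theorem mertens_one : ∃ C : ℝ, 0 < C ∧ ∀ x : ℝ, 1 ≤ x →
    |∑ p ∈ PI 0 x, Real.log p / p - Real.log x| ≤ C := by
  refine ⟨6, by norm_num, ?_⟩
  intro x hx
  rw [PI_zero]
  set N := ⌊x⌋₊ with hN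
  have hN1 : 1 ≤ N := Nat.le_floor (by exact_mod_cast hx)
  have hNx : (N : ℝ) ≤ x := Nat.floor_le (by linarith)
  have hxN : x < N + 1 := Nat.lt_floor_add_one x
  have hN' : (1 : ℝ) ≤ N := by exact_mod_cast hN1
  have h1 := upperN N hN1
  have h2 := lowerN N hN1
  have h3 : Real.log N ≤ Real.log x := Real.log_le_log (by linarith) hNx
  have h4 : Real.log x ≤ Real.log N + Real.log 2 := by
    rw [← Real.log_mul (by linarith) (by norm_num)]
    exact Real.log_le_log (by linarith) (by linarith)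
  have h5 : Real.log 2 < 1 := by linarith [Real.log_two_lt_d9]
  have h6 : Real.log 4 = 2 * Real.log 2 := by
    rw [show (4 : ℝ) = 2 ^ 2 by norm_num, Real.log_pow]; norm_num
  rw [abs_le]
  constructor <;> linarith

end Pool.Agent.H75.AP
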