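import Pool.Agent.H75.AP.Defs

/-!
# Module ALT (helpwanted): values of the block functions

`m := (T.filter (· ∣ n)).card`.

* `ev_fU`: `∑_{S ⊆ P, |S| ≤ b} (-1)^|S| = ∑_{c ≤ b} (-1)^c C(m,c)` where `P = T.filter (· ∣ n)`,
  `m = |P|` (group the subsets by cardinality: `Finset.sum_powerset_apply_card` or
  `Finset.powerset_card_disjiUnion`), and for `m ≥ 1`: `∑_{c ≤ b} (-1)^c C(m,c) = (-1)^b C(m-1,b)`
  (Mathlib: `Int.alternating_sum_range_choose_eq_choose` or a one line induction on `b` with Pascal's rule).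
* `ev_fC`: `Finset.card_powersetCard`.
* `ev_f0`: only the singletons contribute.
-/

namespace Pool.Agent.H75.AP

open Finset

theorem ev_fU (T : Finset ℕ) (b n : ℕ) (hb : Even b) :
    ev T (fU b) n = if (T.filter (· ∣ n)).card = 0 then 1 else
      ((((T.filter (· ∣ n)).card - 1).choose b : ℕ) : ℝ) := by
  have key : ∀ m : ℕ, ∑ k ∈ range (m + 1), m.choose k • (if k ≤ b then (-1 : ℝ) ^ k else 0) =
      ∑ k ∈ range (b + 1), (-1 : ℝ) ^ k * (m.choose k : ℝ) := by
    intro m
    have h1 : ∑ k ∈ range (m + 1), m.choose k • (if k ≤ b then (-1 : ℝ) ^ k else 0) =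
        ∑ k ∈ range (m + b + 1), m.choose k • (if k ≤ b then (-1 : ℝ) ^ k else 0) := by
      apply sum_subset
      · intro k hk
        rw [mem_range] at hk ⊢
        omega
      · intro k _ hk2
        rw [mem_range, not_lt] at hk2
        rw [Nat.choose_eq_zero_of_lt (by omega), zero_smul]
    have h2 : ∑ k ∈ range (b + 1), (-1 : ℝ) ^ k * (m.choose k : ℝ) =
        ∑ k ∈ range (b + 1), m.choose k • (if k ≤ b then (-1 : ℝ) ^ k else 0) := by
      apply sum_congr rfl
      intro k hk
      rw [mem_range] at hk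
      rw [if_pos (by omega), nsmul_eq_mul, mul_comm]
    rw [h1, h2]
    symm
    apply sum_subset
    · intro k hk
      rw [mem_range] at hk ⊢
      omega
    · intro k _ hk2
      rw [mem_range, not_lt] at hk2
      rw [if_neg (by omega), smul_zero]
  have hs : ev T (fU b) n = ∑ k ∈ range (b + 1),
      (-1 : ℝ) ^ k * (((T.filter (· ∣ n)).card.choose k : ℕ) : ℝ) := by
    rw [← key]
    exact sum_powerset_apply_card (fun k => if k ≤ b then (-1 : ℝ) ^ k else 0)
  rw [hs]
  rcases hm : (T.filter (· ∣ n)).card with _ | m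
  · rw [if_pos rfl, sum_range_succ']
    simp
  · rw [if_neg (by omega), Nat.add_sub_cancel]
    have h := Int.alternating_sum_range_choose_eq_choose (n := m) (m := b)
    have h' : ((∑ k ∈ range (b + 1), ((-1) ^ k * ((m + 1).choose k : ℤ)) : ℤ) : ℝ) =
        (((-1) ^ b * (m.choose b : ℤ) : ℤ) : ℝ) := by rw [h]
    push_cast at h'
    rw [h', hb.neg_one_pow, one_mul]

theorem ev_fC (T : Finset ℕ) (s n : ℕ) :
    ev T (fC s) n = (((T.filter (· ∣ n)).card.choose s : ℕ) : ℝ) := by
  have h : ev T (fC s) n = ∑ k ∈ range ((T.filter (· ∣ n)).card + 1),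
      (T.filter (· ∣ n)).card.choose k • (if k = s then (1 : ℝ) else 0) :=
    sum_powerset_apply_card (fun k => if k = s then (1 : ℝ) else 0)
  rw [h]
  simp only [nsmul_eq_mul, mul_ite, mul_one, mul_zero]
  rw [sum_ite_eq']
  split_ifs with hs
  · rfl
  · rw [mem_range, not_lt] at hs
    rw [Nat.choose_eq_zero_of_lt (by omega), Nat.cast_zero]

theorem ev_f0 (T : Finset ℕ) (ω : ℕ → ℝ) (n : ℕ) :
    ev T (f0 ω) n = ∑ p ∈ T.filter (· ∣ n), ω p := by
  unfold ev f0
  rw [← sum_filter, ← powersetCard_eq_filter, powersetCard_one, sum_map]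
  simp

end Pool.Agent.H75.AP
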