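import Pool.Agent.H75.AP.ModelA

/-!
# Module MODELB (helpwanted): the probabilistic model of one block

`prb T D = ∏_{p ∈ D} 1/p * ∏_{p ∈ T \ D} (1 - 1/p)`, `∑_{D ⊆ T} prb T D = 1`, and for `R ⊆ T`:
`∑_{D ⊆ T, R ⊆ D} prb T D = ∏_{p ∈ R} 1/p` (write `D = R ∪ E`, `E ⊆ T \ R`, and
`∑_{E ⊆ T \ R} ∏_E 1/p ∏_{(T\R)\E} (1 - 1/p) = ∏_{T \ R} (1/p + (1 - 1/p)) = 1`: `Finset.prod_add`).

* `mv_model`, `pv_model`: exchange the order of summation (`S ⊆ D`; `S ∪ S' ⊆ D`; for `H = T` the condition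
  `S ∩ S' ⊆ T` in `pv` is automatic).
* For `D` with `m` elements: `∑_{S ⊆ D} fU b S = 1` if `m = 0`, `= C(m-1,b)` if `m ≥ 1` (`b` even), `∑_{S ⊆ D} fC s S = C(m,s)`
  (same computation as `ev_fU`, `ev_fC`; one can use these with `n = 0`: `ev D f 0 = ∑_{S ⊆ D} f S`).
* `mv_fU_ge`: the model value is `≥ 1[D = ∅]` and `prb T ∅ = vv T`.
* `mv_fC_nonneg`, `mv_fC_le`: `∑_{S ⊆ T, |S| = s} ∏_S 1/p ≤ (lam T)^s / s!` (elementary symmetric function; Mathlib may have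
  `Finset.prod_powersetCard..` / `Finset.esymm`; induction on `T`: `e_s(T ∪ {p}) = e_s(T) + x e_{s-1}(T)` and `(λ+x)^s ≥ λ^s + s x λ^(s-1)`).
* `pv_fU_fU_le` etc.: for `m ≥ 1`: `C(m-1,b)^2 ≤ C(m,b+1)^2`?? not needed; use: `C(m-1,b) ≤ 2^m`, `C(m,b+1) ≤ 2^m`, both vanish unless
  `m ≥ b+1`, and then `1 ≤ 2^(m-b-1)`; so the products are `≤ 4^m 2^m / 2^(b+1) = 8^m / 2^(b+1)`. And
  `∑_D prb T D * 8^|D| = ∏_{p ∈ T} (8/p + 1 - 1/p) = ∏ (1 + 7/p) ≤ exp (7 lam T)`. For `fU, fU` the set `D = ∅` contributes `prb T ∅ = vv T`.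
* the statements with `f0`: `pv T T (fU 0) (f0 ω) = mv T (f0 ω) = ∑ ω p / p` (only `S = ∅` in `fU 0`), and
  `pv T T (f0 ω) (f0 ω) = ∑_{p,p'} ω p ω p' ∏_{ {p,p'} } 1/q ≤ (∑ 1/p)^2 + ∑ 1/p` (`p ≠ p'` / `p = p'`).

(`mv_model`, `pv_model`, `model_fU`, `model_fC`, `prb_eight`, `prb_nonneg` are in the module MODELA: use their statements.)
-/

namespace Pool.Agent.H75.AP

open Finset

namespace ModelBAux

lemma prb_empty (T : Finset ℕ) : prb T ∅ = vv T := by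
  unfold prb vv
  simp

lemma two_bound (m b : ℕ) (x y : ℝ) (hx : 0 ≤ x) (hy : 0 ≤ y) (hx2 : x ≤ 2 ^ m) (hy2 : y ≤ 2 ^ m)
    (h : m < b + 1 → x = 0 ∨ y = 0) : x * y ≤ 8 ^ m / 2 ^ (b + 1) := by
  rw [le_div_iff₀ (by positivity)]
  by_cases hm : m < b + 1
  · rcases h hm with h | h
    · rw [h]; simp
    · rw [h]; simp
  · have h2 : (2 : ℝ) ^ (b + 1) ≤ 2 ^ m := pow_le_pow_right₀ (by norm_num) (by omega)
    calc x * y * 2 ^ (b + 1) ≤ 2 ^ m * 2 ^ m * 2 ^ m := by gcongr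
      _ = 8 ^ m := by rw [← mul_pow, ← mul_pow]; norm_num

lemma choose_le_two_pow (m b : ℕ) : ((m.choose b : ℕ) : ℝ) ≤ 2 ^ m := by
  exact_mod_cast Nat.choose_le_two_pow m b

/-- value of the model sum of `fU` -/
lemma model_fU_le (D : Finset ℕ) (b : ℕ) (hb : Even b) :
    0 ≤ ∑ S ∈ D.powerset, fU b S ∧ ∑ S ∈ D.powerset, fU b S ≤ 2 ^ D.card ∧
      (D.card < b + 1 → D ≠ ∅ → ∑ S ∈ D.powerset, fU b S = 0) ∧
      (D = ∅ → ∑ S ∈ D.powerset, fU b S = 1) := by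
  rw [model_fU D b hb]
  refine ⟨?_, ?_, ?_, ?_⟩
  · split_ifs
    · norm_num
    · exact Nat.cast_nonneg _
  · split_ifs with h
    · rw [h]; norm_num
    · refine (choose_le_two_pow (D.card - 1) b).trans ?_
      exact pow_le_pow_right₀ (by norm_num) (Nat.sub_le _ _)
  · intro h1 h2
    have h3 : D.card ≠ 0 := by rwa [Ne, Finset.card_eq_zero]
    rw [if_neg h3, Nat.choose_eq_zero_of_lt (by omega)]
    norm_num
  · intro h
    rw [h]; simp

lemma model_fC_le (D : Finset ℕ) (s : ℕ) :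
    0 ≤ ∑ S ∈ D.powerset, fC s S ∧ ∑ S ∈ D.powerset, fC s S ≤ 2 ^ D.card ∧
      (D.card < s → ∑ S ∈ D.powerset, fC s S = 0) := by
  rw [model_fC D s]
  refine ⟨Nat.cast_nonneg _, choose_le_two_pow _ _, ?_⟩
  intro h
  rw [Nat.choose_eq_zero_of_lt h]
  norm_num

lemma sum_prb_le (T : Finset ℕ) (b : ℕ) (hT : ∀ p ∈ T, 2 ≤ p) (F : Finset ℕ → ℝ)
    (hF : ∀ D ∈ T.powerset, F D ≤ 8 ^ D.card / 2 ^ (b + 1)) :
    ∑ D ∈ T.powerset, prb T D * F D ≤ Real.exp (7 * lam T) / 2 ^ (b + 1) := by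
  calc ∑ D ∈ T.powerset, prb T D * F D
      ≤ ∑ D ∈ T.powerset, prb T D * (8 ^ D.card / 2 ^ (b + 1)) :=
        Finset.sum_le_sum fun D hD => mul_le_mul_of_nonneg_left (hF D hD) (prb_nonneg T D)
    _ = (∑ D ∈ T.powerset, prb T D * 8 ^ D.card) / 2 ^ (b + 1) := by
        rw [Finset.sum_div]
        exact Finset.sum_congr rfl fun D _ => by ring
    _ ≤ _ := div_le_div_of_nonneg_right (prb_eight T hT) (by positivity)

lemma sum_prb_le' (T : Finset ℕ) (b : ℕ) (hT : ∀ p ∈ T, 2 ≤ p) (F : Finset ℕ → ℝ)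
    (hF : ∀ D ∈ T.powerset, F D ≤ (if D = ∅ then 1 else 0) + 8 ^ D.card / 2 ^ (b + 1)) :
    ∑ D ∈ T.powerset, prb T D * F D ≤ vv T + Real.exp (7 * lam T) / 2 ^ (b + 1) := by
  classical
  have h1 := sum_prb_le T b hT (fun D => F D - (if D = ∅ then 1 else 0)) (by
    intro D hD
    have := hF D hD
    show F D - (if D = ∅ then 1 else 0) ≤ _
    linarith)
  have h2 : ∑ D ∈ T.powerset, prb T D * (F D - (if D = ∅ then 1 else 0)) =
      ∑ D ∈ T.powerset, prb T D * F D - vv T := by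
    simp_rw [mul_sub]
    rw [Finset.sum_sub_distrib]
    congr 1
    rw [Finset.sum_eq_single_of_mem (∅ : Finset ℕ) (by simp)]
    · simp [prb_empty]
    · intro D _ hD
      rw [if_neg hD, mul_zero]
  rw [h2] at h1
  linarith

lemma eight_nonneg (m b : ℕ) : (0 : ℝ) ≤ 8 ^ m / 2 ^ (b + 1) := by positivity

lemma bern (l x : ℝ) (hl : 0 ≤ l) (hx : 0 ≤ x) (s : ℕ) :
    l ^ (s + 1) + (s + 1) * x * l ^ s ≤ (l + x) ^ (s + 1) := by
  induction s with
  | zero => simp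
  | succ s ih =>
    have h1 : (l + x) ^ (s + 1 + 1) = (l + x) ^ (s + 1) * (l + x) := pow_succ _ _
    rw [h1]
    have h2 : (l ^ (s + 1) + (s + 1) * x * l ^ s) * (l + x) ≤ (l + x) ^ (s + 1) * (l + x) :=
      mul_le_mul_of_nonneg_right ih (by positivity)
    refine le_trans ?_ h2
    have h3 : (l ^ (s + 1) + (s + 1) * x * l ^ s) * (l + x) =
        l ^ (s + 1 + 1) + ((s : ℝ) + 1 + 1) * x * l ^ (s + 1) + (s + 1) * x ^ 2 * l ^ s := by
      ring
    rw [h3]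
    push_cast
    have : 0 ≤ ((s : ℝ) + 1) * x ^ 2 * l ^ s := by positivity
    linarith

lemma mv_fC_insert (T : Finset ℕ) (p : ℕ) (hp : p ∉ T) (s : ℕ) :
    mv (insert p T) (fC (s + 1)) = mv T (fC (s + 1)) + 1 / (p : ℝ) * mv T (fC s) := by
  classical
  unfold mv
  rw [Finset.sum_powerset_insert hp, Finset.mul_sum]
  congr 1
  apply Finset.sum_congr rfl
  intro S hS
  have hpS : p ∉ S := fun h => hp (mem_powerset.1 hS h)
  rw [Finset.prod_insert hpS]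
  unfold fC
  rw [Finset.card_insert_of_notMem hpS]
  by_cases h : S.card = s
  · rw [if_pos h, if_pos (by omega)]; ring
  · rw [if_neg h, if_neg (by omega)]; ring

lemma mv_fC_zero (T : Finset ℕ) : mv T (fC 0) = 1 := by
  classical
  unfold mv
  rw [Finset.sum_eq_single_of_mem (∅ : Finset ℕ) (by simp)]
  · simp [fC]
  · intro S _ hS
    unfold fC
    have : S.card ≠ 0 := by rwa [Ne, Finset.card_eq_zero]
    rw [if_neg this, zero_mul]

lemma lam_nonneg (T : Finset ℕ) : 0 ≤ lam T := by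
  unfold lam
  exact Finset.sum_nonneg fun p _ => by positivity

lemma sum_f0 (T : Finset ℕ) (ω : ℕ → ℝ) (F : Finset ℕ → ℝ) :
    ∑ S ∈ T.powerset, f0 ω S * F S = ∑ p ∈ T, ω p * F {p} := by
  classical
  have hsub : T.map ⟨fun p => ({p} : Finset ℕ), Finset.singleton_injective⟩ ⊆ T.powerset := by
    intro S hS
    obtain ⟨p, hp, rfl⟩ := Finset.mem_map.1 hS
    rw [mem_powerset]
    exact Finset.singleton_subset_iff.2 hp
  rw [← Finset.sum_subset hsub, Finset.sum_map]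
  · apply Finset.sum_congr rfl
    intro p _
    show f0 ω {p} * F {p} = ω p * F {p}
    unfold f0
    simp
  · intro S hS hS'
    unfold f0
    rw [if_neg, zero_mul]
    intro hc
    obtain ⟨p, rfl⟩ := Finset.card_eq_one.1 hc
    apply hS'
    rw [Finset.mem_map]
    exact ⟨p, mem_powerset.1 hS (mem_singleton_self p), rfl⟩

lemma fU_zero_eq (S : Finset ℕ) : fU 0 S = if S = ∅ then 1 else 0 := by
  unfold fU
  by_cases hS : S = ∅
  · subst hS; simp
  · have : ¬ (S.card ≤ 0) := by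
      rw [Nat.le_zero, Finset.card_eq_zero]; exact hS
    rw [if_neg this, if_neg hS]

lemma sum_fU0 (T : Finset ℕ) (F : Finset ℕ → ℝ) :
    ∑ S ∈ T.powerset, fU 0 S * F S = F ∅ := by
  classical
  rw [Finset.sum_eq_single_of_mem (∅ : Finset ℕ) (by simp)]
  · rw [fU_zero_eq, if_pos rfl, one_mul]
  · intro S _ hS
    rw [fU_zero_eq, if_neg hS, zero_mul]

lemma pv_self (T : Finset ℕ) (f g : Finset ℕ → ℝ) :
    pv T T f g = ∑ S ∈ T.powerset, f S * ∑ S' ∈ T.powerset, g S' * ∏ p ∈ S ∪ S', (1 / (p : ℝ)) := by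
  unfold pv
  apply Finset.sum_congr rfl
  intro S hS
  rw [Finset.mul_sum]
  apply Finset.sum_congr rfl
  intro S' _
  have : S ∩ S' ⊆ T := (inter_subset_left).trans (mem_powerset.1 hS)
  rw [if_pos this]
  ring

lemma sum_om_le (T : Finset ℕ) (ω : ℕ → ℝ) (hω : ∀ p, 0 ≤ ω p ∧ ω p ≤ 1) :
    ∑ p ∈ T, ω p * (1 / (p : ℝ)) ≤ lam T := by
  unfold lam
  apply Finset.sum_le_sum
  intro p _
  have h1 : (0 : ℝ) ≤ 1 / p := by positivity
  nlinarith [(hω p).2]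

end ModelBAux

open ModelBAux

theorem mv_fU_le (T : Finset ℕ) (b : ℕ) (hb : Even b) (hT : ∀ p ∈ T, 2 ≤ p) :
    mv T (fU b) ≤ vv T + Real.exp (7 * lam T) / 2 ^ (b + 1) := by
  rw [mv_model]
  apply sum_prb_le' T b hT
  intro D _
  obtain ⟨h0, h2, hz, h1⟩ := model_fU_le D b hb
  by_cases hD : D = ∅
  · rw [if_pos hD, h1 hD]
    linarith [eight_nonneg D.card b]
  · rw [if_neg hD, zero_add]
    have := two_bound D.card b (∑ S ∈ D.powerset, fU b S) 1 h0 (by norm_num) h2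
      (one_le_pow₀ (by norm_num)) (fun h => Or.inl (hz h hD))
    simpa using this

theorem mv_fC_le (T : Finset ℕ) (s : ℕ) : mv T (fC s) ≤ (lam T) ^ s / s.factorial := by
  classical
  induction T using Finset.induction_on generalizing s with
  | empty =>
    cases s with
    | zero => rw [mv_fC_zero]; simp
    | succ s =>
      have : mv ∅ (fC (s + 1)) = 0 := by
        unfold mv fC
        simp
      rw [this]
      have := lam_nonneg ∅
      positivity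
  | insert p T hp ih =>
    cases s with
    | zero => rw [mv_fC_zero]; simp
    | succ s =>
      rw [mv_fC_insert T p hp s]
      have h1 := ih (s + 1)
      have h2 := ih s
      have hl : lam (insert p T) = lam T + 1 / (p : ℝ) := by
        unfold lam
        rw [Finset.sum_insert hp, add_comm]
      rw [hl]
      have hx : (0 : ℝ) ≤ 1 / p := by positivity
      have hb := bern (lam T) (1 / (p : ℝ)) (lam_nonneg T) hx s
      have hf : (0 : ℝ) < ((s + 1).factorial : ℝ) := by exact_mod_cast Nat.factorial_pos _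
      have hf' : (0 : ℝ) < (s.factorial : ℝ) := by exact_mod_cast Nat.factorial_pos _
      calc mv T (fC (s + 1)) + 1 / (p : ℝ) * mv T (fC s)
          ≤ (lam T) ^ (s + 1) / (s + 1).factorial + 1 / (p : ℝ) * ((lam T) ^ s / s.factorial) := by
            gcongr
        _ = ((lam T) ^ (s + 1) + (s + 1) * (1 / (p : ℝ)) * (lam T) ^ s) / (s + 1).factorial := by
            rw [Nat.factorial_succ]
            push_cast
            field_simp
        _ ≤ _ := div_le_div_of_nonneg_right hb hf.le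

theorem pv_fU_fU_le (T : Finset ℕ) (b : ℕ) (hb : Even b) (hT : ∀ p ∈ T, 2 ≤ p) :
    pv T T (fU b) (fU b) ≤ vv T + Real.exp (7 * lam T) / 2 ^ (b + 1) := by
  rw [pv_model]
  apply sum_prb_le' T b hT
  intro D _
  obtain ⟨h0, h2, hz, h1⟩ := model_fU_le D b hb
  by_cases hD : D = ∅
  · rw [if_pos hD, h1 hD]
    linarith [eight_nonneg D.card b]
  · rw [if_neg hD, zero_add]
    exact two_bound D.card b _ _ h0 h0 h2 h2 (fun h => Or.inl (hz h hD))

theorem pv_fU_fC_le (T : Finset ℕ) (b : ℕ) (hb : Even b) (hT : ∀ p ∈ T, 2 ≤ p) :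
    pv T T (fU b) (fC (b + 1)) ≤ Real.exp (7 * lam T) / 2 ^ (b + 1) := by
  rw [pv_model]
  apply sum_prb_le T b hT
  intro D _
  obtain ⟨h0, h2, hz, h1⟩ := model_fU_le D b hb
  obtain ⟨g0, g2, gz⟩ := model_fC_le D (b + 1)
  exact two_bound D.card b _ _ h0 g0 h2 g2 (fun h => Or.inr (gz h))

theorem pv_fC_fU_le (T : Finset ℕ) (b : ℕ) (hb : Even b) (hT : ∀ p ∈ T, 2 ≤ p) :
    pv T T (fC (b + 1)) (fU b) ≤ Real.exp (7 * lam T) / 2 ^ (b + 1) := by
  rw [pv_model]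
  apply sum_prb_le T b hT
  intro D _
  obtain ⟨h0, h2, hz, h1⟩ := model_fU_le D b hb
  obtain ⟨g0, g2, gz⟩ := model_fC_le D (b + 1)
  exact two_bound D.card b _ _ g0 h0 g2 h2 (fun h => Or.inl (gz h))

theorem pv_fC_fC_le (T : Finset ℕ) (b : ℕ) (hT : ∀ p ∈ T, 2 ≤ p) :
    pv T T (fC (b + 1)) (fC (b + 1)) ≤ Real.exp (7 * lam T) / 2 ^ (b + 1) := by
  rw [pv_model]
  apply sum_prb_le T b hT
  intro D _
  obtain ⟨g0, g2, gz⟩ := model_fC_le D (b + 1)
  exact two_bound D.card b _ _ g0 g0 g2 g2 (fun h => Or.inl (gz h))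

theorem pv_top_left (T : Finset ℕ) (ω : ℕ → ℝ) (hω : ∀ p, 0 ≤ ω p ∧ ω p ≤ 1) :
    pv T T (fU 0) (f0 ω) ≤ lam T + lam T ^ 2 := by
  rw [pv_self, sum_fU0, sum_f0]
  have h1 : ∑ p ∈ T, ω p * ∏ q ∈ (∅ : Finset ℕ) ∪ {p}, (1 / (q : ℝ)) =
      ∑ p ∈ T, ω p * (1 / (p : ℝ)) := by
    apply Finset.sum_congr rfl
    intro p _
    rw [Finset.empty_union, Finset.prod_singleton]
  rw [h1]
  nlinarith [sum_om_le T ω hω, sq_nonneg (lam T)]

theorem pv_top_right (T : Finset ℕ) (ω : ℕ → ℝ) (hω : ∀ p, 0 ≤ ω p ∧ ω p ≤ 1) :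
    pv T T (f0 ω) (fU 0) ≤ lam T + lam T ^ 2 := by
  rw [pv_self]
  have h0 : ∀ S ∈ T.powerset, f0 ω S * ∑ S' ∈ T.powerset, fU 0 S' *
      ∏ p ∈ S ∪ S', (1 / (p : ℝ)) = f0 ω S * ∏ p ∈ S, (1 / (p : ℝ)) := by
    intro S _
    rw [sum_fU0, Finset.union_empty]
  rw [Finset.sum_congr rfl h0, sum_f0]
  have h1 : ∑ p ∈ T, ω p * ∏ q ∈ ({p} : Finset ℕ), (1 / (q : ℝ)) =
      ∑ p ∈ T, ω p * (1 / (p : ℝ)) := by
    apply Finset.sum_congr rfl
    intro p _
    rw [Finset.prod_singleton]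
  rw [h1]
  nlinarith [sum_om_le T ω hω, sq_nonneg (lam T)]

theorem pv_top_both (T : Finset ℕ) (ω : ℕ → ℝ) (hω : ∀ p, 0 ≤ ω p ∧ ω p ≤ 1) :
    pv T T (f0 ω) (f0 ω) ≤ lam T + lam T ^ 2 := by
  classical
  rw [pv_self, sum_f0]
  have h0 : ∀ p ∈ T, ω p * ∑ S' ∈ T.powerset, f0 ω S' * ∏ q ∈ ({p} : Finset ℕ) ∪ S', (1 / (q : ℝ)) ≤
      ∑ r ∈ T, (1 / (p : ℝ) * (1 / (r : ℝ)) + (if p = r then 1 / (p : ℝ) else 0)) := by
    intro p _
    rw [sum_f0, Finset.mul_sum]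
    apply Finset.sum_le_sum
    intro r _
    have hp0 : (0 : ℝ) ≤ 1 / p := by positivity
    have hr0 : (0 : ℝ) ≤ 1 / r := by positivity
    have hωω : ω p * ω r ≤ 1 := by
      nlinarith [(hω p).1, (hω p).2, (hω r).1, (hω r).2]
    by_cases hpr : p = r
    · subst hpr
      rw [if_pos rfl, Finset.union_idempotent, Finset.prod_singleton]
      nlinarith [mul_nonneg hp0 hp0, mul_le_mul_of_nonneg_right hωω hp0]
    · rw [if_neg hpr, add_zero]
      have hd : Disjoint ({p} : Finset ℕ) {r} := by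
        rw [Finset.disjoint_singleton]; exact hpr
      rw [Finset.prod_union hd, Finset.prod_singleton, Finset.prod_singleton]
      calc ω p * (ω r * (1 / (p : ℝ) * (1 / (r : ℝ)))) =
          (ω p * ω r) * (1 / (p : ℝ) * (1 / (r : ℝ))) := by ring
        _ ≤ 1 * (1 / (p : ℝ) * (1 / (r : ℝ))) :=
            mul_le_mul_of_nonneg_right hωω (mul_nonneg hp0 hr0)
        _ = _ := one_mul _
  refine (Finset.sum_le_sum h0).trans (le_of_eq ?_)
  simp_rw [Finset.sum_add_distrib]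
  have h1 : ∑ p ∈ T, ∑ r ∈ T, 1 / (p : ℝ) * (1 / (r : ℝ)) = lam T ^ 2 := by
    unfold lam
    rw [sq, Finset.sum_mul_sum]
  have h2 : ∑ p ∈ T, ∑ r ∈ T, (if p = r then 1 / (p : ℝ) else 0) = lam T := by
    unfold lam
    apply Finset.sum_congr rfl
    intro p hp
    rw [Finset.sum_ite_eq, if_pos hp]
  rw [h1, h2]
  ring

end Pool.Agent.H75.AP
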