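import Pool.Agent.H75.AP.Blocks
import Pool.Agent.H75.AP.ModelB

/-!
# Module NUMB (helpwanted): `τ ≤ 99/100` and comparison of the products

Uses MODEL: `uu X y 0 = mv _ (fU 0) = 1` (`mv_fU_zero`); for `j ≥ 1`: `bb j = 2 j + 2` is even, `uu X y j ≥ vv (TT X y j) ≥ exp (-1.1)` (`mv_fU_ge`),
`gg X y j = mv _ (fC (2j+3)) ≤ lam^(2j+3) / (2j+3)!` (`mv_fC_le`; `fc X j = fC (bb j + 1)` for `j ≥ 1`), `≥ 0`.
`tau_le`: `∑_{j<J} gg/uu ≤ 0.9465 + exp 1.1 * ∑_{j ≥ 1} 1.0992^(2j+3)/(2j+3)!`; `exp 1.1 ≤ 3.0042`;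
`1.0992^5/120 ≤ 0.013373`, `1.0992^7/5040 ≤ 0.000385`, and the ratio of consecutive terms is `≤ 1.0992^2/42 ≤ 0.03`, so the sum is `≤ 0.013373 + 0.000385 * 1.04 ≤ 0.01378`
(simple: term `j` is `≤ 0.013373 * 0.03^(j-1)`, geometric sum `≤ 0.013373 / 0.97 ≤ 0.013787`); `3.0042 * 0.013787 ≤ 0.04142`; total `≤ 0.98792`.
`uprod_le`: `uu X y j ≤ vv + exp (7 * 1.0992) / 2^(2j+3)` (`mv_fU_le`) `≤ vv * (1 + exp (7.6944) exp (1.1) / 2^(2j+3)) ≤ vv * exp (exp 9 / 2^(2j+3))`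
and `∑_{j ≥ 1} exp 9 / 2^(2j+3) ≤ exp 9 / 24 ≤ exp 9`. So `∏ uu ≤ ∏ (v_j) * exp (exp 9)` with `v_0 = 1`.
-/

namespace Pool.Agent.H75.AP

open Finset

theorem uu_zero (X y : ℕ) : uu X y 0 = 1 := by
  unfold uu fu
  have h : bb 0 = 0 := by unfold bb; simp
  rw [h]
  exact mv_fU_zero _

theorem nb_bb (j : ℕ) (hj : 1 ≤ j) : bb j = 2 * j + 2 := by
  unfold bb
  rw [if_neg (by omega)]

theorem nb_bb_even (j : ℕ) : Even (bb j) := by
  unfold bb
  split_ifs
  · exact Even.zero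
  · exact ⟨j + 1, by ring⟩

theorem uu_ge (X y j : ℕ) (hj : 1 ≤ j) : vv (TT X y j) ≤ uu X y j := by
  unfold uu fu
  exact mv_fU_ge _ _ (nb_bb_even j) (fun p hp => TT_two_le hp)

theorem gg_nonneg (X y j : ℕ) : 0 ≤ gg X y j := by
  unfold gg fc
  split_ifs with h
  · rw [mv_f0]
    refine Finset.sum_nonneg (fun p _ => ?_)
    apply div_nonneg (le_max_left _ _) (Nat.cast_nonneg _)
  · exact mv_fC_nonneg _ _

theorem nb_lam_nonneg (T : Finset ℕ) : 0 ≤ lam T := by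
  unfold lam
  exact Finset.sum_nonneg (fun p _ => by positivity)

theorem nb_gg_le (X y j : ℕ) (h : lam (TT X y (j + 1)) ≤ 10992 / 10000) :
    gg X y (j + 1) ≤ (10992 / 10000) ^ (2 * j + 5) / (2 * j + 5).factorial := by
  have h1 : gg X y (j + 1) = mv (TT X y (j + 1)) (fC (2 * j + 5)) := by
    unfold gg fc
    rw [if_neg (Nat.succ_ne_zero j), nb_bb (j + 1) (by omega)]
    congr 2
  rw [h1]
  refine (mv_fC_le _ _).trans ?_
  have h0 := nb_lam_nonneg (TT X y (j + 1))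
  gcongr

theorem nb_t (j : ℕ) : ((10992 : ℝ) / 10000) ^ (2 * j + 5) / (2 * j + 5).factorial ≤
    13373 / 1000000 * (3 / 100) ^ j := by
  induction j with
  | zero => norm_num [Nat.factorial]
  | succ j ih =>
    have e1 : 2 * (j + 1) + 5 = (2 * j + 5) + 1 + 1 := by ring
    rw [e1, Nat.factorial_succ, Nat.factorial_succ]
    rw [Nat.cast_mul, Nat.cast_mul]
    have c1 : ((2 * j + 5 + 1 + 1 : ℕ) : ℝ) = 2 * (j : ℝ) + 7 := by push_cast; ring
    have c2 : ((2 * j + 5 + 1 : ℕ) : ℝ) = 2 * (j : ℝ) + 6 := by push_cast; ring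
    rw [c1, c2]
    have hf : (0 : ℝ) < ((2 * j + 5).factorial : ℝ) := by exact_mod_cast Nat.factorial_pos _
    have e2 : ((10992 : ℝ) / 10000) ^ (2 * j + 5 + 1 + 1) /
        ((2 * (j : ℝ) + 7) * ((2 * (j : ℝ) + 6) * ((2 * j + 5).factorial : ℝ))) =
        (((10992 : ℝ) / 10000) ^ (2 * j + 5) / ((2 * j + 5).factorial : ℝ)) *
        ((10992 / 10000) ^ 2 / ((2 * (j : ℝ) + 7) * (2 * (j : ℝ) + 6))) := by
      rw [pow_succ, pow_succ, div_mul_div_comm]
      congr 1 <;> ring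
    rw [e2, pow_succ (3 / 100 : ℝ) j, ← mul_assoc]
    have hj : (0 : ℝ) ≤ j := Nat.cast_nonneg j
    have h3 : ((10992 : ℝ) / 10000) ^ 2 / ((2 * (j : ℝ) + 7) * (2 * (j : ℝ) + 6)) ≤ 3 / 100 := by
      rw [div_le_iff₀ (by positivity)]
      nlinarith
    apply mul_le_mul ih h3 (by positivity) (by positivity)

theorem nb_geom (n : ℕ) : ∑ j ∈ range n, (3 / 100 : ℝ) ^ j ≤ 100 / 97 := by
  rw [geom_sum_eq (by norm_num)]
  rw [div_le_iff_of_neg (by norm_num)]
  have : (0 : ℝ) ≤ (3 / 100) ^ n := by positivity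
  linarith

theorem nb_exp : Real.exp (11 / 10) ≤ 3021 / 1000 := by
  have h1 : Real.exp (11 / 10) = Real.exp 1 * Real.exp (1 / 10) := by
    rw [← Real.exp_add]; norm_num
  have h2 : Real.exp 1 < 2.7182818286 := Real.exp_one_lt_d9
  have h3 : Real.exp (1 / 10) ≤ 10 / 9 := by
    have h4 := Real.one_sub_le_exp_neg (1 / 10)
    rw [Real.exp_neg] at h4
    have h5 : 0 < Real.exp (1 / 10) := Real.exp_pos _
    have h6 : (9 / 10 : ℝ) ≤ (Real.exp (1 / 10))⁻¹ := by linarith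
    rw [le_inv_comm₀ (by norm_num) h5] at h6
    linarith
  rw [h1]
  have h5 : 0 < Real.exp (1 / 10) := Real.exp_pos _
  nlinarith

theorem tau_le (X y : ℕ) (h0 : gg X y 0 ≤ 9465 / 10000)
    (h1 : ∀ j, 1 ≤ j → lam (TT X y j) ≤ 10992 / 10000 ∧ Real.exp (-(11 / 10)) ≤ vv (TT X y j)) :
    ∑ j ∈ range (JJ X), gg X y j / uu X y j ≤ 99 / 100 := by
  have hJ : JJ X = (⌈2 * Real.log (Real.log X)⌉₊ + 1) + 1 := rfl
  rw [hJ, Finset.sum_range_succ', uu_zero, div_one]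
  set n := ⌈2 * Real.log (Real.log X)⌉₊ + 1
  have hterm : ∀ j ∈ range n, gg X y (j + 1) / uu X y (j + 1) ≤
      (13373 / 1000000 * (3021 / 1000)) * (3 / 100) ^ j := by
    intro j _
    obtain ⟨h2, h3⟩ := h1 (j + 1) (by omega)
    have h4 := uu_ge X y (j + 1) (by omega)
    have h5 : Real.exp (-(11 / 10)) ≤ uu X y (j + 1) := h3.trans h4
    have h6 : 0 < Real.exp (-(11 / 10)) := Real.exp_pos _
    have h7 := gg_nonneg X y (j + 1)
    have h8 := (nb_gg_le X y j h2).trans (nb_t j)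
    calc gg X y (j + 1) / uu X y (j + 1)
        ≤ (13373 / 1000000 * (3 / 100) ^ j) / Real.exp (-(11 / 10)) := by
          apply div_le_div₀ (by positivity) h8 h6 h5
      _ = (13373 / 1000000 * (3 / 100) ^ j) * Real.exp (11 / 10) := by
          rw [Real.exp_neg, div_inv_eq_mul]
      _ ≤ (13373 / 1000000 * (3 / 100) ^ j) * (3021 / 1000) :=
          mul_le_mul_of_nonneg_left nb_exp (by positivity)
      _ = _ := by ring
  have hs := Finset.sum_le_sum hterm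
  rw [← Finset.mul_sum] at hs
  have hg := nb_geom n
  have h9 : (13373 / 1000000 * (3021 / 1000) : ℝ) * ∑ j ∈ range n, (3 / 100 : ℝ) ^ j ≤
      (13373 / 1000000 * (3021 / 1000)) * (100 / 97) :=
    mul_le_mul_of_nonneg_left hg (by norm_num)
  have h10 : (13373 / 1000000 * (3021 / 1000) * (100 / 97) : ℝ) + 9465 / 10000 ≤ 99 / 100 := by
    norm_num
  linarith

/-- exponents of the comparison -/
noncomputable def nbE (j : ℕ) : ℝ := if j = 0 then 0 else Real.exp 9 / 2 ^ (2 * j + 3)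

theorem nb_E_sum (n : ℕ) : ∑ j ∈ range n, nbE j ≤ Real.exp 9 := by
  have h1 : ∀ j ∈ range n, nbE j ≤ Real.exp 9 * (1 / 4 : ℝ) ^ (j + 1) := by
    intro j _
    unfold nbE
    split_ifs with h
    · positivity
    · rw [div_eq_mul_one_div]
      apply mul_le_mul_of_nonneg_left _ (Real.exp_pos 9).le
      have e1 : (1 / 4 : ℝ) ^ (j + 1) = 1 / 2 ^ (2 * j + 2) := by
        rw [one_div_pow]
        congr 1
        rw [show (4 : ℝ) = 2 ^ 2 by norm_num, ← pow_mul]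
        congr 1
      rw [e1]
      apply one_div_le_one_div_of_le (by positivity)
      exact pow_le_pow_right₀ (by norm_num) (by omega)
  refine (Finset.sum_le_sum h1).trans ?_
  rw [← Finset.mul_sum]
  have h2 : ∑ j ∈ range n, (1 / 4 : ℝ) ^ (j + 1) ≤ 1 := by
    simp_rw [pow_succ]
    rw [← Finset.sum_mul, geom_sum_eq (by norm_num)]
    have : (0 : ℝ) ≤ (1 / 4) ^ n := by positivity
    have e : ((1 / 4 : ℝ) ^ n - 1) / (1 / 4 - 1) * (1 / 4) = (1 - (1 / 4) ^ n) / 3 := by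
      field_simp; ring
    rw [e]
    linarith
  calc Real.exp 9 * ∑ j ∈ range n, (1 / 4 : ℝ) ^ (j + 1) ≤ Real.exp 9 * 1 :=
        mul_le_mul_of_nonneg_left h2 (Real.exp_pos 9).le
    _ = Real.exp 9 := mul_one _

theorem nb_uu_le (X y : ℕ)
    (h1 : ∀ j, 1 ≤ j → lam (TT X y j) ≤ 10992 / 10000 ∧ Real.exp (-(11 / 10)) ≤ vv (TT X y j))
    (j : ℕ) : uu X y j ≤ (if j = 0 then 1 else vv (TT X y j)) * Real.exp (nbE j) := by
  by_cases hj : j = 0
  · subst hj
    rw [uu_zero, if_pos rfl]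
    unfold nbE
    rw [if_pos rfl, Real.exp_zero, one_mul]
  · rw [if_neg hj]
    obtain ⟨h2, h3⟩ := h1 j (by omega)
    have h4 : uu X y j ≤ vv (TT X y j) + Real.exp (7 * lam (TT X y j)) / 2 ^ (bb j + 1) := by
      unfold uu fu
      exact mv_fU_le _ _ (nb_bb_even j) (fun p hp => TT_two_le hp)
    rw [nb_bb j (by omega)] at h4
    have h5 : Real.exp (7 * lam (TT X y j)) ≤ Real.exp 9 * vv (TT X y j) := by
      have h6 : Real.exp 9 * Real.exp (-(11 / 10)) ≤ Real.exp 9 * vv (TT X y j) :=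
        mul_le_mul_of_nonneg_left h3 (Real.exp_pos 9).le
      refine le_trans ?_ h6
      rw [← Real.exp_add]
      apply Real.exp_le_exp.2
      linarith
    have hvpos : 0 < vv (TT X y j) := lt_of_lt_of_le (Real.exp_pos _) h3
    have h7 : Real.exp (7 * lam (TT X y j)) / 2 ^ (2 * j + 2 + 1) ≤
        vv (TT X y j) * (Real.exp 9 / 2 ^ (2 * j + 3)) := by
      calc Real.exp (7 * lam (TT X y j)) / 2 ^ (2 * j + 2 + 1)
          ≤ (Real.exp 9 * vv (TT X y j)) / 2 ^ (2 * j + 2 + 1) := by gcongr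
        _ = vv (TT X y j) * (Real.exp 9 / 2 ^ (2 * j + 3)) := by ring
    have h8 : nbE j = Real.exp 9 / 2 ^ (2 * j + 3) := by
      unfold nbE; rw [if_neg hj]
    rw [h8]
    have h9 := Real.add_one_le_exp (Real.exp 9 / 2 ^ (2 * j + 3))
    nlinarith

theorem uprod_le (X y : ℕ)
    (h1 : ∀ j, 1 ≤ j → lam (TT X y j) ≤ 10992 / 10000 ∧ Real.exp (-(11 / 10)) ≤ vv (TT X y j)) :
    ∏ j ∈ range (JJ X), uu X y j ≤
      (∏ j ∈ range (JJ X), (if j = 0 then 1 else vv (TT X y j))) * Real.exp (Real.exp 9) := by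
  have hv0 : ∀ j, 0 ≤ (if j = 0 then 1 else vv (TT X y j)) := by
    intro j
    split_ifs with h
    · exact zero_le_one
    · exact (Real.exp_pos _).le.trans (h1 j (by omega)).2
  have hu0 : ∀ j ∈ range (JJ X), 0 ≤ uu X y j := by
    intro j _
    by_cases hj : j = 0
    · rw [hj, uu_zero]; exact zero_le_one
    · exact ((Real.exp_pos _).le.trans (h1 j (by omega)).2).trans (uu_ge X y j (by omega))
  refine (Finset.prod_le_prod hu0 (fun j _ => nb_uu_le X y h1 j)).trans ?_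
  rw [Finset.prod_mul_distrib, ← Real.exp_sum]
  apply mul_le_mul_of_nonneg_left _ (Finset.prod_nonneg (fun j _ => hv0 j))
  exact Real.exp_le_exp.2 (nb_E_sum _)

theorem vprod_le (X y : ℕ)
    (h1 : ∀ j, 1 ≤ j → lam (TT X y j) ≤ 10992 / 10000 ∧ Real.exp (-(11 / 10)) ≤ vv (TT X y j)) :
    ∏ j ∈ range (JJ X), (if j = 0 then 1 else vv (TT X y j)) ≤ ∏ j ∈ range (JJ X), uu X y j := by
  refine Finset.prod_le_prod ?_ ?_
  · intro j _
    split_ifs with h
    · exact zero_le_one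
    · exact (Real.exp_pos _).le.trans (h1 j (by omega)).2
  · intro j _
    split_ifs with h
    · rw [h, uu_zero]
    · exact uu_ge X y j (by omega)

end Pool.Agent.H75.AP
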