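import Pool.Agent.H75.AP.Blocks
import Pool.Agent.H75.AP.NumB

/-!
# Module BETA (helpwanted): sum of the block errors

`be X y a a' j = exp (2 lam) ((exp A_j - 1) + (exp q_j - 1))`, `A_j = ∑_{p ∈ TT ∩ HH} 1/p ≤ lam`, `q_j = ∑_{p ∈ TT} 1/p^2 ≤ lam`.
`exp x - 1 ≤ x exp x`. For `j = 0`: `uu X y 0 = 1` (`uu_zero`), `lam ≤ 2.84`: `be ≤ exp (5.68) exp (2.84) (A_0 + q_0) = exp (8.52) (..) ≤ 10000 (A_0 + q_0)`.
For `j ≥ 1`: `uu ≥ exp (-1.1)`, `be / uu^2 ≤ exp (2.2) exp (2.1984) exp (1.0992) (A_j + q_j) ≤ 10000 (A_j + q_j)`.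
`∑_j A_j ≤ hh y a a'`: the sets `TT ∩ HH` are disjoint (`TT_disjoint`) subsets of the primes `p > y` dividing `a - a' ≠ 0`.
`∑_j q_j ≤ ∑_{n > y} 1/n^2 ≤ 1/y`: the `TT X y j` are disjoint sets of naturals `> y`; `1/n^2 ≤ 1/(n-1) - 1/n`.
(`10000 ≥ exp 8.52`: `exp 8.52 ≤ 2.7183^8.52`; e.g. `exp 9 < 8104`.)
-/

namespace Pool.Agent.H75.AP

open Finset

private theorem exp_sub_one_le (x : ℝ) : Real.exp x - 1 ≤ x * Real.exp x := by
  have h := Real.add_one_le_exp (-x)
  rw [Real.exp_neg] at h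
  have h2 := Real.exp_pos x
  have h3 : (-x + 1) * Real.exp x ≤ (Real.exp x)⁻¹ * Real.exp x :=
    mul_le_mul_of_nonneg_right h h2.le
  rw [inv_mul_cancel₀ h2.ne'] at h3
  linarith

private theorem exp_nine_le : Real.exp 9 ≤ 10000 := by
  have h1 : Real.exp 9 = Real.exp 1 ^ 9 := by rw [← Real.exp_nat_mul]; norm_num
  have h2 : Real.exp 1 < 2.7182818286 := Real.exp_one_lt_d9
  rw [h1]
  calc Real.exp 1 ^ 9 ≤ (2.7182818286 : ℝ) ^ 9 :=
        pow_le_pow_left₀ (Real.exp_pos _).le h2.le 9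
    _ ≤ 10000 := by norm_num

private noncomputable def aj (X y a a' j : ℕ) : ℝ :=
  ∑ p ∈ TT X y j ∩ HH (TT X y j) a a', 1 / (p : ℝ)

private noncomputable def qj (X y j : ℕ) : ℝ := ∑ p ∈ TT X y j, 1 / (p : ℝ) ^ 2

private theorem aj_nonneg (X y a a' j : ℕ) : 0 ≤ aj X y a a' j :=
  sum_nonneg fun p _ => by positivity

private theorem qj_nonneg (X y j : ℕ) : 0 ≤ qj X y j := sum_nonneg fun p _ => by positivity

private theorem aj_le (X y a a' j : ℕ) : aj X y a a' j ≤ lam (TT X y j) :=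
  sum_le_sum_of_subset_of_nonneg inter_subset_left fun p _ _ => by positivity

private theorem qj_le (X y j : ℕ) : qj X y j ≤ lam (TT X y j) := by
  apply sum_le_sum
  intro p hp
  have h2 : (2 : ℝ) ≤ p := by exact_mod_cast TT_two_le hp
  apply one_div_le_one_div_of_le (by linarith)
  nlinarith

private theorem be_le (X y a a' j : ℕ) : be X y a a' j ≤
    Real.exp (3 * lam (TT X y j)) * (aj X y a a' j + qj X y j) := by
  have h1 := exp_sub_one_le (aj X y a a' j)
  have h2 := exp_sub_one_le (qj X y j)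
  have h3 : Real.exp (aj X y a a' j) ≤ Real.exp (lam (TT X y j)) :=
    Real.exp_le_exp.2 (aj_le X y a a' j)
  have h4 : Real.exp (qj X y j) ≤ Real.exp (lam (TT X y j)) :=
    Real.exp_le_exp.2 (qj_le X y j)
  have h5 := mul_le_mul_of_nonneg_left h3 (aj_nonneg X y a a' j)
  have h6 := mul_le_mul_of_nonneg_left h4 (qj_nonneg X y j)
  have h7 : Real.exp (3 * lam (TT X y j)) =
      Real.exp (2 * lam (TT X y j)) * Real.exp (lam (TT X y j)) := by
    rw [← Real.exp_add]; congr 1; ring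
  have h8 : be X y a a' j = Real.exp (2 * lam (TT X y j)) *
    ((Real.exp (aj X y a a' j) - 1) + (Real.exp (qj X y j) - 1)) := rfl
  rw [h8, h7, mul_assoc]
  apply mul_le_mul_of_nonneg_left _ (Real.exp_pos _).le
  linarith

private theorem term_le (c C : ℝ) (X y : ℕ) (h : Pk c C X y) (a a' j : ℕ)
    (hj : j ∈ range (JJ X)) :
    be X y a a' j / (uu X y j) ^ 2 ≤ 10000 * (aj X y a a' j + qj X y j) := by
  have hb := be_le X y a a' j
  have hs : 0 ≤ aj X y a a' j + qj X y j := add_nonneg (aj_nonneg _ _ _ _ _) (qj_nonneg _ _ _)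
  have h9 := exp_nine_le
  rcases Nat.eq_zero_or_pos j with h0 | h0
  · subst h0
    rw [uu_zero, one_pow, div_one]
    refine hb.trans ?_
    apply mul_le_mul_of_nonneg_right _ hs
    refine le_trans (Real.exp_le_exp.2 ?_) h9
    have := h.lam0
    linarith
  · have hu := h.upos j hj
    have hu0 : 0 < Real.exp (-(11 / 10)) := Real.exp_pos _
    have hu2 : 0 < uu X y j := lt_of_lt_of_le hu0 hu
    rw [div_le_iff₀ (by positivity)]
    refine hb.trans ?_
    have h1 : Real.exp (-(11 / 10)) ^ 2 ≤ (uu X y j) ^ 2 := pow_le_pow_left₀ hu0.le hu 2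
    have h2 : Real.exp (-(11 / 10)) ^ 2 = Real.exp (-(22 / 10)) := by
      rw [← Real.exp_nat_mul]; norm_num
    rw [h2] at h1
    have h3 : Real.exp (3 * lam (TT X y j)) ≤ 10000 * (uu X y j) ^ 2 := by
      have h4 := (h.lam1 j h0).1
      calc Real.exp (3 * lam (TT X y j)) ≤ Real.exp (9 + -(22 / 10)) :=
            Real.exp_le_exp.2 (by linarith)
        _ = Real.exp 9 * Real.exp (-(22 / 10)) := Real.exp_add _ _
        _ ≤ 10000 * (uu X y j) ^ 2 := mul_le_mul h9 h1 (Real.exp_pos _).le (by norm_num)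
    calc _ ≤ 10000 * (uu X y j) ^ 2 * (aj X y a a' j + qj X y j) :=
          mul_le_mul_of_nonneg_right h3 hs
      _ = _ := by ring

theorem beta_sum (c C : ℝ) (X y : ℕ) (h : Pk c C X y) (a a' : ℕ) (haa : a ≠ a') :
    ∑ j ∈ range (JJ X), be X y a a' j / (uu X y j) ^ 2 ≤ 10000 * (hh y a a' + 1 / y) := by
  classical
  refine (sum_le_sum fun j hj => term_le c C X y h a a' j hj).trans ?_
  rw [← mul_sum, sum_add_distrib]
  have hA : ∑ j ∈ range (JJ X), aj X y a a' j ≤ hh y a a' := by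
    unfold aj
    rw [← sum_biUnion]
    · unfold hh
      apply sum_le_sum_of_subset_of_nonneg
      · intro p hp
        rw [mem_biUnion] at hp
        obtain ⟨j, _, hp⟩ := hp
        rw [mem_inter, HH, mem_filter] at hp
        have hT := mem_TT.1 hp.1
        rw [mem_filter, Nat.mem_primeFactors]
        refine ⟨⟨hT.1, ?_, ?_⟩, hT.2.1⟩
        · exact Int.natCast_dvd.mp hp.2.2
        · rw [Int.natAbs_ne_zero, sub_ne_zero]; exact_mod_cast haa
      · intro p _ _; positivity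
    · intro i _ j _ hij
      exact Disjoint.mono inter_subset_left inter_subset_left (TT_disjoint X y h.one hij)
  have hQ : ∑ j ∈ range (JJ X), qj X y j ≤ 1 / y := by
    unfold qj
    rw [← sum_biUnion (fun i _ j _ hij => TT_disjoint X y h.one hij)]
    set U := (range (JJ X)).biUnion (fun j => TT X y j) with hU
    set N := max y (U.sup id) with hN
    have hy0 : y ≠ 0 := by have := h.hy; omega
    have h1 : ∑ p ∈ U, 1 / (p : ℝ) ^ 2 ≤ ∑ p ∈ Ioc y N, ((p : ℝ) ^ 2)⁻¹ := by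
      simp only [one_div]
      apply sum_le_sum_of_subset_of_nonneg
      · intro p hp
        have hp' := hp
        rw [hU, mem_biUnion] at hp
        obtain ⟨j, _, hp⟩ := hp
        rw [mem_Ioc]
        refine ⟨(mem_TT.1 hp).2.1, ?_⟩
        exact (Finset.le_sup (f := id) hp').trans (le_max_right _ _)
      · intro p _ _; positivity
    have h2 := sum_Ioc_inv_sq_le_sub (α := ℝ) hy0 (le_max_left y (U.sup id))
    have h3 : (0 : ℝ) ≤ ((N : ℕ) : ℝ)⁻¹ := by positivity
    rw [one_div]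
    rw [← hN] at h2
    linarith
  linarith

end Pool.Agent.H75.AP
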