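import Pool.Agent.H75.AP.Defs

/-!
# Module BINOM (helpwanted, easy, self-contained): the binomial tail

`bt δ k j = Pr[Bin(k, δ) < j] = ∑_{i < j} C(k,i) δ^i (1-δ)^(k-i)` (natural subtraction; `C(k,i) = 0` for `i > k`).
* `bt_rec`: Pascal's rule `C(k+1,i+1) = C(k,i) + C(k,i+1)`; `(1-δ)^(k+1-(i+1)) = (1-δ)^(k-i)` and for `i + 1 ≤ k`: `(1-δ)^(k-i) = (1-δ) (1-δ)^(k-(i+1))` (if `i + 1 > k` the coefficient
  `C(k,i+1)` vanishes).
* `bt_le_one`, `bt_full`: binomial theorem `∑_{i ≤ k} C(k,i) δ^i (1-δ)^(k-i) = 1` (`add_pow`).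
* `bt_chernoff`: induction on `k` with `bt_rec`: `(1-δ) 2^(j+1) q^k + δ 2^j q^k = 2^(j+1) q^k (1 - δ + δ/2) = 2^(j+1) q^(k+1)`, `q = 1 - δ/2`; `bt 0 (j+1) = 1 ≤ 2^(j+1)`, `bt k 0 = 0`.
-/

namespace Pool.Agent.H75.AP

open Finset

/-- `Pr[Bin(k, δ) < j]` -/
noncomputable def bt (δ : ℝ) (k j : ℕ) : ℝ :=
  ∑ i ∈ range j, (k.choose i : ℝ) * δ ^ i * (1 - δ) ^ (k - i)

theorem bt_zero (δ : ℝ) (k : ℕ) : bt δ k 0 = 0 := by simp [bt]

theorem bt_zero_succ (δ : ℝ) (j : ℕ) : bt δ 0 (j + 1) = 1 := by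
  unfold bt
  rw [sum_eq_single_of_mem 0 (by simp)]
  · simp
  · intro i _ hi
    rw [Nat.choose_eq_zero_of_lt (by omega)]
    simp

theorem bt_rec (δ : ℝ) (k j : ℕ) :
    bt δ (k + 1) (j + 1) = (1 - δ) * bt δ k (j + 1) + δ * bt δ k j := by
  have h1 : bt δ (k + 1) (j + 1) = (1 - δ) ^ (k + 1) +
      ∑ i ∈ range j, ((k + 1).choose (i + 1) : ℝ) * δ ^ (i + 1) * (1 - δ) ^ (k - i) := by
    unfold bt
    rw [sum_range_succ']
    simp only [Nat.choose_zero_right, Nat.cast_one, pow_zero, one_mul, mul_one, Nat.sub_zero,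
      Nat.add_sub_add_right]
    ring
  have h2 : bt δ k (j + 1) = (1 - δ) ^ k +
      ∑ i ∈ range j, (k.choose (i + 1) : ℝ) * δ ^ (i + 1) * (1 - δ) ^ (k - (i + 1)) := by
    unfold bt
    rw [sum_range_succ']
    simp only [Nat.choose_zero_right, Nat.cast_one, pow_zero, one_mul, mul_one, Nat.sub_zero]
    ring
  rw [h1, h2]
  unfold bt
  rw [mul_add, mul_sum, mul_sum, pow_succ, mul_comm ((1 - δ) ^ k) (1 - δ), add_assoc]
  congr 1
  rw [← sum_add_distrib]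
  apply sum_congr rfl
  intro i _
  rw [Nat.choose_succ_succ, Nat.cast_add]
  by_cases hi : i + 1 ≤ k
  · have h3 : k - i = (k - (i + 1)) + 1 := by omega
    rw [h3, pow_succ]
    ring
  · rw [Nat.choose_eq_zero_of_lt (by omega : k < i + 1)]
    simp only [Nat.cast_zero, zero_mul, mul_zero, add_zero, zero_add]
    ring

theorem bt_nonneg (δ : ℝ) (h0 : 0 ≤ δ) (h1 : δ ≤ 1) (k j : ℕ) : 0 ≤ bt δ k j := by
  unfold bt
  apply sum_nonneg
  intro i _
  have : 0 ≤ 1 - δ := by linarith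
  positivity

theorem bt_mono (δ : ℝ) (h0 : 0 ≤ δ) (h1 : δ ≤ 1) (k j : ℕ) : bt δ k j ≤ bt δ k (j + 1) := by
  unfold bt
  rw [sum_range_succ]
  have : 0 ≤ 1 - δ := by linarith
  have h : 0 ≤ (k.choose j : ℝ) * δ ^ j * (1 - δ) ^ (k - j) := by positivity
  linarith

theorem bt_le_one (δ : ℝ) (h0 : 0 ≤ δ) (h1 : δ ≤ 1) (k j : ℕ) : bt δ k j ≤ 1 := by
  induction k generalizing j with
  | zero =>
    cases j with
    | zero => rw [bt_zero]; exact zero_le_one
    | succ j => rw [bt_zero_succ]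
  | succ k ih =>
    cases j with
    | zero => rw [bt_zero]; exact zero_le_one
    | succ j =>
      rw [bt_rec]
      have h2 := mul_le_mul_of_nonneg_left (ih (j + 1)) (by linarith : 0 ≤ 1 - δ)
      have h3 := mul_le_mul_of_nonneg_left (ih j) h0
      linarith

theorem bt_full (δ : ℝ) (k : ℕ) : bt δ k k = 1 - δ ^ k := by
  have h := add_pow δ (1 - δ) k
  have h1 : (δ + (1 - δ)) = 1 := by ring
  rw [h1, one_pow, sum_range_succ] at h
  have h2 : bt δ k k = ∑ m ∈ range k, δ ^ m * (1 - δ) ^ (k - m) * (k.choose m : ℝ) := by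
    unfold bt
    apply sum_congr rfl
    intro i _
    ring
  rw [h2]
  simp only [Nat.sub_self, pow_zero, mul_one, Nat.choose_self, Nat.cast_one] at h
  linarith

theorem bt_chernoff (δ : ℝ) (h0 : 0 ≤ δ) (h1 : δ ≤ 1) (k j : ℕ) :
    bt δ k j ≤ 2 ^ j * (1 - δ / 2) ^ k := by
  have hq : 0 ≤ 1 - δ / 2 := by linarith
  induction k generalizing j with
  | zero =>
    cases j with
    | zero => rw [bt_zero]; positivity
    | succ j =>
      rw [bt_zero_succ, pow_zero, mul_one]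
      exact one_le_pow₀ (by norm_num)
  | succ k ih =>
    cases j with
    | zero => rw [bt_zero]; positivity
    | succ j =>
      rw [bt_rec]
      have h2 := mul_le_mul_of_nonneg_left (ih (j + 1)) (by linarith : 0 ≤ 1 - δ)
      have h3 := mul_le_mul_of_nonneg_left (ih j) h0
      have h4 : (2 : ℝ) ^ (j + 1) * (1 - δ / 2) ^ (k + 1) =
          (1 - δ) * (2 ^ (j + 1) * (1 - δ / 2) ^ k) + δ * (2 ^ j * (1 - δ / 2) ^ k) := by
        rw [pow_succ, pow_succ]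
        ring
      rw [h4]
      linarith

end Pool.Agent.H75.AP
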