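import Pool.Agent.H75.AP.Defs

/-!
# Module BLOCKS (helpwanted): geometry of the blocks `TT X y j`

`th 0 = 17/50`, `th j = (1/50) (1/3)^(j-1)` for `j ≥ 1`; `th` is decreasing and positive; `th 1 = 1/50`, `th j = 3 * th (j+1)` for `j ≥ 1`.
* `mem_TT`, `TT_eq_PI`: unfold (`p < ⌊v⌋₊ + 1 ↔ (p : ℝ) ≤ v` for `v ≥ 0`).
* `TT_disjoint`: for `i < j`, `p ∈ TT i` gives `p > X ^ th (i+1) ≥ X ^ th j` (as `X ≥ 1`, `th` antitone), `p ∈ TT j` gives `p ≤ X ^ th j`.
-/

namespace Pool.Agent.H75.AP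

open Finset

theorem th_pos (j : ℕ) : 0 < th j := by
  unfold th
  split_ifs <;> positivity

theorem th_anti {i j : ℕ} (h : i ≤ j) : th j ≤ th i := by
  unfold th
  by_cases hj : j = 0
  · have hi : i = 0 := by omega
    rw [if_pos hj, if_pos hi]
  · rw [if_neg hj]
    by_cases hi : i = 0
    · rw [if_pos hi]
      have h1 : (1 / 3 : ℝ) ^ (j - 1) ≤ 1 := pow_le_one₀ (by norm_num) (by norm_num)
      linarith
    · rw [if_neg hi]
      exact mul_le_mul_of_nonneg_left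
        (pow_le_pow_of_le_one (by norm_num) (by norm_num) (by omega)) (by norm_num)

theorem mem_TT {X y j p : ℕ} : p ∈ TT X y j ↔ p.Prime ∧ y < p ∧ (X : ℝ) ^ th (j + 1) < (p : ℝ) ∧
    (p : ℝ) ≤ (X : ℝ) ^ th j := by
  classical
  have hv : (0 : ℝ) ≤ (X : ℝ) ^ th j := Real.rpow_nonneg (Nat.cast_nonneg X) _
  unfold TT
  rw [mem_filter, mem_range, Nat.lt_succ_iff, Nat.le_floor_iff hv]
  tauto

theorem TT_eq_PI (X y j : ℕ) :
    TT X y j = PI (max (y : ℝ) ((X : ℝ) ^ th (j + 1))) ((X : ℝ) ^ th j) := by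
  classical
  have hv : (0 : ℝ) ≤ (X : ℝ) ^ th j := Real.rpow_nonneg (Nat.cast_nonneg X) _
  ext p
  rw [mem_TT]
  unfold PI
  rw [mem_filter, mem_range, Nat.lt_succ_iff, Nat.le_floor_iff hv, max_lt_iff, Nat.cast_lt]
  tauto

theorem TT_two_le {X y j p : ℕ} (h : p ∈ TT X y j) : 2 ≤ p := (mem_TT.1 h).1.two_le

theorem TT_disjoint (X y : ℕ) (hX : 1 ≤ X) {i j : ℕ} (h : i ≠ j) :
    Disjoint (TT X y i) (TT X y j) := by
  have key : ∀ i j : ℕ, i < j → Disjoint (TT X y i) (TT X y j) := by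
    intro i j hij
    rw [Finset.disjoint_left]
    intro p hi hj
    have h1 := (mem_TT.1 hi).2.2.1
    have h2 := (mem_TT.1 hj).2.2.2
    have h3 : (X : ℝ) ^ th j ≤ (X : ℝ) ^ th (i + 1) :=
      Real.rpow_le_rpow_of_exponent_le (by exact_mod_cast hX) (th_anti hij)
    linarith
  rcases lt_or_gt_of_ne h with h | h
  · exact key i j h
  · exact (key j i h).symm

end Pool.Agent.H75.AP
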