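import Pool.Agent.H75.AP.Defs

/-!
# Module COMBINEA (helpwanted): algebra for the second moment of `lo`

Put `b j = β j / (u j)^2 ≥ 0`, `t j = γ j / u j ≥ 0`, `x j σ = if j = σ then t j else 1`, `U = ∏ u j > 0`.
`κ j σ σ' / (u j)^2 = x j σ * x j σ' + e` with `|e| ≤ b j`. Dividing by `U^2 = ∏ (u j)^2`:
main part `∑_{σ,σ'} sg σ sg σ' ∏_j x j σ x j σ' = (∑_σ sg σ ∏_j x j σ)^2 = (1 - τ)^2`
(`∏_{j<J} x j σ = t σ` for `σ < J`, `= 1` for `σ = J`).
Error: `|∏_j (X_j + e_j) - ∏_j X_j| ≤ ∏_j (X_j + b_j) - ∏_j X_j` for `X_j ≥ 0, |e_j| ≤ b_j` (induction; here `X_j = x j σ * x j σ'`).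
With `P = ∏ (1 + b j) ≤ exp Bt`, `Bt = ∑ b j`:
`∏_j (x x' + b) ≤ P` if `σ = σ' = J`; `≤ P (t i + b i)` if exactly one of `σ, σ'` is `J` and the other is `i`;
`≤ P (t i + b i) (t i' + b i')` if `σ = i ≠ i' = σ'` (both `< J`); `≤ P (t i ^ 2 + b i) ≤ P ((t i + b i)^2 + b i)` if `σ = σ' = i < J`
(each time the remaining factors are `1 + b j ≥ 1`). Sum over all: `≤ P ((1 + τ + Bt)^2 + Bt)`.
And `∑_{σ,σ'} ∏_j x x' = (1 + τ)^2`. So the error is at most `E := exp Bt * ((1+τ+Bt)^2 + Bt) - (1+τ)^2 ≤ 10 (exp (2 Bt) - 1)`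
for `0 ≤ τ ≤ 1`: indeed `(1+τ+Bt)^2 + Bt ≤ (1+τ)^2 + 5 Bt + Bt^2`, `(1+τ)^2 ≤ 4`, and `Bt ≤ exp Bt - 1`,
`Bt^2 ≤ 2 (exp Bt - 1)`  gives `E ≤ 4 (exp Bt - 1) + 7 exp Bt (exp Bt - 1)`; and `4 (e - 1) + 7 e (e - 1) ≤ 10 (e^2 - 1)`
for `e = exp Bt ≥ 1` (`(e-1)(4 + 7e) ≤ (e-1)(10 e + 10)`).
Finally `(1-τ)^2 + 10 (exp (2Bt) - 1) ≤ (1-τ)^2 (1 + 10^5 (exp (2Bt) - 1)) ≤ (1-τ)^2 exp (2 * 10^5 * Bt)` since
`1 - τ ≥ 1/100` and `1 + N (s - 1) ≤ s^N` for `s ≥ 1` (Bernoulli, `one_add_mul_le_pow`).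
-/

namespace Pool.Agent.H75.AP

open Finset

namespace CombineAAux

theorem prod_err (s : Finset ℕ) (X Y b : ℕ → ℝ) (hY : ∀ j ∈ s, 0 ≤ Y j)
    (h : ∀ j ∈ s, |X j - Y j| ≤ b j) :
    |∏ j ∈ s, X j - ∏ j ∈ s, Y j| ≤ ∏ j ∈ s, (Y j + b j) - ∏ j ∈ s, Y j := by
  classical
  induction s using Finset.induction_on with
  | empty => simp
  | insert i s hi ih =>
    have hY' : ∀ j ∈ s, 0 ≤ Y j := fun j hj => hY j (mem_insert_of_mem hj)
    have h' : ∀ j ∈ s, |X j - Y j| ≤ b j := fun j hj => h j (mem_insert_of_mem hj)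
    have ih' := ih hY' h'
    rw [prod_insert hi, prod_insert hi, prod_insert hi]
    have hYi := hY i (mem_insert_self _ _)
    have hi' := h i (mem_insert_self _ _)
    have hP : 0 ≤ ∏ j ∈ s, Y j := prod_nonneg hY'
    set PX := ∏ j ∈ s, X j
    set PY := ∏ j ∈ s, Y j
    set PB := ∏ j ∈ s, (Y j + b j)
    have hb : 0 ≤ b i := (abs_nonneg _).trans hi'
    have e : X i * PX - Y i * PY = (X i - Y i) * PY + X i * (PX - PY) := by ring
    have hX : |X i| ≤ Y i + b i := by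
      have : X i = (X i - Y i) + Y i := by ring
      rw [this]
      refine (abs_add_le _ _).trans ?_
      rw [abs_of_nonneg hYi]; linarith
    rw [e]
    refine (abs_add_le _ _).trans ?_
    rw [abs_mul, abs_mul, abs_of_nonneg hP]
    have h1 : |X i - Y i| * PY ≤ b i * PY := mul_le_mul_of_nonneg_right hi' hP
    have h2 : |X i| * |PX - PY| ≤ (Y i + b i) * (PB - PY) :=
      mul_le_mul hX ih' (abs_nonneg _) (by linarith)
    nlinarith

theorem final_ineq (τ B : ℝ) (hτ0 : 0 ≤ τ) (hτ : τ ≤ 99 / 100) (hB : 0 ≤ B) :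
    (1 - τ) ^ 2 + (Real.exp B * ((1 + τ + B) ^ 2 + B) - (1 + τ) ^ 2) ≤
      (1 - τ) ^ 2 * Real.exp (200000 * B) := by
  have hq := Real.quadratic_le_exp_of_nonneg hB
  set e := Real.exp B with he
  have he1 : 1 ≤ e := by nlinarith
  have hB1 : B ≤ e - 1 := by nlinarith
  have hB2 : B ^ 2 ≤ 2 * (e - 1) := by nlinarith
  have hE : e * ((1 + τ + B) ^ 2 + B) - (1 + τ) ^ 2 ≤ 10 * (e ^ 2 - 1) := by
    have h1 : (1 + τ + B) ^ 2 + B ≤ (1 + τ) ^ 2 + 5 * (e - 1) + 2 * (e - 1) := by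
      have : 2 * (1 + τ) * B ≤ 4 * B := by nlinarith
      nlinarith
    have h2 : e * ((1 + τ + B) ^ 2 + B) ≤ e * ((1 + τ) ^ 2 + 7 * (e - 1)) :=
      mul_le_mul_of_nonneg_left (by linarith) (by linarith)
    have h3 : (1 + τ) ^ 2 ≤ 4 := by nlinarith
    have h4 : (1 + τ) ^ 2 * (e - 1) ≤ 4 * (e - 1) := mul_le_mul_of_nonneg_right h3 (by linarith)
    nlinarith
  have hexp : ∀ N : ℕ, Real.exp ((2 * (N : ℝ)) * B) = (e ^ 2) ^ N := by
    intro N
    rw [he, ← Real.exp_nat_mul, ← Real.exp_nat_mul]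
    congr 1
    push_cast
    ring
  have key := hexp 100000
  have h5 : (200000 : ℝ) * B = (2 * ((100000 : ℕ) : ℝ)) * B := by norm_num
  rw [h5, key]
  have hs : 1 ≤ e ^ 2 := by nlinarith
  have bern : 1 + ((100000 : ℕ) : ℝ) * (e ^ 2 - 1) ≤ (1 + (e ^ 2 - 1)) ^ 100000 :=
    one_add_mul_le_pow (by linarith) 100000
  have h6 : (1 + (e ^ 2 - 1)) = e ^ 2 := by ring
  rw [h6] at bern
  have h7 : (1 : ℝ) / 10000 ≤ (1 - τ) ^ 2 := by nlinarith
  have h8 : (1 - τ) ^ 2 * (1 + ((100000 : ℕ) : ℝ) * (e ^ 2 - 1)) ≤ (1 - τ) ^ 2 * (e ^ 2) ^ 100000 :=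
    mul_le_mul_of_nonneg_left bern (by positivity)
  have h9 : (1 : ℝ) / 10000 * (((100000 : ℕ) : ℝ) * (e ^ 2 - 1)) ≤
      (1 - τ) ^ 2 * (((100000 : ℕ) : ℝ) * (e ^ 2 - 1)) :=
    mul_le_mul_of_nonneg_right h7 (mul_nonneg (by positivity) (by linarith))
  have h10 : (1 : ℝ) / 10000 * (((100000 : ℕ) : ℝ) * (e ^ 2 - 1)) = 10 * (e ^ 2 - 1) := by
    push_cast; ring
  have h11 : (1 - τ) ^ 2 * (1 + ((100000 : ℕ) : ℝ) * (e ^ 2 - 1)) =
      (1 - τ) ^ 2 + (1 - τ) ^ 2 * (((100000 : ℕ) : ℝ) * (e ^ 2 - 1)) := by ring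
  refine le_trans ?_ h8
  rw [h11]
  exact add_le_add le_rfl (hE.trans (h10.symm.le.trans h9))

end CombineAAux

open CombineAAux in
theorem combine (J : ℕ) (u γ β : ℕ → ℝ) (κ : ℕ → ℕ → ℕ → ℝ)
    (hu : ∀ j ∈ range J, 0 < u j) (hγ : ∀ j ∈ range J, 0 ≤ γ j) (hβ : ∀ j ∈ range J, 0 ≤ β j)
    (hτ : ∑ j ∈ range J, γ j / u j ≤ 99 / 100)
    (hκ : ∀ j ∈ range J, ∀ σ ∈ range (J + 1), ∀ σ' ∈ range (J + 1),
      |κ j σ σ' - (if j = σ then γ j else u j) * (if j = σ' then γ j else u j)| ≤ β j) :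
    ∑ σ ∈ range (J + 1), ∑ σ' ∈ range (J + 1), sg J σ * sg J σ' * ∏ j ∈ range J, κ j σ σ' ≤
      ((∏ j ∈ range J, u j) * (1 - ∑ j ∈ range J, γ j / u j)) ^ 2 *
        Real.exp (200000 * ∑ j ∈ range J, β j / (u j) ^ 2) := by
  classical
  set τ := ∑ j ∈ range J, γ j / u j with hτdef
  set B := ∑ j ∈ range J, β j / (u j) ^ 2 with hBdef
  have hτ0 : 0 ≤ τ := sum_nonneg fun j hj => div_nonneg (hγ j hj) (hu j hj).le
  have hB0 : 0 ≤ B := sum_nonneg fun j hj => div_nonneg (hβ j hj) (by positivity)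
  set t : ℕ → ℝ := fun j => γ j / u j with ht
  set b : ℕ → ℝ := fun j => β j / (u j) ^ 2 with hb
  have ht0 : ∀ j ∈ range J, 0 ≤ t j := fun j hj => div_nonneg (hγ j hj) (hu j hj).le
  have hb0 : ∀ j ∈ range J, 0 ≤ b j := fun j hj => div_nonneg (hβ j hj) (by positivity)
  set x : ℕ → ℕ → ℝ := fun j σ => if j = σ then t j else 1 with hx
  have hx0 : ∀ j ∈ range J, ∀ σ, 0 ≤ x j σ := by
    intro j hj σ
    simp only [hx]
    split_ifs
    · exact ht0 j hj
    · exact zero_le_one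
  set U := ∏ j ∈ range J, u j with hU
  have hUpos : 0 < U := prod_pos hu
  -- normalised factors
  have hXerr : ∀ σ ∈ range (J + 1), ∀ σ' ∈ range (J + 1), ∀ j ∈ range J,
      |κ j σ σ' / (u j) ^ 2 - x j σ * x j σ'| ≤ b j := by
    intro σ hσ σ' hσ' j hj
    have h := hκ j hj σ hσ σ' hσ'
    have huj := hu j hj
    have e : κ j σ σ' / (u j) ^ 2 - x j σ * x j σ' =
        (κ j σ σ' - (if j = σ then γ j else u j) * (if j = σ' then γ j else u j)) / (u j) ^ 2 := by
      simp only [hx, ht]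
      split_ifs <;> field_simp
    rw [e, abs_div, abs_of_pos (by positivity : 0 < (u j) ^ 2)]
    exact div_le_div_of_nonneg_right h (by positivity)
  have hprod : ∀ σ σ', ∏ j ∈ range J, κ j σ σ' = U ^ 2 * ∏ j ∈ range J, (κ j σ σ' / (u j) ^ 2) := by
    intro σ σ'
    rw [hU, ← prod_pow, ← prod_mul_distrib]
    refine prod_congr rfl fun j hj => ?_
    have huj := (hu j hj).ne'
    field_simp
  have hsg : ∀ σ, |sg J σ| = 1 := by
    intro σ
    unfold sg
    split_ifs <;> simp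
  -- the products of the x
  have hpx : ∀ σ ∈ range (J + 1), ∏ j ∈ range J, x j σ = if σ = J then 1 else t σ := by
    intro σ hσ
    simp only [hx]
    rw [prod_ite_eq' (range J) σ t]
    by_cases h : σ = J
    · subst h; simp
    · have : σ ∈ range J := mem_range.2 (by have := mem_range.1 hσ; omega)
      rw [if_pos this, if_neg h]
  have hsum1 : ∑ σ ∈ range (J + 1), sg J σ * ∏ j ∈ range J, x j σ = 1 - τ := by
    rw [sum_congr rfl fun σ hσ => by rw [hpx σ hσ], sum_range_succ]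
    have : ∀ σ ∈ range J, sg J σ * (if σ = J then (1 : ℝ) else t σ) = - t σ := by
      intro σ hσ
      have : σ ≠ J := (mem_range.1 hσ).ne
      unfold sg
      rw [if_neg this, if_neg this]; ring
    rw [sum_congr rfl this, sum_neg_distrib]
    unfold sg
    simp only [if_true]
    ring
  have hsum2 : ∑ σ ∈ range (J + 1), ∏ j ∈ range J, x j σ = 1 + τ := by
    rw [sum_congr rfl fun σ hσ => hpx σ hσ, sum_range_succ]
    have : ∀ σ ∈ range J, (if σ = J then (1 : ℝ) else t σ) = t σ := by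
      intro σ hσ
      have : σ ≠ J := (mem_range.1 hσ).ne
      rw [if_neg this]
    rw [sum_congr rfl this]
    simp only [if_true]
    ring
  have hmain : ∑ σ ∈ range (J + 1), ∑ σ' ∈ range (J + 1), sg J σ * sg J σ' *
      ∏ j ∈ range J, (x j σ * x j σ') = (1 - τ) ^ 2 := by
    rw [← hsum1, sq, sum_mul_sum]
    refine sum_congr rfl fun σ _ => sum_congr rfl fun σ' _ => ?_
    rw [prod_mul_distrib]; ring
  have hmain2 : ∑ σ ∈ range (J + 1), ∑ σ' ∈ range (J + 1),
      ∏ j ∈ range J, (x j σ * x j σ') = (1 + τ) ^ 2 := by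
    rw [← hsum2, sq, sum_mul_sum]
    refine sum_congr rfl fun σ _ => sum_congr rfl fun σ' _ => ?_
    rw [prod_mul_distrib]
  -- upper bound for the products with errors
  set P := ∏ j ∈ range J, (1 + b j) with hP
  have hP0 : 0 ≤ P := prod_nonneg fun j hj => by have := hb0 j hj; linarith
  have hPle : P ≤ Real.exp B := by
    rw [hBdef, Real.exp_sum]
    refine prod_le_prod (fun j hj => by have := hb0 j hj; linarith) fun j hj => ?_
    have := Real.add_one_le_exp (b j)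
    linarith
  set q : ℕ → ℝ := fun σ => if σ = J then 1 else t σ + b σ with hq
  set b' : ℕ → ℝ := fun σ => if σ = J then 0 else b σ with hb'
  have hprodq : ∀ σ ∈ range (J + 1), ∏ j ∈ range J, (if j = σ then (t j + b j) else 1) = q σ := by
    intro σ hσ
    rw [prod_ite_eq' (range J) σ (fun j => t j + b j)]
    simp only [hq]
    by_cases h : σ = J
    · subst h; simp
    · have : σ ∈ range J := mem_range.2 (by have := mem_range.1 hσ; omega)
      rw [if_pos this, if_neg h]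
  have hq0 : ∀ σ ∈ range (J + 1), 0 ≤ q σ := by
    intro σ hσ
    simp only [hq]
    split_ifs with h
    · exact zero_le_one
    · have : σ ∈ range J := mem_range.2 (by have := mem_range.1 hσ; omega)
      have := ht0 σ this
      have := hb0 σ ‹_›
      linarith
  have hb'0 : ∀ σ ∈ range (J + 1), 0 ≤ b' σ := by
    intro σ hσ
    simp only [hb']
    split_ifs with h
    · exact le_refl _
    · exact hb0 σ (mem_range.2 (by have := mem_range.1 hσ; omega))
  have hbound : ∀ σ ∈ range (J + 1), ∀ σ' ∈ range (J + 1),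
      ∏ j ∈ range J, (x j σ * x j σ' + b j) ≤ P * (q σ * q σ' + if σ = σ' then b' σ else 0) := by
    intro σ hσ σ' hσ'
    by_cases hss : σ = σ'
    · subst hss
      rw [if_pos rfl]
      have h1 : ∏ j ∈ range J, (x j σ * x j σ + b j) ≤
          ∏ j ∈ range J, ((1 + b j) * (if j = σ then (t j ^ 2 + b j) else 1)) := by
        refine prod_le_prod (fun j hj => ?_) fun j hj => ?_
        · have h1 := hx0 j hj σ
          have h2 := hb0 j hj
          positivity
        · have h2 := hb0 j hj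
          have h3 := ht0 j hj
          simp only [hx]
          split_ifs
          · have : 0 ≤ b j * (t j ^ 2 + b j) := by positivity
            nlinarith
          · linarith
      refine h1.trans ?_
      rw [prod_mul_distrib]
      refine mul_le_mul_of_nonneg_left ?_ hP0
      rw [prod_ite_eq' (range J) σ (fun j => t j ^ 2 + b j)]
      simp only [hq, hb']
      by_cases h : σ = J
      · subst h; simp
      · have hm : σ ∈ range J := mem_range.2 (by have := mem_range.1 hσ; omega)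
        rw [if_pos hm, if_neg h, if_neg h]
        have h2 := hb0 σ hm
        have h3 := ht0 σ hm
        have : 0 ≤ t σ * b σ := by positivity
        nlinarith
    · rw [if_neg hss, add_zero]
      have h1 : ∏ j ∈ range J, (x j σ * x j σ' + b j) ≤
          ∏ j ∈ range J, ((1 + b j) * ((if j = σ then (t j + b j) else 1) *
            (if j = σ' then (t j + b j) else 1))) := by
        refine prod_le_prod (fun j hj => ?_) fun j hj => ?_
        · have h1 := hx0 j hj σ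
          have h1' := hx0 j hj σ'
          have h2 := hb0 j hj
          positivity
        · have h2 := hb0 j hj
          have h3 := ht0 j hj
          simp only [hx]
          split_ifs with h4 h5 h5
          · exact absurd (h4.symm.trans h5) hss
          · have : 0 ≤ b j * (t j + b j) := by positivity
            nlinarith
          · have : 0 ≤ b j * (t j + b j) := by positivity
            nlinarith
          · linarith
      refine h1.trans ?_
      rw [prod_mul_distrib, prod_mul_distrib, hprodq σ hσ, hprodq σ' hσ']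
  have hsumq : ∑ σ ∈ range (J + 1), q σ = 1 + τ + B := by
    rw [sum_range_succ]
    have : ∀ σ ∈ range J, q σ = t σ + b σ := by
      intro σ hσ
      simp only [hq]
      rw [if_neg (mem_range.1 hσ).ne]
    rw [sum_congr rfl this, sum_add_distrib]
    simp only [hq, if_true]
    ring
  have hsumb' : ∑ σ ∈ range (J + 1), b' σ = B := by
    rw [sum_range_succ]
    have : ∀ σ ∈ range J, b' σ = b σ := by
      intro σ hσ
      simp only [hb']
      rw [if_neg (mem_range.1 hσ).ne]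
    rw [sum_congr rfl this]
    simp only [hb', if_true]
    ring
  have hsumtot : ∑ σ ∈ range (J + 1), ∑ σ' ∈ range (J + 1), ∏ j ∈ range J, (x j σ * x j σ' + b j) ≤
      Real.exp B * ((1 + τ + B) ^ 2 + B) := by
    calc ∑ σ ∈ range (J + 1), ∑ σ' ∈ range (J + 1), ∏ j ∈ range J, (x j σ * x j σ' + b j)
        ≤ ∑ σ ∈ range (J + 1), ∑ σ' ∈ range (J + 1), P * (q σ * q σ' + if σ = σ' then b' σ else 0) :=
          sum_le_sum fun σ hσ => sum_le_sum fun σ' hσ' => hbound σ hσ σ' hσ'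
      _ = P * ((1 + τ + B) ^ 2 + B) := by
          have e1 : ∀ σ ∈ range (J + 1), ∑ σ' ∈ range (J + 1),
              P * (q σ * q σ' + if σ = σ' then b' σ else 0) =
              P * (q σ * ∑ σ' ∈ range (J + 1), q σ') + P * b' σ := by
            intro σ hσ
            rw [← mul_sum, sum_add_distrib, ← mul_sum, sum_ite_eq, if_pos hσ]
            ring
          rw [sum_congr rfl e1, sum_add_distrib, ← mul_sum, ← mul_sum, ← sum_mul, hsumq, hsumb']
          ring
      _ ≤ Real.exp B * ((1 + τ + B) ^ 2 + B) :=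
          mul_le_mul_of_nonneg_right hPle (by positivity)
  -- assembly
  have hLHS : ∑ σ ∈ range (J + 1), ∑ σ' ∈ range (J + 1), sg J σ * sg J σ' * ∏ j ∈ range J, κ j σ σ'
      ≤ U ^ 2 * ((1 - τ) ^ 2 + (Real.exp B * ((1 + τ + B) ^ 2 + B) - (1 + τ) ^ 2)) := by
    have e1 : ∑ σ ∈ range (J + 1), ∑ σ' ∈ range (J + 1), sg J σ * sg J σ' * ∏ j ∈ range J, κ j σ σ'
        = U ^ 2 * ∑ σ ∈ range (J + 1), ∑ σ' ∈ range (J + 1), sg J σ * sg J σ' *
          ∏ j ∈ range J, (κ j σ σ' / (u j) ^ 2) := by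
      rw [mul_sum]
      refine sum_congr rfl fun σ _ => ?_
      rw [mul_sum]
      refine sum_congr rfl fun σ' _ => ?_
      rw [hprod]; ring
    rw [e1]
    refine mul_le_mul_of_nonneg_left ?_ (by positivity)
    have h2 : ∀ σ ∈ range (J + 1), ∀ σ' ∈ range (J + 1),
        sg J σ * sg J σ' * ∏ j ∈ range J, (κ j σ σ' / (u j) ^ 2) ≤
        sg J σ * sg J σ' * ∏ j ∈ range J, (x j σ * x j σ') +
          (∏ j ∈ range J, (x j σ * x j σ' + b j) - ∏ j ∈ range J, (x j σ * x j σ')) := by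
      intro σ hσ σ' hσ'
      have h3 := prod_err (range J) (fun j => κ j σ σ' / (u j) ^ 2) (fun j => x j σ * x j σ') b
        (fun j hj => mul_nonneg (hx0 j hj σ) (hx0 j hj σ')) (hXerr σ hσ σ' hσ')
      have h4 : |sg J σ * sg J σ' * (∏ j ∈ range J, (κ j σ σ' / (u j) ^ 2) -
          ∏ j ∈ range J, (x j σ * x j σ'))| ≤
          ∏ j ∈ range J, (x j σ * x j σ' + b j) - ∏ j ∈ range J, (x j σ * x j σ') := by
        rw [abs_mul, abs_mul, hsg, hsg, one_mul, one_mul]
        exact h3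
      have h5 := (le_abs_self _).trans h4
      rw [mul_sub] at h5
      linarith
    calc ∑ σ ∈ range (J + 1), ∑ σ' ∈ range (J + 1), sg J σ * sg J σ' *
          ∏ j ∈ range J, (κ j σ σ' / (u j) ^ 2)
        ≤ ∑ σ ∈ range (J + 1), ∑ σ' ∈ range (J + 1), (sg J σ * sg J σ' * ∏ j ∈ range J, (x j σ * x j σ') +
          (∏ j ∈ range J, (x j σ * x j σ' + b j) - ∏ j ∈ range J, (x j σ * x j σ'))) :=
          sum_le_sum fun σ hσ => sum_le_sum fun σ' hσ' => h2 σ hσ σ' hσ'
      _ = (1 - τ) ^ 2 + (∑ σ ∈ range (J + 1), ∑ σ' ∈ range (J + 1),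
            ∏ j ∈ range J, (x j σ * x j σ' + b j) - (1 + τ) ^ 2) := by
          simp only [sum_add_distrib, sum_sub_distrib]
          rw [hmain, hmain2]
      _ ≤ _ := by linarith
  refine hLHS.trans ?_
  have hf := final_ineq τ B hτ0 hτ hB0
  calc U ^ 2 * ((1 - τ) ^ 2 + (Real.exp B * ((1 + τ + B) ^ 2 + B) - (1 + τ) ^ 2))
      ≤ U ^ 2 * ((1 - τ) ^ 2 * Real.exp (200000 * B)) :=
        mul_le_mul_of_nonneg_left hf (by positivity)
    _ = (U * (1 - τ)) ^ 2 * Real.exp (200000 * B) := by ring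

end Pool.Agent.H75.AP
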