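import Pool.Agent.H75.AP.Defs

/-!
# Module COMBINEB (helpwanted): algebra for the mean and for the diagonal

`combine_one`: the term `σ = J` is `∏ u`; the term `σ = i < J` is `- γ i ∏_{j ≠ i} u j = - (∏ u) γ i / u i`.
-/

namespace Pool.Agent.H75.AP

open Finset

/-- mean of `lo`: `∑_σ sg σ ∏_j (mean) = U (1 - τ)` -/
theorem combine_one (J : ℕ) (u γ : ℕ → ℝ) (hu : ∀ j ∈ range J, 0 < u j) :
    ∑ σ ∈ range (J + 1), sg J σ * ∏ j ∈ range J, (if j = σ then γ j else u j) =
      (∏ j ∈ range J, u j) * (1 - ∑ j ∈ range J, γ j / u j) := by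
  rw [sum_range_succ]
  have h1 : sg J J * ∏ j ∈ range J, (if j = J then γ j else u j) = ∏ j ∈ range J, u j := by
    unfold sg
    rw [if_pos rfl, one_mul]
    apply prod_congr rfl
    intro j hj
    rw [if_neg (mem_range.mp hj).ne]
  have h2 : ∀ i ∈ range J, sg J i * ∏ j ∈ range J, (if j = i then γ j else u j)
      = - ((∏ j ∈ range J, u j) * (γ i / u i)) := by
    intro i hi
    unfold sg
    rw [if_neg (mem_range.mp hi).ne, neg_one_mul, neg_inj]
    have h3 : ∏ j ∈ range J, (if j = i then γ j else u j)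
        = ∏ j ∈ range J, (u j * (if j = i then γ j / u j else 1)) := by
      apply prod_congr rfl
      intro j hj
      have := hu j hj
      split_ifs
      · field_simp
      · rw [mul_one]
    rw [h3, prod_mul_distrib, prod_ite_eq', if_pos hi]
  rw [sum_congr rfl h2, h1, sum_neg_distrib, ← mul_sum]
  ring

private theorem w_sum (J : ℕ) (x : ℕ → ℝ) (hx : ∀ j ∈ range J, 0 ≤ x j) :
    ∑ σ ∈ range (J + 1), ∑ σ' ∈ range (J + 1),
      ∏ j ∈ range J, (if j = σ ∨ j = σ' then x j else 1) ≤ Real.exp (3 * ∑ j ∈ range J, x j) := by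
  have w1 : ∏ j ∈ range J, (if j = J ∨ j = J then x j else 1) = 1 := by
    apply prod_eq_one
    intro j hj
    have := (mem_range.mp hj).ne
    rw [if_neg (by tauto)]
  have w2 : ∀ i ∈ range J, ∏ j ∈ range J, (if j = i ∨ j = J then x j else 1) = x i := by
    intro i hi
    have h1 : ∀ j ∈ range J, (if j = i ∨ j = J then x j else 1) = if j = i then x j else 1 := by
      intro j hj
      have := (mem_range.mp hj).ne
      by_cases h : j = i
      · rw [if_pos (Or.inl h), if_pos h]
      · rw [if_neg (by tauto), if_neg h]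
    rw [prod_congr rfl h1, prod_ite_eq', if_pos hi]
  have w3 : ∀ i ∈ range J, ∏ j ∈ range J, (if j = J ∨ j = i then x j else 1) = x i := by
    intro i hi
    rw [← w2 i hi]
    apply prod_congr rfl
    intro j _
    simp only [or_comm]
  have w4 : ∀ i ∈ range J, ∀ i' ∈ range J, ∏ j ∈ range J, (if j = i ∨ j = i' then x j else 1)
      ≤ x i * x i' + if i = i' then x i else 0 := by
    intro i hi i' hi'
    by_cases h : i = i'
    · subst h
      rw [if_pos rfl]
      have h1 : ∏ j ∈ range J, (if j = i ∨ j = i then x j else 1) = x i := by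
        simp only [or_self]
        rw [prod_ite_eq', if_pos hi]
      rw [h1]
      have := mul_nonneg (hx i hi) (hx i hi)
      linarith
    · rw [if_neg h, add_zero]
      have h1 : ∀ j ∈ range J, (if j = i ∨ j = i' then x j else 1)
          = (if j = i then x j else 1) * (if j = i' then x j else 1) := by
        intro j _
        by_cases h2 : j = i
        · subst h2
          rw [if_pos (Or.inl rfl), if_pos rfl, if_neg h, mul_one]
        · by_cases h3 : j = i'
          · rw [if_pos (Or.inr h3), if_neg h2, if_pos h3, one_mul]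
          · rw [if_neg (by tauto), if_neg h2, if_neg h3, one_mul]
      rw [prod_congr rfl h1, prod_mul_distrib, prod_ite_eq', prod_ite_eq', if_pos hi, if_pos hi']
  obtain ⟨A, hA⟩ : ∃ A, A = ∑ j ∈ range J, x j := ⟨_, rfl⟩
  have hA0 : 0 ≤ A := by rw [hA]; exact sum_nonneg hx
  have s1 : ∑ σ ∈ range (J + 1), ∑ σ' ∈ range (J + 1),
      ∏ j ∈ range J, (if j = σ ∨ j = σ' then x j else 1) ≤ 1 + 3 * A + A ^ 2 := by
    rw [sum_range_succ]
    have e1 : ∑ σ' ∈ range (J + 1), ∏ j ∈ range J, (if j = J ∨ j = σ' then x j else 1) = A + 1 := by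
      rw [sum_range_succ, w1, sum_congr rfl w3, hA]
    have e2 : ∑ σ ∈ range J, ∑ σ' ∈ range (J + 1),
        ∏ j ∈ range J, (if j = σ ∨ j = σ' then x j else 1) ≤ A ^ 2 + A + A := by
      calc ∑ σ ∈ range J, ∑ σ' ∈ range (J + 1),
            ∏ j ∈ range J, (if j = σ ∨ j = σ' then x j else 1)
          ≤ ∑ σ ∈ range J, ((∑ σ' ∈ range J, (x σ * x σ' + if σ = σ' then x σ else 0)) + x σ) := by
            apply sum_le_sum
            intro σ hσ
            rw [sum_range_succ, w2 σ hσ]
            gcongr with σ' hσ'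
            exact w4 σ hσ σ' hσ'
        _ = A ^ 2 + A + A := by
            rw [sum_add_distrib]
            have h5 : ∀ σ ∈ range J, ∑ σ' ∈ range J, (x σ * x σ' + if σ = σ' then x σ else 0)
                = x σ * A + x σ := by
              intro σ hσ
              rw [sum_add_distrib, ← mul_sum, ← hA, sum_ite_eq, if_pos hσ]
            rw [sum_congr rfl h5, sum_add_distrib, ← sum_mul, ← hA]
            ring
    rw [e1]
    linarith
  refine s1.trans ?_
  rw [← hA]
  have h6 : 1 + A ≤ Real.exp A := by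
    have := Real.add_one_le_exp A
    linarith
  have h7 : Real.exp (3 * A) = Real.exp A ^ 3 := by
    rw [← Real.exp_nat_mul]
    norm_num
  rw [h7]
  have h8 : (1 + A) ^ 3 ≤ Real.exp A ^ 3 := pow_le_pow_left₀ (by linarith) h6 3
  nlinarith [pow_nonneg hA0 2, pow_nonneg hA0 3]

/-- diagonal: put `A = ∑ a j / v j`, `P = ∏ (v j + a j) ≤ ∏ v j * exp A`. The terms are at most `P` (`σ = σ' = J`), `P a_i / v_i`
(one of `σ, σ'` is `J`, the other `i`, or `σ = σ' = i`), `P (a_i/v_i) (a_i'/v_i')` (`σ = i ≠ i' = σ'`); the sum is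
`≤ P (1 + 3 A + A^2) ≤ P (1 + A)^3 ≤ P exp (3 A)`. -/
theorem combine_diag (J : ℕ) (v a : ℕ → ℝ) (κ : ℕ → ℕ → ℕ → ℝ)
    (hv : ∀ j ∈ range J, 0 < v j) (ha : ∀ j ∈ range J, 0 ≤ a j)
    (h0 : ∀ j ∈ range J, ∀ σ ∈ range (J + 1), ∀ σ' ∈ range (J + 1), 0 ≤ κ j σ σ')
    (h1 : ∀ j ∈ range J, ∀ σ ∈ range (J + 1), ∀ σ' ∈ range (J + 1), j ≠ σ → j ≠ σ' →
      κ j σ σ' ≤ v j + a j)
    (h2 : ∀ j ∈ range J, ∀ σ ∈ range (J + 1), ∀ σ' ∈ range (J + 1), (j = σ ∨ j = σ') →
      κ j σ σ' ≤ a j) :
    ∑ σ ∈ range (J + 1), ∑ σ' ∈ range (J + 1), ∏ j ∈ range J, κ j σ σ' ≤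
      (∏ j ∈ range J, v j) * Real.exp (4 * ∑ j ∈ range J, a j / v j) := by
  have hx : ∀ j ∈ range J, 0 ≤ a j / v j := fun j hj => div_nonneg (ha j hj) (hv j hj).le
  have hP : ∏ j ∈ range J, (v j + a j) ≤
      (∏ j ∈ range J, v j) * Real.exp (∑ j ∈ range J, a j / v j) := by
    rw [Real.exp_sum, ← prod_mul_distrib]
    apply prod_le_prod
    · intro j hj
      have := hv j hj
      have := ha j hj
      linarith
    · intro j hj
      have h3 := hv j hj
      have h4 := Real.add_one_le_exp (a j / v j)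
      have h5 : v j + a j = v j * (a j / v j + 1) := by field_simp; ring
      rw [h5]
      exact mul_le_mul_of_nonneg_left h4 h3.le
  have hP0 : 0 ≤ ∏ j ∈ range J, (v j + a j) := by
    apply prod_nonneg
    intro j hj
    have := hv j hj
    have := ha j hj
    linarith
  have hterm : ∀ σ ∈ range (J + 1), ∀ σ' ∈ range (J + 1), ∏ j ∈ range J, κ j σ σ' ≤
      (∏ j ∈ range J, (v j + a j)) *
        ∏ j ∈ range J, (if j = σ ∨ j = σ' then a j / v j else 1) := by
    intro σ hσ σ' hσ'
    rw [← prod_mul_distrib]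
    apply prod_le_prod
    · intro j hj
      exact h0 j hj σ hσ σ' hσ'
    · intro j hj
      have h3 := hv j hj
      have h4 := ha j hj
      split_ifs with h
      · refine (h2 j hj σ hσ σ' hσ' h).trans ?_
        have h5 : (v j + a j) * (a j / v j) = a j + a j * (a j / v j) := by field_simp
        rw [h5]
        have := mul_nonneg h4 (hx j hj)
        linarith
      · rw [mul_one]
        push Not at h
        exact h1 j hj σ hσ σ' hσ' h.1 h.2
  calc ∑ σ ∈ range (J + 1), ∑ σ' ∈ range (J + 1), ∏ j ∈ range J, κ j σ σ'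
      ≤ ∑ σ ∈ range (J + 1), ∑ σ' ∈ range (J + 1), ((∏ j ∈ range J, (v j + a j)) *
        ∏ j ∈ range J, (if j = σ ∨ j = σ' then a j / v j else 1)) :=
        sum_le_sum fun σ hσ => sum_le_sum fun σ' hσ' => hterm σ hσ σ' hσ'
    _ = (∏ j ∈ range J, (v j + a j)) * ∑ σ ∈ range (J + 1), ∑ σ' ∈ range (J + 1),
        ∏ j ∈ range J, (if j = σ ∨ j = σ' then a j / v j else 1) := by
        rw [mul_sum]
        apply sum_congr rfl
        intro σ _
        rw [mul_sum]
    _ ≤ (∏ j ∈ range J, (v j + a j)) * Real.exp (3 * ∑ j ∈ range J, a j / v j) :=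
        mul_le_mul_of_nonneg_left (w_sum J _ hx) hP0
    _ ≤ ((∏ j ∈ range J, v j) * Real.exp (∑ j ∈ range J, a j / v j)) *
        Real.exp (3 * ∑ j ∈ range J, a j / v j) :=
        mul_le_mul_of_nonneg_right hP (Real.exp_pos _).le
    _ = (∏ j ∈ range J, v j) * Real.exp (4 * ∑ j ∈ range J, a j / v j) := by
        rw [mul_assoc, ← Real.exp_add]
        congr 2
        ring

end Pool.Agent.H75.AP
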