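import Pool.Agent.H75.AP.Count

/-!
# Module EXPAND (helpwanted): sums over a progression of products of block functions

`sum_pair`. Expand `ev (T j) (f j) n = ∑_{S ∈ (T j).powerset} (if ∀ p ∈ S, p ∣ n then f j S else 0)`
(`ev` is defined as a sum over `((T j).filter (· ∣ n)).powerset`; this rewriting is a small lemma) and
`∏_{j ∈ range J} ∑_{S ∈ (T j).powerset} F j S = ∑_{φ ∈ (range J).pi (fun j => (T j).powerset)} ∏_{x ∈ (range J).attach} F x.1 (φ x.1 x.2)`
(`Finset.prod_sum`; or use `Fin J` and `Fintype.piFinset` / `Finset.prod_univ_sum`, or an induction on `J`, see below).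
For families `φ, ψ` (choices of `S_j, S'_j ⊆ T_j`) put `S = ⋃ S_j`, `S' = ⋃ S'_j` (disjoint unions because the `T_j` are
pairwise disjoint). By COUNT the `l`-sum of the product of indicators is `0` if some `p ∈ S ∩ S'` does not divide
`a - a'` (then also `∏_j (if S_j ∩ S'_j ⊆ HH (T j) a a' then .. else 0) = 0`, since `S ∩ S' = ⋃ (S_j ∩ S'_j)`), and otherwise it is within
`1` of `L * ∏_{p ∈ S ∪ S'} 1/p = L * ∏_j ∏_{p ∈ S_j ∪ S'_j} 1/p`. The coefficients have absolute value `≤ 1` and are nonzero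
for at most `∏ nz (T j) (f j) * ∏ nz (T j) (g j)` pairs `(φ, ψ)`.

Alternative by induction on `J` with a more general statement: for all finite sets `S₀, S₀'` of primes
not dividing `Q` and disjoint from all `T j` (`j < J`):
`|∑_{l < L, all p ∈ S₀ divide a + Q l, all p ∈ S₀' divide a' + Q l} ∏ ev .. * ∏ ev .. - L * 1[∀ p ∈ S₀ ∩ S₀', p ∣ a - a'] * ∏_{p ∈ S₀ ∪ S₀'} 1/p * ∏_j pv ..| ≤ ∏ nz * ∏ nz`;
the step expands only the factors of the block `J` and moves `S_J, S'_J` into `S₀, S₀'`. This is probably the easiest way in Lean.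

`sum_single` is `sum_pair` with `g = fun _ => fU 0` and `a' = a` (`ev T (fU 0) n = 1`, `pv T H f (fU 0) = mv T f`,
`nz T (fU 0) = 1`), or the same proof.
-/

namespace Pool.Agent.H75.AP

open Finset

namespace ExpandAux

open Classical in
noncomputable def ind (S : Finset ℕ) (n : ℕ) : ℝ := if ∀ p ∈ S, p ∣ n then 1 else 0

lemma ind_union (S S' : Finset ℕ) (n : ℕ) : ind (S ∪ S') n = ind S n * ind S' n := by
  classical
  unfold ind
  by_cases h1 : ∀ p ∈ S, p ∣ n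
  · by_cases h2 : ∀ p ∈ S', p ∣ n
    · have h3 : ∀ p ∈ S ∪ S', p ∣ n := by
        intro p hp
        rcases mem_union.1 hp with h | h
        · exact h1 p h
        · exact h2 p h
      rw [if_pos h1, if_pos h2, if_pos h3]; norm_num
    · have h3 : ¬ ∀ p ∈ S ∪ S', p ∣ n := fun h => h2 fun p hp => h p (mem_union_right _ hp)
      rw [if_neg h2, if_neg h3]; norm_num
  · have h3 : ¬ ∀ p ∈ S ∪ S', p ∣ n := fun h => h1 fun p hp => h p (mem_union_left _ hp)
    rw [if_neg h1, if_neg h3]; norm_num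

lemma ev_eq (T : Finset ℕ) (f : Finset ℕ → ℝ) (n : ℕ) :
    ev T f n = ∑ S ∈ T.powerset, f S * ind S n := by
  classical
  unfold ev ind
  have hsub : (T.filter (· ∣ n)).powerset ⊆ T.powerset :=
    powerset_mono.2 (filter_subset _ _)
  rw [← Finset.sum_subset hsub]
  · apply Finset.sum_congr rfl
    intro S hS
    have : ∀ p ∈ S, p ∣ n := fun p hp => (mem_filter.1 (mem_powerset.1 hS hp)).2
    rw [if_pos this, mul_one]
  · intro S hS hS'
    have : ¬ ∀ p ∈ S, p ∣ n := by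
      intro h
      apply hS'
      rw [mem_powerset]
      intro p hp
      exact mem_filter.2 ⟨mem_powerset.1 hS hp, h p hp⟩
    rw [if_neg this, mul_zero]

open Classical in
noncomputable def Mn (a a' : ℕ) (S S' : Finset ℕ) : ℝ :=
  if ∀ p ∈ S ∩ S', (p : ℤ) ∣ (a : ℤ) - (a' : ℤ) then ∏ p ∈ S ∪ S', (1 / (p : ℝ)) else 0

lemma sum_abs_le_nz (T : Finset ℕ) (f : Finset ℕ → ℝ) (hf : ∀ S, |f S| ≤ 1) :
    ∑ S ∈ T.powerset, |f S| ≤ (nz T f : ℝ) := by
  classical
  unfold nz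
  have h1 : ∑ S ∈ T.powerset, |f S| ≤ ∑ S ∈ T.powerset, (if f S ≠ 0 then (1 : ℝ) else 0) := by
    apply Finset.sum_le_sum
    intro S _
    split_ifs with h
    · exact hf S
    · have : f S = 0 := not_not.1 h
      rw [this, abs_zero]
  refine h1.trans (le_of_eq ?_)
  rw [Finset.sum_ite, Finset.sum_const_zero, add_zero, Finset.sum_const, nsmul_eq_mul, mul_one]

lemma Mn_union (a a' : ℕ) (T S₀ S₀' S S' : Finset ℕ) (h0 : Disjoint S₀ T) (h0' : Disjoint S₀' T)
    (hS : S ⊆ T) (hS' : S' ⊆ T) :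
    Mn a a' (S₀ ∪ S) (S₀' ∪ S') =
      Mn a a' S₀ S₀' * (if S ∩ S' ⊆ HH T a a' then ∏ p ∈ S ∪ S', (1 / (p : ℝ)) else 0) := by
  classical
  have hint : (S₀ ∪ S) ∩ (S₀' ∪ S') = (S₀ ∩ S₀') ∪ (S ∩ S') := by
    ext p
    simp only [mem_inter, mem_union]
    constructor
    · rintro ⟨h1 | h1, h2 | h2⟩
      · exact Or.inl ⟨h1, h2⟩
      · exact absurd (hS' h2) (Finset.disjoint_left.1 h0 h1)
      · exact absurd (hS h1) (Finset.disjoint_left.1 h0' h2)
      · exact Or.inr ⟨h1, h2⟩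
    · rintro (⟨h1, h2⟩ | ⟨h1, h2⟩)
      · exact ⟨Or.inl h1, Or.inl h2⟩
      · exact ⟨Or.inr h1, Or.inr h2⟩
  have hun : (S₀ ∪ S) ∪ (S₀' ∪ S') = (S₀ ∪ S₀') ∪ (S ∪ S') := by
    ext p; simp only [mem_union]; tauto
  have hdis : Disjoint (S₀ ∪ S₀') (S ∪ S') := by
    rw [Finset.disjoint_left]
    intro p hp hp'
    have hpT : p ∈ T := by
      rcases mem_union.1 hp' with h | h
      · exact hS h
      · exact hS' h
    rcases mem_union.1 hp with h | h
    · exact Finset.disjoint_left.1 h0 h hpT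
    · exact Finset.disjoint_left.1 h0' h hpT
  unfold Mn
  rw [hint, hun, Finset.prod_union hdis]
  have hH : (S ∩ S' ⊆ HH T a a') ↔ ∀ p ∈ S ∩ S', (p : ℤ) ∣ (a : ℤ) - (a' : ℤ) := by
    unfold HH
    constructor
    · intro h p hp
      exact (mem_filter.1 (h hp)).2
    · intro h p hp
      exact mem_filter.2 ⟨hS (mem_inter.1 hp).1, h p hp⟩
  by_cases h1 : ∀ p ∈ S₀ ∩ S₀', (p : ℤ) ∣ (a : ℤ) - (a' : ℤ)
  · by_cases h2 : ∀ p ∈ S ∩ S', (p : ℤ) ∣ (a : ℤ) - (a' : ℤ)
    · have h3 : ∀ p ∈ (S₀ ∩ S₀') ∪ (S ∩ S'), (p : ℤ) ∣ (a : ℤ) - (a' : ℤ) := by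
        intro p hp
        rcases mem_union.1 hp with h | h
        · exact h1 p h
        · exact h2 p h
      rw [if_pos h1, if_pos h3, if_pos (hH.2 h2)]
    · have h3 : ¬ ∀ p ∈ (S₀ ∩ S₀') ∪ (S ∩ S'), (p : ℤ) ∣ (a : ℤ) - (a' : ℤ) :=
        fun h => h2 fun p hp => h p (mem_union_right _ hp)
      have h4 : ¬ (S ∩ S' ⊆ HH T a a') := fun h => h2 (hH.1 h)
      rw [if_neg h3, if_neg h4, mul_zero]
  · have h3 : ¬ ∀ p ∈ (S₀ ∩ S₀') ∪ (S ∩ S'), (p : ℤ) ∣ (a : ℤ) - (a' : ℤ) :=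
      fun h => h1 fun p hp => h p (mem_union_left _ hp)
    rw [if_neg h3, if_neg h1, zero_mul]

/-- the weighted sum with prescribed divisors -/
noncomputable def AA (J Q L a a' : ℕ) (T : ℕ → Finset ℕ) (f g : ℕ → Finset ℕ → ℝ)
    (S S' : Finset ℕ) : ℝ :=
  ∑ l ∈ range L, ind S (a + Q * l) * ind S' (a' + Q * l) *
    ((∏ j ∈ range J, ev (T j) (f j) (a + Q * l)) * (∏ j ∈ range J, ev (T j) (g j) (a' + Q * l)))

lemma AA_succ (J Q L a a' : ℕ) (T : ℕ → Finset ℕ) (f g : ℕ → Finset ℕ → ℝ)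
    (S₀ S₀' : Finset ℕ) :
    AA (J + 1) Q L a a' T f g S₀ S₀' =
      ∑ S ∈ (T J).powerset, ∑ S' ∈ (T J).powerset, f J S * g J S' *
        AA J Q L a a' T f g (S₀ ∪ S) (S₀' ∪ S') := by
  unfold AA
  simp_rw [Finset.mul_sum]
  have h1 : ∀ S ∈ (T J).powerset, (∑ S' ∈ (T J).powerset, ∑ l ∈ range L, f J S * g J S' *
      (ind (S₀ ∪ S) (a + Q * l) * ind (S₀' ∪ S') (a' + Q * l) *
      ((∏ j ∈ range J, ev (T j) (f j) (a + Q * l)) *
        (∏ j ∈ range J, ev (T j) (g j) (a' + Q * l))))) =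
      ∑ l ∈ range L, ∑ S' ∈ (T J).powerset, f J S * g J S' *
      (ind (S₀ ∪ S) (a + Q * l) * ind (S₀' ∪ S') (a' + Q * l) *
      ((∏ j ∈ range J, ev (T j) (f j) (a + Q * l)) *
        (∏ j ∈ range J, ev (T j) (g j) (a' + Q * l)))) := by
    intro S _
    exact Finset.sum_comm
  rw [Finset.sum_congr rfl h1, Finset.sum_comm]
  apply Finset.sum_congr rfl
  intro l _
  rw [Finset.prod_range_succ, Finset.prod_range_succ, ev_eq (T J) (f J), ev_eq (T J) (g J)]
  set P := ∏ j ∈ range J, ev (T j) (f j) (a + Q * l)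
  set R := ∏ j ∈ range J, ev (T j) (g j) (a' + Q * l)
  have h2 : ind S₀ (a + Q * l) * ind S₀' (a' + Q * l) *
      (P * (∑ S ∈ (T J).powerset, f J S * ind S (a + Q * l)) *
        (R * ∑ S ∈ (T J).powerset, g J S * ind S (a' + Q * l))) =
      (ind S₀ (a + Q * l) * ind S₀' (a' + Q * l) * (P * R)) *
      ((∑ S ∈ (T J).powerset, f J S * ind S (a + Q * l)) *
        (∑ S ∈ (T J).powerset, g J S * ind S (a' + Q * l))) := by ring
  rw [h2, Finset.sum_mul_sum, Finset.mul_sum]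
  apply Finset.sum_congr rfl
  intro S _
  rw [Finset.mul_sum]
  apply Finset.sum_congr rfl
  intro S' _
  rw [ind_union, ind_union]
  ring

lemma main_succ (a a' : ℕ) (T : Finset ℕ) (f g : Finset ℕ → ℝ)
    (S₀ S₀' : Finset ℕ) (h0 : Disjoint S₀ T) (h0' : Disjoint S₀' T) :
    ∑ S ∈ T.powerset, ∑ S' ∈ T.powerset, f S * g S' * Mn a a' (S₀ ∪ S) (S₀' ∪ S') =
      Mn a a' S₀ S₀' * pv T (HH T a a') f g := by
  unfold pv
  rw [Finset.mul_sum]
  apply Finset.sum_congr rfl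
  intro S hS
  rw [Finset.mul_sum]
  apply Finset.sum_congr rfl
  intro S' hS'
  rw [Mn_union a a' T S₀ S₀' S S' h0 h0' (mem_powerset.1 hS) (mem_powerset.1 hS')]
  split_ifs <;> ring

lemma AA_zero (Q L a a' : ℕ) (T : ℕ → Finset ℕ) (f g : ℕ → Finset ℕ → ℝ)
    (S S' : Finset ℕ) :
    AA 0 Q L a a' T f g S S' = ((((range L).filter (fun l => (∀ p ∈ S, p ∣ a + Q * l) ∧
      (∀ p ∈ S', p ∣ a' + Q * l))).card : ℕ) : ℝ) := by
  classical
  unfold AA ind
  rw [Finset.card_filter]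
  push_cast
  apply Finset.sum_congr rfl
  intro l _
  rw [Finset.prod_range_zero, Finset.prod_range_zero, mul_one, mul_one]
  by_cases h1 : ∀ p ∈ S, p ∣ a + Q * l
  · by_cases h2 : ∀ p ∈ S', p ∣ a' + Q * l
    · rw [if_pos h1, if_pos h2, if_pos ⟨h1, h2⟩, mul_one]
    · have h3 : ¬ ((∀ p ∈ S, p ∣ a + Q * l) ∧ (∀ p ∈ S', p ∣ a' + Q * l)) := fun h => h2 h.2
      rw [if_neg h2, if_neg h3, mul_zero]
  · have h3 : ¬ ((∀ p ∈ S, p ∣ a + Q * l) ∧ (∀ p ∈ S', p ∣ a' + Q * l)) := fun h => h1 h.1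
    rw [if_neg h1, if_neg h3, zero_mul]

theorem gen (Q L a a' : ℕ) (T : ℕ → Finset ℕ) (f g : ℕ → Finset ℕ → ℝ)
    (hf : ∀ j S, |f j S| ≤ 1) (hg : ∀ j S, |g j S| ≤ 1) : ∀ (J : ℕ),
    (∀ j ∈ range J, ∀ p ∈ T j, p.Prime ∧ ¬ p ∣ Q) →
    (∀ i ∈ range J, ∀ j ∈ range J, i ≠ j → Disjoint (T i) (T j)) →
    ∀ (S₀ S₀' : Finset ℕ), (∀ p ∈ S₀, p.Prime ∧ ¬ p ∣ Q) → (∀ p ∈ S₀', p.Prime ∧ ¬ p ∣ Q) →
    (∀ j ∈ range J, Disjoint S₀ (T j)) → (∀ j ∈ range J, Disjoint S₀' (T j)) →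
    |AA J Q L a a' T f g S₀ S₀' - L * Mn a a' S₀ S₀' *
      ∏ j ∈ range J, pv (T j) (HH (T j) a a') (f j) (g j)| ≤
    (∏ j ∈ range J, (nz (T j) (f j) : ℝ)) * ∏ j ∈ range J, (nz (T j) (g j) : ℝ) := by
  intro J
  induction J with
  | zero =>
    intro _ _ S₀ S₀' hS hS' _ _
    rw [AA_zero, Finset.prod_range_zero, Finset.prod_range_zero, Finset.prod_range_zero, mul_one,
      mul_one]
    unfold Mn
    split_ifs with h
    · exact count_pair Q L a a' S₀ S₀' hS hS' h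
    · rw [count_pair_zero Q L a a' S₀ S₀' h]
      simp
  | succ J ih =>
    intro hT hd S₀ S₀' hS hS' h0 h0'
    have hJ : J ∈ range (J + 1) := mem_range.2 (Nat.lt_succ_self J)
    have hsub : ∀ j ∈ range J, j ∈ range (J + 1) := fun j hj =>
      mem_range.2 (Nat.lt_succ_of_lt (mem_range.1 hj))
    rw [AA_succ, Finset.prod_range_succ, Finset.prod_range_succ, Finset.prod_range_succ]
    set Pv := ∏ j ∈ range J, pv (T j) (HH (T j) a a') (f j) (g j) with hPv
    set Nf := ∏ j ∈ range J, (nz (T j) (f j) : ℝ) with hNf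
    set Ng := ∏ j ∈ range J, (nz (T j) (g j) : ℝ) with hNg
    have hNf0 : 0 ≤ Nf := Finset.prod_nonneg fun j _ => Nat.cast_nonneg _
    have hNg0 : 0 ≤ Ng := Finset.prod_nonneg fun j _ => Nat.cast_nonneg _
    have hmain : (L : ℝ) * Mn a a' S₀ S₀' * (Pv * pv (T J) (HH (T J) a a') (f J) (g J)) =
        ∑ S ∈ (T J).powerset, ∑ S' ∈ (T J).powerset, f J S * g J S' *
          (L * Mn a a' (S₀ ∪ S) (S₀' ∪ S') * Pv) := by
      have := main_succ a a' (T J) (f J) (g J) S₀ S₀' (h0 J hJ) (h0' J hJ)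
      have e : (L : ℝ) * Mn a a' S₀ S₀' * (Pv * pv (T J) (HH (T J) a a') (f J) (g J)) =
        L * Pv * (Mn a a' S₀ S₀' * pv (T J) (HH (T J) a a') (f J) (g J)) := by ring
      rw [e, ← this, Finset.mul_sum]
      apply Finset.sum_congr rfl
      intro S _
      rw [Finset.mul_sum]
      apply Finset.sum_congr rfl
      intro S' _
      ring
    rw [hmain, ← Finset.sum_sub_distrib]
    have hstep : ∀ S ∈ (T J).powerset, ∀ S' ∈ (T J).powerset,
        |f J S * g J S' * AA J Q L a a' T f g (S₀ ∪ S) (S₀' ∪ S') -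
          f J S * g J S' * (L * Mn a a' (S₀ ∪ S) (S₀' ∪ S') * Pv)| ≤
        |f J S| * |g J S'| * (Nf * Ng) := by
      intro S hS1 S' hS1'
      rw [← mul_sub, abs_mul, abs_mul]
      apply mul_le_mul_of_nonneg_left _ (by positivity)
      have hsT : S ⊆ T J := mem_powerset.1 hS1
      have hsT' : S' ⊆ T J := mem_powerset.1 hS1'
      apply ih (fun j hj => hT j (hsub j hj)) (fun i hi j hj hij => hd i (hsub i hi) j (hsub j hj) hij)
      · intro p hp
        rcases mem_union.1 hp with h | h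
        · exact hS p h
        · exact hT J hJ p (hsT h)
      · intro p hp
        rcases mem_union.1 hp with h | h
        · exact hS' p h
        · exact hT J hJ p (hsT' h)
      · intro j hj
        rw [Finset.disjoint_union_left]
        refine ⟨h0 j (hsub j hj), ?_⟩
        have : J ≠ j := fun h => by
          rw [← h] at hj; exact absurd (mem_range.1 hj) (lt_irrefl _)
        exact Finset.disjoint_of_subset_left hsT (hd J hJ j (hsub j hj) this)
      · intro j hj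
        rw [Finset.disjoint_union_left]
        refine ⟨h0' j (hsub j hj), ?_⟩
        have : J ≠ j := fun h => by
          rw [← h] at hj; exact absurd (mem_range.1 hj) (lt_irrefl _)
        exact Finset.disjoint_of_subset_left hsT' (hd J hJ j (hsub j hj) this)
    calc |∑ S ∈ (T J).powerset, (∑ S' ∈ (T J).powerset, f J S * g J S' *
          AA J Q L a a' T f g (S₀ ∪ S) (S₀' ∪ S') -
          ∑ S' ∈ (T J).powerset, f J S * g J S' * (L * Mn a a' (S₀ ∪ S) (S₀' ∪ S') * Pv))|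
        ≤ ∑ S ∈ (T J).powerset, ∑ S' ∈ (T J).powerset, |f J S| * |g J S'| * (Nf * Ng) := by
          refine (Finset.abs_sum_le_sum_abs _ _).trans (Finset.sum_le_sum fun S hS1 => ?_)
          rw [← Finset.sum_sub_distrib]
          exact (Finset.abs_sum_le_sum_abs _ _).trans
            (Finset.sum_le_sum fun S' hS1' => hstep S hS1 S' hS1')
      _ = (∑ S ∈ (T J).powerset, |f J S|) * (∑ S' ∈ (T J).powerset, |g J S'|) * (Nf * Ng) := by
          rw [Finset.sum_mul_sum, Finset.sum_mul]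
          apply Finset.sum_congr rfl
          intro S _
          rw [Finset.sum_mul]
      _ ≤ (nz (T J) (f J) : ℝ) * (nz (T J) (g J) : ℝ) * (Nf * Ng) := by
          apply mul_le_mul_of_nonneg_right _ (by positivity)
          exact mul_le_mul (sum_abs_le_nz _ _ (hf J)) (sum_abs_le_nz _ _ (hg J))
            (Finset.sum_nonneg fun _ _ => abs_nonneg _) (Nat.cast_nonneg _)
      _ = Nf * (nz (T J) (f J) : ℝ) * (Ng * (nz (T J) (g J) : ℝ)) := by ring

end ExpandAux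

open ExpandAux in
theorem sum_pair (J Q L a a' : ℕ) (T : ℕ → Finset ℕ) (f g : ℕ → Finset ℕ → ℝ)
    (hT : ∀ j ∈ range J, ∀ p ∈ T j, p.Prime ∧ ¬ p ∣ Q)
    (hd : ∀ i ∈ range J, ∀ j ∈ range J, i ≠ j → Disjoint (T i) (T j))
    (hf : ∀ j S, |f j S| ≤ 1) (hg : ∀ j S, |g j S| ≤ 1) :
    |∑ l ∈ range L, (∏ j ∈ range J, ev (T j) (f j) (a + Q * l)) *
        (∏ j ∈ range J, ev (T j) (g j) (a' + Q * l)) -
      L * ∏ j ∈ range J, pv (T j) (HH (T j) a a') (f j) (g j)| ≤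
    (∏ j ∈ range J, (nz (T j) (f j) : ℝ)) * ∏ j ∈ range J, (nz (T j) (g j) : ℝ) := by
  have h := gen Q L a a' T f g hf hg J hT hd ∅ ∅ (by simp) (by simp) (by simp) (by simp)
  have e1 : AA J Q L a a' T f g ∅ ∅ = ∑ l ∈ range L, (∏ j ∈ range J, ev (T j) (f j) (a + Q * l)) *
        (∏ j ∈ range J, ev (T j) (g j) (a' + Q * l)) := by
    unfold AA ind
    apply Finset.sum_congr rfl
    intro l _
    simp
  have e2 : Mn a a' ∅ ∅ = 1 := by
    unfold Mn
    simp
  rw [e1, e2, mul_one] at h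
  exact h

open ExpandAux in
theorem sum_single (J Q L a : ℕ) (T : ℕ → Finset ℕ) (f : ℕ → Finset ℕ → ℝ)
    (hT : ∀ j ∈ range J, ∀ p ∈ T j, p.Prime ∧ ¬ p ∣ Q)
    (hd : ∀ i ∈ range J, ∀ j ∈ range J, i ≠ j → Disjoint (T i) (T j))
    (hf : ∀ j S, |f j S| ≤ 1) :
    |∑ l ∈ range L, (∏ j ∈ range J, ev (T j) (f j) (a + Q * l)) -
      L * ∏ j ∈ range J, mv (T j) (f j)| ≤ ∏ j ∈ range J, (nz (T j) (f j) : ℝ) := by
  classical
  have h := sum_pair J Q L a a T f (fun _ => fU 0) hT hd hf (fun _ S => fU_abs_le 0 S)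
  have hfU : ∀ S : Finset ℕ, fU 0 S = if S = ∅ then 1 else 0 := by
    intro S
    unfold fU
    by_cases hS : S = ∅
    · subst hS; simp
    · have : ¬ (S.card ≤ 0) := by
        rw [Nat.le_zero, Finset.card_eq_zero]; exact hS
      rw [if_neg this, if_neg hS]
  have e1 : ∀ (T : Finset ℕ) (n : ℕ), ev T (fU 0) n = 1 := by
    intro T n
    unfold ev
    simp_rw [hfU]
    rw [Finset.sum_ite_eq']
    simp
  have e2 : ∀ (T : Finset ℕ) (H : Finset ℕ) (f : Finset ℕ → ℝ), pv T H f (fU 0) = mv T f := by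
    intro T H f
    unfold pv mv
    apply Finset.sum_congr rfl
    intro S _
    rw [Finset.sum_eq_single_of_mem (∅ : Finset ℕ) (by simp)]
    · simp [hfU]
    · intro S' _ hne
      rw [hfU, if_neg hne]
      simp
  have e3 : ∀ T : Finset ℕ, nz T (fU 0) = 1 := by
    intro T
    unfold nz
    have : T.powerset.filter (fun S => fU 0 S ≠ 0) = {∅} := by
      ext S
      rw [mem_filter, mem_singleton, hfU]
      constructor
      · rintro ⟨_, h⟩
        by_contra hS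
        rw [if_neg hS] at h
        exact h rfl
      · rintro rfl
        simp
    rw [this, card_singleton]
  simp only [e1, e2, e3, Finset.prod_const_one, mul_one, Nat.cast_one] at h
  exact h

end Pool.Agent.H75.AP
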