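import Pool.Agent.H75.AP.Blocks

/-!
# Module LEVEL (helpwanted): level of support of the weights

* `TT_card_le`: `TT X y j ⊆ {2, …, ⌊X ^ th j⌋}` and `X ^ th j ≥ 1` (for `X ≥ 1`), so `|TT| + 1 ≤ X ^ th j`.
* `nz T (fU b) ≤ (|T| + 1)^b`: the subsets with at most `b` elements (e.g. they inject into functions `Fin b → Option T`, or
  `∑_{c ≤ b} C(n,c) ≤ (n+1)^b`; induction on `b`). `nz T (fC s) = C(|T|, s) ≤ |T|^s ≤ (|T|+1)^s` (`Nat.choose_le_pow`); `nz T (f0 ω) ≤ |T| ≤ |T| + 1`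
  (only singletons have nonzero coefficient).
* Hence `nz (TT X y j) (fu j) ≤ X ^ (bb j * th j)`, `nz (TT X y j) (fc X j) ≤ X ^ ((bb j + 1) * th j)`, and
  `∏_{j < J} nz (TT X y j) (FF X σ j) ≤ X ^ (∑_{j<J} bb j * th j + 17/50)` (the extra exponent is `th σ ≤ th 0 = 17/50` if `σ < J`, else `0`), and
  `∑_{1 ≤ j < J} (2j+2) (1/50) 3^(-(j-1)) ≤ 7.5/50 = 15/100` for every `J`
  (`∑_{i<n} (2i+4) 3^(-i) = 15/2 - (n + 5/2... ) 3^(1-n)`: prove by induction a closed form `∑_{i<n} (2i+4)/3^i = 15/2 - (α n + β)/3^n`; check: `α = 3, β = 15/2`).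
-/

namespace Pool.Agent.H75.AP

open Finset

theorem TT_card_le (X y j : ℕ) (hX : 1 ≤ X) : ((TT X y j).card : ℝ) + 1 ≤ (X : ℝ) ^ th j := by
  have hv : (1 : ℝ) ≤ (X : ℝ) ^ th j := Real.one_le_rpow (by exact_mod_cast hX) (th_pos j).le
  have h1 : TT X y j ⊆ Finset.Icc 2 ⌊(X : ℝ) ^ th j⌋₊ := by
    intro p hp
    rw [Finset.mem_Icc]
    exact ⟨TT_two_le hp, (Nat.le_floor_iff (zero_le_one.trans hv)).2 (mem_TT.1 hp).2.2.2⟩
  have h2 := Finset.card_le_card h1
  rw [Nat.card_Icc] at h2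
  have h3 : 1 ≤ ⌊(X : ℝ) ^ th j⌋₊ := (Nat.one_le_floor_iff _).2 hv
  have h4 : (TT X y j).card + 1 ≤ ⌊(X : ℝ) ^ th j⌋₊ := by omega
  calc ((TT X y j).card : ℝ) + 1 = (((TT X y j).card + 1 : ℕ) : ℝ) := by push_cast; rfl
    _ ≤ (⌊(X : ℝ) ^ th j⌋₊ : ℝ) := by exact_mod_cast h4
    _ ≤ (X : ℝ) ^ th j := Nat.floor_le (zero_le_one.trans hv)

theorem nz_le_of_card (T : Finset ℕ) (f : Finset ℕ → ℝ) (s : ℕ)
    (h : ∀ S, f S ≠ 0 → S.card = s) : nz T f ≤ T.card.choose s := by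
  classical
  unfold nz
  rw [← Finset.card_powersetCard]
  refine Finset.card_le_card fun S hS => ?_
  rw [Finset.mem_filter, Finset.mem_powerset] at hS
  exact Finset.mem_powersetCard.2 ⟨hS.1, h S hS.2⟩

theorem sum_choose_le (n b : ℕ) : ∑ c ∈ range (b + 1), n.choose c ≤ (n + 1) ^ b := by
  induction b with
  | zero => simp
  | succ b ih =>
    rw [Finset.sum_range_succ]
    have h1 : n.choose (b + 1) ≤ n ^ (b + 1) := Nat.choose_le_pow _ _
    have h2 : n ^ (b + 1) ≤ n * (n + 1) ^ b := by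
      rw [pow_succ']
      exact Nat.mul_le_mul_left _ (Nat.pow_le_pow_left (Nat.le_succ n) b)
    calc ∑ c ∈ range (b + 1), n.choose c + n.choose (b + 1)
        ≤ (n + 1) ^ b + n * (n + 1) ^ b := add_le_add ih (h1.trans h2)
      _ = (n + 1) ^ (b + 1) := by ring

theorem nz_fU_le (T : Finset ℕ) (b : ℕ) : nz T (fU b) ≤ (T.card + 1) ^ b := by
  classical
  refine le_trans ?_ (sum_choose_le T.card b)
  unfold nz
  have h1 : T.powerset.filter (fun S => fU b S ≠ 0)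
      ⊆ (range (b + 1)).biUnion (fun c => T.powersetCard c) := by
    intro S hS
    rw [Finset.mem_filter, Finset.mem_powerset] at hS
    rw [Finset.mem_biUnion]
    refine ⟨S.card, ?_, Finset.mem_powersetCard.2 ⟨hS.1, rfl⟩⟩
    rw [Finset.mem_range, Nat.lt_succ_iff]
    by_contra hc
    apply hS.2
    unfold fU
    rw [if_neg hc]
  refine (Finset.card_le_card h1).trans (Finset.card_biUnion_le.trans ?_)
  exact le_of_eq (Finset.sum_congr rfl fun c _ => Finset.card_powersetCard _ _)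

theorem nz_fC_le (T : Finset ℕ) (s : ℕ) : nz T (fC s) ≤ (T.card + 1) ^ s := by
  refine (nz_le_of_card T (fC s) s ?_).trans ((Nat.choose_le_pow _ _).trans
    (Nat.pow_le_pow_left (Nat.le_succ _) s))
  intro S hS
  by_contra hc
  apply hS
  unfold fC
  rw [if_neg hc]

theorem nz_f0_le (T : Finset ℕ) (ω : ℕ → ℝ) : nz T (f0 ω) ≤ T.card + 1 := by
  refine (nz_le_of_card T (f0 ω) 1 ?_).trans (by rw [Nat.choose_one_right]; exact Nat.le_succ _)
  intro S hS
  by_contra hc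
  apply hS
  unfold f0
  rw [if_neg hc]

theorem nz_fu_rpow (X y j : ℕ) (hX : 1 ≤ X) :
    (nz (TT X y j) (fu j) : ℝ) ≤ (X : ℝ) ^ ((bb j : ℝ) * th j) := by
  have h1 : (nz (TT X y j) (fu j) : ℝ) ≤ (((TT X y j).card : ℝ) + 1) ^ bb j := by
    exact_mod_cast nz_fU_le (TT X y j) (bb j)
  refine h1.trans ((pow_le_pow_left₀ (by positivity) (TT_card_le X y j hX) (bb j)).trans ?_)
  rw [← Real.rpow_natCast, ← Real.rpow_mul (Nat.cast_nonneg X), mul_comm]

theorem nz_fc_rpow (X y j : ℕ) (hX : 1 ≤ X) :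
    (nz (TT X y j) (fc X j) : ℝ) ≤ (X : ℝ) ^ ((bb j : ℝ) * th j + th j) := by
  have h1 : (nz (TT X y j) (fc X j) : ℝ) ≤ (((TT X y j).card : ℝ) + 1) ^ (bb j + 1) := by
    unfold fc
    by_cases hj : j = 0
    · rw [if_pos hj]
      have h2 := nz_f0_le (TT X y j) (fun p => max 0 (min (1 / 2) (om X p)))
      have h3 : bb j = 0 := by
        unfold bb
        rw [if_pos hj]
      rw [h3, zero_add, pow_one]
      exact_mod_cast h2
    · rw [if_neg hj]
      exact_mod_cast nz_fC_le (TT X y j) (bb j + 1)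
  refine h1.trans ((pow_le_pow_left₀ (by positivity) (TT_card_le X y j hX) (bb j + 1)).trans ?_)
  rw [← Real.rpow_natCast, ← Real.rpow_mul (Nat.cast_nonneg X)]
  push_cast
  rw [mul_comm, add_mul, one_mul]

theorem sum_bb_th (n : ℕ) : ∑ j ∈ range (n + 1), (bb j : ℝ) * th j
    = 15 / 100 - (3 * n + 15 / 2) / 50 * (1 / 3) ^ n := by
  induction n with
  | zero => norm_num [bb, th]
  | succ n ih =>
    rw [Finset.sum_range_succ, ih]
    have h1 : bb (n + 1) = 2 * (n + 1) + 2 := by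
      unfold bb
      rw [if_neg (Nat.succ_ne_zero n)]
    have h2 : th (n + 1) = 1 / 50 * (1 / 3) ^ n := by
      unfold th
      rw [if_neg (Nat.succ_ne_zero n), Nat.add_sub_cancel]
    rw [h1, h2]
    push_cast
    rw [pow_succ]
    ring

theorem sum_bb_th_le (J : ℕ) : ∑ j ∈ range J, (bb j : ℝ) * th j ≤ 15 / 100 := by
  cases J with
  | zero => norm_num
  | succ n =>
    rw [sum_bb_th]
    have : (0 : ℝ) ≤ (3 * n + 15 / 2) / 50 * (1 / 3) ^ n := by positivity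
    linarith

theorem nz_prod_le (X y σ : ℕ) (hX : 1 ≤ X) :
    ∏ j ∈ range (JJ X), (nz (TT X y j) (FF X σ j) : ℝ) ≤ (X : ℝ) ^ (49 / 100 : ℝ) := by
  have hX1 : (1 : ℝ) ≤ (X : ℝ) := by exact_mod_cast hX
  have hX0 : (0 : ℝ) < (X : ℝ) := zero_lt_one.trans_le hX1
  calc ∏ j ∈ range (JJ X), (nz (TT X y j) (FF X σ j) : ℝ)
      ≤ ∏ j ∈ range (JJ X), (X : ℝ) ^ ((bb j : ℝ) * th j + if j = σ then th j else 0) := by
        refine Finset.prod_le_prod (fun j _ => Nat.cast_nonneg _) fun j _ => ?_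
        unfold FF
        by_cases hj : j = σ
        · rw [if_pos hj, if_pos hj]
          exact nz_fc_rpow X y j hX
        · rw [if_neg hj, if_neg hj, add_zero]
          exact nz_fu_rpow X y j hX
    _ = (X : ℝ) ^ ∑ j ∈ range (JJ X), ((bb j : ℝ) * th j + if j = σ then th j else 0) := by
        rw [Real.rpow_sum_of_pos hX0]
    _ ≤ (X : ℝ) ^ (49 / 100 : ℝ) := by
        refine Real.rpow_le_rpow_of_exponent_le hX1 ?_
        rw [Finset.sum_add_distrib, Finset.sum_ite_eq']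
        have h1 := sum_bb_th_le (JJ X)
        have h2 : th σ ≤ 17 / 50 := by
          have := th_anti (Nat.zero_le σ)
          simpa [th] using this
        split_ifs
        · linarith
        · linarith

theorem nz_prod_le' (X y : ℕ) (hX : 1 ≤ X) :
    ∏ j ∈ range (JJ X), (nz (TT X y j) (fu j) : ℝ) ≤ (X : ℝ) ^ (49 / 100 : ℝ) := by
  refine le_trans (le_of_eq (Finset.prod_congr rfl fun j hj => ?_)) (nz_prod_le X y (JJ X) hX)
  unfold FF
  rw [if_neg (Finset.mem_range.1 hj).ne]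

end Pool.Agent.H75.AP
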