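import Pool.Agent.H75.AP.Point
import Pool.Agent.H75.AP.Expand
import Pool.Agent.H75.AP.CombineB
import Pool.Agent.H75.AP.Level

/-!
# Module S1 (helpwanted): first moments of `lo` and `up`

`primorial y` is the product of the primes `≤ y`, so the primes of `TT X y j` (all `> y`) do not divide it; the `TT X y j` are pairwise disjoint (`TT_disjoint`,
`X ≥ 1`). `lo_expand`, `sum_single` for each `σ` (error `≤ ∏ nz ≤ X^(49/100)`, `nz_prod_le`), and
`mv (TT X y j) (FF X σ j) = if j = σ then gg X y j else uu X y j`, `combine_one`: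
main term `L * ∑_σ sg σ ∏_j (..) = L * WW X y` (definition of `WW`). Error `≤ (JJ + 1) X^(49/100) ≤ (JJ+1)^2 X^(98/100) ≤ X/Q * W^2 / y ≤ L W / y`
(`h.err`, `X ≤ L Q`, `W ≤ 1`).
`up_mean`: `∑ up ≤ L * ∏ uu + X^(49/100) ≤ 100 L W + L W / y`.
-/

namespace Pool.Agent.H75.AP

open Finset

theorem mv_FF (X y σ j : ℕ) : mv (TT X y j) (FF X σ j) = if j = σ then gg X y j else uu X y j := by
  by_cases h : j = σ
  · rw [if_pos h]
    have : FF X σ j = fc X j := by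
      funext S
      unfold FF
      rw [if_pos h]
    rw [this]
    rfl
  · rw [if_neg h]
    have : FF X σ j = fu j := by
      funext S
      unfold FF
      rw [if_neg h]
    rw [this]
    rfl

theorem not_dvd_primorial {X y j p : ℕ} (h : p ∈ TT X y j) : p.Prime ∧ ¬ p ∣ primorial y := by
  have h1 := mem_TT.1 h
  refine ⟨h1.1, ?_⟩
  intro hd
  have h2 : primorial y = ∏ p ∈ Finset.range (y + 1) with Nat.Prime p, p := rfl
  rw [h2] at hd
  obtain ⟨q, hq, hpq⟩ := (h1.1.prime.dvd_finsetProd_iff _).1 hd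
  rw [mem_filter, mem_range] at hq
  have h3 := (Nat.prime_dvd_prime_iff_eq h1.1 hq.2).1 hpq
  have h4 := h1.2.1
  omega

theorem err_le {c C : ℝ} {X y L : ℕ} (h : Pk c C X y) (hL : X ≤ L * primorial y) :
    ((JJ X : ℝ) + 1) ^ 2 * ((X : ℝ) ^ (49 / 100 : ℝ) * (X : ℝ) ^ (49 / 100 : ℝ)) ≤
      L * (WW X y) ^ 2 / y := by
  have hX : (0 : ℝ) < X := by
    have := h.one
    exact_mod_cast (by omega : 0 < X)
  have e1 : (X : ℝ) ^ (49 / 100 : ℝ) * (X : ℝ) ^ (49 / 100 : ℝ) = (X : ℝ) ^ (98 / 100 : ℝ) := by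
    rw [← Real.rpow_add hX]
    norm_num
  rw [e1]
  refine h.err.trans ?_
  have hP : (0 : ℝ) < primorial y := by exact_mod_cast primorial_pos y
  have hy : (0 : ℝ) < y := by
    have := h.hy
    exact_mod_cast (by omega : 0 < y)
  have h1 : (X : ℝ) / primorial y ≤ L := by
    rw [div_le_iff₀ hP]
    exact_mod_cast hL
  gcongr

theorem TT_hd (X y : ℕ) (hX : 1 ≤ X) (J : ℕ) :
    ∀ i ∈ range J, ∀ j ∈ range J, i ≠ j → Disjoint (TT X y i) (TT X y j) :=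
  fun _ _ _ _ h => TT_disjoint X y hX h

theorem TT_hT (X y : ℕ) (J : ℕ) :
    ∀ j ∈ range J, ∀ p ∈ TT X y j, p.Prime ∧ ¬ p ∣ primorial y :=
  fun _ _ _ hp => not_dvd_primorial hp

theorem err_one {c C : ℝ} {X y L : ℕ} (h : Pk c C X y) (hL : X ≤ L * primorial y) :
    ((JJ X : ℝ) + 1) * (X : ℝ) ^ (49 / 100 : ℝ) ≤ L * WW X y / y := by
  have hX : (1 : ℝ) ≤ X := by exact_mod_cast h.one
  have hy : (0 : ℝ) < y := by
    have := h.hy
    exact_mod_cast (by omega : 0 < y)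
  have h1 : (1 : ℝ) ≤ (X : ℝ) ^ (49 / 100 : ℝ) := Real.one_le_rpow hX (by norm_num)
  have h2 : (1 : ℝ) ≤ (JJ X : ℝ) + 1 := by
    have : (0 : ℝ) ≤ JJ X := Nat.cast_nonneg _
    linarith
  have h3 : ((JJ X : ℝ) + 1) * (X : ℝ) ^ (49 / 100 : ℝ) ≤
      ((JJ X : ℝ) + 1) ^ 2 * ((X : ℝ) ^ (49 / 100 : ℝ) * (X : ℝ) ^ (49 / 100 : ℝ)) := by
    have e : ((JJ X : ℝ) + 1) ^ 2 * ((X : ℝ) ^ (49 / 100 : ℝ) * (X : ℝ) ^ (49 / 100 : ℝ)) =
      (((JJ X : ℝ) + 1) * (X : ℝ) ^ (49 / 100 : ℝ)) * (((JJ X : ℝ) + 1) * (X : ℝ) ^ (49 / 100 : ℝ)) := by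
      ring
    rw [e]
    have h4 : (1 : ℝ) ≤ ((JJ X : ℝ) + 1) * (X : ℝ) ^ (49 / 100 : ℝ) := by
      nlinarith
    nlinarith
  refine h3.trans ((err_le h hL).trans ?_)
  have hw := h.wle
  have hw0 := h.wpos
  have hw2 : WW X y ^ 2 ≤ WW X y := by nlinarith
  have hL0 : (0 : ℝ) ≤ L := Nat.cast_nonneg _
  gcongr

theorem lo_mean (c C : ℝ) (X y : ℕ) (h : Pk c C X y) (a L : ℕ) (hL : X ≤ L * primorial y) :
    |∑ l ∈ range L, lo X y (a + primorial y * l) - L * WW X y| ≤ L * WW X y / y := by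
  have hu : ∀ j ∈ range (JJ X), 0 < uu X y j := fun j hj =>
    (Real.exp_pos _).trans_le (h.upos j hj)
  have e1 : ∑ l ∈ range L, lo X y (a + primorial y * l) =
      ∑ σ ∈ range (JJ X + 1), sg (JJ X) σ * ∑ l ∈ range L,
        ∏ j ∈ range (JJ X), ev (TT X y j) (FF X σ j) (a + primorial y * l) := by
    simp_rw [lo_expand]
    rw [sum_comm]
    refine sum_congr rfl fun σ _ => ?_
    rw [mul_sum]
  have e2 : (L : ℝ) * WW X y = ∑ σ ∈ range (JJ X + 1), sg (JJ X) σ *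
      ((L : ℝ) * ∏ j ∈ range (JJ X), mv (TT X y j) (FF X σ j)) := by
    have h1 := combine_one (JJ X) (uu X y) (gg X y) hu
    have h2 : WW X y = ∑ σ ∈ range (JJ X + 1), sg (JJ X) σ *
        ∏ j ∈ range (JJ X), (if j = σ then gg X y j else uu X y j) := by
      rw [h1]
      rfl
    rw [h2, mul_sum]
    refine sum_congr rfl fun σ _ => ?_
    simp_rw [mv_FF]
    ring
  rw [e1, e2, ← sum_sub_distrib]
  have h3 : ∀ σ ∈ range (JJ X + 1), |sg (JJ X) σ * ∑ l ∈ range L,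
        ∏ j ∈ range (JJ X), ev (TT X y j) (FF X σ j) (a + primorial y * l) -
      sg (JJ X) σ * ((L : ℝ) * ∏ j ∈ range (JJ X), mv (TT X y j) (FF X σ j))| ≤
      (X : ℝ) ^ (49 / 100 : ℝ) := by
    intro σ _
    rw [← mul_sub, abs_mul]
    have h4 : |sg (JJ X) σ| = 1 := by
      unfold sg
      split_ifs <;> simp
    rw [h4, one_mul]
    have h5 := sum_single (JJ X) (primorial y) L a (TT X y) (FF X σ) (TT_hT X y (JJ X))
      (TT_hd X y h.one (JJ X)) (fun j S => FF_abs_le X σ j S)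
    exact h5.trans (nz_prod_le X y σ h.one)
  calc _ ≤ ∑ σ ∈ range (JJ X + 1), |sg (JJ X) σ * ∑ l ∈ range L,
        ∏ j ∈ range (JJ X), ev (TT X y j) (FF X σ j) (a + primorial y * l) -
      sg (JJ X) σ * ((L : ℝ) * ∏ j ∈ range (JJ X), mv (TT X y j) (FF X σ j))| :=
        abs_sum_le_sum_abs _ _
    _ ≤ ∑ σ ∈ range (JJ X + 1), (X : ℝ) ^ (49 / 100 : ℝ) := sum_le_sum h3
    _ = ((JJ X : ℝ) + 1) * (X : ℝ) ^ (49 / 100 : ℝ) := by
        rw [sum_const, card_range, nsmul_eq_mul]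
        push_cast
        ring
    _ ≤ L * WW X y / y := err_one h hL
    _ ≤ _ := by rw [e2]

theorem up_mean (c C : ℝ) (X y : ℕ) (h : Pk c C X y) (a L : ℕ) (hL : X ≤ L * primorial y) :
    ∑ l ∈ range L, up X y (a + primorial y * l) ≤ 200 * (L * WW X y) := by
  have h1 := sum_single (JJ X) (primorial y) L a (TT X y) fu (TT_hT X y (JJ X))
      (TT_hd X y h.one (JJ X)) (fun j S => fU_abs_le _ S)
  have h2 := (abs_le.1 (h1.trans (nz_prod_le' X y h.one))).2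
  have h3 : ∑ l ∈ range L, up X y (a + primorial y * l) =
    ∑ l ∈ range L, (∏ j ∈ range (JJ X), ev (TT X y j) (fu j) (a + primorial y * l)) := rfl
  have h4 : ∏ j ∈ range (JJ X), mv (TT X y j) (fu j) = ∏ j ∈ range (JJ X), uu X y j := rfl
  rw [h3]
  rw [h4] at h2
  have h5 := err_one h hL
  have h6 : (X : ℝ) ^ (49 / 100 : ℝ) ≤ ((JJ X : ℝ) + 1) * (X : ℝ) ^ (49 / 100 : ℝ) := by
    have h7 : (0 : ℝ) ≤ (X : ℝ) ^ (49 / 100 : ℝ) := Real.rpow_nonneg (Nat.cast_nonneg _) _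
    have h8 : (0 : ℝ) ≤ JJ X := Nat.cast_nonneg _
    nlinarith
  have hy : (1 : ℝ) ≤ y := by
    have := h.hy
    exact_mod_cast (by omega : 1 ≤ y)
  have hL0 : (0 : ℝ) ≤ L := Nat.cast_nonneg _
  have h9 : (L : ℝ) * WW X y / y ≤ L * WW X y := by
    apply div_le_self (mul_nonneg hL0 h.wpos.le) hy
  have h10 : (L : ℝ) * ∏ j ∈ range (JJ X), uu X y j ≤ L * (100 * WW X y) :=
    mul_le_mul_of_nonneg_left h.uprod hL0
  have h11 : 0 ≤ (L : ℝ) * WW X y := mul_nonneg hL0 h.wpos.le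
  linarith

end Pool.Agent.H75.AP
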