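import Pool.Agent.H75.AP.S1
import Pool.Agent.H75.AP.ModelB
import Pool.Agent.H75.AP.CombineB

/-!
# Module S3 (helpwanted): diagonal second moment of `lo`

`lo_expand` twice, `sum_pair` with `a' = a`: `HH T a a = T` (`p ∣ 0`), so
`∑_l lo^2 ≤ L * ∑_{σ,σ'} ∏_j pv (TT j) (TT j) (FF σ j) (FF σ' j) + (JJ+1)^2 X^(98/100)` (all `pv ≥ 0` by `pv_nonneg`, `model_*_nonneg`; signs `|sg| ≤ 1`), error
`≤ L W^2/y ≤ L W` by `err_le`. `combine_diag` with `v 0 = 1`, `v j = vv (TT X y j) ≥ exp (-1.1)`, `a 0 = lam + lam^2 ≤ 11` (`lam0`: `2.84 + 8.07`), `a j = exp (7 lam)/2^(2j+3)`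
for `j ≥ 1` (lemmas `pv_*_le` of MODEL; `fc X 0 = f0 (..)` with weights in `[0,1/2]`, `fu 0 = fU 0`): `∑ a j / v j ≤ 11 + exp 9 / 24 * .. ≤ 11 + exp 9`
(`exp (7 * 1.0992) * exp (1.1) ≤ exp 9`, `∑_{j≥1} 2^(-(2j+3)) ≤ 1/24`), and `∏ v j ≤ 100 W` (`h.vprod`).
Any absolute constant `K` is fine, e.g. `K = 100 * exp (4 * (11 + exp 9)) + 1`.
-/

namespace Pool.Agent.H75.AP

open Finset

private noncomputable def kap (X y : ℕ) (j σ σ' : ℕ) : ℝ :=
  pv (TT X y j) (TT X y j) (FF X σ j) (FF X σ' j)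

private noncomputable def vj (X y : ℕ) (j : ℕ) : ℝ := if j = 0 then 1 else vv (TT X y j)

private noncomputable def aj3 (X y : ℕ) (j : ℕ) : ℝ :=
  if j = 0 then 11 else Real.exp (7 * lam (TT X y j)) / 2 ^ (bb j + 1)

private theorem om_mem (X p : ℕ) : 0 ≤ max 0 (min (1 / 2) (om X p)) ∧
    max 0 (min (1 / 2) (om X p)) ≤ 1 :=
  ⟨le_max_left _ _, max_le (by norm_num) ((min_le_left _ _).trans (by norm_num))⟩

private theorem model_fu_nonneg (j : ℕ) (D : Finset ℕ) : 0 ≤ ∑ S ∈ D.powerset, fu j S :=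
  model_fU_nonneg D (bb j) (bb_even j)

private theorem model_fc_nonneg (X j : ℕ) (D : Finset ℕ) : 0 ≤ ∑ S ∈ D.powerset, fc X j S := by
  unfold fc
  split_ifs
  · exact model_f0_nonneg D _ fun p => (om_mem X p).1
  · exact model_fC_nonneg D _

private theorem model_FF_nonneg (X σ j : ℕ) (D : Finset ℕ) :
    0 ≤ ∑ S ∈ D.powerset, FF X σ j S := by
  unfold FF
  split_ifs
  · exact model_fc_nonneg X j D
  · exact model_fu_nonneg j D

private theorem kap_nonneg (X y j σ σ' : ℕ) : 0 ≤ kap X y j σ σ' :=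
  pv_nonneg _ _ _ (fun _ hp => TT_two_le hp) (fun D _ => model_FF_nonneg X σ j D)
    (fun D _ => model_FF_nonneg X σ' j D)

private theorem lam_nonneg (T : Finset ℕ) : 0 ≤ lam T := sum_nonneg fun _ _ => by positivity

private theorem kap_off {X y : ℕ} (j σ σ' : ℕ) (h1 : j ≠ σ)
    (h2 : j ≠ σ') : kap X y j σ σ' ≤ vj X y j + aj3 X y j := by
  unfold kap FF vj aj3
  rw [if_neg h1, if_neg h2]
  by_cases hj : j = 0
  · subst hj
    have : fu 0 = fU 0 := rfl
    rw [if_pos rfl, if_pos rfl, this, pv_top_one]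
    norm_num
  · rw [if_neg hj, if_neg hj]
    exact pv_fU_fU_le _ _ (bb_even j) fun _ hp => TT_two_le hp

private theorem kap_on {c C : ℝ} {X y : ℕ} (h : Pk c C X y) (j σ σ' : ℕ) (h1 : j = σ ∨ j = σ') :
    kap X y j σ σ' ≤ aj3 X y j := by
  unfold kap FF aj3
  by_cases hj : j = 0
  · subst hj
    have e1 : fu 0 = fU 0 := rfl
    have e2 : fc X 0 = f0 (fun p => max 0 (min (1 / 2) (om X p))) := by
      unfold fc; rw [if_pos rfl]
    have e3 : lam (TT X y 0) + lam (TT X y 0) ^ 2 ≤ 11 := by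
      have := h.lam0
      have := lam_nonneg (TT X y 0)
      nlinarith
    rw [if_pos rfl, e1, e2]
    split_ifs with g1 g2 g2
    · exact (pv_top_both _ _ fun p => om_mem X p).trans e3
    · exact (pv_top_right _ _ fun p => om_mem X p).trans e3
    · exact (pv_top_left _ _ fun p => om_mem X p).trans e3
    · rcases h1 with h1 | h1
      · exact absurd h1 g1
      · exact absurd h1 g2
  · have e1 : fu j = fU (bb j) := rfl
    have e2 : fc X j = fC (bb j + 1) := by unfold fc; rw [if_neg hj]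
    rw [if_neg hj, e1, e2]
    split_ifs with g1 g2 g2
    · exact pv_fC_fC_le _ _ fun _ hp => TT_two_le hp
    · exact pv_fC_fU_le _ _ (bb_even j) fun _ hp => TT_two_le hp
    · exact pv_fU_fC_le _ _ (bb_even j) fun _ hp => TT_two_le hp
    · rcases h1 with h1 | h1
      · exact absurd h1 g1
      · exact absurd h1 g2

private theorem vj_pos {c C : ℝ} {X y : ℕ} (h : Pk c C X y) (j : ℕ) : 0 < vj X y j := by
  unfold vj
  split_ifs with hj
  · norm_num
  · exact lt_of_lt_of_le (Real.exp_pos _) (h.lam1 j (Nat.pos_of_ne_zero hj)).2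

private theorem aj3_nonneg (X y j : ℕ) : 0 ≤ aj3 X y j := by
  unfold aj3
  split_ifs
  · norm_num
  · positivity

private theorem ratio_le {c C : ℝ} {X y : ℕ} (h : Pk c C X y) (j : ℕ) :
    aj3 X y j / vj X y j ≤ (if j = 0 then 11 else 0) + Real.exp 9 * (1 / 2) ^ (j + 1) := by
  unfold aj3 vj
  by_cases hj : j = 0
  · subst hj
    simp only [if_true, div_one]
    have := Real.exp_pos 9
    have h2 : 0 ≤ Real.exp 9 * (1 / 2) ^ (0 + 1) := by positivity
    linarith
  · rw [if_neg hj, if_neg hj, if_neg hj, zero_add]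
    obtain ⟨h1, h2⟩ := h.lam1 j (Nat.pos_of_ne_zero hj)
    have hv : 0 < vv (TT X y j) := lt_of_lt_of_le (Real.exp_pos _) h2
    rw [div_le_iff₀ hv]
    have h3 : Real.exp (7 * lam (TT X y j)) ≤ Real.exp 9 * vv (TT X y j) := by
      calc Real.exp (7 * lam (TT X y j)) ≤ Real.exp (9 + -(11 / 10)) :=
            Real.exp_le_exp.2 (by linarith)
        _ = Real.exp 9 * Real.exp (-(11 / 10)) := Real.exp_add _ _
        _ ≤ _ := mul_le_mul_of_nonneg_left h2 (Real.exp_pos _).le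
    have h4 : (1 : ℝ) / 2 ^ (bb j + 1) ≤ (1 / 2) ^ (j + 1) := by
      rw [one_div, one_div, inv_pow]
      apply inv_anti₀ (by positivity)
      apply pow_le_pow_right₀ (by norm_num)
      unfold bb
      rw [if_neg hj]; omega
    calc Real.exp (7 * lam (TT X y j)) / 2 ^ (bb j + 1)
        = Real.exp (7 * lam (TT X y j)) * (1 / 2 ^ (bb j + 1)) := by ring
      _ ≤ (Real.exp 9 * vv (TT X y j)) * (1 / 2) ^ (j + 1) :=
          mul_le_mul h3 h4 (by positivity) (by positivity)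
      _ = _ := by ring

private theorem geo (J : ℕ) : ∑ j ∈ range J, ((1 : ℝ) / 2) ^ (j + 1) = 1 - (1 / 2) ^ J := by
  induction J with
  | zero => simp
  | succ J ih => rw [sum_range_succ, ih]; ring

private theorem ratio_sum {c C : ℝ} {X y : ℕ} (h : Pk c C X y) :
    ∑ j ∈ range (JJ X), aj3 X y j / vj X y j ≤ 11 + Real.exp 9 := by
  refine (sum_le_sum fun j _ => ratio_le h j).trans ?_
  rw [sum_add_distrib, ← mul_sum, geo]
  have h1 : ∑ j ∈ range (JJ X), (if j = 0 then (11 : ℝ) else 0) ≤ 11 := by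
    rw [sum_ite_eq']
    split_ifs <;> norm_num
  have h2 : (1 : ℝ) - (1 / 2) ^ (JJ X) ≤ 1 := by
    have : (0 : ℝ) ≤ (1 / 2) ^ (JJ X) := by positivity
    linarith
  have h3 := mul_le_mul_of_nonneg_left h2 (Real.exp_pos 9).le
  linarith

private theorem HH_self (T : Finset ℕ) (a : ℕ) : HH T a a = T := by
  unfold HH
  rw [sub_self]
  exact filter_true_of_mem fun p _ => dvd_zero _

private theorem sg_abs (J σ : ℕ) : |sg J σ| = 1 := by
  unfold sg
  split_ifs
  · simp
  · simp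

theorem lo_sq : ∃ K : ℝ, 0 < K ∧ ∀ (c C : ℝ) (X y : ℕ), Pk c C X y → ∀ a L : ℕ,
    X ≤ L * primorial y →
    ∑ l ∈ range L, (lo X y (a + primorial y * l)) ^ 2 ≤ K * (L * WW X y) := by
  refine ⟨100 * Real.exp (4 * (11 + Real.exp 9)) + 1, by positivity, ?_⟩
  intro c C X y h a L hL
  set J := JJ X with hJ
  set E := (X : ℝ) ^ (49 / 100 : ℝ) * (X : ℝ) ^ (49 / 100 : ℝ) with hE
  set P : ℕ → ℕ → ℝ := fun σ l => ∏ j ∈ range J, ev (TT X y j) (FF X σ j) (a + primorial y * l)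
    with hP
  have h1 : ∑ l ∈ range L, (lo X y (a + primorial y * l)) ^ 2 =
      ∑ σ ∈ range (J + 1), ∑ σ' ∈ range (J + 1), sg J σ * sg J σ' *
        ∑ l ∈ range L, P σ l * P σ' l := by
    have e1 : ∀ l ∈ range L, (lo X y (a + primorial y * l)) ^ 2 =
        ∑ σ ∈ range (J + 1), ∑ σ' ∈ range (J + 1), sg J σ * sg J σ' * (P σ l * P σ' l) := by
      intro l _
      rw [lo_expand, sq, sum_mul_sum]
      apply sum_congr rfl
      intro σ _
      apply sum_congr rfl
      intro σ' _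
      simp only [hP]
      ring
    rw [sum_congr rfl e1, sum_comm]
    apply sum_congr rfl
    intro σ _
    rw [sum_comm]
    apply sum_congr rfl
    intro σ' _
    rw [mul_sum]
  have hWp := h.wpos
  have h2 : ∀ σ ∈ range (J + 1), ∀ σ' ∈ range (J + 1),
      sg J σ * sg J σ' * ∑ l ∈ range L, P σ l * P σ' l ≤
        L * ∏ j ∈ range J, kap X y j σ σ' + E := by
    intro σ _ σ' _
    have s1 := sum_pair J (primorial y) L a a (fun j => TT X y j) (fun j => FF X σ j)
      (fun j => FF X σ' j) (fun j _ p hp => not_dvd_primorial hp)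
      (fun i _ j _ hij => TT_disjoint X y h.one hij) (fun j S => FF_abs_le X σ j S)
      (fun j S => FF_abs_le X σ' j S)
    have s2 : (∏ j ∈ range J, (nz (TT X y j) (FF X σ j) : ℝ)) *
        ∏ j ∈ range J, (nz (TT X y j) (FF X σ' j) : ℝ) ≤ E := by
      apply mul_le_mul (nz_prod_le X y σ h.one) (nz_prod_le X y σ' h.one)
        (prod_nonneg fun _ _ => Nat.cast_nonneg _) (by positivity)
    simp only [HH_self] at s1
    have s3 := s1.trans s2
    have s4 : 0 ≤ (L : ℝ) * ∏ j ∈ range J, kap X y j σ σ' :=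
      mul_nonneg (Nat.cast_nonneg _) (prod_nonneg fun j _ => kap_nonneg X y j σ σ')
    have s5 : |∑ l ∈ range L, P σ l * P σ' l| ≤ L * ∏ j ∈ range J, kap X y j σ σ' + E := by
      have s6 := abs_sub_abs_le_abs_sub (∑ l ∈ range L, P σ l * P σ' l)
        ((L : ℝ) * ∏ j ∈ range J, kap X y j σ σ')
      rw [abs_of_nonneg s4] at s6
      have s7 : |∑ l ∈ range L, P σ l * P σ' l - (L : ℝ) * ∏ j ∈ range J, kap X y j σ σ'| ≤ E := s3
      linarith
    refine le_trans (le_abs_self _) ?_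
    rw [abs_mul, abs_mul, sg_abs, sg_abs, one_mul, one_mul]
    exact s5
  rw [h1]
  refine (sum_le_sum fun σ hσ => sum_le_sum fun σ' hσ' => h2 σ hσ σ' hσ').trans ?_
  have h3 : ∑ σ ∈ range (J + 1), ∑ σ' ∈ range (J + 1),
      ((L : ℝ) * ∏ j ∈ range J, kap X y j σ σ' + E) =
      L * ∑ σ ∈ range (J + 1), ∑ σ' ∈ range (J + 1), ∏ j ∈ range J, kap X y j σ σ' +
        ((J : ℝ) + 1) ^ 2 * E := by
    simp only [sum_add_distrib, ← mul_sum, sum_const, card_range, nsmul_eq_mul]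
    push_cast
    ring
  rw [h3]
  have h4 := combine_diag J (vj X y) (aj3 X y) (kap X y) (fun j _ => vj_pos h j)
    (fun j _ => aj3_nonneg X y j) (fun j _ σ _ σ' _ => kap_nonneg X y j σ σ')
    (fun j _ σ _ σ' _ g1 g2 => kap_off j σ σ' g1 g2) (fun j _ σ _ σ' _ g => kap_on h j σ σ' g)
  have h5 : ∏ j ∈ range J, vj X y j ≤ 100 * WW X y := h.vprod
  have h6 : Real.exp (4 * ∑ j ∈ range J, aj3 X y j / vj X y j) ≤
      Real.exp (4 * (11 + Real.exp 9)) := by
    apply Real.exp_le_exp.2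
    have := ratio_sum h
    linarith
  have h7 : (∏ j ∈ range J, vj X y j) * Real.exp (4 * ∑ j ∈ range J, aj3 X y j / vj X y j) ≤
      (100 * WW X y) * Real.exp (4 * (11 + Real.exp 9)) :=
    mul_le_mul h5 h6 (Real.exp_pos _).le (by positivity)
  have h8 := mul_le_mul_of_nonneg_left (h4.trans h7) (Nat.cast_nonneg (α := ℝ) L)
  have h9 := err_le h hL
  have h10 : (L : ℝ) * (WW X y) ^ 2 / y ≤ L * WW X y := by
    have hy : (1 : ℝ) ≤ y := by
      have := h.hy
      exact_mod_cast (by omega : 1 ≤ y)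
    have e1 : (L : ℝ) * (WW X y) ^ 2 ≤ L * WW X y := by
      apply mul_le_mul_of_nonneg_left _ (Nat.cast_nonneg _)
      have := h.wle
      nlinarith
    have e2 : (0 : ℝ) ≤ L * (WW X y) ^ 2 := by positivity
    exact (div_le_self e2 hy).trans e1
  have h11 : ((J : ℝ) + 1) ^ 2 * E ≤ L * WW X y := by
    rw [hE]; exact h9.trans h10
  calc _ ≤ (L : ℝ) * ((100 * WW X y) * Real.exp (4 * (11 + Real.exp 9))) + L * WW X y :=
        add_le_add h8 h11
    _ = _ := by ring

end Pool.Agent.H75.AP
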