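import Pool.Agent.H75.AP.Defs

/-!
# Module PVCLOSE (helpwanted): the pair mean is close to the product of the means

`mv T f * mv T g = ∑_{S,S' ⊆ T} f S * g S' * ∏_{S} 1/p * ∏_{S'} 1/p` and
`∏_S 1/p * ∏_{S'} 1/p = ∏_{S ∪ S'} 1/p * ∏_{S ∩ S'} 1/p` (`Finset.prod_union_inter`). With `R = S ∩ S'` the difference of the
`(S,S')` terms is at most (`|f|, |g| ≤ 1`)
`∏_{S ∪ S'} 1/p * |1[R ⊆ H] - ∏_R 1/p| ≤ ∏_{S ∪ S'} 1/p * (1[R ≠ ∅, R ⊆ H] + 1[R ≠ ∅] ∏_R 1/p)`
(for `R = ∅` it is `0`; `0 ≤ ∏_R 1/p ≤ 1` as `1/p ≤ 1` for every natural `p`, also `p = 0`).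
Group by `R`: `∑_{S,S' ⊆ T, S ∩ S' = R} ∏_{S ∪ S'} 1/p ≤ ∏_R 1/p * exp (2 lam T)`: for fixed `R` the pairs are
`(R ∪ A, R ∪ A')` with `A, A' ⊆ T \ R` disjoint, `S ∪ S' = R ∪ A ∪ A'`, so the sum is `∏_R 1/p * ∑_{A, A' disjoint} ∏_A 1/p ∏_{A'} 1/p
≤ ∏_R 1/p * (∑_{A ⊆ T} ∏_A 1/p)^2 = ∏_R 1/p * (∏_T (1 + 1/p))^2 ≤ ∏_R 1/p * exp (2 lam T)`
(`Finset.prod_one_add` / `Finset.prod_add_one`: `∏_{p ∈ T} (1 + x p) = ∑_{A ∈ T.powerset} ∏_{p ∈ A} x p`).
Hence the total is at most `exp (2 lam T) * (∑_{∅ ≠ R ⊆ T ∩ H} ∏_R 1/p + ∑_{∅ ≠ R ⊆ T} ∏_R 1/p^2)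
= exp (2 lam T) * ((∏_{T ∩ H} (1 + 1/p) - 1) + (∏_T (1 + 1/p^2) - 1))`, and `1 + x ≤ exp x`.

(The grouping can be avoided: `1[R ≠ ∅, R ⊆ H] ≤ ∑_{∅ ≠ R' ⊆ T ∩ H} 1[R' = S ∩ S']` and so on.)
-/

namespace Pool.Agent.H75.AP

open Finset

private noncomputable def wt (S : Finset ℕ) : ℝ := ∏ p ∈ S, (1 / (p : ℝ))

private theorem inv_nonneg' (p : ℕ) : (0 : ℝ) ≤ 1 / (p : ℝ) := by positivity

private theorem inv_le_one' (p : ℕ) : (1 : ℝ) / (p : ℝ) ≤ 1 := by
  rcases Nat.eq_zero_or_pos p with h | h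
  · subst h; simp
  · rw [div_le_one (by exact_mod_cast h)]; exact_mod_cast h

private theorem wt_nonneg (S : Finset ℕ) : 0 ≤ wt S := prod_nonneg fun p _ => inv_nonneg' p

private theorem wt_le_one (S : Finset ℕ) : wt S ≤ 1 :=
  prod_le_one (fun p _ => inv_nonneg' p) (fun p _ => inv_le_one' p)

private theorem wt_mul (S S' : Finset ℕ) : wt S * wt S' = wt (S ∪ S') * wt (S ∩ S') := by
  unfold wt; exact (prod_union_inter).symm

private theorem wt_split (S S' : Finset ℕ) :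
    wt (S ∪ S') = wt (S ∩ S') * wt (S \ S') * wt (S' \ S) := by
  unfold wt
  have h1 : S ∪ S' = (S ∩ S' ∪ S \ S') ∪ S' \ S := by
    ext p; simp only [mem_union, mem_inter, mem_sdiff]; tauto
  rw [h1, prod_union, prod_union]
  · rw [disjoint_left]; intro p; simp only [mem_inter, mem_sdiff]; tauto
  · rw [disjoint_left]; intro p; simp only [mem_union, mem_inter, mem_sdiff]; tauto

private theorem sum_wt (T : Finset ℕ) : ∑ A ∈ T.powerset, wt A ≤ Real.exp (lam T) := by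
  have h : ∑ A ∈ T.powerset, wt A = ∏ p ∈ T, (1 + 1 / (p : ℝ)) := by
    unfold wt; rw [prod_one_add]
  rw [h, lam, Real.exp_sum]
  refine prod_le_prod (fun p _ => by have := inv_nonneg' p; linarith) (fun p _ => ?_)
  have := Real.add_one_le_exp (1 / (p : ℝ)); linarith

private theorem sum_wt_sq (T : Finset ℕ) :
    ∑ A ∈ T.powerset, wt A * wt A ≤ Real.exp (∑ p ∈ T, 1 / (p : ℝ) ^ 2) := by
  have h : ∑ A ∈ T.powerset, wt A * wt A = ∏ p ∈ T, (1 + 1 / (p : ℝ) ^ 2) := by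
    rw [prod_one_add]
    apply sum_congr rfl
    intro A _
    unfold wt
    rw [← prod_mul_distrib]
    apply prod_congr rfl
    intro p _
    rw [div_mul_div_comm, one_mul, sq]
  rw [h, Real.exp_sum]
  refine prod_le_prod (fun p _ => by positivity) (fun p _ => ?_)
  have := Real.add_one_le_exp (1 / (p : ℝ) ^ 2); linarith

private noncomputable def ph (H R : Finset ℕ) : ℝ :=
  if R = ∅ then 0 else (if R ⊆ H then 1 else 0) + wt R

private theorem ph_nonneg (H R : Finset ℕ) : 0 ≤ ph H R := by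
  unfold ph
  have := wt_nonneg R
  split_ifs <;> linarith

private theorem sum_ph (T H : Finset ℕ) : ∑ R ∈ T.powerset, ph H R * wt R ≤
    (Real.exp (∑ p ∈ T ∩ H, 1 / (p : ℝ)) - 1) + (Real.exp (∑ p ∈ T, 1 / (p : ℝ) ^ 2) - 1) := by
  have h1 : ∑ R ∈ T.powerset, ph H R * wt R =
      (∑ R ∈ T.powerset, (if R ⊆ H then wt R else 0) - 1) +
        (∑ R ∈ T.powerset, wt R * wt R - 1) := by
    have h0 : (∅ : Finset ℕ) ∈ T.powerset := by simp
    rw [← Finset.add_sum_erase _ _ h0, ← Finset.add_sum_erase (s := T.powerset)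
      (f := fun R => if R ⊆ H then wt R else 0) (h := h0), ← Finset.add_sum_erase (s := T.powerset)
      (f := fun R => wt R * wt R) (h := h0)]
    have e1 : ph H ∅ = 0 := by simp [ph]
    have e2 : wt ∅ = 1 := by simp [wt]
    simp only [e1, e2, empty_subset, if_true]
    have e3 : ∑ x ∈ T.powerset.erase ∅, ph H x * wt x =
        ∑ x ∈ T.powerset.erase ∅, (if x ⊆ H then wt x else 0) +
          ∑ x ∈ T.powerset.erase ∅, wt x * wt x := by
      rw [← sum_add_distrib]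
      apply sum_congr rfl
      intro R hR
      rw [mem_erase] at hR
      unfold ph
      rw [if_neg hR.1]
      split_ifs <;> ring
    rw [e3]; ring
  rw [h1]
  have h2 : ∑ R ∈ T.powerset, (if R ⊆ H then wt R else 0) = ∑ R ∈ (T ∩ H).powerset, wt R := by
    rw [← sum_filter]
    apply sum_congr _ (fun _ _ => rfl)
    ext R; simp only [mem_filter, mem_powerset, subset_inter_iff]
  have h3 := sum_wt (T ∩ H)
  have h4 := sum_wt_sq T
  rw [lam] at h3
  rw [h2]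
  linarith

private theorem sum_pairs (T H : Finset ℕ) :
    ∑ z ∈ T.powerset ×ˢ T.powerset, wt (z.1 ∪ z.2) * ph H (z.1 ∩ z.2) ≤
      ∑ t ∈ T.powerset ×ˢ (T.powerset ×ˢ T.powerset),
        (ph H t.1 * wt t.1) * (wt t.2.1 * wt t.2.2) := by
  classical
  set i : Finset ℕ × Finset ℕ → Finset ℕ × (Finset ℕ × Finset ℕ) :=
    fun z => (z.1 ∩ z.2, (z.1 \ z.2, z.2 \ z.1)) with hi
  have hinj : Set.InjOn i (T.powerset ×ˢ T.powerset : Finset _) := by
    rintro ⟨A, B⟩ _ ⟨C, D⟩ _ h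
    simp only [hi, Prod.mk.injEq] at h
    obtain ⟨h1, h2, h3⟩ := h
    have hA : A = C := by
      have e1 : A = A ∩ B ∪ A \ B := by
        ext p; simp only [mem_union, mem_inter, mem_sdiff]; tauto
      have e2 : C = C ∩ D ∪ C \ D := by
        ext p; simp only [mem_union, mem_inter, mem_sdiff]; tauto
      rw [e1, h1, h2, ← e2]
    have hB : B = D := by
      have e1 : B = A ∩ B ∪ B \ A := by
        ext p; simp only [mem_union, mem_inter, mem_sdiff]; tauto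
      have e2 : D = C ∩ D ∪ D \ C := by
        ext p; simp only [mem_union, mem_inter, mem_sdiff]; tauto
      rw [e1, h1, h3, ← e2]
    rw [hA, hB]
  have h1 : ∑ z ∈ T.powerset ×ˢ T.powerset, wt (z.1 ∪ z.2) * ph H (z.1 ∩ z.2) =
      ∑ t ∈ (T.powerset ×ˢ T.powerset).image i,
        (ph H t.1 * wt t.1) * (wt t.2.1 * wt t.2.2) := by
    rw [sum_image hinj]
    apply sum_congr rfl
    intro z _
    rw [wt_split]
    simp only [hi]
    ring
  rw [h1]
  apply sum_le_sum_of_subset_of_nonneg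
  · intro t ht
    rw [mem_image] at ht
    obtain ⟨z, hz, rfl⟩ := ht
    simp only [mem_product, mem_powerset, hi] at hz ⊢
    exact ⟨inter_subset_left.trans hz.1, sdiff_subset.trans hz.1, sdiff_subset.trans hz.2⟩
  · intro t _ _
    have := ph_nonneg H t.1
    have := wt_nonneg t.1
    have := wt_nonneg t.2.1
    have := wt_nonneg t.2.2
    positivity

theorem pv_close (T H : Finset ℕ) (f g : Finset ℕ → ℝ) (hf : ∀ S, |f S| ≤ 1)
    (hg : ∀ S, |g S| ≤ 1) :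
    |pv T H f g - mv T f * mv T g| ≤ Real.exp (2 * lam T) *
      ((Real.exp (∑ p ∈ T ∩ H, 1 / (p : ℝ)) - 1) + (Real.exp (∑ p ∈ T, 1 / (p : ℝ) ^ 2) - 1)) := by
  have h1 : pv T H f g - mv T f * mv T g = ∑ z ∈ T.powerset ×ˢ T.powerset,
      f z.1 * g z.2 * (wt (z.1 ∪ z.2) * ((if z.1 ∩ z.2 ⊆ H then 1 else 0) - wt (z.1 ∩ z.2))) := by
    rw [sum_product, pv, mv, mv, sum_mul_sum, ← sum_sub_distrib]
    apply sum_congr rfl
    intro S _
    rw [← sum_sub_distrib]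
    apply sum_congr rfl
    intro S' _
    have h := wt_mul S S'
    simp only [wt] at h ⊢
    have : (f S * ∏ p ∈ S, (1 / (p : ℝ))) * (g S' * ∏ p ∈ S', (1 / (p : ℝ))) =
        f S * g S' * ((∏ p ∈ S, (1 / (p : ℝ))) * ∏ p ∈ S', (1 / (p : ℝ))) := by ring
    rw [this, h]
    split_ifs <;> ring
  rw [h1]
  refine (abs_sum_le_sum_abs _ _).trans ?_
  have h2 : ∑ z ∈ T.powerset ×ˢ T.powerset,
      |f z.1 * g z.2 * (wt (z.1 ∪ z.2) * ((if z.1 ∩ z.2 ⊆ H then 1 else 0) - wt (z.1 ∩ z.2)))| ≤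
      ∑ z ∈ T.powerset ×ˢ T.powerset, wt (z.1 ∪ z.2) * ph H (z.1 ∩ z.2) := by
    apply sum_le_sum
    intro z _
    rw [abs_mul, abs_mul, abs_mul, abs_of_nonneg (wt_nonneg (z.1 ∪ z.2))]
    have e1 : |f z.1| * |g z.2| ≤ 1 := mul_le_one₀ (hf _) (abs_nonneg _) (hg _)
    have e2 : |(if z.1 ∩ z.2 ⊆ H then (1 : ℝ) else 0) - wt (z.1 ∩ z.2)| ≤ ph H (z.1 ∩ z.2) := by
      unfold ph
      by_cases hR : z.1 ∩ z.2 = ∅
      · rw [hR]; simp [wt]
      · rw [if_neg hR]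
        have := wt_nonneg (z.1 ∩ z.2)
        have := wt_le_one (z.1 ∩ z.2)
        split_ifs <;> rw [abs_le] <;> constructor <;> linarith
    calc _ ≤ 1 * (wt (z.1 ∪ z.2) * ph H (z.1 ∩ z.2)) := by
            apply mul_le_mul e1 _ (mul_nonneg (wt_nonneg _) (abs_nonneg _)) (by norm_num)
            exact mul_le_mul_of_nonneg_left e2 (wt_nonneg _)
      _ = _ := one_mul _
  refine h2.trans ((sum_pairs T H).trans ?_)
  have h3 : ∑ t ∈ T.powerset ×ˢ (T.powerset ×ˢ T.powerset),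
        (ph H t.1 * wt t.1) * (wt t.2.1 * wt t.2.2) =
      (∑ x ∈ T.powerset, ph H x * wt x) * ((∑ A ∈ T.powerset, wt A) * ∑ A ∈ T.powerset, wt A) := by
    rw [sum_mul_sum T.powerset T.powerset, sum_product, sum_mul_sum]
    apply sum_congr rfl
    intro R _
    rw [sum_product]
    apply sum_congr rfl
    intro A _
    rw [mul_sum]
  rw [h3]
  have h4 := sum_ph T H
  have h5 := sum_wt T
  have h6 : 0 ≤ ∑ A ∈ T.powerset, wt A := sum_nonneg fun A _ => wt_nonneg A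
  have h7 : (∑ A ∈ T.powerset, wt A) * ∑ A ∈ T.powerset, wt A ≤ Real.exp (2 * lam T) := by
    have : Real.exp (2 * lam T) = Real.exp (lam T) * Real.exp (lam T) := by
      rw [← Real.exp_add]; congr 1; ring
    rw [this]
    exact mul_le_mul h5 h5 h6 (Real.exp_pos _).le
  have h8 : 0 ≤ ∑ R ∈ T.powerset, ph H R * wt R :=
    sum_nonneg fun A _ => mul_nonneg (ph_nonneg _ _) (wt_nonneg A)
  rw [mul_comm]
  exact mul_le_mul h7 h4 h8 (Real.exp_pos _).le

end Pool.Agent.H75.AP
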