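import Pool.Agent.H75.AP.S1
import Pool.Agent.H75.AP.PvClose
import Pool.Agent.H75.AP.CombineA
import Pool.Agent.H75.AP.Beta

/-!
# Module S4 (helpwanted): pair correlation of `lo`

`lo_expand` twice and `sum_pair`:
`∑_l lo lo' ≤ L * ∑_{σ,σ'} sg σ sg σ' ∏_j pv (TT j) (HH (TT j) a a') (FF σ j) (FF σ' j) + (JJ+1)^2 X^(98/100)`.
`pv_close` + `mv_FF` + `combine` with `u = uu`, `γ = gg`, `β = be X y a a'` (note `∑_{TT ∩ HH}` in `be`): the main part is
`≤ L W^2 exp (200000 ∑ be/uu^2) ≤ L W^2 exp (2*10^9 (hh + 1/y))` (`beta_sum`). Error `≤ L W^2 / y` (`err_le`, `nz_prod_le`), and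
`exp (κ' t) + 1/y ≤ exp ((κ'+1) t)` for `t = hh + 1/y ≥ 1/y` (`exp ((κ'+1)t) ≥ exp (κ' t)(1+t) ≥ exp (κ' t) + t`). So `κ = 2 * 10^9 + 1` works.
-/

namespace Pool.Agent.H75.AP

open Finset

namespace S4Aux

lemma be_nonneg (X y a a' j : ℕ) : 0 ≤ be X y a a' j := by
  unfold be
  apply mul_nonneg (Real.exp_pos _).le
  have h1 : 1 ≤ Real.exp (∑ p ∈ TT X y j ∩ HH (TT X y j) a a', 1 / (p : ℝ)) := by
    rw [← Real.exp_zero]
    exact Real.exp_le_exp.2 (Finset.sum_nonneg fun p _ => by positivity)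
  have h2 : 1 ≤ Real.exp (∑ p ∈ TT X y j, 1 / (p : ℝ) ^ 2) := by
    rw [← Real.exp_zero]
    exact Real.exp_le_exp.2 (Finset.sum_nonneg fun p _ => by positivity)
  linarith

lemma sg_abs (J σ : ℕ) : |sg J σ| ≤ 1 := by
  unfold sg
  split_ifs <;> norm_num

lemma hh_nonneg (y a a' : ℕ) : 0 ≤ hh y a a' := by
  unfold hh
  exact Finset.sum_nonneg fun p _ => by positivity

/-- the pair sum up to the error -/
lemma lo_lo_le {c C : ℝ} {X y : ℕ} (h : Pk c C X y) (a a' L : ℕ) (hL : X ≤ L * primorial y) :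
    ∑ l ∈ range L, lo X y (a + primorial y * l) * lo X y (a' + primorial y * l) ≤
      L * (∑ σ ∈ range (JJ X + 1), ∑ σ' ∈ range (JJ X + 1), sg (JJ X) σ * sg (JJ X) σ' *
        ∏ j ∈ range (JJ X), pv (TT X y j) (HH (TT X y j) a a') (FF X σ j) (FF X σ' j)) +
      L * (WW X y) ^ 2 / y := by
  set J := JJ X with hJ
  set Q := primorial y with hQ
  set E : ℝ := (X : ℝ) ^ (49 / 100 : ℝ) with hE
  have hE0 : 0 ≤ E := Real.rpow_nonneg (Nat.cast_nonneg _) _
  have hT : ∀ j ∈ range J, ∀ p ∈ TT X y j, p.Prime ∧ ¬ p ∣ Q :=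
    fun j _ p hp => not_dvd_primorial hp
  have hd : ∀ i ∈ range J, ∀ j ∈ range J, i ≠ j → Disjoint (TT X y i) (TT X y j) :=
    fun i _ j _ hij => TT_disjoint X y h.one hij
  have hterm : ∀ σ σ' : ℕ, sg J σ * sg J σ' *
      (∑ l ∈ range L, (∏ j ∈ range J, ev (TT X y j) (FF X σ j) (a + Q * l)) *
        (∏ j ∈ range J, ev (TT X y j) (FF X σ' j) (a' + Q * l))) ≤
      sg J σ * sg J σ' * (L *
        ∏ j ∈ range J, pv (TT X y j) (HH (TT X y j) a a') (FF X σ j) (FF X σ' j)) + E * E := by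
    intro σ σ'
    have h1 := sum_pair J Q L a a' (TT X y) (FF X σ) (FF X σ') hT hd
      (fun j S => FF_abs_le X σ j S) (fun j S => FF_abs_le X σ' j S)
    have h2 : (∏ j ∈ range J, (nz (TT X y j) (FF X σ j) : ℝ)) *
        ∏ j ∈ range J, (nz (TT X y j) (FF X σ' j) : ℝ) ≤ E * E :=
      mul_le_mul (nz_prod_le X y σ h.one) (nz_prod_le X y σ' h.one)
        (Finset.prod_nonneg fun _ _ => Nat.cast_nonneg _) hE0
    have h3 := h1.trans h2
    set A := ∑ l ∈ range L, (∏ j ∈ range J, ev (TT X y j) (FF X σ j) (a + Q * l)) *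
        (∏ j ∈ range J, ev (TT X y j) (FF X σ' j) (a' + Q * l))
    set B := (L : ℝ) * ∏ j ∈ range J, pv (TT X y j) (HH (TT X y j) a a') (FF X σ j) (FF X σ' j)
    have h4 : sg J σ * sg J σ' * (A - B) ≤ E * E := by
      calc sg J σ * sg J σ' * (A - B) ≤ |sg J σ * sg J σ' * (A - B)| := le_abs_self _
        _ = |sg J σ| * |sg J σ'| * |A - B| := by rw [abs_mul, abs_mul]
        _ ≤ 1 * 1 * (E * E) := by
            apply mul_le_mul _ h3 (abs_nonneg _) (by norm_num)
            exact mul_le_mul (sg_abs _ _) (sg_abs _ _) (abs_nonneg _) (by norm_num)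
        _ = E * E := by ring
    linarith [mul_sub (sg J σ * sg J σ') A B]
  have hexp : ∑ l ∈ range L, lo X y (a + Q * l) * lo X y (a' + Q * l) =
      ∑ σ ∈ range (J + 1), ∑ σ' ∈ range (J + 1), sg J σ * sg J σ' *
      (∑ l ∈ range L, (∏ j ∈ range J, ev (TT X y j) (FF X σ j) (a + Q * l)) *
        (∏ j ∈ range J, ev (TT X y j) (FF X σ' j) (a' + Q * l))) := by
    have h1 : ∀ l ∈ range L, lo X y (a + Q * l) * lo X y (a' + Q * l) =
        ∑ σ ∈ range (J + 1), ∑ σ' ∈ range (J + 1), sg J σ * sg J σ' *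
        ((∏ j ∈ range J, ev (TT X y j) (FF X σ j) (a + Q * l)) *
        (∏ j ∈ range J, ev (TT X y j) (FF X σ' j) (a' + Q * l))) := by
      intro l _
      rw [lo_expand, lo_expand, Finset.sum_mul_sum]
      apply Finset.sum_congr rfl
      intro σ _
      apply Finset.sum_congr rfl
      intro σ' _
      ring
    rw [Finset.sum_congr rfl h1, Finset.sum_comm]
    apply Finset.sum_congr rfl
    intro σ _
    rw [Finset.sum_comm]
    apply Finset.sum_congr rfl
    intro σ' _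
    rw [Finset.mul_sum]
  rw [hexp]
  calc ∑ σ ∈ range (J + 1), ∑ σ' ∈ range (J + 1), sg J σ * sg J σ' *
      (∑ l ∈ range L, (∏ j ∈ range J, ev (TT X y j) (FF X σ j) (a + Q * l)) *
        (∏ j ∈ range J, ev (TT X y j) (FF X σ' j) (a' + Q * l)))
      ≤ ∑ σ ∈ range (J + 1), ∑ σ' ∈ range (J + 1), (sg J σ * sg J σ' * (L *
        ∏ j ∈ range J, pv (TT X y j) (HH (TT X y j) a a') (FF X σ j) (FF X σ' j)) + E * E) :=
        Finset.sum_le_sum fun σ _ => Finset.sum_le_sum fun σ' _ => hterm σ σ'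
    _ = L * (∑ σ ∈ range (J + 1), ∑ σ' ∈ range (J + 1), sg J σ * sg J σ' *
        ∏ j ∈ range J, pv (TT X y j) (HH (TT X y j) a a') (FF X σ j) (FF X σ' j)) +
        ((J : ℝ) + 1) ^ 2 * (E * E) := by
        simp_rw [Finset.sum_add_distrib, Finset.mul_sum]
        congr 1
        · apply Finset.sum_congr rfl
          intro σ _
          apply Finset.sum_congr rfl
          intro σ' _
          ring
        · rw [Finset.sum_const, Finset.sum_const, Finset.card_range]
          simp only [nsmul_eq_mul]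
          push_cast
          ring
    _ ≤ _ := by
        have := err_le h hL
        linarith

end S4Aux

open S4Aux in
theorem lo_pair : ∃ κ : ℝ, 0 < κ ∧ ∀ (c C : ℝ) (X y : ℕ), Pk c C X y →
    ∀ a a' L : ℕ, a ≠ a' → X ≤ L * primorial y →
    ∑ l ∈ range L, lo X y (a + primorial y * l) * lo X y (a' + primorial y * l) ≤
      L * (WW X y) ^ 2 * Real.exp (κ * (hh y a a' + 1 / y)) := by
  refine ⟨2000000001, by norm_num, ?_⟩
  intro c C X y h a a' L haa hL
  have h1 := lo_lo_le h a a' L hL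
  set J := JJ X with hJ
  have hu : ∀ j ∈ range J, 0 < uu X y j := fun j hj => (Real.exp_pos _).trans_le (h.upos j hj)
  have h2 := combine J (uu X y) (gg X y) (be X y a a')
    (fun j σ σ' => pv (TT X y j) (HH (TT X y j) a a') (FF X σ j) (FF X σ' j))
    hu h.gnn (fun j _ => be_nonneg X y a a' j) h.tau (by
      intro j _ σ _ σ' _
      have := pv_close (TT X y j) (HH (TT X y j) a a') (FF X σ j) (FF X σ' j)
        (FF_abs_le X σ j) (FF_abs_le X σ' j)
      rw [mv_FF, mv_FF] at this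
      exact this)
  have h3 := beta_sum c C X y h a a' haa
  set t : ℝ := hh y a a' + 1 / y with ht
  have hy0 : (0 : ℝ) ≤ 1 / y := by positivity
  have ht1 : 1 / (y : ℝ) ≤ t := by rw [ht]; linarith [hh_nonneg y a a']
  have ht0 : 0 ≤ t := hy0.trans ht1
  have hL0 : (0 : ℝ) ≤ L := Nat.cast_nonneg _
  have h4 : ∑ σ ∈ range (J + 1), ∑ σ' ∈ range (J + 1), sg J σ * sg J σ' *
        ∏ j ∈ range J, pv (TT X y j) (HH (TT X y j) a a') (FF X σ j) (FF X σ' j) ≤
      (WW X y) ^ 2 * Real.exp (2000000000 * t) := by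
    refine h2.trans ?_
    have : (∏ j ∈ range J, uu X y j) * (1 - ∑ j ∈ range J, gg X y j / uu X y j) = WW X y := rfl
    rw [this]
    apply mul_le_mul_of_nonneg_left _ (sq_nonneg _)
    apply Real.exp_le_exp.2
    nlinarith
  have h5 : Real.exp (2000000000 * t) + 1 / y ≤ Real.exp (2000000001 * t) := by
    have e : (2000000001 : ℝ) * t = 2000000000 * t + t := by ring
    rw [e, Real.exp_add]
    have e1 : 1 + t ≤ Real.exp t := by linarith [Real.add_one_le_exp t]
    have e2 : 1 ≤ Real.exp (2000000000 * t) := by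
      rw [← Real.exp_zero]
      exact Real.exp_le_exp.2 (by positivity)
    nlinarith
  have hW : 0 ≤ (WW X y) ^ 2 := sq_nonneg _
  calc ∑ l ∈ range L, lo X y (a + primorial y * l) * lo X y (a' + primorial y * l)
      ≤ L * ((WW X y) ^ 2 * Real.exp (2000000000 * t)) + L * (WW X y) ^ 2 / y :=
        h1.trans (by gcongr)
    _ = L * (WW X y) ^ 2 * (Real.exp (2000000000 * t) + 1 / y) := by ring
    _ ≤ L * (WW X y) ^ 2 * Real.exp (2000000001 * t) :=
        mul_le_mul_of_nonneg_left h5 (by positivity)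

end Pool.Agent.H75.AP
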