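import Pool.Agent.H75.AP.S1
import Pool.Agent.H75.AP.PvClose
import Pool.Agent.H75.AP.Beta

/-!
# Module S5 (helpwanted): pair correlation of `up`

`sum_pair` with `f = g = fun j => fu j`: `∑_l up up' ≤ L * ∏_j pv (TT j) (HH (TT j) a a') (fu j) (fu j) + X^(98/100)`,
`|pv| ≤ uu^2 + be` (`pv_close`; `mv (TT j) (fu j) = uu`), so `∏_j pv ≤ ∏ (uu^2 + be) ≤ (∏ uu)^2 exp (∑ be/uu^2) ≤ 10^4 W^2 exp (10000 (hh + 1/y))` (`h.uprod`, `beta_sum`), error
`≤ L W^2/y ≤ L W^2` (`err_le`, `nz_prod_le'`). `κ = 10000`, `K = 10^4 * exp 10000 + 1` (`1/y ≤ 1`, `hh ≥ 0`).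
-/

namespace Pool.Agent.H75.AP

open Finset

private theorem hh_nonneg' (y a a' : ℕ) : 0 ≤ hh y a a' := by
  unfold hh
  apply Finset.sum_nonneg
  intro p _
  positivity

private theorem be_nonneg' (X y a a' j : ℕ) : 0 ≤ be X y a a' j := by
  unfold be
  have h1 : (1 : ℝ) ≤ Real.exp (∑ p ∈ TT X y j ∩ HH (TT X y j) a a', 1 / (p : ℝ)) := by
    apply Real.one_le_exp
    apply Finset.sum_nonneg
    intro p _
    positivity
  have h2 : (1 : ℝ) ≤ Real.exp (∑ p ∈ TT X y j, 1 / (p : ℝ) ^ 2) := by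
    apply Real.one_le_exp
    apply Finset.sum_nonneg
    intro p _
    positivity
  have h3 := Real.exp_pos (2 * lam (TT X y j))
  apply mul_nonneg h3.le
  linarith

private theorem pv_le' (X y a a' j : ℕ) :
    |pv (TT X y j) (HH (TT X y j) a a') (fu j) (fu j)| ≤ (uu X y j) ^ 2 + be X y a a' j := by
  have h := pv_close (TT X y j) (HH (TT X y j) a a') (fu j) (fu j)
    (fun S => fU_abs_le _ S) (fun S => fU_abs_le _ S)
  have h' : |pv (TT X y j) (HH (TT X y j) a a') (fu j) (fu j) - (uu X y j) ^ 2| ≤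
      be X y a a' j := by
    have e : (uu X y j) ^ 2 = mv (TT X y j) (fu j) * mv (TT X y j) (fu j) := by
      unfold uu
      ring
    rw [e]
    exact h
  have h2 := abs_le.1 h'
  have h3 := sq_nonneg (uu X y j)
  have h4 := be_nonneg' X y a a' j
  rw [abs_le]
  constructor
  · linarith [h2.1]
  · linarith [h2.2]

theorem up_pair : ∃ κ K : ℝ, 0 < κ ∧ 0 < K ∧ ∀ (c C : ℝ) (X y : ℕ), Pk c C X y →
    ∀ a a' L : ℕ, a ≠ a' → X ≤ L * primorial y →
    ∑ l ∈ range L, up X y (a + primorial y * l) * up X y (a' + primorial y * l) ≤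
      K * (L * (WW X y) ^ 2 * Real.exp (κ * hh y a a')) := by
  refine ⟨10000, 10000 * Real.exp 10000 + 1, by norm_num, by positivity, ?_⟩
  intro c C X y h a a' L haa hL
  have hhn := hh_nonneg' y a a'
  have hW := h.wpos
  have hy : (2 : ℝ) ≤ (y : ℝ) := by exact_mod_cast h.hy
  have hu : ∀ j ∈ range (JJ X), 0 < uu X y j := fun j hj =>
    lt_of_lt_of_le (Real.exp_pos _) (h.upos j hj)
  -- the main inequality
  have hsp := sum_pair (JJ X) (primorial y) L a a' (fun j => TT X y j) (fun j => fu j)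
    (fun j => fu j) (fun j _ p hp => not_dvd_primorial hp)
    (fun i _ j _ hij => TT_disjoint X y h.one hij)
    (fun j S => fU_abs_le _ S) (fun j S => fU_abs_le _ S)
  have hS := (abs_le.1 hsp).2
  -- error
  have hnz := nz_prod_le' X y h.one
  have hnz0 : 0 ≤ ∏ j ∈ range (JJ X), (nz (TT X y j) (fu j) : ℝ) :=
    Finset.prod_nonneg fun j _ => Nat.cast_nonneg _
  have hX0 : 0 ≤ (X : ℝ) ^ (49 / 100 : ℝ) := Real.rpow_nonneg (Nat.cast_nonneg _) _
  have hE : (∏ j ∈ range (JJ X), (nz (TT X y j) (fu j) : ℝ)) *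
      ∏ j ∈ range (JJ X), (nz (TT X y j) (fu j) : ℝ) ≤ L * (WW X y) ^ 2 := by
    have e1 := mul_le_mul hnz hnz hnz0 hX0
    have e2 := err_le h hL
    have e3 : (X : ℝ) ^ (49 / 100 : ℝ) * (X : ℝ) ^ (49 / 100 : ℝ) ≤
        ((JJ X : ℝ) + 1) ^ 2 * ((X : ℝ) ^ (49 / 100 : ℝ) * (X : ℝ) ^ (49 / 100 : ℝ)) := by
      apply le_mul_of_one_le_left (mul_nonneg hX0 hX0)
      have : (0 : ℝ) ≤ (JJ X : ℝ) := Nat.cast_nonneg _
      nlinarith
    have e4 : (L : ℝ) * (WW X y) ^ 2 / y ≤ L * (WW X y) ^ 2 := by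
      apply div_le_self
      · positivity
      · linarith
    linarith
  -- main term
  have hP : ∏ j ∈ range (JJ X), pv (TT X y j) (HH (TT X y j) a a') (fu j) (fu j) ≤
      10000 * (WW X y) ^ 2 * (Real.exp 10000 * Real.exp (10000 * hh y a a')) := by
    have p1 : ∏ j ∈ range (JJ X), pv (TT X y j) (HH (TT X y j) a a') (fu j) (fu j) ≤
        ∏ j ∈ range (JJ X), ((uu X y j) ^ 2 + be X y a a' j) := by
      refine (le_abs_self _).trans ?_
      rw [Finset.abs_prod]
      apply Finset.prod_le_prod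
      · intro j _
        exact abs_nonneg _
      · intro j _
        exact pv_le' X y a a' j
    have p2 : ∏ j ∈ range (JJ X), ((uu X y j) ^ 2 + be X y a a' j) ≤
        ∏ j ∈ range (JJ X), ((uu X y j) ^ 2 * Real.exp (be X y a a' j / (uu X y j) ^ 2)) := by
      apply Finset.prod_le_prod
      · intro j _
        have := be_nonneg' X y a a' j
        positivity
      · intro j hj
        have hj0 := hu j hj
        have hj2 : 0 < (uu X y j) ^ 2 := by positivity
        have e := Real.add_one_le_exp (be X y a a' j / (uu X y j) ^ 2)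
        have e2 := mul_le_mul_of_nonneg_left e hj2.le
        have e3 : (uu X y j) ^ 2 * (be X y a a' j / (uu X y j) ^ 2 + 1) =
            (uu X y j) ^ 2 + be X y a a' j := by
          field_simp
          ring
        rw [e3] at e2
        exact e2
    have p3 : ∏ j ∈ range (JJ X), ((uu X y j) ^ 2 * Real.exp (be X y a a' j / (uu X y j) ^ 2)) =
        (∏ j ∈ range (JJ X), uu X y j) ^ 2 *
          Real.exp (∑ j ∈ range (JJ X), be X y a a' j / (uu X y j) ^ 2) := by
      rw [Finset.prod_mul_distrib, Finset.prod_pow, Real.exp_sum]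
    have p4 : 0 ≤ ∏ j ∈ range (JJ X), uu X y j := Finset.prod_nonneg fun j hj => (hu j hj).le
    have p5 : (∏ j ∈ range (JJ X), uu X y j) ^ 2 ≤ 10000 * (WW X y) ^ 2 := by
      have := h.uprod
      nlinarith
    have p6 : Real.exp (∑ j ∈ range (JJ X), be X y a a' j / (uu X y j) ^ 2) ≤
        Real.exp 10000 * Real.exp (10000 * hh y a a') := by
      rw [← Real.exp_add]
      apply Real.exp_le_exp.2
      have b := beta_sum c C X y h a a' haa
      have y1 : (1 : ℝ) / y ≤ 1 := by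
        rw [div_le_one (by linarith)]
        linarith
      linarith
    calc _ ≤ _ := p1
      _ ≤ _ := p2
      _ = _ := p3
      _ ≤ _ := mul_le_mul p5 p6 (Real.exp_pos _).le (by positivity)
  -- conclusion
  have hL0 : (0 : ℝ) ≤ (L : ℝ) := Nat.cast_nonneg _
  have hPL := mul_le_mul_of_nonneg_left hP hL0
  have hex : (1 : ℝ) ≤ Real.exp (10000 * hh y a a') := Real.one_le_exp (by positivity)
  have hLW : 0 ≤ (L : ℝ) * (WW X y) ^ 2 := by positivity
  have hEx : (L : ℝ) * (WW X y) ^ 2 ≤ L * (WW X y) ^ 2 * Real.exp (10000 * hh y a a') :=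
    le_mul_of_one_le_right hLW hex
  have goal1 : ∑ l ∈ range L, up X y (a + primorial y * l) * up X y (a' + primorial y * l) ≤
      (L : ℝ) * (10000 * (WW X y) ^ 2 * (Real.exp 10000 * Real.exp (10000 * hh y a a'))) +
        L * (WW X y) ^ 2 := by
    have e0 : ∑ l ∈ range L, up X y (a + primorial y * l) * up X y (a' + primorial y * l) =
        ∑ l ∈ range L, (∏ j ∈ range (JJ X), ev (TT X y j) (fu j) (a + primorial y * l)) *
        (∏ j ∈ range (JJ X), ev (TT X y j) (fu j) (a' + primorial y * l)) := rfl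
    rw [e0]
    linarith
  calc _ ≤ _ := goal1
    _ ≤ (L : ℝ) * (10000 * (WW X y) ^ 2 * (Real.exp 10000 * Real.exp (10000 * hh y a a'))) +
        L * (WW X y) ^ 2 * Real.exp (10000 * hh y a a') := by linarith
    _ = _ := by ring

end Pool.Agent.H75.AP
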