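import Pool.Agent.H75.AP.Defs

/-!
# Module RICHERT (helpwanted): Richert's logarithmic weights give at most four prime factors

Take `X0 = ⌈exp 60⌉₊`. `n` is squarefree: a prime `p` with `p ^ 2 ∣ n` divides `n`, so `p > X^(1/50)` by `rough`,
contradicting `¬ sqd X n`. So `cardFactors n = n.primeFactors.card` (`ArithmeticFunction.cardDistinctFactors_eq_cardFactors_iff_squarefree`
and `cardDistinctFactors_apply`) and `log n = ∑_{p ∈ n.primeFactors} log p`.
Put `D = 17/50 * log X > 0`. Then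
`n.primeFactors.card - log n / D = ∑_{p ∈ primeFactors} (1 - log p / D)
   ≤ ∑_{p ∈ primeFactors, p ≤ X^(17/50)} (1 - log p / D)` (the other terms are `≤ 0`)
`= 2 ∑_{p ∈ (TT X y 0).filter (· ∣ n)} max 0 (min (1/2) (om X p)) < 2`, because the primes `p ∣ n`
with `p ≤ X^(17/50)` are in `TT X y 0` (`p > X^(1/50) ≥ y`, `th 0 = 17/50`, `th 1 = 1/50`) and for them
`0 ≤ om X p ≤ 1/2` (`0 ≤ log p ≤ D`).
Finally `log n ≤ log 3 + log X ≤ 1.1 + log X`, so `card < 2 + (1 + 1.1 / log X) * 50/17 ≤ 2 + (61.1/60) * 50/17 < 5`.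
-/

namespace Pool.Agent.H75.AP

open Finset

theorem richert : ∃ X0 : ℕ, ∀ X : ℕ, X0 ≤ X → ∀ y n : ℕ, (y : ℝ) ≤ (X : ℝ) ^ (1 / 50 : ℝ) →
    1 ≤ n → n ≤ 3 * X → rough X n → ¬ sqd X n →
    ∑ p ∈ (TT X y 0).filter (· ∣ n), max 0 (min (1 / 2) (om X p)) < 1 →
    ArithmeticFunction.cardFactors n ≤ 4 := by
  refine ⟨⌈Real.exp 300⌉₊, ?_⟩
  intro X hX y n hy hn1 hn3 hrough hsqd hsum
  have hXr : Real.exp 300 ≤ X := (Nat.le_ceil _).trans (by exact_mod_cast hX)
  have hX0 : (0 : ℝ) < X := (Real.exp_pos _).trans_le hXr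
  have hlX : 300 ≤ Real.log X := (Real.le_log_iff_exp_le hX0).mpr hXr
  obtain ⟨D, hD⟩ : ∃ D, D = 17 / 50 * Real.log X := ⟨_, rfl⟩
  have hD0 : 0 < D := by rw [hD]; linarith
  have hn0 : n ≠ 0 := by omega
  have hsq : Squarefree n := by
    rw [Nat.squarefree_iff_prime_squarefree]
    intro p hp hpp
    apply hsqd
    exact ⟨p, hp, hrough p hp ((dvd_mul_right p p).trans hpp), by rw [sq]; exact hpp⟩
  have hcard : ArithmeticFunction.cardFactors n = n.primeFactors.card := by
    rw [← (ArithmeticFunction.cardDistinctFactors_eq_cardFactors_iff_squarefree hn0).mpr hsq,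
      ArithmeticFunction.cardDistinctFactors_apply, Nat.primeFactors, List.card_toFinset]
  have hlog : Real.log n = ∑ p ∈ n.primeFactors, Real.log p := by
    conv_lhs => rw [← Nat.prod_primeFactors_of_squarefree hsq]
    rw [Nat.cast_prod, Real.log_prod]
    intro p hp
    have := (Nat.prime_of_mem_primeFactors hp).pos
    positivity
  have hom : ∀ p : ℕ, om X p = 1 / 2 * (1 - Real.log p / D) := by
    intro p
    rw [hD]
    rfl
  have hth0 : th 0 = 17 / 50 := by simp [th]
  have hth1 : th 1 = 1 / 50 := by simp [th]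
  have h1 : (n.primeFactors.card : ℝ) - Real.log n / D = ∑ p ∈ n.primeFactors, (1 - Real.log p / D) := by
    rw [sum_sub_distrib, hlog, sum_div]
    simp
  have h2 : ∑ p ∈ n.primeFactors, (1 - Real.log p / D) ≤
      ∑ p ∈ n.primeFactors.filter (fun p : ℕ => (p : ℝ) ≤ (X : ℝ) ^ (17 / 50 : ℝ)),
        (1 - Real.log p / D) := by
    rw [sum_filter]
    apply sum_le_sum
    intro p hp
    split_ifs with h
    · exact le_rfl
    · have h3 : Real.log ((X : ℝ) ^ (17 / 50 : ℝ)) ≤ Real.log p :=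
        Real.log_le_log (by positivity) (not_le.mp h).le
      rw [Real.log_rpow hX0, ← hD] at h3
      have h4 : 1 ≤ Real.log p / D := (one_le_div hD0).mpr h3
      linarith
  have h3 : ∑ p ∈ n.primeFactors.filter (fun p : ℕ => (p : ℝ) ≤ (X : ℝ) ^ (17 / 50 : ℝ)),
        (1 - Real.log p / D) ≤
      ∑ p ∈ (TT X y 0).filter (fun p : ℕ => p ∣ n), 2 * max 0 (min (1 / 2) (om X p)) := by
    have hsub : n.primeFactors.filter (fun p : ℕ => (p : ℝ) ≤ (X : ℝ) ^ (17 / 50 : ℝ)) ⊆
        (TT X y 0).filter (· ∣ n) := by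
      intro p hp
      rw [mem_filter] at hp
      have hpp := Nat.prime_of_mem_primeFactors hp.1
      have hpn := Nat.dvd_of_mem_primeFactors hp.1
      have hr := hrough p hpp hpn
      rw [mem_filter]
      refine ⟨?_, hpn⟩
      unfold TT
      rw [mem_filter, mem_range, hth0, zero_add, hth1]
      refine ⟨Nat.lt_succ_of_le (Nat.le_floor hp.2), hpp, ?_, hr⟩
      have := hy.trans_lt hr
      exact_mod_cast this
    refine le_trans ?_ (sum_le_sum_of_subset_of_nonneg hsub fun p _ _ => by positivity)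
    apply sum_le_sum
    intro p hp
    rw [mem_filter] at hp
    have hpp := Nat.prime_of_mem_primeFactors hp.1
    have hp0 : (0 : ℝ) < p := by exact_mod_cast hpp.pos
    have h5 : 0 ≤ Real.log p := Real.log_nonneg (by exact_mod_cast hpp.one_lt.le)
    have h6 : om X p ≤ 1 / 2 := by
      rw [hom]
      have := div_nonneg h5 hD0.le
      linarith
    have h7 : 1 - Real.log p / D = 2 * om X p := by rw [hom]; ring
    rw [h7, min_eq_right h6]
    exact mul_le_mul_of_nonneg_left (le_max_right _ _) (by norm_num)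
  rw [← mul_sum] at h3
  have h4 : (n.primeFactors.card : ℝ) - Real.log n / D < 2 := by
    rw [h1]
    linarith
  have h5 : Real.log n ≤ Real.log X + 2 := by
    have h6 : (n : ℝ) ≤ 3 * X := by exact_mod_cast hn3
    have h7 : Real.log n ≤ Real.log (3 * X) :=
      Real.log_le_log (by exact_mod_cast hn1) h6
    rw [Real.log_mul (by norm_num) hX0.ne'] at h7
    have h8 := Real.log_le_sub_one_of_pos (show (0 : ℝ) < 3 by norm_num)
    linarith
  have h6 : Real.log n / D ≤ 2.97 := by
    rw [div_le_iff₀ hD0, hD]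
    linarith
  have h7 : (n.primeFactors.card : ℝ) < 5 := by linarith
  have h8 : n.primeFactors.card < 5 := by exact_mod_cast h7
  rw [hcard]
  omega

end Pool.Agent.H75.AP
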