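import Pool.Agent.H75.AP.Point
import Pool.Agent.H75.AP.Blocks
import Pool.Agent.H75.AP.Richert

/-!
# Module S6 (helpwanted): `lo` is positive only at good (or square-divisible) numbers

`lo_good`: suppose `lo X y n > 0`. By `lo_nonpos` no prime of `TT X y j`, `1 ≤ j < JJ X`, divides `n`; by `h.cover` no prime in `(y, X^(1/50)]`
divides `n`, and no prime `≤ y` either (`n` is coprime to `primorial y`), so `rough X n`. By `lo_eq`
`∑_{p ∈ TT X y 0, p ∣ n} max 0 (min (1/2) (om X p)) = 1 - lo < 1`, so `richert` gives `cardFactors n ≤ 4`.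
`up_rough`: a prime `p ∈ TT X y j`, `j ≥ 1`, is `≤ X ^ th j ≤ X ^ (1/50)`, so it does not divide the rough number `n`; `up_ge_one`.
-/

namespace Pool.Agent.H75.AP

open Finset

theorem lo_good : ∃ X1 : ℕ, ∀ (c C : ℝ) (X y : ℕ), X1 ≤ X → Pk c C X y → ∀ n : ℕ, 1 ≤ n →
    n ≤ 3 * X → n.Coprime (primorial y) → ¬ sqd X n → ¬ good X n → lo X y n ≤ 0 := by
  obtain ⟨X0, hX0⟩ := richert
  refine ⟨X0, fun c C X y hX h n hn hn3 hcop hsq hgood => ?_⟩
  by_contra hlo
  rw [not_le] at hlo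
  have hnot : ∀ j, 1 ≤ j → j < JJ X → ∀ p ∈ TT X y j, ¬ p ∣ n := by
    intro j hj1 hj p hp hpn
    exact absurd (lo_nonpos X y n ⟨j, hj1, hj, p, hp, hpn⟩) (not_le.2 hlo)
  have hrough : rough X n := by
    intro p hp hpn
    by_contra hle
    rw [not_lt] at hle
    by_cases hpy : y < p
    · obtain ⟨j, hj1, hj, hmem⟩ := h.cover p hp hpy hle
      exact hnot j hj1 hj p hmem hpn
    · have hd : p ∣ primorial y := by
        unfold primorial
        exact Finset.dvd_prod_of_mem _ (mem_filter.2 ⟨mem_range.2 (by omega), hp⟩)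
      have h1 : p ∣ 1 := by
        rw [← hcop]
        exact Nat.dvd_gcd hpn hd
      exact hp.one_lt.ne' (Nat.dvd_one.1 h1)
  have hlo' := lo_eq X y n hnot
  exact hgood ⟨hrough, hX0 X hX y n h.ylt hn hn3 hrough hsq (by linarith)⟩

theorem up_rough (c C : ℝ) (X y : ℕ) (h : Pk c C X y) (n : ℕ) (hn : rough X n) :
    1 ≤ up X y n := by
  apply up_ge_one
  intro j hj1 _ p hp hpn
  have h1 := mem_TT.1 hp
  have h2 := hn p h1.1 hpn
  have h3 : (X : ℝ) ^ th j ≤ (X : ℝ) ^ th 1 :=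
    Real.rpow_le_rpow_of_exponent_le (by exact_mod_cast h.one) (th_anti hj1)
  have h4 : th 1 = 1 / 50 := by
    unfold th
    norm_num
  rw [h4] at h3
  linarith [h1.2.2.2]

end Pool.Agent.H75.AP
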