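import Pool.Agent.H75.AP.Defs

/-!
# Module S7 (helpwanted): few numbers divisible by the square of a large prime

If `n = a + Q l` (`Q = primorial y`, `1 ≤ n ≤ 4 X`) is divisible by `p^2`, `p > X^(1/50)` prime, then `p ≤ 2 √X`, and for `X` large `p > y`, so `p ∤ Q` and
the number of `l < L` with `p^2 ∣ a + Q l` is at most `L/p^2 + 1`. Summing over the integers `X^(1/50) < p ≤ 2 √X`:
`≤ L * 2 X^(-1/50) + 2 √X ≤ L * W/(4 y)`, because `L ≥ X/Q`, `W ≥ c / log X` (`h.wlo`) and `X ≥ X0(c, y)`.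
-/

namespace Pool.Agent.H75.AP

open Finset

/-- number of `l < L` with `m ∣ a + Q l`, `m` prime to `Q` -/
theorem sq_one (m Q a L : ℕ) (hcop : Nat.Coprime m Q) :
    (((range L).filter (fun l => m ∣ a + Q * l)).card : ℝ) ≤ L / m + 1 := by
  have h1 : ((range L).filter (fun l => m ∣ a + Q * l)).card ≤ (range (L / m + 1)).card := by
    refine Finset.card_le_card_of_injOn (fun l => l / m) ?_ ?_
    · intro l hl
      rw [Finset.coe_filter, Set.mem_ofPred_eq, mem_range] at hl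
      rw [Finset.mem_coe, mem_range]
      exact Nat.lt_succ_of_le (Nat.div_le_div_right hl.1.le)
    · intro l hl l' hl' hll
      rw [Finset.coe_filter, Set.mem_ofPred_eq, mem_range] at hl hl'
      have h2 : a + Q * l ≡ a + Q * l' [MOD m] :=
        ((Nat.modEq_zero_iff_dvd).2 hl.2).trans ((Nat.modEq_zero_iff_dvd).2 hl'.2).symm
      have h3 : Q * l ≡ Q * l' [MOD m] := Nat.ModEq.add_left_cancel' a h2
      have h4 : l ≡ l' [MOD m] := Nat.ModEq.cancel_left_of_coprime hcop h3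
      have h5 : l % m = l' % m := h4
      have h6 : l / m = l' / m := hll
      rw [← Nat.div_add_mod l m, ← Nat.div_add_mod l' m, h5, h6]
  rw [card_range] at h1
  have h2 : ((L / m : ℕ) : ℝ) ≤ (L : ℝ) / m := Nat.cast_div_le
  have h3 : (((range L).filter (fun l => m ∣ a + Q * l)).card : ℝ) ≤ ((L / m + 1 : ℕ) : ℝ) := by
    exact_mod_cast h1
  push_cast at h3
  linarith

theorem sq_asym (A r : ℝ) (hA : 0 ≤ A) (hr : 0 < r) (c : ℝ) (hc : 0 < c) :
    ∃ X0 : ℕ, ∀ X : ℕ, X0 ≤ X → A * Real.log X ≤ c * (X : ℝ) ^ r := by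
  have h1 := isLittleO_log_rpow_atTop hr
  have hpos : 0 < c / (A + 1) := by positivity
  obtain ⟨X0, hX0⟩ := Filter.eventually_atTop.1 (tendsto_natCast_atTop_atTop.eventually
    (h1.def hpos) : ∀ᶠ n : ℕ in Filter.atTop, ‖Real.log (n : ℝ)‖ ≤ c / (A + 1) * ‖(n : ℝ) ^ r‖)
  refine ⟨X0, fun X hX => ?_⟩
  have h3 := hX0 X hX
  rw [Real.norm_eq_abs, Real.norm_eq_abs, abs_of_nonneg (Real.log_natCast_nonneg X),
    abs_of_nonneg (by positivity)] at h3
  have h4 : A * Real.log X ≤ A * (c / (A + 1) * (X : ℝ) ^ r) := mul_le_mul_of_nonneg_left h3 hA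
  refine h4.trans ?_
  have h5 : A * (c / (A + 1) * (X : ℝ) ^ r) = (A / (A + 1)) * (c * (X : ℝ) ^ r) := by
    field_simp
  rw [h5]
  have h6 : A / (A + 1) ≤ 1 := by
    rw [div_le_one (by positivity)]
    linarith
  have h7 : 0 ≤ c * (X : ℝ) ^ r := by positivity
  nlinarith

theorem sq_not_dvd_primorial (y p : ℕ) (hp : p.Prime) (hyp : y < p) :
    Nat.Coprime p (primorial y) := by
  rw [Nat.Prime.coprime_iff_not_dvd hp]
  intro h
  rw [primorial] at h
  obtain ⟨q, hq, hpq⟩ := (hp.prime.dvd_finsetProd_iff _).1 h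
  rw [mem_filter, mem_range] at hq
  have := (Nat.prime_dvd_prime_iff_eq hp hq.2).1 hpq
  omega

open Classical in
theorem sq_count (c : ℝ) (hc : 0 < c) (y : ℕ) (hy : 2 ≤ y) : ∃ X0 : ℕ, ∀ (C : ℝ) (X : ℕ), X0 ≤ X →
    Pk c C X y → ∀ a L : ℕ, 1 ≤ a → X ≤ L * primorial y → a + primorial y * L ≤ 4 * X →
    (((range L).filter (fun l => sqd X (a + primorial y * l))).card : ℝ) ≤
      L * WW X y / (4 * y) := by
  obtain ⟨X1, hX1⟩ := sq_asym (16 * y) (1 / 50) (by positivity) (by norm_num) c hc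
  obtain ⟨X2, hX2⟩ := sq_asym (16 * y * primorial y) (1 / 2) (by positivity) (by norm_num) c hc
  refine ⟨max X1 X2, fun C X hX h a L ha hL h4 => ?_⟩
  have e1 := hX1 X (le_trans (le_max_left _ _) hX)
  have e2 := hX2 X (le_trans (le_max_right _ _) hX)
  set Q := primorial y with hQ
  have hQpos : 0 < Q := primorial_pos y
  have hX0 : (1 : ℝ) ≤ X := by exact_mod_cast h.one
  set x1 : ℝ := (X : ℝ) ^ (1 / 50 : ℝ) with hx1
  have hx1one : 1 ≤ x1 := Real.one_le_rpow hX0 (by norm_num)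
  set x2 : ℝ := (X : ℝ) ^ (1 / 2 : ℝ) with hx2
  have hx2one : 1 ≤ x2 := Real.one_le_rpow hX0 (by norm_num)
  have hx2sq : x2 * x2 = X := by
    rw [hx2, ← Real.rpow_add (by linarith)]
    norm_num
  set K := ⌊x1⌋₊ with hK
  set N := ⌊2 * x2⌋₊ with hN
  have hK1 : 1 ≤ K := Nat.le_floor (by exact_mod_cast hx1one)
  have hKle : (K : ℝ) ≤ x1 := Nat.floor_le (by linarith)
  have hKge : x1 ≤ 2 * K := by
    have := Nat.lt_floor_add_one x1
    have h1 : (1 : ℝ) ≤ K := by exact_mod_cast hK1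
    rw [← hK] at this
    linarith
  have hKpos : (0 : ℝ) < K := by exact_mod_cast hK1
  -- the union bound
  set B := (Ioc K N).filter (fun m => Nat.Coprime m Q) with hB
  have hsub : (range L).filter (fun l => sqd X (a + Q * l)) ⊆
      B.biUnion (fun p => (range L).filter (fun l => p ^ 2 ∣ a + Q * l)) := by
    intro l hl
    rw [mem_filter, mem_range] at hl
    obtain ⟨hlL, p, hp, hpX, hpd⟩ := hl
    rw [mem_biUnion]
    refine ⟨p, ?_, ?_⟩
    · rw [hB, mem_filter, mem_Ioc]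
      refine ⟨⟨?_, ?_⟩, ?_⟩
      · have : (K : ℝ) < p := lt_of_le_of_lt hKle hpX
        exact_mod_cast this
      · rw [hN]
        apply Nat.le_floor
        have h5 : p ^ 2 ≤ a + Q * l := Nat.le_of_dvd (by omega) hpd
        have h6 : Q * l ≤ Q * L := Nat.mul_le_mul_left Q hlL.le
        have h7 : p ^ 2 ≤ 4 * X := by omega
        have h8 : (p : ℝ) ^ 2 ≤ 4 * X := by exact_mod_cast h7
        rw [← hx2sq] at h8
        have h9 : (p : ℝ) ^ 2 ≤ (2 * x2) ^ 2 := by nlinarith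
        exact (pow_le_pow_iff_left₀ (by positivity) (by positivity) (by norm_num)).1 h9
      · apply sq_not_dvd_primorial y p hp
        have h5 := lt_of_le_of_lt h.ylt hpX
        exact_mod_cast h5
    · rw [mem_filter, mem_range]
      exact ⟨hlL, hpd⟩
  have hcard : (((range L).filter (fun l => sqd X (a + Q * l))).card : ℝ) ≤
      ∑ p ∈ Ioc K N, ((L : ℝ) * ((p : ℝ) ^ 2)⁻¹ + 1) := by
    calc (((range L).filter (fun l => sqd X (a + Q * l))).card : ℝ)
        ≤ ((B.biUnion (fun p => (range L).filter (fun l => p ^ 2 ∣ a + Q * l))).card : ℝ) := by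
          exact_mod_cast card_le_card hsub
      _ ≤ ∑ p ∈ B, (((range L).filter (fun l => p ^ 2 ∣ a + Q * l)).card : ℝ) := by
          exact_mod_cast card_biUnion_le
      _ ≤ ∑ p ∈ B, ((L : ℝ) * ((p : ℝ) ^ 2)⁻¹ + 1) := by
          apply sum_le_sum
          intro p hp
          rw [hB, mem_filter, mem_Ioc] at hp
          have h5 := sq_one (p ^ 2) Q a L
            (Nat.Coprime.pow_left 2 hp.2)
          push_cast at h5
          rw [div_eq_mul_inv] at h5
          exact h5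
      _ ≤ ∑ p ∈ Ioc K N, ((L : ℝ) * ((p : ℝ) ^ 2)⁻¹ + 1) := by
          apply sum_le_sum_of_subset_of_nonneg (filter_subset _ _)
          intro p _ _
          positivity
  have hsum : ∑ p ∈ Ioc K N, ((L : ℝ) * ((p : ℝ) ^ 2)⁻¹ + 1) ≤ L * (K : ℝ)⁻¹ + 2 * x2 := by
    rw [sum_add_distrib, ← mul_sum]
    have h5 : ∑ p ∈ Ioc K N, ((p : ℝ) ^ 2)⁻¹ ≤ (K : ℝ)⁻¹ := by
      rcases Nat.lt_or_ge N K with h6 | h6
      · rw [Ioc_eq_empty (by omega), sum_empty]
        positivity
      · have h7 := sum_Ioc_inv_sq_le_sub (α := ℝ) (by omega : K ≠ 0) h6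
        have h8 : (0 : ℝ) ≤ (N : ℝ)⁻¹ := by positivity
        linarith
    have h6 : ∑ _p ∈ Ioc K N, (1 : ℝ) ≤ 2 * x2 := by
      rw [sum_const, Nat.card_Ioc, nsmul_eq_mul, mul_one]
      have h7 : ((N - K : ℕ) : ℝ) ≤ N := by exact_mod_cast Nat.sub_le _ _
      exact h7.trans (Nat.floor_le (by positivity))
    have h7 : (L : ℝ) * ∑ p ∈ Ioc K N, ((p : ℝ) ^ 2)⁻¹ ≤ L * (K : ℝ)⁻¹ :=
      mul_le_mul_of_nonneg_left h5 (by positivity)
    linarith
  have hlog : 0 < Real.log X := by have := h.logX; linarith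
  have hy0 : (0 : ℝ) < y := by exact_mod_cast (by omega : 0 < y)
  have hLpos : (0 : ℝ) ≤ L := by positivity
  -- first term
  have f1 : L * (K : ℝ)⁻¹ ≤ L * WW X y / (8 * y) := by
    have h5 : (K : ℝ)⁻¹ ≤ WW X y / (8 * y) := by
      have h6 : (K : ℝ)⁻¹ ≤ 2 / x1 := by
        rw [inv_eq_one_div, div_le_div_iff₀ hKpos (by linarith)]
        linarith
      have h7 : 2 / x1 ≤ c / Real.log X / (8 * y) := by
        rw [div_div, div_le_div_iff₀ (by linarith) (by positivity)]
        nlinarith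
      have h8 : c / Real.log X / (8 * y) ≤ WW X y / (8 * y) :=
        div_le_div_of_nonneg_right h.wlo (by positivity)
      linarith
    calc L * (K : ℝ)⁻¹ ≤ L * (WW X y / (8 * y)) := mul_le_mul_of_nonneg_left h5 hLpos
      _ = L * WW X y / (8 * y) := by ring
  -- second term
  have f2 : 2 * x2 ≤ L * WW X y / (8 * y) := by
    have hQ0 : (0 : ℝ) < Q := by exact_mod_cast hQpos
    have h5 : (X : ℝ) / Q ≤ L := by
      rw [div_le_iff₀ hQ0]
      exact_mod_cast hL
    have h6 : 2 * x2 ≤ (X : ℝ) / Q * (c / Real.log X) / (8 * y) := by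
      rw [div_mul_div_comm, div_div, le_div_iff₀ (by positivity)]
      have h8 : 2 * x2 * (↑Q * Real.log ↑X * (8 * ↑y)) =
          x2 * (16 * ↑y * ↑Q * Real.log ↑X) := by ring
      have h9 : (X : ℝ) * c = x2 * (c * x2) := by rw [← hx2sq]; ring
      rw [h8, h9]
      exact mul_le_mul_of_nonneg_left e2 (by linarith)
    have h7 : (X : ℝ) / Q * (c / Real.log X) ≤ L * WW X y :=
      mul_le_mul h5 h.wlo (by positivity) hLpos
    exact h6.trans (div_le_div_of_nonneg_right h7 (by positivity))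
  have f3 : L * WW X y / (8 * y) + L * WW X y / (8 * y) = L * WW X y / (4 * y) := by
    ring
  linarith

end Pool.Agent.H75.AP
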