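import Pool.Agent.H75.AP.Pack
import Pool.Agent.H75.AP.S1
import Pool.Agent.H75.AP.S3
import Pool.Agent.H75.AP.S4
import Pool.Agent.H75.AP.S5
import Pool.Agent.H75.AP.S6
import Pool.Agent.H75.AP.S7

/-!
# Module CORE (helper75): almost all translates of `B` contain many numbers with at most four prime factors
-/

namespace Pool.Agent.H75.AP

open Finset

theorem hh_nonneg (y a a' : ℕ) : 0 ≤ hh y a a' := sum_nonneg fun _ _ => by positivity

theorem hh_shift (y a a' t : ℕ) : hh y (a + t) (a' + t) = hh y a a' := by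
  unfold hh
  have : ((a + t : ℕ) : ℤ) - ((a' + t : ℕ) : ℤ) = (a : ℤ) - (a' : ℤ) := by push_cast; ring
  rw [this]

theorem Pair_nonneg (y : ℕ) (κ : ℝ) (hκ : 0 ≤ κ) (B : Finset ℕ) : 0 ≤ Pair y κ B := by
  unfold Pair
  apply sum_nonneg; intro x _
  apply sum_nonneg; intro x' _
  split_ifs
  · have := Real.one_le_exp (mul_nonneg hκ (hh_nonneg y x x'))
    linarith
  · exact le_rfl

theorem Pair_mono {y : ℕ} {κ κ' : ℝ} (h : κ ≤ κ') (B : Finset ℕ) : Pair y κ B ≤ Pair y κ' B := by
  unfold Pair
  apply sum_le_sum; intro x _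
  apply sum_le_sum; intro x' _
  split_ifs
  · have := Real.exp_le_exp.2 (mul_le_mul_of_nonneg_right h (hh_nonneg y x x'))
    linarith
  · exact le_rfl

theorem exp_small {t : ℝ} (h0 : 0 ≤ t) (h1 : t ≤ 1) : Real.exp t ≤ 1 + 2 * t := by
  have h := Real.exp_bound' h0 h1 (n := 1) (by norm_num)
  simp at h
  linarith

theorem exp_split {a t : ℝ} (ha : 0 ≤ a) (h0 : 0 ≤ t) (h1 : t ≤ 1) :
    Real.exp (a + t) ≤ (1 + 2 * t) + 3 * (Real.exp a - 1) := by
  rw [Real.exp_add]
  have h2 := exp_small h0 h1
  have h3 : 1 ≤ Real.exp a := Real.one_le_exp ha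
  have h4 : Real.exp t ≤ 3 := by linarith
  nlinarith

/-- second moment computation -/
theorem second_bound (c C κ K3 : ℝ) (hκ : 0 < κ) (hK3 : 0 < K3) (X y : ℕ) (hP : Pk c C X y)
    (hκy : κ / y ≤ 1)
    (h3 : ∀ a L : ℕ, X ≤ L * primorial y →
      ∑ l ∈ range L, (lo X y (a + primorial y * l)) ^ 2 ≤ K3 * (L * WW X y))
    (h4 : ∀ a a' L : ℕ, a ≠ a' → X ≤ L * primorial y →
      ∑ l ∈ range L, lo X y (a + primorial y * l) * lo X y (a' + primorial y * l) ≤
        L * (WW X y) ^ 2 * Real.exp (κ * (hh y a a' + 1 / y)))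
    (B : Finset ℕ) (b L : ℕ) (hL : X ≤ L * primorial y) :
    ∑ l ∈ range L, (∑ x ∈ B, lo X y (x + b + primorial y * l) - WW X y * B.card) ^ 2 ≤
      L * (WW X y) ^ 2 * ((B.card : ℝ) ^ 2 * ((2 * κ + 2) / y) + 3 * Pair y κ B) +
        K3 * (B.card * (L * WW X y)) := by
  set W := WW X y with hW
  set n : ℝ := (B.card : ℝ) with hn
  have hn0 : 0 ≤ n := by rw [hn]; positivity
  have hWpos : 0 < W := hP.wpos
  have hy : (0 : ℝ) < y := by exact_mod_cast (by have := hP.hy; omega : 0 < y)
  have hL0 : (0 : ℝ) ≤ L := by positivity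
  -- first moment
  have hfirst : n * (L * W - L * W / y) ≤ ∑ l ∈ range L, ∑ x ∈ B, lo X y (x + b + primorial y * l) := by
    rw [sum_comm]
    have : n * (L * W - L * W / y) = ∑ _x ∈ B, (L * W - L * W / y) := by
      rw [sum_const, nsmul_eq_mul]
    rw [this]
    apply sum_le_sum
    intro x _
    have := lo_mean c C X y hP (x + b) L hL
    rw [abs_le] at this
    linarith [this.1]
  -- second moment
  have hsecond : ∑ l ∈ range L, (∑ x ∈ B, lo X y (x + b + primorial y * l)) ^ 2 ≤
      L * W ^ 2 * (n ^ 2 * (1 + 2 * (κ / y)) + 3 * Pair y κ B) + K3 * (n * (L * W)) := by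
    have e1 : ∑ l ∈ range L, (∑ x ∈ B, lo X y (x + b + primorial y * l)) ^ 2 =
        ∑ x ∈ B, ∑ x' ∈ B, ∑ l ∈ range L, lo X y (x + b + primorial y * l) *
          lo X y (x' + b + primorial y * l) := by
      simp_rw [pow_two, sum_mul_sum]
      rw [sum_comm]
      apply sum_congr rfl; intro x _
      rw [sum_comm]
    rw [e1]
    have e2 : ∀ x ∈ B, ∀ x' ∈ B, ∑ l ∈ range L, lo X y (x + b + primorial y * l) *
          lo X y (x' + b + primorial y * l) ≤
        L * W ^ 2 * ((1 + 2 * (κ / y)) + 3 * (if x ≠ x' then Real.exp (κ * hh y x x') - 1 else 0)) +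
          (if x = x' then K3 * (L * W) else 0) := by
      intro x _ x' _
      by_cases hxx : x = x'
      · subst hxx
        have := h3 (x + b) L hL
        simp only [ne_eq, not_true_eq_false, if_false, if_true, mul_zero, add_zero]
        have h5 : 0 ≤ L * W ^ 2 * (1 + 2 * (κ / y)) := by positivity
        have h6 : ∑ l ∈ range L, lo X y (x + b + primorial y * l) *
          lo X y (x + b + primorial y * l) = ∑ l ∈ range L, (lo X y (x + b + primorial y * l)) ^ 2 := by
          apply sum_congr rfl; intro l _; ring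
        rw [h6]
        linarith
      · have := h4 (x + b) (x' + b) L (by omega) hL
        rw [hh_shift] at this
        simp only [ne_eq, hxx, not_false_eq_true, if_true, if_false, add_zero]
        refine this.trans ?_
        apply mul_le_mul_of_nonneg_left _ (by positivity)
        have h7 : κ * (hh y x x' + 1 / y) = κ * hh y x x' + κ / y := by ring
        rw [h7]
        exact exp_split (mul_nonneg hκ.le (hh_nonneg _ _ _)) (by positivity) hκy
    refine (sum_le_sum fun x hx => sum_le_sum fun x' hx' => e2 x hx x' hx').trans ?_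
    apply le_of_eq
    have e3 : ∀ x ∈ B, ∑ x' ∈ B, (L * W ^ 2 * ((1 + 2 * (κ / y)) +
        3 * (if x ≠ x' then Real.exp (κ * hh y x x') - 1 else 0)) +
          (if x = x' then K3 * (L * W) else 0)) =
        L * W ^ 2 * (n * (1 + 2 * (κ / y)) +
          3 * ∑ x' ∈ B, (if x ≠ x' then Real.exp (κ * hh y x x') - 1 else 0)) + K3 * (L * W) := by
      intro x hx
      rw [sum_add_distrib, ← mul_sum, sum_add_distrib, sum_const, ← mul_sum, sum_ite_eq, if_pos hx,
        nsmul_eq_mul]
    rw [sum_congr rfl e3]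
    simp only [sum_add_distrib, ← mul_sum, sum_const, nsmul_eq_mul]
    rw [← hn]
    unfold Pair
    ring
  -- combine
  have e4 : ∑ l ∈ range L, (∑ x ∈ B, lo X y (x + b + primorial y * l) - W * n) ^ 2 =
      ∑ l ∈ range L, (∑ x ∈ B, lo X y (x + b + primorial y * l)) ^ 2 -
        2 * (W * n) * ∑ l ∈ range L, ∑ x ∈ B, lo X y (x + b + primorial y * l) +
          L * (W * n) ^ 2 := by
    rw [mul_sum, ← sum_sub_distrib]
    have : (L : ℝ) * (W * n) ^ 2 = ∑ _l ∈ range L, (W * n) ^ 2 := by
      rw [sum_const, card_range, nsmul_eq_mul]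
    rw [this, ← sum_add_distrib]
    apply sum_congr rfl; intro l _
    ring
  rw [e4]
  have h8 : 2 * (W * n) * (n * (L * W - L * W / y)) ≤
      2 * (W * n) * ∑ l ∈ range L, ∑ x ∈ B, lo X y (x + b + primorial y * l) :=
    mul_le_mul_of_nonneg_left hfirst (by positivity)
  have h9 : L * W ^ 2 * (n ^ 2 * (1 + 2 * (κ / y)) + 3 * Pair y κ B) + K3 * (n * (L * W)) -
      2 * (W * n) * (n * (L * W - L * W / y)) + L * (W * n) ^ 2 =
      L * W ^ 2 * (n ^ 2 * ((2 * κ + 2) / y) + 3 * Pair y κ B) + K3 * (n * (L * W)) := by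
    field_simp
    ring
  linarith

open Classical in
theorem core_a (c C κ K3 : ℝ) (hκ : 0 < κ) (hK3 : 0 < K3) (X y : ℕ) (hP : Pk c C X y)
    (hκy : κ / y ≤ 1)
    (h3 : ∀ a L : ℕ, X ≤ L * primorial y →
      ∑ l ∈ range L, (lo X y (a + primorial y * l)) ^ 2 ≤ K3 * (L * WW X y))
    (h4 : ∀ a a' L : ℕ, a ≠ a' → X ≤ L * primorial y →
      ∑ l ∈ range L, lo X y (a + primorial y * l) * lo X y (a' + primorial y * l) ≤
        L * (WW X y) ^ 2 * Real.exp (κ * (hh y a a' + 1 / y)))
    (h6 : ∀ n : ℕ, 1 ≤ n → n ≤ 3 * X → n.Coprime (primorial y) → ¬ sqd X n → ¬ good X n →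
      lo X y n ≤ 0)
    (h7 : ∀ a L : ℕ, 1 ≤ a → X ≤ L * primorial y → a + primorial y * L ≤ 4 * X →
      (((range L).filter (fun l => sqd X (a + primorial y * l))).card : ℝ) ≤
        L * WW X y / (4 * y))
    (hXQ : 2 * primorial y ≤ X)
    (B : Finset ℕ) (r b L : ℕ) (hB : B.Nonempty)
    (hBX : ∀ x ∈ B, x ≤ X ∧ 1 ≤ x ∧ x ≡ r [MOD primorial y]) (hb : b ≤ primorial y)
    (hrb : (r + b).Coprime (primorial y)) (hL : X ≤ L * primorial y)
    (hL2 : L * primorial y ≤ X + primorial y) :
    (((range L).filter (fun l =>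
        ((B.filter (fun x => good X (x + b + primorial y * l))).card : ℝ) <
          WW X y / 2 * B.card)).card : ℝ) ≤
        L * ((16 * (2 * κ + 2) + 1) / y + 48 * (Pair y κ B / (B.card : ℝ) ^ 2) +
          16 * K3 / c * (Real.log X / B.card)) := by
  have hsb := second_bound c C κ K3 hκ hK3 X y hP hκy h3 h4 B b L hL
  set W := WW X y with hW
  set Q := primorial y with hQ
  set n : ℝ := (B.card : ℝ) with hn
  have hn0 : 0 < n := by rw [hn]; exact_mod_cast hB.card_pos
  have hWpos : 0 < W := hP.wpos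
  have hy : (0 : ℝ) < y := by exact_mod_cast (by have := hP.hy; omega : 0 < y)
  have hL0 : (0 : ℝ) ≤ L := by positivity
  have hlog : 0 < Real.log X := by linarith [hP.logX]
  have hc := hP.c0
  set N : ℕ → ℝ := fun l => ∑ x ∈ B, lo X y (x + b + Q * l) with hN
  set S : ℕ → ℝ := fun l => ((B.filter (fun x => sqd X (x + b + Q * l))).card : ℝ) with hS
  set A1 := (range L).filter (fun l => N l < 3 / 4 * (W * n)) with hA1
  set A2 := (range L).filter (fun l => W * n / 4 < S l) with hA2
  -- bound for A1
  have hA1b : (A1.card : ℝ) ≤ L * (16 * (2 * κ + 2) / y + 48 * (Pair y κ B / n ^ 2) +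
      16 * K3 / c * (Real.log X / n)) := by
    have e1 : (A1.card : ℝ) * (W * n / 4) ^ 2 ≤ ∑ l ∈ range L, (N l - W * n) ^ 2 := by
      calc (A1.card : ℝ) * (W * n / 4) ^ 2 = ∑ _l ∈ A1, (W * n / 4) ^ 2 := by
            rw [sum_const, nsmul_eq_mul]
        _ ≤ ∑ l ∈ A1, (N l - W * n) ^ 2 := by
            apply sum_le_sum
            intro l hl
            rw [hA1, mem_filter] at hl
            have h1 : N l < 3 / 4 * (W * n) := hl.2
            have h2 : 0 < W * n := by positivity
            nlinarith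
        _ ≤ ∑ l ∈ range L, (N l - W * n) ^ 2 := by
            apply sum_le_sum_of_subset_of_nonneg (filter_subset _ _)
            intro _ _ _; positivity
    have e2 := e1.trans hsb
    have h2 : 0 < (W * n / 4) ^ 2 := by positivity
    have e3 : (A1.card : ℝ) ≤ (L * W ^ 2 * (n ^ 2 * ((2 * κ + 2) / y) + 3 * Pair y κ B) +
        K3 * (n * (L * W))) / (W * n / 4) ^ 2 := by
      rw [le_div_iff₀ h2]; exact e2
    refine e3.trans ?_
    have e4 : (L * W ^ 2 * (n ^ 2 * ((2 * κ + 2) / y) + 3 * Pair y κ B) +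
        K3 * (n * (L * W))) / (W * n / 4) ^ 2 =
        L * (16 * (2 * κ + 2) / y + 48 * (Pair y κ B / n ^ 2) + 16 * K3 * (1 / (W * n))) := by
      field_simp
      ring
    rw [e4]
    apply mul_le_mul_of_nonneg_left _ hL0
    have e5 : 1 / (W * n) ≤ (1 / c) * (Real.log X / n) := by
      have e6 : c / Real.log X ≤ W := hP.wlo
      have e7 : 0 < c / Real.log X := by positivity
      rw [one_div, mul_inv]
      have e8 : W⁻¹ ≤ (c / Real.log X)⁻¹ := by
        apply inv_anti₀ e7 e6
      rw [inv_div] at e8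
      calc W⁻¹ * n⁻¹ ≤ (Real.log X / c) * n⁻¹ := by
            apply mul_le_mul_of_nonneg_right e8 (by positivity)
        _ = (1 / c) * (Real.log X / n) := by ring
    have e9 : 16 * K3 * (1 / (W * n)) ≤ 16 * K3 * ((1 / c) * (Real.log X / n)) :=
      mul_le_mul_of_nonneg_left e5 (by positivity)
    have e10 : 16 * K3 * ((1 / c) * (Real.log X / n)) = 16 * K3 / c * (Real.log X / n) := by ring
    linarith
  -- bound for A2
  have hA2b : (A2.card : ℝ) ≤ L / y := by
    have e1 : (A2.card : ℝ) * (W * n / 4) ≤ ∑ l ∈ range L, S l := by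
      calc (A2.card : ℝ) * (W * n / 4) = ∑ _l ∈ A2, (W * n / 4) := by
            rw [sum_const, nsmul_eq_mul]
        _ ≤ ∑ l ∈ A2, S l := by
            apply sum_le_sum
            intro l hl
            rw [hA2, mem_filter] at hl
            exact hl.2.le
        _ ≤ ∑ l ∈ range L, S l := by
            apply sum_le_sum_of_subset_of_nonneg (filter_subset _ _)
            intro _ _ _; positivity
    have e2 : ∑ l ∈ range L, S l ≤ n * (L * W / (4 * y)) := by
      have e3 : ∑ l ∈ range L, S l =
          ∑ x ∈ B, (((range L).filter (fun l => sqd X (x + b + Q * l))).card : ℝ) := by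
        simp only [hS]
        simp_rw [card_filter]
        push_cast
        rw [sum_comm]
      rw [e3]
      calc ∑ x ∈ B, (((range L).filter (fun l => sqd X (x + b + Q * l))).card : ℝ) ≤
          ∑ _x ∈ B, (L * W / (4 * y)) := by
            apply sum_le_sum
            intro x hx
            have hx' := hBX x hx
            apply h7 (x + b) L (by omega) hL
            have : Q * L ≤ X + Q := by rw [mul_comm]; exact hL2
            omega
        _ = n * (L * W / (4 * y)) := by rw [sum_const, nsmul_eq_mul]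
    have e4 := e1.trans e2
    have h2 : 0 < W * n / 4 := by positivity
    have e5 : n * (L * W / (4 * y)) = (L / y) * (W * n / 4) := by field_simp
    rw [e5] at e4
    exact le_of_mul_le_mul_right e4 h2
  -- inclusion
  have hincl : (range L).filter (fun l =>
        ((B.filter (fun x => good X (x + b + Q * l))).card : ℝ) < W / 2 * B.card) ⊆ A1 ∪ A2 := by
    intro l hl
    rw [mem_filter] at hl
    by_contra hcon
    rw [mem_union, not_or] at hcon
    rw [hA1, hA2, mem_filter, mem_filter, not_and, not_and, not_lt, not_lt] at hcon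
    have h1 := hcon.1 hl.1
    have h2 := hcon.2 hl.1
    have h3' : N l ≤ ((B.filter (fun x => good X (x + b + Q * l))).card : ℝ) + S l := by
      simp only [hN, hS]
      rw [card_filter, card_filter]
      push_cast
      rw [← sum_add_distrib]
      apply sum_le_sum
      intro x hx
      have hx' := hBX x hx
      by_cases hg : good X (x + b + Q * l)
      · rw [if_pos hg]
        have := lo_le_one X y (x + b + Q * l)
        split_ifs <;> linarith
      · rw [if_neg hg]
        by_cases hs : sqd X (x + b + Q * l)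
        · rw [if_pos hs]
          have := lo_le_one X y (x + b + Q * l)
          linarith
        · rw [if_neg hs]
          have : lo X y (x + b + Q * l) ≤ 0 := by
            apply h6 _ (by omega) _ _ hs hg
            · have hlL : l < L := mem_range.1 hl.1
              have : Q * l ≤ X := by
                have h11 : Q * (l + 1) ≤ L * Q := by
                  rw [mul_comm]; exact Nat.mul_le_mul_right _ hlL
                have : Q * (l + 1) = Q * l + Q := by ring
                omega
              omega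
            · have h12 : x + b + Q * l ≡ r + b [MOD Q] := by
                have h13 : Q * l ≡ 0 [MOD Q] := (Nat.modEq_zero_iff_dvd).2 (Nat.dvd_mul_right _ _)
                have := (hx'.2.2.add_right b).add h13
                simpa using this
              rw [Nat.Coprime, Nat.ModEq.gcd_eq h12]
              exact hrb
          linarith
    have h5 : ((B.filter (fun x => good X (x + b + Q * l))).card : ℝ) < W / 2 * n := hl.2
    have h8 : W / 2 * n = 3 / 4 * (W * n) - W * n / 4 := by ring
    linarith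
  calc _ ≤ ((A1 ∪ A2).card : ℝ) := by exact_mod_cast card_le_card hincl
    _ ≤ (A1.card : ℝ) + A2.card := by exact_mod_cast card_union_le _ _
    _ ≤ L * (16 * (2 * κ + 2) / y + 48 * (Pair y κ B / n ^ 2) +
      16 * K3 / c * (Real.log X / n)) + L / y := add_le_add hA1b hA2b
    _ = _ := by ring

open Classical in
theorem core : ∃ κ K c : ℝ, 0 < κ ∧ 0 < K ∧ 0 < c ∧ ∃ y0 : ℕ, 2 ≤ y0 ∧ ∀ y : ℕ, y0 ≤ y →
    ∃ C : ℝ, 0 < C ∧ ∃ X0 : ℕ, ∀ X : ℕ, X0 ≤ X →
    c / Real.log X ≤ WW X y ∧ WW X y ≤ C / Real.log X ∧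
    (∀ (B : Finset ℕ) (r b L : ℕ), B.Nonempty →
      (∀ x ∈ B, x ≤ X ∧ 1 ≤ x ∧ x ≡ r [MOD primorial y]) → b ≤ primorial y →
      (r + b).Coprime (primorial y) → X ≤ L * primorial y → L * primorial y ≤ X + primorial y →
      (((range L).filter (fun l =>
        ((B.filter (fun x => good X (x + b + primorial y * l))).card : ℝ) <
          WW X y / 2 * B.card)).card : ℝ) ≤
        L * (K * (1 / y + Pair y κ B / (B.card : ℝ) ^ 2 + Real.log X / B.card))) ∧
    (∀ a a' L : ℕ, a ≠ a' → X ≤ L * primorial y →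
      (((range L).filter (fun l => rough X (a + primorial y * l) ∧
        rough X (a' + primorial y * l))).card : ℝ) ≤
        K * (L * (WW X y) ^ 2 * Real.exp (κ * hh y a a'))) ∧
    (∀ a L : ℕ, X ≤ L * primorial y →
      (((range L).filter (fun l => rough X (a + primorial y * l))).card : ℝ) ≤
        K * (L * WW X y)) := by
  obtain ⟨c, hc, y1, hpk⟩ := package
  obtain ⟨K3, hK3, h3⟩ := lo_sq
  obtain ⟨κ4, hκ4, h4⟩ := lo_pair
  obtain ⟨κ5, K5, hκ5, hK5, h5⟩ := up_pair
  obtain ⟨X6, h6⟩ := lo_good
  refine ⟨max κ4 κ5, 16 * (2 * κ4 + 2) + 1 + 48 + 16 * K3 / c + K5 + 200, c,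
    lt_max_of_lt_left hκ4, by positivity, hc, max (max y1 2) ⌈κ4⌉₊,
    le_max_of_le_left (le_max_right _ _), ?_⟩
  intro y hy
  have hy1 : y1 ≤ y := le_trans (le_trans (le_max_left _ _) (le_max_left _ _)) hy
  have hy2 : 2 ≤ y := le_trans (le_trans (le_max_right _ _) (le_max_left _ _)) hy
  have hyκ : κ4 ≤ (y : ℝ) := (Nat.le_ceil κ4).trans (by exact_mod_cast (le_max_right _ _).trans hy)
  have hy0 : (0 : ℝ) < y := by exact_mod_cast (by omega : 0 < y)
  obtain ⟨C, hC, X0, hX0⟩ := hpk y hy1
  obtain ⟨X7, h7⟩ := sq_count c hc y hy2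
  refine ⟨C, hC, max (max X0 X6) (max X7 (2 * primorial y)), ?_⟩
  intro X hX
  have hX0' : X0 ≤ X := le_trans (le_trans (le_max_left _ _) (le_max_left _ _)) hX
  have hX6 : X6 ≤ X := le_trans (le_trans (le_max_right _ _) (le_max_left _ _)) hX
  have hX7 : X7 ≤ X := le_trans (le_trans (le_max_left _ _) (le_max_right _ _)) hX
  have hXQ : 2 * primorial y ≤ X := le_trans (le_trans (le_max_right _ _) (le_max_right _ _)) hX
  have hP := hX0 X hX0'
  have hW := hP.wpos
  set K := 16 * (2 * κ4 + 2) + 1 + 48 + 16 * K3 / c + K5 + 200 with hK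
  have hq : 0 < 16 * K3 / c := by positivity
  refine ⟨hP.wlo, hP.whi, ?_, ?_, ?_⟩
  · intro B r b L hB hBX hb hrb hL hL2
    have hmain := core_a c C κ4 K3 hκ4 hK3 X y hP ((div_le_one hy0).2 hyκ)
      (fun a L => h3 c C X y hP a L) (fun a a' L => h4 c C X y hP a a' L)
      (fun n => h6 c C X y hX6 hP n) (fun a L => h7 C X hX7 hP a L) hXQ B r b L hB hBX hb hrb hL hL2
    refine hmain.trans ?_
    have hn0 : (0 : ℝ) < B.card := by exact_mod_cast hB.card_pos
    apply mul_le_mul_of_nonneg_left _ (by positivity)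
    have hlog : 0 < Real.log X := by linarith [hP.logX]
    have hp1 : Pair y κ4 B ≤ Pair y (max κ4 κ5) B := Pair_mono (le_max_left _ _) B
    have hp0 : 0 ≤ Pair y κ4 B := Pair_nonneg y κ4 hκ4.le B
    have a1 : (16 * (2 * κ4 + 2) + 1) / y ≤ K * (1 / y) := by
      rw [mul_one_div]
      apply div_le_div_of_nonneg_right _ hy0.le
      rw [hK]; linarith
    have a2 : 48 * (Pair y κ4 B / (B.card : ℝ) ^ 2) ≤
        K * (Pair y (max κ4 κ5) B / (B.card : ℝ) ^ 2) := by
      apply mul_le_mul _ _ (by positivity) (by positivity)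
      · rw [hK]; linarith
      · exact div_le_div_of_nonneg_right hp1 (by positivity)
    have a3 : 16 * K3 / c * (Real.log X / B.card) ≤ K * (Real.log X / B.card) := by
      apply mul_le_mul_of_nonneg_right _ (by positivity)
      rw [hK]; linarith
    calc _ ≤ K * (1 / y) + K * (Pair y (max κ4 κ5) B / (B.card : ℝ) ^ 2) +
        K * (Real.log X / B.card) := by linarith
      _ = _ := by ring
  · intro a a' L haa hL
    have e1 : (((range L).filter (fun l => rough X (a + primorial y * l) ∧
        rough X (a' + primorial y * l))).card : ℝ) ≤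
        ∑ l ∈ range L, up X y (a + primorial y * l) * up X y (a' + primorial y * l) := by
      rw [card_filter]
      push_cast
      apply sum_le_sum
      intro l _
      split_ifs with hr
      · have b1 := up_rough c C X y hP _ hr.1
        have b2 := up_rough c C X y hP _ hr.2
        nlinarith
      · exact mul_nonneg (up_nonneg _ _ _) (up_nonneg _ _ _)
    refine e1.trans ((h5 c C X y hP a a' L haa hL).trans ?_)
    have hhn := hh_nonneg y a a'
    apply mul_le_mul _ _ (by positivity) (by positivity)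
    · rw [hK]; linarith
    · apply mul_le_mul_of_nonneg_left _ (by positivity)
      apply Real.exp_le_exp.2
      exact mul_le_mul_of_nonneg_right (le_max_right _ _) hhn
  · intro a L hL
    have e1 : (((range L).filter (fun l => rough X (a + primorial y * l))).card : ℝ) ≤
        ∑ l ∈ range L, up X y (a + primorial y * l) := by
      rw [card_filter]
      push_cast
      apply sum_le_sum
      intro l _
      split_ifs with hr
      · exact up_rough c C X y hP _ hr
      · exact up_nonneg _ _ _
    refine e1.trans ((up_mean c C X y hP a L hL).trans ?_)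
    apply mul_le_mul_of_nonneg_right _ (by positivity)
    rw [hK]; linarith

end Pool.Agent.H75.AP
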