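import Pool.Agent.H75.AP.Defs

/-!
# Module COUNT (helpwanted): Chinese remainder count in an arithmetic progression

Let `d = ∏_{p ∈ S ∪ S'} p` (distinct primes not dividing `Q`, so `d` is squarefree and coprime to `Q`).
If for every `p ∈ S ∩ S'` we have `p ∣ a - a'` then the condition
`(∀ p ∈ S, p ∣ a + Q l) ∧ (∀ p ∈ S', p ∣ a' + Q l)` says, for every `p ∈ S ∪ S'`, that
`l ≡ l_p (mod p)` for one class `l_p` (`Q` is invertible modulo `p`; for `p ∈ S ∩ S'` both conditions coincide), hence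
by CRT it says `l ≡ l_0 (mod d)` for one `l_0`. The number of such `l < L` is `⌊L/d⌋` or `⌈L/d⌉`
(`Nat.count_modEq_card` or a direct argument), so within `1` of `L / d = L * ∏_{p ∈ S ∪ S'} 1/p`.
An alternative to CRT: induct on the finset of primes (one more prime `p` splits a class mod `d` into
the classes mod `d * p`).
If some `p ∈ S ∩ S'` does not divide `a - a'` there is no such `l` (`p ∣ (a + Q l) - (a' + Q l)`).
-/

namespace Pool.Agent.H75.AP

open Finset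

private theorem count_modEq (d l0 L : ℕ) (hd : 0 < d) :
    |((((range L).filter (fun l => l ≡ l0 [MOD d])).card : ℕ) : ℝ) - L / d| ≤ 1 := by
  have hd' : (0 : ℝ) < d := by exact_mod_cast hd
  rw [← Nat.count_eq_card_filter_range, Nat.count_modEq_card L hd l0]
  have h1 : ((L / d : ℕ) : ℝ) ≤ (L : ℝ) / d := Nat.cast_div_le
  have h2 : (L : ℝ) / d < ((L / d : ℕ) : ℝ) + 1 := by
    rw [div_lt_iff₀ hd']
    have := Nat.lt_mul_div_succ L hd
    have h3 : (L : ℝ) < d * (((L / d : ℕ) : ℝ) + 1) := by exact_mod_cast this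
    linarith
  push_cast
  rw [abs_le]
  split_ifs
  · constructor <;> linarith
  · constructor <;> linarith

private theorem crt (Q : ℕ) (T : Finset ℕ) (hT : ∀ p ∈ T, p.Prime ∧ ¬ p ∣ Q) (α : ℕ → ℕ) :
    ∃ l0 : ℕ, ∀ l : ℕ, (∀ p ∈ T, p ∣ α p + Q * l) ↔ l ≡ l0 [MOD ∏ p ∈ T, p] := by
  obtain ⟨d, hd⟩ : ∃ d, d = ∏ p ∈ T, p := ⟨_, rfl⟩
  have hd0 : 0 < d := by
    rw [hd]
    exact prod_pos fun p hp => (hT p hp).1.pos
  have hcop : ∀ p ∈ T, ∀ q ∈ T, p ≠ q → Nat.Coprime p q := fun p hp q hq hpq =>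
    (Nat.coprime_primes (hT p hp).1 (hT q hq).1).mpr hpq
  obtain ⟨A, hA⟩ := Nat.chineseRemainderOfFinset α id T (fun p hp => (hT p hp).1.ne_zero)
    (fun p hp q hq hpq => hcop p hp q hq hpq)
  simp only [id] at hA
  have hdvd : ∀ l : ℕ, (∀ p ∈ T, p ∣ α p + Q * l) ↔ d ∣ A + Q * l := by
    intro l
    constructor
    · intro h
      rw [hd]
      apply Finset.prod_primes_dvd
      · intro p hp
        exact (hT p hp).1.prime
      · intro p hp
        have h1 : A + Q * l ≡ α p + Q * l [MOD p] := (hA p hp).add_right _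
        exact (h1.dvd_iff dvd_rfl).mpr (h p hp)
    · intro h p hp
      have h1 : A + Q * l ≡ α p + Q * l [MOD p] := (hA p hp).add_right _
      apply (h1.dvd_iff dvd_rfl).mp
      exact (hd ▸ dvd_prod_of_mem _ hp : p ∣ d).trans h
  have hQd : Nat.Coprime Q d := by
    rw [hd]
    apply Nat.Coprime.prod_right
    intro p hp
    exact ((Nat.Prime.coprime_iff_not_dvd (hT p hp).1).mpr (hT p hp).2).symm
  have : NeZero d := ⟨hd0.ne'⟩
  obtain ⟨l0, hl0⟩ : ∃ l0 : ℕ, d ∣ A + Q * l0 := by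
    refine ⟨(-(A : ZMod d) * (Q : ZMod d)⁻¹).val, ?_⟩
    rw [← ZMod.natCast_eq_zero_iff]
    push_cast
    rw [ZMod.natCast_zmod_val]
    have h1 := ZMod.coe_mul_inv_eq_one Q hQd
    calc (A : ZMod d) + Q * (-(A : ZMod d) * (Q : ZMod d)⁻¹)
        = (A : ZMod d) - A * (Q * (Q : ZMod d)⁻¹) := by ring
      _ = 0 := by rw [h1]; ring
  refine ⟨l0, fun l => ?_⟩
  rw [hdvd l, ← hd]
  constructor
  · intro h
    have h1 : A + Q * l ≡ A + Q * l0 [MOD d] :=
      ((Nat.modEq_zero_iff_dvd).mpr h).trans ((Nat.modEq_zero_iff_dvd).mpr hl0).symm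
    have h2 : Q * l ≡ Q * l0 [MOD d] := Nat.ModEq.add_left_cancel' A h1
    exact Nat.ModEq.cancel_left_of_coprime hQd.symm h2
  · intro h
    have h1 : A + Q * l ≡ A + Q * l0 [MOD d] := (h.mul_left Q).add_left A
    exact (h1.dvd_iff dvd_rfl).mpr hl0

theorem count_pair (Q L a a' : ℕ) (S S' : Finset ℕ)
    (hS : ∀ p ∈ S, p.Prime ∧ ¬ p ∣ Q) (hS' : ∀ p ∈ S', p.Prime ∧ ¬ p ∣ Q)
    (h : ∀ p ∈ S ∩ S', (p : ℤ) ∣ (a : ℤ) - (a' : ℤ)) :
    |((((range L).filter (fun l => (∀ p ∈ S, p ∣ a + Q * l) ∧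
      (∀ p ∈ S', p ∣ a' + Q * l))).card : ℕ) : ℝ) - L * ∏ p ∈ S ∪ S', (1 / (p : ℝ))| ≤ 1 := by
  classical
  have hT : ∀ p ∈ S ∪ S', p.Prime ∧ ¬ p ∣ Q := by
    intro p hp
    rcases mem_union.mp hp with h1 | h1
    · exact hS p h1
    · exact hS' p h1
  obtain ⟨l0, hl0⟩ := crt Q (S ∪ S') hT (fun p => if p ∈ S then a else a')
  have e1 : (range L).filter (fun l => (∀ p ∈ S, p ∣ a + Q * l) ∧ (∀ p ∈ S', p ∣ a' + Q * l))
      = (range L).filter (fun l => l ≡ l0 [MOD ∏ p ∈ S ∪ S', p]) := by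
    apply filter_congr
    intro l _
    rw [← hl0 l]
    constructor
    · rintro ⟨h1, h2⟩ p hp
      split_ifs with h3
      · exact h1 p h3
      · exact h2 p ((mem_union.mp hp).resolve_left h3)
    · intro h1
      refine ⟨fun p hp => ?_, fun p hp => ?_⟩
      · have h2 := h1 p (mem_union_left _ hp)
        rw [if_pos hp] at h2
        exact h2
      · have h2 := h1 p (mem_union_right _ hp)
        split_ifs at h2 with h3
        · have h4 := h p (mem_inter.mpr ⟨h3, hp⟩)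
          have h5 : (p : ℤ) ∣ (a : ℤ) + Q * l := by exact_mod_cast h2
          have h6 : (p : ℤ) ∣ (a' : ℤ) + Q * l := by
            have h7 := dvd_sub h5 h4
            have h8 : (a : ℤ) + Q * l - (a - a') = a' + Q * l := by ring
            rwa [h8] at h7
          exact_mod_cast h6
        · exact h2
  rw [e1]
  have hd0 : 0 < ∏ p ∈ S ∪ S', p := prod_pos fun p hp => (hT p hp).1.pos
  have h1 := count_modEq (∏ p ∈ S ∪ S', p) l0 L hd0
  have e2 : (L : ℝ) * ∏ p ∈ S ∪ S', (1 / (p : ℝ)) = L / ((∏ p ∈ S ∪ S', p : ℕ) : ℝ) := by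
    rw [Nat.cast_prod]
    simp only [one_div]
    rw [prod_inv_distrib, div_eq_mul_inv]
  rw [e2]
  exact h1

theorem count_pair_zero (Q L a a' : ℕ) (S S' : Finset ℕ)
    (h : ¬ ∀ p ∈ S ∩ S', (p : ℤ) ∣ (a : ℤ) - (a' : ℤ)) :
    ((range L).filter (fun l => (∀ p ∈ S, p ∣ a + Q * l) ∧
      (∀ p ∈ S', p ∣ a' + Q * l))).card = 0 := by
  rw [card_eq_zero, filter_eq_empty_iff]
  rintro l - ⟨h1, h2⟩
  apply h
  intro p hp
  rw [mem_inter] at hp
  have h3 : (p : ℤ) ∣ (a : ℤ) + Q * l := by exact_mod_cast h1 p hp.1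
  have h4 : (p : ℤ) ∣ (a' : ℤ) + Q * l := by exact_mod_cast h2 p hp.2
  have h5 := dvd_sub h3 h4
  have h6 : (a : ℤ) + Q * l - (a' + Q * l) = a - a' := by ring
  rwa [h6] at h5

end Pool.Agent.H75.AP
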