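import Pool.Agent.H75.AP.Blocks

/-!
# Module COVER (helpwanted): the blocks cover all primes in `(y, X^(1/50)]`

For `X` large `X ^ th (JJ X) < 2`: with `J = JJ X ≥ 2 log log X + 2` we have `th J = (1/50) 3^(-(J-1)) ≤ (1/50) exp (-(2 log log X + 1)) ≤ (log X)^(-2)`
(`log 3 ≥ 1`), so `X ^ th J = exp (th J * log X) ≤ exp (1 / log X) < 2`. Given a prime `p > y`, `p ≤ X^(1/50) = X ^ th 1`, take the largest
`j ≥ 1`, `j < J`, with `p ≤ X ^ th j` (`Nat.find`/induction): then `p > X ^ th (j+1)` (if `j + 1 < J` by maximality, if `j + 1 = J` because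
`X ^ th J < 2 ≤ p`). Use `mem_TT`.
-/

namespace Pool.Agent.H75.AP

open Finset

theorem cv_last (X : ℕ) (hX : 3 ≤ Real.log X) : (X : ℝ) ^ th (JJ X) < 2 := by
  have hXpos : (0 : ℝ) < X := by
    by_contra h
    have h0 : (X : ℝ) = 0 := le_antisymm (not_lt.1 h) (Nat.cast_nonneg _)
    rw [h0, Real.log_zero] at hX
    linarith
  set L := Real.log X with hL
  have hLpos : 0 < L := by linarith
  set c := ⌈2 * Real.log L⌉₊ with hc
  have hJ : JJ X = c + 2 := rfl
  have hth : th (JJ X) = 1 / 50 * (1 / 3) ^ (c + 1) := by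
    rw [hJ]
    unfold th
    rw [if_neg (by omega)]
    congr 1
  have h3 : Real.exp 1 ≤ 3 := by
    have := Real.exp_one_lt_d9
    linarith
  have h4 : L ^ 2 ≤ 3 ^ c := by
    have h5 : 2 * Real.log L ≤ c := Nat.le_ceil _
    calc L ^ 2 = Real.exp (2 * Real.log L) := by
          rw [two_mul, Real.exp_add, Real.exp_log hLpos]; ring
      _ ≤ Real.exp (c : ℝ) := Real.exp_le_exp.2 h5
      _ = Real.exp 1 ^ c := by rw [← Real.exp_nat_mul]; simp
      _ ≤ 3 ^ c := pow_le_pow_left₀ (Real.exp_pos 1).le h3 c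
  have h6 : th (JJ X) * L ≤ 1 / 50 := by
    rw [hth]
    have h7 : (1 / 3 : ℝ) ^ (c + 1) ≤ 1 / L ^ 2 := by
      rw [one_div_pow]
      apply one_div_le_one_div_of_le (by positivity)
      refine h4.trans ?_
      exact pow_le_pow_right₀ (by norm_num) (by omega)
    have h8 : 1 / L ^ 2 * L ≤ 1 := by
      have : 1 / L ^ 2 * L = 1 / L := by field_simp
      rw [this, div_le_one hLpos]; linarith
    calc 1 / 50 * (1 / 3 : ℝ) ^ (c + 1) * L ≤ 1 / 50 * (1 / L ^ 2) * L := by gcongr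
      _ = 1 / 50 * (1 / L ^ 2 * L) := by ring
      _ ≤ 1 / 50 * 1 := by gcongr
      _ = 1 / 50 := mul_one _
  rw [Real.rpow_def_of_pos hXpos, mul_comm]
  have h9 : Real.exp (th (JJ X) * L) ≤ Real.exp (1 / 50) := Real.exp_le_exp.2 h6
  have h10 : Real.exp (1 / 50) < 2 := by
    have h11 := Real.one_sub_le_exp_neg (1 / 50)
    rw [Real.exp_neg] at h11
    have h12 : 0 < Real.exp (1 / 50) := Real.exp_pos _
    have h13 : (49 / 50 : ℝ) ≤ (Real.exp (1 / 50))⁻¹ := by linarith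
    rw [le_inv_comm₀ (by norm_num) h12] at h13
    linarith
  linarith

theorem TT_cover : ∃ X0 : ℕ, ∀ X : ℕ, X0 ≤ X → ∀ y p : ℕ, p.Prime → y < p →
    (p : ℝ) ≤ (X : ℝ) ^ (1 / 50 : ℝ) → ∃ j, 1 ≤ j ∧ j < JJ X ∧ p ∈ TT X y j := by
  classical
  have hlog : Filter.Tendsto (fun n : ℕ => Real.log n) Filter.atTop Filter.atTop :=
    Real.tendsto_log_atTop.comp tendsto_natCast_atTop_atTop
  obtain ⟨X0, hX0⟩ := Filter.eventually_atTop.1 (hlog.eventually_ge_atTop 3)
  refine ⟨X0, ?_⟩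
  intro X hX y p hp hy hpX
  have hlast := cv_last X (hX0 X hX)
  have hp2 : (2 : ℝ) ≤ p := by exact_mod_cast hp.two_le
  have hJ2 : 2 ≤ JJ X := by unfold JJ; omega
  have hex : ∃ k : ℕ, (X : ℝ) ^ th (k + 2) < p := by
    refine ⟨JJ X - 2, ?_⟩
    have e : JJ X - 2 + 2 = JJ X := by omega
    rw [e]
    linarith
  refine ⟨Nat.find hex + 1, by omega, ?_, ?_⟩
  · have h1 : Nat.find hex ≤ JJ X - 2 := by
      apply Nat.find_min'
      have e : JJ X - 2 + 2 = JJ X := by omega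
      rw [e]
      linarith
    omega
  · rw [mem_TT]
    refine ⟨hp, hy, Nat.find_spec hex, ?_⟩
    rcases Nat.eq_zero_or_pos (Nat.find hex) with h0 | h0
    · rw [h0]
      have e : th (0 + 1) = 1 / 50 := by unfold th; simp
      rw [e]; exact hpX
    · have h1 := Nat.find_min hex (by omega : Nat.find hex - 1 < Nat.find hex)
      have e : Nat.find hex - 1 + 2 = Nat.find hex + 1 := by omega
      rw [e] at h1
      exact not_lt.1 h1

end Pool.Agent.H75.AP
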