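import Pool.Agent.H33.Cubic.Defs

/-!
# Module CUBECLASS (helpwanted, easy)

`exists_cube_class`: for each prime `p` one of `b`, `b + 1` is not divisible by `p`, so `r_p = 0` or
`r_p = 1` gives `p ∤ r_p^3 + b`; then CRT over the primes `p ≤ y`.
-/

namespace Pool.Agent.H75.AP

open Finset

theorem exists_cube_class (y b : ℕ) : ∃ r : ℕ, 1 ≤ r ∧ r ≤ primorial y ∧
    (r ^ 3 + b).Coprime (primorial y) := by
  classical
  set t : Finset ℕ := Finset.filter Nat.Prime (Finset.range (y + 1)) with ht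
  have htp : ∀ p ∈ t, p.Prime := fun p hp => (Finset.mem_filter.mp hp).2
  have hP : primorial y = ∏ p ∈ t, p := rfl
  have hP0 : 0 < primorial y := primorial_pos y
  obtain ⟨k, hk⟩ := Nat.chineseRemainderOfFinset (fun p => if p ∣ b then 1 else 0) (fun p => p) t
    (fun p hp => (htp p hp).ne_zero)
    (fun p hp q hq hpq => (Nat.coprime_primes (htp p hp) (htp q hq)).mpr hpq)
  -- a representative in `[1, primorial y]`
  obtain ⟨r, hr1, hr2, hr3⟩ : ∃ r : ℕ, 1 ≤ r ∧ r ≤ primorial y ∧ r ≡ k [MOD primorial y] := by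
    by_cases h0 : k % primorial y = 0
    · exact ⟨primorial y, hP0, le_rfl, by rw [Nat.ModEq, Nat.mod_self, h0]⟩
    · exact ⟨k % primorial y, Nat.one_le_iff_ne_zero.mpr h0, (Nat.mod_lt _ hP0).le,
        Nat.mod_modEq _ _⟩
  refine ⟨r, hr1, hr2, ?_⟩
  rw [hP]
  apply Nat.Coprime.prod_right
  intro p hp
  have hpp := htp p hp
  have hpd : p ∣ primorial y := by rw [hP]; exact Finset.dvd_prod_of_mem _ hp
  have h1 : r ≡ (if p ∣ b then 1 else 0) [MOD p] := (hr3.of_dvd hpd).trans (hk p hp)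
  rw [Nat.coprime_comm, hpp.coprime_iff_not_dvd]
  intro hdvd
  have h2 : r ^ 3 + b ≡ (if p ∣ b then 1 else 0) ^ 3 + b [MOD p] := (h1.pow 3).add_right b
  have h3 : p ∣ (if p ∣ b then 1 else 0) ^ 3 + b := (h2.dvd_iff dvd_rfl).mp hdvd
  by_cases hb : p ∣ b
  · rw [if_pos hb, one_pow] at h3
    have h4 : p ∣ 1 := (Nat.dvd_add_left hb).mp h3
    exact hpp.one_lt.ne' (Nat.dvd_one.mp h4)
  · rw [if_neg hb] at h3
    exact hb (by simpa using h3)

end Pool.Agent.H75.AP
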