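import Pool.Agent.H75.AP.PairGen
import Pool.Agent.H33.Cubic.Defs

/-!
# Module CUBEPAIR (helpwanted): the cubes `(r + Q i)^3` are well distributed

`Q = primorial y`, `B = {(r + Q i)^3 : i < I}`, `|B| = I` (strictly increasing in `i`, `Q ≥ 1`). Elements `≤ (r + Q I)^3 ≤ (2 Q I)^3 ≤ I^4` for `r ≤ Q`, `I ≥ (2Q)^3`, `I ≥ 1`.
For squarefree `g` with all primes `> y` (coprime to `Q`) and `x ∈ B`: `x' = (r + Q i')^3 ≡ x (mod g)` means for each prime `p ∣ g` that `r + Q i'` is, modulo `p`, one of the at most 3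
cube roots of `x` (`Pool.Agent.H33.Cubic.card_cube_roots`), so `i'` lies in at most `3` classes mod `p`, hence (CRT / induction on the primes of `g`) in at most `3^ω(g)` classes mod `g`,
each containing at most `I/g + 1` of the `i' < I`. So the count is `≤ 3^ω(g) (I/g + 1) ≤ 1 * 3^ω(g) (I/g + I^(2/3))`. Apply `pair_gen` with `K1 = 1`, `A = 3`.
(`Pool/Agent/H33/Cubic/Second.lean`, `Pool/Agent/H33/Cubic/Few.lean` (`card_Rset`) contain similar counts.)
-/

namespace Pool.Agent.H75.AP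

open Finset

/-- at most three solutions modulo a prime -/
private theorem cp_prime (p : ℕ) [Fact p.Prime] (Q r x : ℤ) (hQ : ((Q : ℤ) : ZMod p) ≠ 0) :
    (univ.filter (fun t : ZMod p => ((r : ZMod p) + (Q : ZMod p) * t) ^ 3 = (x : ZMod p))).card
      ≤ 3 := by
  refine le_trans ?_ (Pool.Agent.H33.Cubic.card_cube_roots p (x : ZMod p))
  apply card_le_card_of_injOn (fun t => (r : ZMod p) + (Q : ZMod p) * t)
  · intro t ht
    rw [mem_coe, mem_filter] at ht ⊢
    exact ⟨mem_univ _, ht.2⟩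
  · intro t _ t' _ h
    simp only at h
    exact mul_left_cancel₀ hQ (add_left_cancel h)

/-- at most `3 ^ ω(g)` solutions modulo a squarefree number -/
private theorem cp_crt (g : ℕ) (hg : Squarefree g) (Q r x : ℤ)
    (hQ : ∀ p : ℕ, p.Prime → p ∣ g → ¬ (p : ℤ) ∣ Q) :
    ((range g).filter (fun n : ℕ => (g : ℤ) ∣ x - (r + Q * (n : ℤ)) ^ 3)).card
      ≤ 3 ^ g.primeFactors.card := by
  classical
  have hfact : ∀ p : g.primeFactors, Fact (p : ℕ).Prime := fun p =>
    ⟨Nat.prime_of_mem_primeFactors p.2⟩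
  have hne : ∀ p : g.primeFactors, NeZero (p : ℕ) := fun p => ⟨(hfact p).out.ne_zero⟩
  have h1 : (Fintype.piFinset (fun p : g.primeFactors => univ.filter
      (fun t : ZMod (p : ℕ) => ((r : ZMod (p : ℕ)) + (Q : ZMod (p : ℕ)) * t) ^ 3
        = (x : ZMod (p : ℕ))))).card ≤ 3 ^ g.primeFactors.card := by
    rw [Fintype.card_piFinset]
    have hb : ∀ p : g.primeFactors, (univ.filter
      (fun t : ZMod (p : ℕ) => ((r : ZMod (p : ℕ)) + (Q : ZMod (p : ℕ)) * t) ^ 3
        = (x : ZMod (p : ℕ)))).card ≤ 3 := by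
      intro p
      have := hfact p
      apply cp_prime (p : ℕ) Q r x
      rw [Ne, ZMod.intCast_zmod_eq_zero_iff_dvd]
      exact hQ p (hfact p).out (Nat.dvd_of_mem_primeFactors p.2)
    refine (prod_le_prod' (fun p _ => hb p)).trans ?_
    rw [prod_const, card_univ, Fintype.card_coe]
  refine le_trans ?_ h1
  apply card_le_card_of_injOn (fun n => fun p : g.primeFactors => ((n : ℕ) : ZMod (p : ℕ)))
  · intro n hn
    rw [mem_coe, mem_filter] at hn
    rw [mem_coe, Fintype.mem_piFinset]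
    intro p
    rw [mem_filter]
    refine ⟨mem_univ _, ?_⟩
    have h2 : ((p : ℕ) : ℤ) ∣ x - (r + Q * (n : ℤ)) ^ 3 :=
      (Int.natCast_dvd_natCast.2 (Nat.dvd_of_mem_primeFactors p.2)).trans hn.2
    rw [← ZMod.intCast_zmod_eq_zero_iff_dvd] at h2
    push_cast at h2
    exact (sub_eq_zero.1 h2).symm
  · intro n hn n' hn' h
    rw [mem_coe, mem_filter, mem_range] at hn hn'
    have h2 : ∀ p ∈ g.primeFactors, (p : ℤ) ∣ (n : ℤ) - (n' : ℤ) := by
      intro p hp
      have h3 : ((n : ℕ) : ZMod p) = ((n' : ℕ) : ZMod p) := congrFun h ⟨p, hp⟩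
      rw [← ZMod.intCast_zmod_eq_zero_iff_dvd]
      push_cast
      rw [h3, sub_self]
    have h3 : (∏ p ∈ g.primeFactors, p) ∣ ((n : ℤ) - (n' : ℤ)).natAbs := by
      apply Finset.prod_primes_dvd
      · intro p hp
        exact (Nat.prime_of_mem_primeFactors hp).prime
      · intro p hp
        exact Int.natCast_dvd.1 (h2 p hp)
    rw [Nat.prod_primeFactors_of_squarefree hg] at h3
    have h4 := Nat.eq_zero_of_dvd_of_lt h3 (by omega)
    omega

/-- counting classes -/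
private theorem cp_count (g I : ℕ) (hg : 1 ≤ g) (P : ℤ → Prop) [DecidablePred P]
    (hP : ∀ a b : ℤ, (g : ℤ) ∣ a - b → P a → P b) :
    ((range I).filter (fun i : ℕ => P (i : ℤ))).card ≤
      ((range g).filter (fun n : ℕ => P (n : ℤ))).card * (I / g + 1) := by
  classical
  have h0 : (((range g).filter (fun n : ℕ => P (n : ℤ))) ×ˢ (range (I / g + 1))).card =
      ((range g).filter (fun n : ℕ => P (n : ℤ))).card * (I / g + 1) := by
    rw [card_product, card_range]
  rw [← h0]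
  apply card_le_card_of_injOn (fun i => (i % g, i / g))
  · intro i hi
    rw [mem_coe, mem_filter, mem_range] at hi
    rw [mem_coe, mem_product, mem_filter, mem_range, mem_range]
    refine ⟨⟨Nat.mod_lt _ hg, hP _ _ ?_ hi.2⟩, Nat.lt_succ_of_le (Nat.div_le_div_right hi.1.le)⟩
    refine ⟨((i / g : ℕ) : ℤ), ?_⟩
    have := Nat.div_add_mod i g
    have h2 : (i : ℤ) = (g : ℤ) * ((i / g : ℕ) : ℤ) + ((i % g : ℕ) : ℤ) := by exact_mod_cast this.symm
    simp only
    linarith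
  · intro i _ i' _ h
    simp only [Prod.mk.injEq] at h
    rw [← Nat.div_add_mod i g, ← Nat.div_add_mod i' g, h.1, h.2]

theorem cube_pair (κ : ℝ) (hκ : 0 < κ) : ∃ K : ℝ, 0 < K ∧ ∃ y0 : ℕ, ∀ y : ℕ, y0 ≤ y →
    ∃ I0 : ℕ, ∀ I r : ℕ, I0 ≤ I → r ≤ primorial y →
    ((range I).image (fun i => (r + primorial y * i) ^ 3)).card = I ∧
    Pair y κ ((range I).image (fun i => (r + primorial y * i) ^ 3)) ≤ K / y * (I : ℝ) ^ 2 := by
  classical
  obtain ⟨K, hK, y0, hy0⟩ := pair_gen κ 1 3 hκ one_pos (by norm_num)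
  refine ⟨K, hK, y0, fun y hy => ?_⟩
  obtain ⟨N0, hN0⟩ := hy0 y hy
  set Q := primorial y with hQ
  have hQpos : 1 ≤ Q := primorial_pos y
  refine ⟨max (max N0 1) (Q ^ 3), fun I r hI hr => ?_⟩
  have hIN : N0 ≤ I := (le_max_left _ _).trans ((le_max_left _ _).trans hI)
  have hI1 : 1 ≤ I := (le_max_right _ _).trans ((le_max_left _ _).trans hI)
  have hIQ : Q ^ 3 ≤ I := (le_max_right _ _).trans hI
  have hinj : Function.Injective (fun i : ℕ => (r + Q * i) ^ 3) := by
    intro i j h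
    have h1 : r + Q * i = r + Q * j := Nat.pow_left_injective (n := 3) (by norm_num) h
    exact Nat.eq_of_mul_eq_mul_left hQpos (Nat.add_left_cancel h1)
  have hcard : ((range I).image (fun i => (r + Q * i) ^ 3)).card = I := by
    rw [card_image_of_injective _ hinj, card_range]
  refine ⟨hcard, ?_⟩
  have hmain := hN0 ((range I).image (fun i => (r + Q * i) ^ 3)) (by rw [hcard]; exact hIN)
  rw [hcard] at hmain
  apply hmain
  · intro x hx
    rw [mem_image] at hx
    obtain ⟨i, hi, rfl⟩ := hx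
    rw [mem_range] at hi
    have h1 : r + Q * i ≤ Q * I := by
      have h2 : Q * (i + 1) ≤ Q * I := Nat.mul_le_mul_left Q hi
      have h3 : Q * (i + 1) = Q * i + Q := by ring
      omega
    calc (r + Q * i) ^ 3 ≤ (Q * I) ^ 3 := Nat.pow_le_pow_left h1 3
      _ = Q ^ 3 * I ^ 3 := by rw [Nat.mul_pow]
      _ ≤ I * I ^ 3 := Nat.mul_le_mul_right _ hIQ
      _ = I ^ 4 := by ring
  · intro x hx g hg hg1 hgy
    have hcop : ∀ p : ℕ, p.Prime → p ∣ g → ¬ (p : ℤ) ∣ (Q : ℤ) := by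
      intro p hp hpg hpQ
      have h1 : p ∣ Q := Int.natCast_dvd_natCast.1 hpQ
      have h2 := hgy p hp hpg
      have h3 : p ≤ y := (Nat.Prime.dvd_primorial_iff hp).1 h1
      omega
    have h1 := cp_crt g hg (Q : ℤ) (r : ℤ) (x : ℤ) hcop
    have h2 := cp_count g I (by omega) (fun a => (g : ℤ) ∣ (x : ℤ) - ((r : ℤ) + (Q : ℤ) * a) ^ 3) (by
      intro a b hab ha
      have h3 : (x : ℤ) - ((r : ℤ) + (Q : ℤ) * b) ^ 3 = ((x : ℤ) - ((r : ℤ) + (Q : ℤ) * a) ^ 3) +
        (a - b) * ((Q : ℤ) * (((r : ℤ) + (Q : ℤ) * a) ^ 2 + ((r : ℤ) + (Q : ℤ) * a) *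
          ((r : ℤ) + (Q : ℤ) * b) + ((r : ℤ) + (Q : ℤ) * b) ^ 2)) := by ring
      rw [h3]
      exact dvd_add ha (Dvd.dvd.mul_right hab _))
    have h3 : (((range I).image (fun i => (r + Q * i) ^ 3)).filter
        (fun x' => x' ≠ x ∧ (g : ℤ) ∣ (x : ℤ) - (x' : ℤ))).card ≤
        ((range I).filter (fun i : ℕ => (g : ℤ) ∣ (x : ℤ) - ((r : ℤ) + (Q : ℤ) * (i : ℤ)) ^ 3)).card := by
      refine le_trans (card_le_card (t := ((range I).filter
        (fun i : ℕ => (g : ℤ) ∣ (x : ℤ) - ((r : ℤ) + (Q : ℤ) * (i : ℤ)) ^ 3)).image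
        (fun i => (r + Q * i) ^ 3)) ?_) card_image_le
      intro x' hx'
      rw [mem_filter, mem_image] at hx'
      obtain ⟨⟨i, hi, rfl⟩, -, h4⟩ := hx'
      rw [mem_image]
      refine ⟨i, mem_filter.2 ⟨hi, ?_⟩, rfl⟩
      push_cast at h4
      exact h4
    have h4 : (((range I).image (fun i => (r + Q * i) ^ 3)).filter
        (fun x' => x' ≠ x ∧ (g : ℤ) ∣ (x : ℤ) - (x' : ℤ))).card ≤
        3 ^ g.primeFactors.card * (I / g + 1) :=
      h3.trans (h2.trans (Nat.mul_le_mul_right _ h1))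
    have h5 : (((((range I).image (fun i => (r + Q * i) ^ 3)).filter
        (fun x' => x' ≠ x ∧ (g : ℤ) ∣ (x : ℤ) - (x' : ℤ))).card : ℕ) : ℝ) ≤
        3 ^ g.primeFactors.card * (((I / g : ℕ) : ℝ) + 1) := by
      exact_mod_cast h4
    refine h5.trans ?_
    rw [one_mul]
    apply mul_le_mul_of_nonneg_left _ (by positivity)
    apply add_le_add
    · exact Nat.cast_div_le
    · exact Real.one_le_rpow (by exact_mod_cast hI1) (by norm_num)

end Pool.Agent.H75.AP
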