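import Pool.Agent.H75.AP.Core
import Pool.Agent.H75.AP.CubePair
import Pool.Agent.H75.AP.CubeClass

/-!
# Module CUBEMAIN (helpwanted): almost primes `m^3 + k` for almost all `k`

Let `κ, K, c, y0` be from `core`, `K'`, `y0'` from `cube_pair κ`. Choose `y ≥ max y0 y0'` with `K (1 + K')/y ≤ η/8`; `Q = primorial y`. Then `C`: with `I = ⌊M/Q⌋ ≥ M/(2Q)` (for `M ≥ Q`; `C ≥ 2Q`,
`log X ≥ 1`), `log X / I ≤ 2 Q / C`, choose `C` with `K * 2Q/C ≤ η/8`; also `I ≥ I0` for `X` large.
For each `b < Q` choose `r = r_b` with `1 ≤ r ≤ Q` and `gcd(r^3 + b, Q) = 1` (lemma `exists_cube_class`).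
`B = {(r + Q i)^3 : i < I}`: `≤ M^3 ≤ X`, `≥ 1`, `≡ r^3 (mod Q)`. With `L = X/Q + 1` (`X ≤ L Q ≤ X + Q`): `core` says that for all but `≤ L (η/4)` of the `l < L`:
`#{x ∈ B : good X (x + b + Q l)} ≥ (W/2) I ≥ c/(2 log X) * M/(2Q)`, and for `k = b + Q l` this is `≤ #{m ≤ M : good X (m^3 + k)}` (`m = r + Q i ≤ M`; injective).
Take the final `c := c/(4Q)`. The number of bad `k ≤ X` is `≤ ∑_{b<Q} L η/4 = Q L η / 4 ≤ 2 X η/4`.
-/

namespace Pool.Agent.H75.AP

open Finset

theorem cube_split (P : ℕ → Prop) [DecidablePred P] (X Q : ℕ) (hQ : 0 < Q) :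
    ((Icc 1 X).filter P).card ≤
      ∑ b ∈ range Q, ((range (X / Q + 1)).filter (fun l => P (b + Q * l))).card := by
  have hsub : (Icc 1 X).filter P ⊆ (range Q).biUnion (fun b =>
      ((range (X / Q + 1)).filter (fun l => P (b + Q * l))).image (fun l => b + Q * l)) := by
    intro a ha
    rw [mem_filter, mem_Icc] at ha
    rw [mem_biUnion]
    refine ⟨a % Q, mem_range.mpr (Nat.mod_lt _ hQ), ?_⟩
    rw [mem_image]
    refine ⟨a / Q, ?_, Nat.mod_add_div a Q⟩
    rw [mem_filter, mem_range, Nat.mod_add_div]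
    exact ⟨Nat.lt_succ_of_le (Nat.div_le_div_right ha.1.2), ha.2⟩
  exact (card_le_card hsub).trans (card_biUnion_le.trans (sum_le_sum fun b _ => card_image_le))

open Classical in
theorem cube_many (η : ℝ) (hη : 0 < η) : ∃ c C : ℝ, 0 < c ∧ 0 < C ∧ ∃ X0 : ℕ, ∀ X M : ℕ, X0 ≤ X →
    C * Real.log X ≤ M → M ^ 3 ≤ X →
    (((Icc 1 X).filter (fun k =>
      (((Icc 1 M).filter (fun m => good X (m ^ 3 + k))).card : ℝ) < c * M / Real.log X)).card : ℝ) ≤
      η * X := by
  obtain ⟨κ, K, c, hκ, hK, hc, y0, hy0, hcore⟩ := core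
  obtain ⟨K', hK', y0', hcp⟩ := cube_pair κ hκ
  set y : ℕ := max (max y0 y0') (⌈8 * (K * (1 + K')) / η⌉₊ + 1) with hy
  obtain ⟨C, hC, X0, h⟩ := hcore y (le_trans (le_max_left _ _) (le_max_left _ _))
  obtain ⟨I0, hI0⟩ := hcp y (le_trans (le_max_right _ _) (le_max_left _ _))
  have hy1 : 8 * (K * (1 + K')) / η ≤ y := by
    have h1 : 8 * (K * (1 + K')) / η ≤ ⌈8 * (K * (1 + K')) / η⌉₊ := Nat.le_ceil _
    have h2 : (⌈8 * (K * (1 + K')) / η⌉₊ + 1 : ℕ) ≤ y := le_max_right _ _
    have h3 : ((⌈8 * (K * (1 + K')) / η⌉₊ + 1 : ℕ) : ℝ) ≤ y := by exact_mod_cast h2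
    push_cast at h3
    linarith
  have hyp : (0 : ℝ) < y := lt_of_lt_of_le (by positivity) hy1
  have hQ0 : 0 < primorial y := primorial_pos y
  set Q := primorial y with hQ
  have hQr : (0 : ℝ) < Q := by exact_mod_cast hQ0
  refine ⟨c / (4 * Q), 2 * Q * (I0 + 1) + 16 * Q * K / η, by positivity, by positivity,
    max X0 (max 3 Q), ?_⟩
  intro X M hX hCM hMX
  have hX0 : X0 ≤ X := le_trans (le_max_left _ _) hX
  have hX3 : 3 ≤ X := le_trans (le_trans (le_max_left _ _) (le_max_right _ _)) hX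
  have hXQ : Q ≤ X := le_trans (le_trans (le_max_right _ _) (le_max_right _ _)) hX
  obtain ⟨hW1, hW2, hB, -, -⟩ := h X hX0
  have hlog1 : 1 ≤ Real.log X := by
    have h3 : (3 : ℝ) ≤ X := by exact_mod_cast hX3
    rw [Real.le_log_iff_exp_le (by linarith)]
    exact (Real.exp_one_lt_d9.le.trans (by norm_num)).trans h3
  have hlog : 0 < Real.log X := by linarith
  -- size of `I`
  set I : ℕ := M / Q with hI
  have hMr1 : 2 * Q * (I0 + 1) ≤ (M : ℝ) := by
    have h1 : (0 : ℝ) ≤ 16 * Q * K / η := by positivity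
    have h2 : (0 : ℝ) ≤ 2 * Q * (I0 + 1) := by positivity
    nlinarith
  have hMr2 : 16 * Q * K / η * Real.log X ≤ (M : ℝ) := by
    have h2 : (0 : ℝ) ≤ 2 * Q * (I0 + 1) * Real.log X := by positivity
    nlinarith
  have hM1 : 2 * Q * (I0 + 1) ≤ M := by exact_mod_cast hMr1
  have hQM : Q ≤ M := by
    have : 2 * Q * (I0 + 1) = 2 * (Q * I0) + 2 * Q := by ring
    omega
  have hII0 : I0 + 1 ≤ I := by
    rw [hI, Nat.le_div_iff_mul_le hQ0]
    have : 2 * Q * (I0 + 1) = 2 * ((I0 + 1) * Q) := by ring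
    omega
  have hIpos : 0 < I := by omega
  have hIr : (0 : ℝ) < I := by exact_mod_cast hIpos
  have hIM : I * Q ≤ M := Nat.div_mul_le_self M Q
  have hMI : M ≤ 2 * (I * Q) := by
    have h1 : M < M / Q * Q + Q := Nat.lt_div_mul_add hQ0
    rw [← hI] at h1
    have h2 : Q ≤ I * Q := Nat.le_mul_of_pos_left Q hIpos
    omega
  have hMIr : (M : ℝ) ≤ 2 * (I * Q) := by exact_mod_cast hMI
  -- the error
  have herr : K * (1 / y + K' / y + Real.log X / I) ≤ η / 4 := by
    have h1 : K * (1 / y + K' / y) ≤ η / 8 := by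
      rw [← add_div, ← mul_div_assoc, div_le_iff₀ hyp]
      rw [div_le_iff₀ hη] at hy1
      linarith
    have h2 : K * (Real.log X / I) ≤ η / 8 := by
      rw [← mul_div_assoc, div_le_iff₀ hIr]
      have h3 : 16 * Q * K / η * Real.log X ≤ 2 * (I * Q) := hMr2.trans hMIr
      rw [div_mul_eq_mul_div, div_le_iff₀ hη] at h3
      have h4 : 16 * (K * Real.log X) * Q ≤ 2 * I * η * Q := by linarith
      have h5 := le_of_mul_le_mul_right h4 hQr
      linarith
    calc K * (1 / y + K' / y + Real.log X / I) = K * (1 / y + K' / y) + K * (Real.log X / I) := by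
          ring
      _ ≤ η / 8 + η / 8 := add_le_add h1 h2
      _ = η / 4 := by ring
  set L : ℕ := X / Q + 1 with hL
  have hL1 : X ≤ L * Q := by
    have := Nat.lt_div_mul_add (a := X) hQ0
    rw [hL, Nat.add_mul, one_mul]
    exact this.le
  have hL2 : L * Q ≤ X + Q := by
    have := Nat.div_mul_le_self X Q
    rw [hL, Nat.add_mul, one_mul]
    omega
  have hL3 : (Q : ℝ) * L ≤ 2 * X := by
    have : L * Q ≤ 2 * X := by omega
    have h2 : (L : ℝ) * Q ≤ 2 * X := by exact_mod_cast this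
    linarith
  have hWn : 0 < WW X y := lt_of_lt_of_le (by positivity) hW1
  -- each class
  have hb : ∀ b ∈ range Q, (((range L).filter (fun l =>
      (((Icc 1 M).filter (fun m => good X (m ^ 3 + (b + Q * l)))).card : ℝ) <
        c / (4 * Q) * M / Real.log X)).card : ℝ) ≤ L * (η / 4) := by
    intro b hb
    obtain ⟨r, hr1, hr2, hr3⟩ := exists_cube_class y b
    rw [← hQ] at hr2 hr3
    obtain ⟨hcard, hpair⟩ := hI0 I r (by omega) hr2
    set B := (range I).image (fun i => (r + Q * i) ^ 3) with hBdef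
    have hBne : B.Nonempty := by
      rw [← Finset.card_pos, hcard]
      exact hIpos
    have hmem : ∀ x ∈ B, ∃ m : ℕ, m ∈ Icc 1 M ∧ x = m ^ 3 ∧ m ≡ r [MOD Q] := by
      intro x hx
      rw [hBdef, mem_image] at hx
      obtain ⟨i, hi, rfl⟩ := hx
      rw [mem_range] at hi
      refine ⟨r + Q * i, ?_, rfl, ?_⟩
      · rw [mem_Icc]
        refine ⟨by omega, ?_⟩
        have h1 : Q * i + Q ≤ I * Q := by
          have : (i + 1) * Q ≤ I * Q := Nat.mul_le_mul_right Q hi
          calc Q * i + Q = (i + 1) * Q := by ring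
            _ ≤ I * Q := this
        omega
      · exact Nat.ModEq.symm (by
          rw [Nat.ModEq, Nat.add_mul_mod_self_left])
    have hB1 := hB B (r ^ 3) b L hBne (by
      intro x hx
      obtain ⟨m, hm, rfl, hmr⟩ := hmem x hx
      rw [mem_Icc] at hm
      refine ⟨?_, Nat.one_le_pow _ _ hm.1, hmr.pow 3⟩
      exact (Nat.pow_le_pow_left hm.2 3).trans hMX) (mem_range.mp hb).le hr3 hL1 hL2
    rw [hcard] at hB1
    have hsub : (range L).filter (fun l =>
        (((Icc 1 M).filter (fun m => good X (m ^ 3 + (b + Q * l)))).card : ℝ) <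
          c / (4 * Q) * M / Real.log X) ⊆
        (range L).filter (fun l =>
          ((B.filter (fun x => good X (x + b + Q * l))).card : ℝ) < WW X y / 2 * I) := by
      intro l hl
      rw [mem_filter] at hl ⊢
      refine ⟨hl.1, ?_⟩
      have h1 : (B.filter (fun x => good X (x + b + Q * l))).card ≤
          ((Icc 1 M).filter (fun m => good X (m ^ 3 + (b + Q * l)))).card := by
        have h2 : B.filter (fun x => good X (x + b + Q * l)) ⊆
            ((Icc 1 M).filter (fun m => good X (m ^ 3 + (b + Q * l)))).image (fun m => m ^ 3) := by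
          intro x hx
          rw [mem_filter] at hx
          obtain ⟨m, hm, rfl, -⟩ := hmem x hx.1
          rw [mem_image]
          refine ⟨m, ?_, rfl⟩
          rw [mem_filter]
          refine ⟨hm, ?_⟩
          rw [← add_assoc]
          exact hx.2
        exact (card_le_card h2).trans card_image_le
      have h3 : ((B.filter (fun x => good X (x + b + Q * l))).card : ℝ) ≤
          (((Icc 1 M).filter (fun m => good X (m ^ 3 + (b + Q * l)))).card : ℝ) := by
        exact_mod_cast h1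
      refine lt_of_le_of_lt h3 (lt_of_lt_of_le hl.2 ?_)
      calc c / (4 * Q) * M / Real.log X ≤ c / (4 * Q) * (2 * (I * Q)) / Real.log X := by gcongr
        _ = c / Real.log X / 2 * I := by
            field_simp
            ring
        _ ≤ WW X y / 2 * I := by gcongr
    have hPr : Pair y κ B / (I : ℝ) ^ 2 ≤ K' / y := by
      rw [div_le_iff₀ (by positivity)]
      exact hpair
    calc _ ≤ (((range L).filter (fun l =>
          ((B.filter (fun x => good X (x + b + Q * l))).card : ℝ) < WW X y / 2 * I)).card : ℝ) := by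
          exact_mod_cast card_le_card hsub
      _ ≤ L * (K * (1 / y + Pair y κ B / (I : ℝ) ^ 2 + Real.log X / I)) := hB1
      _ ≤ L * (K * (1 / y + K' / y + Real.log X / I)) := by gcongr
      _ ≤ L * (η / 4) := by gcongr
  have hcount := cube_split (fun k => (((Icc 1 M).filter
    (fun m => good X (m ^ 3 + k))).card : ℝ) < c / (4 * Q) * M / Real.log X) X Q hQ0
  have hcount' : (((Icc 1 X).filter (fun k => (((Icc 1 M).filter
      (fun m => good X (m ^ 3 + k))).card : ℝ) < c / (4 * Q) * M / Real.log X)).card : ℝ) ≤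
      ∑ b ∈ range Q, (((range L).filter (fun l =>
      (((Icc 1 M).filter (fun m => good X (m ^ 3 + (b + Q * l)))).card : ℝ) <
        c / (4 * Q) * M / Real.log X)).card : ℝ) := by
    exact_mod_cast hcount
  have h4 := hcount'.trans (sum_le_sum hb)
  rw [sum_const, card_range, nsmul_eq_mul] at h4
  calc _ ≤ (Q : ℝ) * (L * (η / 4)) := h4
    _ = (Q * L) * (η / 4) := by ring
    _ ≤ 2 * X * (η / 4) := by gcongr
    _ ≤ η * X := by
        have : (0 : ℝ) ≤ X := Nat.cast_nonneg X
        nlinarith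

end Pool.Agent.H75.AP
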