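import Pool.Agent.H75.AP.RoughCount

/-!
# Module CUBENONE (helpwanted, easy): no almost prime `m^3 + k` with `|m| ≤ c log X` for almost all `k`

`#{k ≤ X : ∃ |m| ≤ c log X, rough X |m^3 + k|} ≤ ∑_{|m| ≤ c log X} #{k ≤ X : rough X |m^3 + k|}`. For `m ≥ 0`: `rough_single` with `N = m^3`. For `m < 0`, `n = |m|^3`: the `k ≤ n` are at most
`(c log X)^3`, and for `k > n` put `a = k - n ∈ [1, X]`: `rough_single` with `N = 0`. Total `≤ (2 c log X + 1) (C X / log X + (c log X)^3) ≤ η X` for `c` small (`3 c C ≤ η/2`) and `X ≥ X0`.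
-/

namespace Pool.Agent.H75.AP

open Finset

open Classical in
private theorem cube_one (C : ℝ) (X : ℕ)
    (h : ∀ N : ℕ, (((Icc 1 X).filter (fun a => rough X (N + a))).card : ℝ) ≤ C * X / Real.log X)
    (m : ℤ) : (((Icc 1 X).filter (fun k : ℕ => rough X (m ^ 3 + (k : ℤ)).natAbs)).card : ℝ) ≤
      |(m : ℝ)| ^ 3 + C * X / Real.log X := by
  rcases Int.eq_nat_or_neg m with ⟨n, rfl | rfl⟩
  · have h1 := h (n ^ 3)
    have h2 : ((Icc 1 X).filter (fun k : ℕ => rough X (((n : ℤ)) ^ 3 + (k : ℤ)).natAbs))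
        = (Icc 1 X).filter (fun a => rough X (n ^ 3 + a)) := by
      refine Finset.filter_congr fun k _ => ?_
      have : (((n : ℤ)) ^ 3 + (k : ℤ)).natAbs = n ^ 3 + k := by
        have : ((n : ℤ)) ^ 3 + (k : ℤ) = ((n ^ 3 + k : ℕ) : ℤ) := by push_cast; ring
        rw [this, Int.natAbs_natCast]
      rw [this]
    rw [h2]
    have h3 : (0 : ℝ) ≤ |(((n : ℤ)) : ℝ)| ^ 3 := by positivity
    linarith
  · have h1 := h 0
    have h2 : ((Icc 1 X).filter (fun k : ℕ => rough X ((-(n : ℤ)) ^ 3 + (k : ℤ)).natAbs))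
        ⊆ Icc 1 (n ^ 3) ∪ ((Icc 1 X).filter (fun a => rough X (0 + a))).image (· + n ^ 3) := by
      intro k hk
      rw [mem_filter, mem_Icc] at hk
      rw [mem_union]
      rcases le_or_gt k (n ^ 3) with h3 | h3
      · left
        exact mem_Icc.2 ⟨hk.1.1, h3⟩
      · right
        refine mem_image.2 ⟨k - n ^ 3, mem_filter.2 ⟨mem_Icc.2 ⟨by omega, by omega⟩, ?_⟩, by
          omega⟩
        have : ((-(n : ℤ)) ^ 3 + (k : ℤ)).natAbs = 0 + (k - n ^ 3) := by
          have : (-(n : ℤ)) ^ 3 + (k : ℤ) = ((0 + (k - n ^ 3) : ℕ) : ℤ) := by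
            rw [zero_add, Nat.cast_sub h3.le]
            push_cast
            ring
          rw [this, Int.natAbs_natCast]
        rw [← this]
        exact hk.2
    have h3 := (card_le_card h2).trans (card_union_le _ _)
    have h4 : (((Icc 1 X).filter (fun a => rough X (0 + a))).image (· + n ^ 3)).card ≤
      ((Icc 1 X).filter (fun a => rough X (0 + a))).card := card_image_le
    rw [Nat.card_Icc] at h3
    have h5 : ((Icc 1 X).filter (fun k : ℕ => rough X ((-(n : ℤ)) ^ 3 + (k : ℤ)).natAbs)).card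
      ≤ n ^ 3 + ((Icc 1 X).filter (fun a => rough X (0 + a))).card := by omega
    have h6 : ((((Icc 1 X).filter
        (fun k : ℕ => rough X ((-(n : ℤ)) ^ 3 + (k : ℤ)).natAbs)).card : ℕ) : ℝ) ≤
        (n : ℝ) ^ 3 + (((Icc 1 X).filter (fun a => rough X (0 + a))).card : ℝ) := by
      exact_mod_cast h5
    have h7 : |((-(n : ℤ) : ℤ) : ℝ)| ^ 3 = (n : ℝ) ^ 3 := by
      push_cast
      rw [abs_neg, Nat.abs_cast]
    rw [h7]
    linarith

open Classical in
theorem cube_none (η : ℝ) (hη : 0 < η) : ∃ c : ℝ, 0 < c ∧ ∃ X0 : ℕ, ∀ X : ℕ, X0 ≤ X →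
    (((Icc 1 X).filter (fun k : ℕ =>
      ∃ m : ℤ, |(m : ℝ)| ≤ c * Real.log X ∧ rough X (m ^ 3 + (k : ℤ)).natAbs)).card : ℝ) ≤
      η * X := by
  obtain ⟨C, hC, X0, hX0⟩ := rough_single
  set c : ℝ := min 1 (η / (8 * C)) with hc
  have hc0 : 0 < c := lt_min one_pos (by positivity)
  have hc1 : c ≤ 1 := min_le_left _ _
  have hc2 : c * C ≤ η / 8 := by
    have : c ≤ η / (8 * C) := min_le_right _ _
    calc c * C ≤ η / (8 * C) * C := by gcongr
      _ = η / 8 := by field_simp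
  -- large X
  have hlog : Filter.Tendsto (fun X : ℕ => Real.log (X : ℝ)) Filter.atTop Filter.atTop :=
    Real.tendsto_log_atTop.comp tendsto_natCast_atTop_atTop
  have he1 : ∀ᶠ X : ℕ in Filter.atTop, 1 ≤ Real.log (X : ℝ) := hlog.eventually_ge_atTop 1
  have he2 : ∀ᶠ X : ℕ in Filter.atTop, 4 * C / η ≤ Real.log (X : ℝ) := hlog.eventually_ge_atTop _
  have he3 : ∀ᶠ X : ℕ in Filter.atTop, Real.log (X : ℝ) ^ 4 ≤ η / 12 * (X : ℝ) := by
    have h1 := (Real.isLittleO_pow_log_id_atTop (n := 4)).def (c := η / 12) (by positivity)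
    have h2 := tendsto_natCast_atTop_atTop (R := ℝ) |>.eventually h1
    filter_upwards [h2, he1] with X hX hX1
    simp only [id, Real.norm_eq_abs] at hX
    rw [abs_of_nonneg (by positivity), Nat.abs_cast] at hX
    exact hX
  have he4 : ∀ᶠ X : ℕ in Filter.atTop, X0 ≤ X := Filter.eventually_ge_atTop X0
  obtain ⟨X1, hX1⟩ := Filter.eventually_atTop.1 (he1.and (he2.and (he3.and he4)))
  refine ⟨c, hc0, X1, fun X hX => ?_⟩
  obtain ⟨hL1, hL2, hL3, hL4⟩ := hX1 X hX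
  set L := Real.log (X : ℝ) with hL
  have hone := cube_one C X (fun N => hX0 X N hL4)
  set M : ℕ := ⌊c * L⌋₊ with hM
  have hML : (M : ℝ) ≤ c * L := Nat.floor_le (by positivity)
  have hsub : ((Icc 1 X).filter (fun k : ℕ =>
      ∃ m : ℤ, |(m : ℝ)| ≤ c * L ∧ rough X (m ^ 3 + (k : ℤ)).natAbs)) ⊆
      (Icc (-(M : ℤ)) (M : ℤ)).biUnion
        (fun m => (Icc 1 X).filter (fun k : ℕ => rough X (m ^ 3 + (k : ℤ)).natAbs)) := by
    intro k hk
    rw [mem_filter] at hk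
    obtain ⟨hk1, m, hm1, hm2⟩ := hk
    rw [mem_biUnion]
    refine ⟨m, ?_, mem_filter.2 ⟨hk1, hm2⟩⟩
    have h1 : ((m.natAbs : ℕ) : ℝ) ≤ c * L := by
      rw [Nat.cast_natAbs, Int.cast_abs]
      exact hm1
    have h2 : m.natAbs ≤ M := Nat.le_floor h1
    rw [mem_Icc]
    omega
  have hX0' : (0 : ℝ) ≤ X := Nat.cast_nonneg X
  have hcard := (card_le_card hsub).trans card_biUnion_le
  have hbound : ∀ m ∈ Icc (-(M : ℤ)) (M : ℤ),
      (((Icc 1 X).filter (fun k : ℕ => rough X (m ^ 3 + (k : ℤ)).natAbs)).card : ℝ) ≤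
      (c * L) ^ 3 + C * X / L := by
    intro m hm
    refine (hone m).trans ?_
    have h1 : |(m : ℝ)| ≤ c * L := by
      refine le_trans ?_ hML
      rw [mem_Icc] at hm
      rw [abs_le]
      exact ⟨by exact_mod_cast hm.1, by exact_mod_cast hm.2⟩
    have h2 : |(m : ℝ)| ^ 3 ≤ (c * L) ^ 3 := by gcongr
    linarith
  have hc' : (((Icc 1 X).filter (fun k : ℕ =>
      ∃ m : ℤ, |(m : ℝ)| ≤ c * L ∧ rough X (m ^ 3 + (k : ℤ)).natAbs)).card : ℝ) ≤
      (2 * M + 1) * ((c * L) ^ 3 + C * X / L) := by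
    have h1 : (((Icc 1 X).filter (fun k : ℕ =>
      ∃ m : ℤ, |(m : ℝ)| ≤ c * L ∧ rough X (m ^ 3 + (k : ℤ)).natAbs)).card : ℝ) ≤
      ((∑ m ∈ Icc (-(M : ℤ)) (M : ℤ),
        ((Icc 1 X).filter (fun k : ℕ => rough X (m ^ 3 + (k : ℤ)).natAbs)).card : ℕ) : ℝ) := by
      exact_mod_cast hcard
    refine h1.trans ?_
    rw [Nat.cast_sum]
    refine (sum_le_sum hbound).trans ?_
    rw [sum_const, nsmul_eq_mul, Int.card_Icc]
    have h2 : (((M : ℤ) + 1 - -(M : ℤ)).toNat : ℝ) = 2 * M + 1 := by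
      have : ((M : ℤ) + 1 - -(M : ℤ)).toNat = 2 * M + 1 := by omega
      rw [this]
      push_cast
      ring
    rw [h2]
  refine hc'.trans ?_
  have hcL : c * L ≤ L := by nlinarith
  have hcL0 : 0 ≤ c * L := by positivity
  have hL0 : 0 < L := by linarith
  have h1 : (c * L) ^ 3 ≤ L ^ 3 := by gcongr
  have h2 : 2 * (M : ℝ) + 1 ≤ 2 * (c * L) + 1 := by linarith
  have h3 : (0 : ℝ) ≤ (c * L) ^ 3 + C * X / L := by positivity
  calc (2 * (M : ℝ) + 1) * ((c * L) ^ 3 + C * X / L)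
      ≤ (2 * (c * L) + 1) * ((c * L) ^ 3 + C * X / L) := by gcongr
    _ = (2 * (c * L) + 1) * (c * L) ^ 3 + 2 * (c * C) * X + C * X / L := by
        have h8 : C * X / L * L = C * X := div_mul_cancel₀ _ hL0.ne'
        calc (2 * (c * L) + 1) * ((c * L) ^ 3 + C * X / L)
            = (2 * (c * L) + 1) * (c * L) ^ 3 + 2 * c * (C * X / L * L) + C * X / L := by ring
          _ = _ := by rw [h8]; ring
    _ ≤ (2 * L + L) * L ^ 3 + 2 * (η / 8) * X + η / 4 * X := by
        have h4 : C * X / L ≤ η / 4 * X := by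
          rw [div_le_iff₀ hL0]
          have h5 : C ≤ η / 4 * L := by
            rw [div_le_iff₀ hη] at hL2
            linarith
          calc C * X ≤ η / 4 * L * X := by gcongr
            _ = η / 4 * X * L := by ring
        have h6 : (2 * (c * L) + 1) * (c * L) ^ 3 ≤ (2 * L + L) * L ^ 3 := by
          gcongr
        have h7 : 2 * (c * C) * X ≤ 2 * (η / 8) * X := by gcongr
        linarith
    _ = 3 * L ^ 4 + η / 2 * X := by ring
    _ ≤ 3 * (η / 12 * X) + η / 2 * X := by gcongr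
    _ ≤ η * X := by nlinarith

end Pool.Agent.H75.AP
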