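import Mathlib

/-!
# Almost primes in almost all translates: definitions (helper75, proofs 211)

`T` is always a finite set of primes, `ev T f n` is the sum of `f S` over the sets `S` of primes of
`T` dividing `n`.
-/

namespace Pool.Agent.H75.AP

open Finset

/-- sum of `f S` over the subsets `S` of `{p ∈ T : p ∣ n}` -/
noncomputable def ev (T : Finset ℕ) (f : Finset ℕ → ℝ) (n : ℕ) : ℝ :=
  ∑ S ∈ (T.filter (· ∣ n)).powerset, f S

/-- truncated Moebius coefficients -/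
noncomputable def fU (b : ℕ) (S : Finset ℕ) : ℝ := if S.card ≤ b then (-1) ^ S.card else 0

/-- indicator of the sets with exactly `s` elements -/
noncomputable def fC (s : ℕ) (S : Finset ℕ) : ℝ := if S.card = s then 1 else 0

/-- the coefficients of `n ↦ ∑_{p ∣ n} ω p` -/
noncomputable def f0 (ω : ℕ → ℝ) (S : Finset ℕ) : ℝ := if S.card = 1 then ∑ p ∈ S, ω p else 0

/-- mean value of `ev T f` -/
noncomputable def mv (T : Finset ℕ) (f : Finset ℕ → ℝ) : ℝ :=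
  ∑ S ∈ T.powerset, f S * ∏ p ∈ S, (1 / (p : ℝ))

/-- mean value of `ev T f n * ev T g n'` when `H` is the set of primes dividing `n - n'` -/
noncomputable def pv (T H : Finset ℕ) (f g : Finset ℕ → ℝ) : ℝ :=
  ∑ S ∈ T.powerset, ∑ S' ∈ T.powerset,
    if S ∩ S' ⊆ H then f S * g S' * ∏ p ∈ S ∪ S', (1 / (p : ℝ)) else 0

/-- the elements of `T` dividing `a - a'` -/
def HH (T : Finset ℕ) (a a' : ℕ) : Finset ℕ := T.filter (fun p => (p : ℤ) ∣ (a : ℤ) - (a' : ℤ))

open Classical in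
/-- number of nonzero coefficients -/
noncomputable def nz (T : Finset ℕ) (f : Finset ℕ → ℝ) : ℕ :=
  (T.powerset.filter (fun S => f S ≠ 0)).card

/-- `∑ 1/p` over the primes `p > y` dividing `a - a'` (zero if `a = a'`). -/
noncomputable def hh (y a a' : ℕ) : ℝ :=
  ∑ p ∈ (((a : ℤ) - (a' : ℤ)).natAbs.primeFactors).filter (y < ·), (1 / (p : ℝ))

/-- `∑_{x ≠ x'} (exp (κ hh x x') - 1)` over `B × B` -/
noncomputable def Pair (y : ℕ) (κ : ℝ) (B : Finset ℕ) : ℝ :=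
  ∑ x ∈ B, ∑ x' ∈ B, if x ≠ x' then Real.exp (κ * hh y x x') - 1 else 0

/-- all prime factors of `n` exceed `X ^ (1/50)` -/
def rough (X n : ℕ) : Prop := ∀ p : ℕ, p.Prime → p ∣ n → (X : ℝ) ^ (1 / 50 : ℝ) < (p : ℝ)

/-- `n` has at most four prime factors (with multiplicity), all of them larger than `X ^ (1/50)` -/
def good (X n : ℕ) : Prop := rough X n ∧ ArithmeticFunction.cardFactors n ≤ 4

/-- `n` is divisible by the square of a prime larger than `X ^ (1/50)` -/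
def sqd (X n : ℕ) : Prop := ∃ p : ℕ, p.Prime ∧ (X : ℝ) ^ (1 / 50 : ℝ) < (p : ℝ) ∧ p ^ 2 ∣ n

/-- exponents of the block boundaries: `17/50, 1/50, 1/150, 1/450, …` -/
noncomputable def th (j : ℕ) : ℝ := if j = 0 then 17 / 50 else 1 / 50 * (1 / 3) ^ (j - 1)

/-- truncation parameters: `0, 4, 6, 8, …` -/
def bb (j : ℕ) : ℕ := if j = 0 then 0 else 2 * j + 2

open Classical in
/-- the block of primes `p > y` with `X ^ th (j+1) < p ≤ X ^ th j` -/
noncomputable def TT (X y j : ℕ) : Finset ℕ :=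
  (range (⌊(X : ℝ) ^ th j⌋₊ + 1)).filter
    (fun p => p.Prime ∧ y < p ∧ (X : ℝ) ^ th (j + 1) < (p : ℝ))

/-- Richert's weights on the top block -/
noncomputable def om (X : ℕ) (p : ℕ) : ℝ :=
  1 / 2 * (1 - Real.log p / (17 / 50 * Real.log X))

/-- number of blocks -/
noncomputable def JJ (X : ℕ) : ℕ := ⌈2 * Real.log (Real.log X)⌉₊ + 2

/-- coefficients `U_j` -/
noncomputable def fu (j : ℕ) : Finset ℕ → ℝ := fU (bb j)

/-- coefficients `C_j`, with Richert's weights truncated to `[0,1/2]` (they already lie there on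
the top block) -/
noncomputable def fc (X j : ℕ) : Finset ℕ → ℝ :=
  if j = 0 then f0 (fun p => max 0 (min (1 / 2) (om X p))) else fC (bb j + 1)

/-- coefficients of the `σ`-th term: `C_σ` in block `σ`, `U_j` in the other blocks -/
noncomputable def FF (X σ j : ℕ) : Finset ℕ → ℝ := if j = σ then fc X j else fu j

/-- the sieve weight, lower bound -/
noncomputable def lo (X y n : ℕ) : ℝ :=
  ∏ j ∈ range (JJ X), ev (TT X y j) (fu j) n -
    ∑ i ∈ range (JJ X), ∏ j ∈ range (JJ X), ev (TT X y j) (FF X i j) n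

/-- the sieve weight, upper bound -/
noncomputable def up (X y n : ℕ) : ℝ := ∏ j ∈ range (JJ X), ev (TT X y j) (fu j) n

/-- mean of `U_j` -/
noncomputable def uu (X y j : ℕ) : ℝ := mv (TT X y j) (fu j)

/-- mean of `C_j` -/
noncomputable def gg (X y j : ℕ) : ℝ := mv (TT X y j) (fc X j)

/-- mean of `lo` -/
noncomputable def WW (X y : ℕ) : ℝ :=
  (∏ j ∈ range (JJ X), uu X y j) * (1 - ∑ j ∈ range (JJ X), gg X y j / uu X y j)

/-- sign of the `σ`-th term; `σ = J` is the main term `∏ U_j` -/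
def sg (J σ : ℕ) : ℝ := if σ = J then 1 else -1

open Classical in
/-- the primes `p` with `u < p ≤ v` -/
noncomputable def PI (u v : ℝ) : Finset ℕ :=
  (range (⌊v⌋₊ + 1)).filter (fun p => p.Prime ∧ u < (p : ℝ))

/-- probability of `D` when each `p ∈ T` is chosen independently with probability `1/p` -/
noncomputable def prb (T D : Finset ℕ) : ℝ := (∏ p ∈ D, (1 / (p : ℝ))) * ∏ p ∈ T \ D, (1 - 1 / (p : ℝ))

/-- `∑_{p ∈ T} 1/p` -/
noncomputable def lam (T : Finset ℕ) : ℝ := ∑ p ∈ T, 1 / (p : ℝ)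

/-- `∏_{p ∈ T} (1 - 1/p)` -/
noncomputable def vv (T : Finset ℕ) : ℝ := ∏ p ∈ T, (1 - 1 / (p : ℝ))

/-- error bound of module PVCLOSE for the block `j` -/
noncomputable def be (X y a a' j : ℕ) : ℝ := Real.exp (2 * lam (TT X y j)) *
  ((Real.exp (∑ p ∈ TT X y j ∩ HH (TT X y j) a a', 1 / (p : ℝ)) - 1) +
    (Real.exp (∑ p ∈ TT X y j, 1 / (p : ℝ) ^ 2) - 1))

/-- the numerical facts about the blocks used by the sieve -/
structure Pk (c C : ℝ) (X y : ℕ) : Prop where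
  hy : 2 ≤ y
  one : 1 ≤ X
  c0 : 0 < c
  C0 : 0 < C
  logX : 1 ≤ Real.log X
  ylt : (y : ℝ) ≤ (X : ℝ) ^ (1 / 50 : ℝ)
  wlo : c / Real.log X ≤ WW X y
  whi : WW X y ≤ C / Real.log X
  wpos : 0 < WW X y
  wle : WW X y ≤ 1
  upos : ∀ j ∈ range (JJ X), Real.exp (-(11 / 10)) ≤ uu X y j
  gnn : ∀ j ∈ range (JJ X), 0 ≤ gg X y j
  tau : ∑ j ∈ range (JJ X), gg X y j / uu X y j ≤ 99 / 100
  lam0 : lam (TT X y 0) ≤ 284 / 100
  lam1 : ∀ j, 1 ≤ j → lam (TT X y j) ≤ 10992 / 10000 ∧ Real.exp (-(11 / 10)) ≤ vv (TT X y j)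
  uprod : ∏ j ∈ range (JJ X), uu X y j ≤ 100 * WW X y
  vprod : ∏ j ∈ range (JJ X), (if j = 0 then 1 else vv (TT X y j)) ≤ 100 * WW X y
  err : ((JJ X : ℝ) + 1) ^ 2 * (X : ℝ) ^ (98 / 100 : ℝ) ≤
    (X : ℝ) / primorial y * (WW X y) ^ 2 / y
  cover : ∀ p : ℕ, p.Prime → y < p → (p : ℝ) ≤ (X : ℝ) ^ (1 / 50 : ℝ) →
    ∃ j, 1 ≤ j ∧ j < JJ X ∧ p ∈ TT X y j

theorem fU_abs_le (b : ℕ) (S : Finset ℕ) : |fU b S| ≤ 1 := by
  unfold fU
  split_ifs
  · rw [abs_pow, abs_neg, abs_one, one_pow]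
  · simp

theorem fC_abs_le (b : ℕ) (S : Finset ℕ) : |fC b S| ≤ 1 := by
  unfold fC
  split_ifs <;> simp

theorem f0_abs_le (ω : ℕ → ℝ) (h : ∀ p, |ω p| ≤ 1) (S : Finset ℕ) : |f0 ω S| ≤ 1 := by
  unfold f0
  split_ifs with hS
  · obtain ⟨p, rfl⟩ := Finset.card_eq_one.1 hS
    simpa using h p
  · simp

theorem fc_abs_le (X j : ℕ) (S : Finset ℕ) : |fc X j S| ≤ 1 := by
  unfold fc
  split_ifs
  · apply f0_abs_le
    intro p
    rw [abs_of_nonneg (le_max_left _ _)]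
    exact max_le (by norm_num) ((min_le_left _ _).trans (by norm_num))
  · exact fC_abs_le _ _

theorem FF_abs_le (X σ j : ℕ) (S : Finset ℕ) : |FF X σ j S| ≤ 1 := by
  unfold FF
  split_ifs
  · exact fc_abs_le _ _ _
  · exact fU_abs_le _ _

end Pool.Agent.H75.AP
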