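import Pool.Agent.H75.AP.Core

/-!
# Module ITER (helper75): iteration of CORE over the coordinates of a tuple
-/

namespace Pool.Agent.H75.AP

open Finset

open Classical in
/-- splitting off the first coordinate -/
theorem card_cons_le (k L : ℕ) (P : (Fin (k + 1) → ℕ) → Prop) :
    (((Fintype.piFinset (fun _ : Fin (k + 1) => range L)).filter P).card : ℝ) ≤
      ∑ l0 ∈ range L, (((Fintype.piFinset (fun _ : Fin k => range L)).filter
        (fun l => P (Fin.cons l0 l))).card : ℝ) := by
  have h1 : ((Fintype.piFinset (fun _ : Fin (k + 1) => range L)).filter P).card ≤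
      (((range L) ×ˢ (Fintype.piFinset (fun _ : Fin k => range L))).filter
        (fun q => P (Fin.cons q.1 q.2))).card := by
    apply card_le_card_of_injOn (fun l => (l 0, Fin.tail l))
    · intro l hl
      rw [mem_coe, mem_filter, Fintype.mem_piFinset] at hl
      rw [mem_coe, mem_filter, mem_product, Fintype.mem_piFinset]
      refine ⟨⟨hl.1 0, fun i => hl.1 i.succ⟩, ?_⟩
      simp only [Fin.cons_self_tail]
      exact hl.2
    · intro l _ l' _ h
      simp only [Prod.mk.injEq] at h
      rw [← Fin.cons_self_tail l, ← Fin.cons_self_tail l', h.1, h.2]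
  have h2 : (((range L) ×ˢ (Fintype.piFinset (fun _ : Fin k => range L))).filter
        (fun q => P (Fin.cons q.1 q.2))).card =
      ∑ l0 ∈ range L, ((Fintype.piFinset (fun _ : Fin k => range L)).filter
        (fun l => P (Fin.cons l0 l))).card := by
    rw [card_filter, sum_product]
    apply sum_congr rfl; intro l0 _
    rw [card_filter]
  rw [h2] at h1
  exact_mod_cast h1

theorem exp_mul_ineq {a b : ℝ} (hb : 0 ≤ b) :
    (Real.exp a - 1) * Real.exp b ≤ Real.exp (a + b) - 1 := by
  rw [Real.exp_add]
  have := Real.one_le_exp hb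
  nlinarith

open Classical in
/-- averaged pair sums -/
theorem pair_avg (κ K : ℝ) (hκ : 0 < κ) (X y L b k : ℕ)
    (h : ∀ a a' : ℕ, a ≠ a' →
      (((range L).filter (fun l => rough X (a + primorial y * l) ∧
        rough X (a' + primorial y * l))).card : ℝ) ≤
        K * (L * (WW X y) ^ 2 * Real.exp (κ * hh y a a'))) (hK : 0 ≤ K) (B : Finset ℕ) :
    ∑ l ∈ range L, Pair y (κ * k) (B.filter (fun x => good X (x + b + primorial y * l))) ≤
      K * (L * (WW X y) ^ 2) * Pair y (κ * ((k + 1 : ℕ) : ℝ)) B := by
  have e1 : ∀ l ∈ range L, Pair y (κ * k) (B.filter (fun x => good X (x + b + primorial y * l))) ≤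
      ∑ x ∈ B, ∑ x' ∈ B, (if x ≠ x' then Real.exp (κ * k * hh y x x') - 1 else 0) *
        (if rough X (x + b + primorial y * l) ∧ rough X (x' + b + primorial y * l) then 1 else 0) := by
    intro l _
    unfold Pair
    rw [sum_filter]
    apply sum_le_sum; intro x hx
    have hnn : ∀ x', 0 ≤ (if x ≠ x' then Real.exp (κ * k * hh y x x') - 1 else 0) := by
      intro x'
      split_ifs
      · have := Real.one_le_exp (mul_nonneg (mul_nonneg hκ.le (Nat.cast_nonneg k)) (hh_nonneg y x x'))
        linarith
      · exact le_rfl
    by_cases hg : good X (x + b + primorial y * l)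
    · rw [if_pos hg, sum_filter]
      apply sum_le_sum; intro x' _
      by_cases hg' : good X (x' + b + primorial y * l)
      · have hand : rough X (x + b + primorial y * l) ∧ rough X (x' + b + primorial y * l) :=
          ⟨hg.1, hg'.1⟩
        rw [if_pos hg', if_pos hand, mul_one]
      · rw [if_neg hg']
        exact mul_nonneg (hnn x') (by split_ifs <;> norm_num)
    · rw [if_neg hg]
      exact sum_nonneg fun x' _ => mul_nonneg (hnn x') (by split_ifs <;> norm_num)
  refine (sum_le_sum e1).trans ?_
  have e2 : ∑ l ∈ range L, ∑ x ∈ B, ∑ x' ∈ B,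
      (if x ≠ x' then Real.exp (κ * k * hh y x x') - 1 else 0) *
        (if rough X (x + b + primorial y * l) ∧ rough X (x' + b + primorial y * l)
          then (1 : ℝ) else 0) =
      ∑ x ∈ B, ∑ x' ∈ B, (if x ≠ x' then Real.exp (κ * k * hh y x x') - 1 else 0) *
        (((range L).filter (fun l => rough X (x + b + primorial y * l) ∧
          rough X (x' + b + primorial y * l))).card : ℝ) := by
    rw [sum_comm]
    apply sum_congr rfl; intro x _
    rw [sum_comm]
    apply sum_congr rfl; intro x' _
    rw [← mul_sum, card_filter]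
    push_cast
    rfl
  rw [e2]
  unfold Pair
  rw [mul_sum]
  apply sum_le_sum; intro x _
  rw [mul_sum]
  apply sum_le_sum; intro x' _
  by_cases hxx : x = x'
  · simp [hxx]
  · rw [if_pos hxx, if_pos hxx]
    have h1 := h (x + b) (x' + b) (by omega)
    rw [hh_shift] at h1
    have h2 : 0 ≤ Real.exp (κ * k * hh y x x') - 1 := by
      have := Real.one_le_exp (mul_nonneg (mul_nonneg hκ.le (Nat.cast_nonneg k)) (hh_nonneg y x x'))
      linarith
    have h3 := exp_mul_ineq (a := κ * k * hh y x x') (b := κ * hh y x x')
      (mul_nonneg hκ.le (hh_nonneg _ _ _))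
    have h4 : κ * k * hh y x x' + κ * hh y x x' = κ * ((k + 1 : ℕ) : ℝ) * hh y x x' := by
      push_cast; ring
    rw [h4] at h3
    calc (Real.exp (κ * k * hh y x x') - 1) * _ ≤ (Real.exp (κ * k * hh y x x') - 1) *
        (K * (L * (WW X y) ^ 2 * Real.exp (κ * hh y x x'))) := mul_le_mul_of_nonneg_left h1 h2
      _ = K * (L * (WW X y) ^ 2) * ((Real.exp (κ * k * hh y x x') - 1) *
        Real.exp (κ * hh y x x')) := by ring
      _ ≤ _ := mul_le_mul_of_nonneg_left h3 (by positivity)

open Classical in
theorem iter : ∃ κ : ℝ, 0 < κ ∧ ∀ k : ℕ, ∀ η : ℝ, 0 < η → ∃ ε : ℝ, 0 < ε ∧ ∃ y0 : ℕ, 2 ≤ y0 ∧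
    ∀ y : ℕ, y0 ≤ y → ∃ C c : ℝ, 0 < C ∧ 0 < c ∧ ∃ X0 : ℕ, ∀ X : ℕ, X0 ≤ X →
    ∀ (B : Finset ℕ) (r L : ℕ) (b : Fin k → ℕ),
      (∀ x ∈ B, x ≤ X ∧ 1 ≤ x ∧ x ≡ r [MOD primorial y]) →
      (∀ i, b i ≤ primorial y ∧ (r + b i).Coprime (primorial y)) →
      X ≤ L * primorial y → L * primorial y ≤ X + primorial y →
      C * (Real.log X) ^ k ≤ (B.card : ℝ) →
      Pair y (κ * k) B ≤ ε * (B.card : ℝ) ^ 2 →
      (((Fintype.piFinset (fun _ : Fin k => range L)).filter (fun l : Fin k → ℕ =>
        ((B.filter (fun x => ∀ i, good X (x + b i + primorial y * l i))).card : ℝ) <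
          c * B.card / (Real.log X) ^ k)).card : ℝ) ≤ η * (L : ℝ) ^ k := by
  obtain ⟨κ, K, c, hκ, hK, hc, y1, hy1, H⟩ := core
  refine ⟨κ, hκ, ?_⟩
  intro k
  induction k with
  | zero =>
    intro η hη
    refine ⟨1, one_pos, 2, le_rfl, ?_⟩
    intro y _
    refine ⟨1, 1 / 2, one_pos, by norm_num, 0, ?_⟩
    intro X _ B r L b _ _ _ _ hn _
    rw [pow_zero, mul_one] at hn
    rw [filter_false_of_mem]
    · simp only [card_empty, Nat.cast_zero, pow_zero, mul_one]
      exact hη.le
    · intro l _
      simp only [IsEmpty.forall_iff, filter_true, pow_zero, div_one, not_lt]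
      linarith
  | succ k ih =>
    intro η hη
    obtain ⟨ε', hε', y2, hy2, IH⟩ := ih (η / 2) (by positivity)
    set ε := η / (16 * K) * min 1 ε' with hε
    have hεpos : 0 < ε := by
      rw [hε]
      have : 0 < min 1 ε' := lt_min one_pos hε'
      positivity
    refine ⟨ε, hεpos, max (max y1 y2) ⌈16 * K / η⌉₊, le_trans hy1
      (le_trans (le_max_left _ _) (le_max_left _ _)), ?_⟩
    intro y hy
    have hyy1 : y1 ≤ y := le_trans (le_trans (le_max_left _ _) (le_max_left _ _)) hy
    have hyy2 : y2 ≤ y := le_trans (le_trans (le_max_right _ _) (le_max_left _ _)) hy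
    have hyK : 16 * K / η ≤ (y : ℝ) :=
      (Nat.le_ceil _).trans (by exact_mod_cast (le_max_right _ _).trans hy)
    have hy0 : (0 : ℝ) < y := lt_of_lt_of_le (by positivity) hyK
    obtain ⟨C1, hC1, X1, HX⟩ := H y hyy1
    obtain ⟨C', c', hC', hc', X2, IHX⟩ := IH y hyy2
    refine ⟨max (16 * K / η) (2 * C' / c), c' * c / 2, lt_max_of_lt_left (by positivity),
      by positivity, max (max X1 X2) 3, ?_⟩
    intro X hX B r L b hB hb hL hL2 hn hpair
    have hX1 : X1 ≤ X := le_trans (le_trans (le_max_left _ _) (le_max_left _ _)) hX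
    have hX2 : X2 ≤ X := le_trans (le_trans (le_max_right _ _) (le_max_left _ _)) hX
    have hX3 : 3 ≤ X := le_trans (le_max_right _ _) hX
    obtain ⟨hWlo, hWhi, ha, hbb, _⟩ := HX X hX1
    set W := WW X y with hW
    set Q := primorial y with hQ
    set n : ℝ := (B.card : ℝ) with hnn
    have hlog : 1 ≤ Real.log X := by
      rw [Real.le_log_iff_exp_le (by exact_mod_cast (by omega : 0 < X))]
      have : (3 : ℝ) ≤ X := by exact_mod_cast hX3
      linarith [Real.exp_one_lt_three]
    have hlog0 : 0 < Real.log X := by linarith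
    have hWpos : 0 < W := lt_of_lt_of_le (by positivity) hWlo
    have hlogk : 0 < (Real.log X) ^ k := by positivity
    have hn1 : 16 * K / η * (Real.log X) ^ (k + 1) ≤ n :=
      (mul_le_mul_of_nonneg_right (le_max_left _ _) (by positivity)).trans hn
    have hn2 : 2 * C' / c * (Real.log X) ^ (k + 1) ≤ n :=
      (mul_le_mul_of_nonneg_right (le_max_right _ _) (by positivity)).trans hn
    have hnpos : 0 < n := lt_of_lt_of_le (by positivity) hn1
    have hBne : B.Nonempty := by
      rw [← card_pos]
      rw [hnn] at hnpos
      exact_mod_cast hnpos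
    have hL0 : (0 : ℝ) ≤ L := by positivity
    -- the three sets of first coordinates
    set B' : ℕ → Finset ℕ := fun l0 => B.filter (fun x => good X (x + b 0 + Q * l0)) with hB'
    set A1 := (range L).filter (fun l0 => ((B' l0).card : ℝ) < W / 2 * n) with hA1
    set A2 := (range L).filter (fun l0 => ε' * (W / 2 * n) ^ 2 < Pair y (κ * k) (B' l0)) with hA2
    have hA1b : (A1.card : ℝ) ≤ η / 4 * L := by
      have h1 := ha B r (b 0) L hBne hB (hb 0).1 (hb 0).2 hL hL2
      refine h1.trans ?_
      have h2 : K * (1 / y + Pair y κ B / n ^ 2 + Real.log X / n) ≤ η / 4 := by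
        have a1 : K * (1 / y) ≤ η / 16 := by
          rw [mul_one_div, div_le_iff₀ hy0]
          rw [div_le_iff₀ hη] at hyK
          linarith
        have a2 : K * (Pair y κ B / n ^ 2) ≤ η / 16 := by
          have b1 : Pair y κ B ≤ Pair y (κ * ((k + 1 : ℕ) : ℝ)) B := by
            apply Pair_mono
            push_cast
            have : 0 ≤ κ * k := by positivity
            nlinarith
          have b2 : Pair y κ B / n ^ 2 ≤ ε := by
            rw [div_le_iff₀ (by positivity)]
            exact b1.trans hpair
          have b3 : ε ≤ η / (16 * K) := by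
            rw [hε]
            have : min 1 ε' ≤ 1 := min_le_left _ _
            have h5 : 0 < η / (16 * K) := by positivity
            nlinarith
          calc K * (Pair y κ B / n ^ 2) ≤ K * (η / (16 * K)) :=
                mul_le_mul_of_nonneg_left (b2.trans b3) hK.le
            _ = η / 16 := by field_simp
        have a3 : K * (Real.log X / n) ≤ η / 16 := by
          have b1 : Real.log X ≤ (Real.log X) ^ (k + 1) := by
            calc Real.log X = (Real.log X) ^ 1 := (pow_one _).symm
              _ ≤ _ := pow_le_pow_right₀ hlog (by omega)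
          rw [← mul_div_assoc, div_le_iff₀ hnpos]
          have b2 : 16 * K / η * Real.log X ≤ n :=
            (mul_le_mul_of_nonneg_left b1 (by positivity)).trans hn1
          have b3 : η / 16 * (16 * K / η * Real.log X) ≤ η / 16 * n :=
            mul_le_mul_of_nonneg_left b2 (by positivity)
          have b4 : η / 16 * (16 * K / η * Real.log X) = K * Real.log X := by field_simp
          linarith
        have : K * (1 / y + Pair y κ B / n ^ 2 + Real.log X / n) =
          K * (1 / y) + K * (Pair y κ B / n ^ 2) + K * (Real.log X / n) := by ring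
        linarith
      calc L * (K * (1 / y + Pair y κ B / n ^ 2 + Real.log X / n)) ≤ L * (η / 4) :=
            mul_le_mul_of_nonneg_left h2 hL0
        _ = η / 4 * L := by ring
    have hA2b : (A2.card : ℝ) ≤ η / 4 * L := by
      have h1 := pair_avg κ K hκ X y L (b 0) k (fun a a' haa => hbb a a' L haa hL) hK.le B
      have h2 : (A2.card : ℝ) * (ε' * (W / 2 * n) ^ 2) ≤
          K * (L * W ^ 2) * Pair y (κ * ((k + 1 : ℕ) : ℝ)) B := by
        refine le_trans ?_ h1
        calc (A2.card : ℝ) * (ε' * (W / 2 * n) ^ 2) = ∑ _l ∈ A2, (ε' * (W / 2 * n) ^ 2) := by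
              rw [sum_const, nsmul_eq_mul]
          _ ≤ ∑ l ∈ A2, Pair y (κ * k) (B' l) := by
              apply sum_le_sum
              intro l hl
              rw [hA2, mem_filter] at hl
              exact hl.2.le
          _ ≤ ∑ l ∈ range L, Pair y (κ * k) (B' l) := by
              apply sum_le_sum_of_subset_of_nonneg (filter_subset _ _)
              intro l _ _
              exact Pair_nonneg _ _ (by positivity) _
      have h3 : K * (L * W ^ 2) * Pair y (κ * ((k + 1 : ℕ) : ℝ)) B ≤
          K * (L * W ^ 2) * (η / (16 * K) * ε' * n ^ 2) := by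
        apply mul_le_mul_of_nonneg_left _ (by positivity)
        refine hpair.trans ?_
        apply mul_le_mul_of_nonneg_right _ (by positivity)
        rw [hε]
        exact mul_le_mul_of_nonneg_left (min_le_right _ _) (by positivity)
      have h4 : K * (L * W ^ 2) * (η / (16 * K) * ε' * n ^ 2) =
          (η / 4 * L) * (ε' * (W / 2 * n) ^ 2) := by
        field_simp
        ring
      rw [h4] at h3
      exact le_of_mul_le_mul_right (h2.trans h3) (by positivity)
    -- main count
    set P : (Fin (k + 1) → ℕ) → Prop := fun l =>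
      ((B.filter (fun x => ∀ i, good X (x + b i + Q * l i))).card : ℝ) <
          c' * c / 2 * n / (Real.log X) ^ (k + 1) with hP
    have hcount := card_cons_le k L P
    refine hcount.trans ?_
    have hstep : ∀ l0 ∈ range L, (((Fintype.piFinset (fun _ : Fin k => range L)).filter
        (fun l => P (Fin.cons l0 l))).card : ℝ) ≤
        (if l0 ∈ A1 ∪ A2 then (L : ℝ) ^ k else 0) + η / 2 * (L : ℝ) ^ k := by
      intro l0 hl0
      by_cases hmem : l0 ∈ A1 ∪ A2
      · rw [if_pos hmem]
        have h1 : (((Fintype.piFinset (fun _ : Fin k => range L)).filter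
          (fun l => P (Fin.cons l0 l))).card : ℝ) ≤ (L : ℝ) ^ k := by
          have := card_filter_le (Fintype.piFinset (fun _ : Fin k => range L))
            (fun l => P (Fin.cons l0 l))
          rw [Fintype.card_piFinset] at this
          simp only [card_range, prod_const, card_univ, Fintype.card_fin] at this
          exact_mod_cast this
        have h2 : 0 ≤ η / 2 * (L : ℝ) ^ k := by positivity
        linarith
      · rw [if_neg hmem, zero_add]
        rw [mem_union, not_or, hA1, hA2, mem_filter, mem_filter, not_and, not_and, not_lt,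
          not_lt] at hmem
        have h1 := hmem.1 hl0
        have h2 := hmem.2 hl0
        have hB'pos : 0 < ((B' l0).card : ℝ) := lt_of_lt_of_le (by positivity) h1
        have h3 : (c / (2 * Real.log X)) * n ≤ ((B' l0).card : ℝ) := by
          refine le_trans ?_ h1
          apply mul_le_mul_of_nonneg_right _ hnpos.le
          have : c / (2 * Real.log X) = (c / Real.log X) / 2 := by
            field_simp
          rw [this]
          linarith
        have h4 : C' * (Real.log X) ^ k ≤ ((B' l0).card : ℝ) := by
          refine le_trans ?_ h3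
          have e1 : (c / (2 * Real.log X)) * (2 * C' / c * (Real.log X) ^ (k + 1)) =
            C' * (Real.log X) ^ k := by
            rw [pow_succ]
            field_simp
          rw [← e1]
          exact mul_le_mul_of_nonneg_left hn2 (by positivity)
        have h5 : Pair y (κ * k) (B' l0) ≤ ε' * ((B' l0).card : ℝ) ^ 2 := by
          refine h2.trans ?_
          apply mul_le_mul_of_nonneg_left _ hε'.le
          exact pow_le_pow_left₀ (by positivity) h1 2
        have h6 := IHX X hX2 (B' l0) r L (fun i => b i.succ)
          (fun x hx => hB x (mem_filter.1 hx).1) (fun i => hb i.succ) hL hL2 h4 h5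
        refine le_trans ?_ h6
        have h7 : (Fintype.piFinset (fun _ : Fin k => range L)).filter
            (fun l => P (Fin.cons l0 l)) ⊆
          (Fintype.piFinset (fun _ : Fin k => range L)).filter (fun l : Fin k → ℕ =>
            (((B' l0).filter (fun x => ∀ i, good X (x + b (Fin.succ i) + Q * l i))).card : ℝ) <
              c' * (B' l0).card / (Real.log X) ^ k) := by
          intro l hl
          rw [mem_filter] at hl ⊢
          refine ⟨hl.1, ?_⟩
          have h8 := hl.2
          simp only [hP] at h8
          have h9 : B.filter (fun x => ∀ i : Fin (k + 1), good X (x + b i + Q *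
              (Fin.cons l0 l : Fin (k + 1) → ℕ) i)) =
              (B' l0).filter (fun x => ∀ i, good X (x + b (Fin.succ i) + Q * l i)) := by
            rw [hB', filter_filter]
            apply filter_congr
            intro x _
            rw [Fin.forall_fin_succ]
            simp only [Fin.cons_zero, Fin.cons_succ]
          rw [h9] at h8
          refine h8.trans_le ?_
          have h10 : c' * c / 2 * n / (Real.log X) ^ (k + 1) =
              c' * ((c / (2 * Real.log X)) * n) / (Real.log X) ^ k := by
            rw [pow_succ]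
            field_simp
          rw [h10]
          apply div_le_div_of_nonneg_right _ hlogk.le
          exact mul_le_mul_of_nonneg_left h3 hc'.le
        exact_mod_cast card_le_card h7
    refine (sum_le_sum hstep).trans ?_
    rw [sum_add_distrib, sum_ite_mem, sum_const, sum_const, card_range, nsmul_eq_mul, nsmul_eq_mul]
    have hint : ((range L ∩ (A1 ∪ A2)).card : ℝ) ≤ η / 2 * L := by
      have h1 : ((range L ∩ (A1 ∪ A2)).card : ℝ) ≤ (A1.card : ℝ) + A2.card := by
        exact_mod_cast (card_le_card inter_subset_right).trans (card_union_le _ _)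
      linarith
    have hLk : 0 ≤ (L : ℝ) ^ k := by positivity
    calc ((range L ∩ (A1 ∪ A2)).card : ℝ) * (L : ℝ) ^ k + L * (η / 2 * (L : ℝ) ^ k) ≤
        (η / 2 * L) * (L : ℝ) ^ k + L * (η / 2 * (L : ℝ) ^ k) := by
          have := mul_le_mul_of_nonneg_right hint hLk
          linarith
      _ = η * (L : ℝ) ^ (k + 1) := by rw [pow_succ]; ring

end Pool.Agent.H75.AP
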