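import Pool.Agent.H75.AP.PStep
import Pool.Agent.H75.AP.Iter
import Pool.Agent.H75.AP.Binom

/-!
# Module ITER2 (helper75): iteration, with primes in at least `j` of the coordinates
-/

namespace Pool.Agent.H75.AP

open Finset

open Classical in
/-- averaged pair sums, for any property stronger than `rough` -/
theorem pair_avg' (κ K : ℝ) (hκ : 0 < κ) (X y L b k : ℕ) (G : ℕ → Prop)
    (hG : ∀ n, G n → rough X n)
    (h : ∀ a a' : ℕ, a ≠ a' →
      (((range L).filter (fun l => rough X (a + primorial y * l) ∧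
        rough X (a' + primorial y * l))).card : ℝ) ≤
        K * (L * (WW X y) ^ 2 * Real.exp (κ * hh y a a'))) (hK : 0 ≤ K) (B : Finset ℕ) :
    ∑ l ∈ range L, Pair y (κ * k) (B.filter (fun x => G (x + b + primorial y * l))) ≤
      K * (L * (WW X y) ^ 2) * Pair y (κ * ((k + 1 : ℕ) : ℝ)) B := by
  have e1 : ∀ l ∈ range L, Pair y (κ * k) (B.filter (fun x => G (x + b + primorial y * l))) ≤
      ∑ x ∈ B, ∑ x' ∈ B, (if x ≠ x' then Real.exp (κ * k * hh y x x') - 1 else 0) *
        (if rough X (x + b + primorial y * l) ∧ rough X (x' + b + primorial y * l) then 1 else 0) := by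
    intro l _
    unfold Pair
    rw [sum_filter]
    apply sum_le_sum; intro x hx
    have hnn : ∀ x', 0 ≤ (if x ≠ x' then Real.exp (κ * k * hh y x x') - 1 else 0) := by
      intro x'
      split_ifs
      · have := Real.one_le_exp (mul_nonneg (mul_nonneg hκ.le (Nat.cast_nonneg k)) (hh_nonneg y x x'))
        linarith
      · exact le_rfl
    by_cases hg : G (x + b + primorial y * l)
    · rw [if_pos hg, sum_filter]
      apply sum_le_sum; intro x' _
      by_cases hg' : G (x' + b + primorial y * l)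
      · have hand : rough X (x + b + primorial y * l) ∧ rough X (x' + b + primorial y * l) :=
          ⟨hG _ hg, hG _ hg'⟩
        rw [if_pos hg', if_pos hand, mul_one]
      · rw [if_neg hg']
        exact mul_nonneg (hnn x') (by split_ifs <;> norm_num)
    · rw [if_neg hg]
      exact sum_nonneg fun x' _ => mul_nonneg (hnn x') (by split_ifs <;> norm_num)
  refine (sum_le_sum e1).trans ?_
  have e2 : ∑ l ∈ range L, ∑ x ∈ B, ∑ x' ∈ B,
      (if x ≠ x' then Real.exp (κ * k * hh y x x') - 1 else 0) *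
        (if rough X (x + b + primorial y * l) ∧ rough X (x' + b + primorial y * l)
          then (1 : ℝ) else 0) =
      ∑ x ∈ B, ∑ x' ∈ B, (if x ≠ x' then Real.exp (κ * k * hh y x x') - 1 else 0) *
        (((range L).filter (fun l => rough X (x + b + primorial y * l) ∧
          rough X (x' + b + primorial y * l))).card : ℝ) := by
    rw [sum_comm]
    apply sum_congr rfl; intro x _
    rw [sum_comm]
    apply sum_congr rfl; intro x' _
    rw [← mul_sum, card_filter]
    push_cast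
    rfl
  rw [e2]
  unfold Pair
  rw [mul_sum]
  apply sum_le_sum; intro x _
  rw [mul_sum]
  apply sum_le_sum; intro x' _
  by_cases hxx : x = x'
  · simp [hxx]
  · rw [if_pos hxx, if_pos hxx]
    have h1 := h (x + b) (x' + b) (by omega)
    rw [hh_shift] at h1
    have h2 : 0 ≤ Real.exp (κ * k * hh y x x') - 1 := by
      have := Real.one_le_exp (mul_nonneg (mul_nonneg hκ.le (Nat.cast_nonneg k)) (hh_nonneg y x x'))
      linarith
    have h3 := exp_mul_ineq (a := κ * k * hh y x x') (b := κ * hh y x x')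
      (mul_nonneg hκ.le (hh_nonneg _ _ _))
    have h4 : κ * k * hh y x x' + κ * hh y x x' = κ * ((k + 1 : ℕ) : ℝ) * hh y x x' := by
      push_cast; ring
    rw [h4] at h3
    calc (Real.exp (κ * k * hh y x x') - 1) * _ ≤ (Real.exp (κ * k * hh y x x') - 1) *
        (K * (L * (WW X y) ^ 2 * Real.exp (κ * hh y x x'))) := mul_le_mul_of_nonneg_left h1 h2
      _ = K * (L * (WW X y) ^ 2) * ((Real.exp (κ * k * hh y x x') - 1) *
        Real.exp (κ * hh y x x')) := by ring
      _ ≤ _ := mul_le_mul_of_nonneg_left h3 (by positivity)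

open Classical in
/-- Markov for the averaged pair sums -/
theorem markov_pair (κ K : ℝ) (hκ : 0 < κ) (hK : 0 < K) (X y L b k : ℕ) (G : ℕ → Prop)
    (hG : ∀ n, G n → rough X n)
    (h : ∀ a a' : ℕ, a ≠ a' →
      (((range L).filter (fun l => rough X (a + primorial y * l) ∧
        rough X (a' + primorial y * l))).card : ℝ) ≤
        K * (L * (WW X y) ^ 2 * Real.exp (κ * hh y a a'))) (B : Finset ℕ)
    (ε ε' c η : ℝ) (hε' : 0 < ε') (hc : 0 < c) (hB : 0 < (B.card : ℝ)) (hW : 0 < WW X y)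
    (hpair : Pair y (κ * ((k + 1 : ℕ) : ℝ)) B ≤ ε * (B.card : ℝ) ^ 2)
    (hεη : K * ε ≤ η * (ε' * c ^ 2)) :
    (((range L).filter (fun l => ε' * (c * (WW X y * B.card)) ^ 2 <
      Pair y (κ * k) (B.filter (fun x => G (x + b + primorial y * l))))).card : ℝ) ≤ η * L := by
  have h1 := pair_avg' κ K hκ X y L b k G hG h hK.le B
  set W := WW X y
  set n : ℝ := (B.card : ℝ)
  set A := (range L).filter (fun l => ε' * (c * (W * n)) ^ 2 <
      Pair y (κ * k) (B.filter (fun x => G (x + b + primorial y * l)))) with hA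
  have h2 : (A.card : ℝ) * (ε' * (c * (W * n)) ^ 2) ≤
      K * (L * W ^ 2) * Pair y (κ * ((k + 1 : ℕ) : ℝ)) B := by
    refine le_trans ?_ h1
    calc (A.card : ℝ) * (ε' * (c * (W * n)) ^ 2) = ∑ _l ∈ A, (ε' * (c * (W * n)) ^ 2) := by
          rw [sum_const, nsmul_eq_mul]
      _ ≤ ∑ l ∈ A, Pair y (κ * k) (B.filter (fun x => G (x + b + primorial y * l))) := by
          apply sum_le_sum
          intro l hl
          rw [hA, mem_filter] at hl
          exact hl.2.le
      _ ≤ _ := by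
          apply sum_le_sum_of_subset_of_nonneg (filter_subset _ _)
          intro l _ _
          exact Pair_nonneg _ _ (by positivity) _
  have h3 : K * (L * W ^ 2) * Pair y (κ * ((k + 1 : ℕ) : ℝ)) B ≤
      (η * L) * (ε' * (c * (W * n)) ^ 2) := by
    calc K * (L * W ^ 2) * Pair y (κ * ((k + 1 : ℕ) : ℝ)) B ≤ K * (L * W ^ 2) * (ε * n ^ 2) :=
          mul_le_mul_of_nonneg_left hpair (by positivity)
      _ = (K * ε) * (L * W ^ 2 * n ^ 2) := by ring
      _ ≤ (η * (ε' * c ^ 2)) * (L * W ^ 2 * n ^ 2) :=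
          mul_le_mul_of_nonneg_right hεη (by positivity)
      _ = _ := by ring
  exact le_of_mul_le_mul_right (h2.trans h3) (by positivity)

/-- the event: `I` has `j` elements, many `x ∈ B` have all `x + b_i + Q l_i` good and, for `i ∈ I`, prime -/
def Succ (X y k j : ℕ) (B : Finset ℕ) (t : ℝ) (b l : Fin k → ℕ) : Prop :=
  ∃ I : Finset (Fin k), I.card = j ∧ ∃ B' ⊆ B, t ≤ (B'.card : ℝ) ∧ ∀ x ∈ B',
    (∀ i, good X (x + b i + primorial y * l i)) ∧
    ∀ i ∈ I, bigp X (x + b i + primorial y * l i)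

/-- the complementary event -/
def Fail (X y k j : ℕ) (B : Finset ℕ) (t : ℝ) (b l : Fin k → ℕ) : Prop :=
  ¬ Succ X y k j B t b l

theorem Succ.cons_good {X y k j : ℕ} {B : Finset ℕ} {t : ℝ} {b : Fin (k + 1) → ℕ}
    {l0 : ℕ} {l : Fin k → ℕ} {B1 : Finset ℕ} (hB1 : B1 ⊆ B)
    (hg : ∀ x ∈ B1, good X (x + b 0 + primorial y * l0))
    (h : Succ X y k j B1 t (fun i => b i.succ) l) :
    Succ X y (k + 1) j B t b (Fin.cons l0 l) := by
  obtain ⟨I, hI, B', hB', ht, hx⟩ := h
  refine ⟨I.map (Fin.succEmb k), by rw [card_map, hI], B', hB'.trans hB1, ht, ?_⟩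
  intro x hxB
  obtain ⟨h1, h2⟩ := hx x hxB
  refine ⟨?_, ?_⟩
  · rw [Fin.forall_fin_succ]
    simp only [Fin.cons_zero, Fin.cons_succ]
    exact ⟨hg x (hB' hxB), h1⟩
  · intro i hi
    rw [mem_map] at hi
    obtain ⟨i', hi', rfl⟩ := hi
    simp only [Fin.coe_succEmb, Fin.cons_succ]
    exact h2 i' hi'

theorem Succ.cons_prime {X y k j : ℕ} {B : Finset ℕ} {t : ℝ} {b : Fin (k + 1) → ℕ}
    {l0 : ℕ} {l : Fin k → ℕ} {B1 : Finset ℕ} (hB1 : B1 ⊆ B)
    (hg : ∀ x ∈ B1, bigp X (x + b 0 + primorial y * l0))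
    (h : Succ X y k j B1 t (fun i => b i.succ) l) :
    Succ X y (k + 1) (j + 1) B t b (Fin.cons l0 l) := by
  classical
  obtain ⟨I, hI, B', hB', ht, hx⟩ := h
  refine ⟨insert 0 (I.map (Fin.succEmb k)), ?_, B', hB'.trans hB1, ht, ?_⟩
  · rw [card_insert_of_notMem, card_map, hI]
    intro h0
    rw [mem_map] at h0
    obtain ⟨i, _, hi⟩ := h0
    exact Fin.succ_ne_zero i hi
  · intro x hxB
    obtain ⟨h1, h2⟩ := hx x hxB
    refine ⟨?_, ?_⟩
    · rw [Fin.forall_fin_succ]
      simp only [Fin.cons_zero, Fin.cons_succ]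
      exact ⟨(hg x (hB' hxB)).good, h1⟩
    · intro i hi
      rw [mem_insert, mem_map] at hi
      rcases hi with rfl | ⟨i', hi', rfl⟩
      · simp only [Fin.cons_zero]
        exact hg x (hB' hxB)
      · simp only [Fin.coe_succEmb, Fin.cons_succ]
        exact h2 i' hi'

theorem Succ.mono {X y k j : ℕ} {B : Finset ℕ} {t t' : ℝ} {b l : Fin k → ℕ} (h : t' ≤ t)
    (hs : Succ X y k j B t b l) : Succ X y k j B t' b l := by
  obtain ⟨I, hI, B', hB', ht, hx⟩ := hs
  exact ⟨I, hI, B', hB', h.trans ht, hx⟩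

end Pool.Agent.H75.AP
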