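import Pool.Agent.H75.AP.Iter2

/-!
# Module ITER3 (helper75): the induction over the coordinates
-/

namespace Pool.Agent.H75.AP

open Finset

open Classical in
theorem iter2 : ∃ κ δ : ℝ, 0 < κ ∧ 0 < δ ∧ δ ≤ 1 ∧ ∀ k : ℕ, ∀ η : ℝ, 0 < η →
    ∃ ε : ℝ, 0 < ε ∧ ∃ y0 : ℕ, 2 ≤ y0 ∧
    ∀ y : ℕ, y0 ≤ y → ∃ C c : ℝ, 0 < C ∧ 0 < c ∧ ∃ X0 : ℕ, ∀ X : ℕ, X0 ≤ X →
    ∀ (B : Finset ℕ) (r L : ℕ) (b : Fin k → ℕ),
      (∀ x ∈ B, x ≤ X ∧ 1 ≤ x ∧ x ≡ r [MOD primorial y]) →
      (∀ i, b i ≤ primorial y ∧ (r + b i).Coprime (primorial y)) →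
      X ≤ L * primorial y → L * primorial y ≤ X + primorial y →
      C * (Real.log X) ^ k ≤ (B.card : ℝ) →
      Pair y (κ * k) B ≤ ε * (B.card : ℝ) ^ 2 → ∀ j : ℕ,
      (((Fintype.piFinset (fun _ : Fin k => range L)).filter (fun l : Fin k → ℕ =>
        Fail X y k j B (c * B.card / (Real.log X) ^ k) b l)).card : ℝ) ≤
          (η + bt δ k j) * (L : ℝ) ^ k := by
  obtain ⟨κ, K, c, δ0, cp, hκ, hK, hc, hδ0, hδ01, hcp, y1, hy1, H⟩ := core2
  set δ := δ0 / 2 with hδ
  have hδpos : 0 < δ := by positivity
  have hδ1 : δ ≤ 1 := by rw [hδ]; linarith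
  refine ⟨κ, δ, hκ, hδpos, hδ1, ?_⟩
  intro k
  induction k with
  | zero =>
    intro η hη
    refine ⟨1, one_pos, 2, le_rfl, ?_⟩
    intro y _
    refine ⟨1, 1, one_pos, one_pos, 0, ?_⟩
    intro X _ B r L b _ _ _ _ hn _ j
    rw [pow_zero, mul_one] at hn
    rcases j with _ | j
    · rw [filter_false_of_mem]
      · simp only [card_empty, Nat.cast_zero, pow_zero, mul_one, bt_zero, add_zero]
        exact hη.le
      · intro l _
        unfold Fail
        rw [not_not]
        refine ⟨∅, card_empty, B, Subset.refl _, ?_, ?_⟩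
        · rw [pow_zero, div_one, one_mul]
        · intro x _
          exact ⟨fun i => i.elim0, fun i => i.elim0⟩
    · have hL1 : (L : ℝ) ^ 0 = 1 := pow_zero _
      rw [bt_zero_succ, hL1, mul_one]
      have h1 := card_filter_le (Fintype.piFinset (fun _ : Fin 0 => range L))
        (fun l : Fin 0 → ℕ => Fail X y 0 (j + 1) B (1 * B.card / (Real.log X) ^ 0) b l)
      rw [Fintype.card_piFinset] at h1
      simp only [card_range, prod_const, card_univ, Fintype.card_fin, pow_zero] at h1
      have h2 : (((Fintype.piFinset (fun _ : Fin 0 => range L)).filter (fun l : Fin 0 → ℕ =>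
        Fail X y 0 (j + 1) B (1 * B.card / (Real.log X) ^ 0) b l)).card : ℝ) ≤ 1 := by
        simp only [pow_zero]
        exact_mod_cast h1
      linarith
  | succ k ih =>
    intro η hη
    obtain ⟨ε', hε', y2, hy2, IH⟩ := ih (η / 2) (by positivity)
    set η1 := min (η / 8) (δ0 / 2) with hη1
    have hη1pos : 0 < η1 := lt_min (by positivity) (by positivity)
    set ε := min 1 (min (η / (32 * K)) (min (η1 * (ε' * (1 / 2) ^ 2) / K) (η1 * (ε' * cp ^ 2) / K)))
      with hε
    have hεpos : 0 < ε := by
      rw [hε]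
      refine lt_min one_pos (lt_min (by positivity) (lt_min (by positivity) (by positivity)))
    have hε1 : ε ≤ 1 := min_le_left _ _
    have hε2 : ε ≤ η / (32 * K) := (min_le_right _ _).trans (min_le_left _ _)
    have hε3 : K * ε ≤ η1 * (ε' * (1 / 2) ^ 2) := by
      have : ε ≤ η1 * (ε' * (1 / 2) ^ 2) / K :=
        (min_le_right _ _).trans ((min_le_right _ _).trans (min_le_left _ _))
      rw [le_div_iff₀ hK] at this
      linarith
    have hε4 : K * ε ≤ η1 * (ε' * cp ^ 2) := by
      have : ε ≤ η1 * (ε' * cp ^ 2) / K :=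
        (min_le_right _ _).trans ((min_le_right _ _).trans (min_le_right _ _))
      rw [le_div_iff₀ hK] at this
      linarith
    refine ⟨ε, hεpos, max (max y1 y2) ⌈32 * K / η⌉₊, le_trans hy1
      (le_trans (le_max_left _ _) (le_max_left _ _)), ?_⟩
    intro y hy
    have hyy1 : y1 ≤ y := le_trans (le_trans (le_max_left _ _) (le_max_left _ _)) hy
    have hyy2 : y2 ≤ y := le_trans (le_trans (le_max_right _ _) (le_max_left _ _)) hy
    have hyK : 32 * K / η ≤ (y : ℝ) :=
      (Nat.le_ceil _).trans (by exact_mod_cast (le_max_right _ _).trans hy)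
    have hy0 : (0 : ℝ) < y := lt_of_lt_of_le (by positivity) hyK
    obtain ⟨C1, hC1, X1, HX⟩ := H y hyy1
    obtain ⟨C', c', hC', hc', X2, IHX⟩ := IH y hyy2
    set cm := min cp (1 / 2) with hcm
    have hcmpos : 0 < cm := lt_min hcp (by norm_num)
    refine ⟨max (max (32 * K / η) (1 / c)) (C' / (c * cm)), c' * (c * cm),
      lt_max_of_lt_left (lt_max_of_lt_left (by positivity)),
      by positivity, max (max X1 X2) 3, ?_⟩
    intro X hX B r L b hB hb hL hL2 hn hpair j
    have hX1 : X1 ≤ X := le_trans (le_trans (le_max_left _ _) (le_max_left _ _)) hX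
    have hX2 : X2 ≤ X := le_trans (le_trans (le_max_right _ _) (le_max_left _ _)) hX
    have hX3 : 3 ≤ X := le_trans (le_max_right _ _) hX
    obtain ⟨hWlo, hWhi, ha, hbb, hprime⟩ := HX X hX1
    set W := WW X y with hW
    set Q := primorial y with hQ
    set n : ℝ := (B.card : ℝ) with hnn
    have hlog : 1 ≤ Real.log X := by
      rw [Real.le_log_iff_exp_le (by exact_mod_cast (by omega : 0 < X))]
      have : (3 : ℝ) ≤ X := by exact_mod_cast hX3
      linarith [Real.exp_one_lt_three]
    have hlog0 : 0 < Real.log X := by linarith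
    have hWpos : 0 < W := lt_of_lt_of_le (by positivity) hWlo
    have hlogk : 0 < (Real.log X) ^ k := by positivity
    have hlogk1 : 1 ≤ (Real.log X) ^ k := one_le_pow₀ hlog
    have hn1 : 32 * K / η * (Real.log X) ^ (k + 1) ≤ n :=
      (mul_le_mul_of_nonneg_right ((le_max_left _ _).trans (le_max_left _ _))
        (by positivity)).trans hn
    have hn3 : 1 / c * (Real.log X) ^ (k + 1) ≤ n :=
      (mul_le_mul_of_nonneg_right ((le_max_right _ _).trans (le_max_left _ _))
        (by positivity)).trans hn
    have hn2 : C' / (c * cm) * (Real.log X) ^ (k + 1) ≤ n :=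
      (mul_le_mul_of_nonneg_right (le_max_right _ _) (by positivity)).trans hn
    have hnpos : 0 < n := lt_of_lt_of_le (by positivity) hn1
    have hBne : B.Nonempty := by
      rw [← card_pos]
      rw [hnn] at hnpos
      exact_mod_cast hnpos
    have hL0 : (0 : ℝ) ≤ L := by positivity
    have hpairκ : Pair y κ B ≤ Pair y (κ * ((k + 1 : ℕ) : ℝ)) B := by
      apply Pair_mono
      push_cast
      have : 0 ≤ κ * k := by positivity
      nlinarith
    have hnW : 1 ≤ B.card * W := by
      have h1 : 1 / c * (Real.log X) ^ (k + 1) * (c / Real.log X) ≤ n * W :=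
        mul_le_mul hn3 hWlo (by positivity) hnpos.le
      have h2 : 1 / c * (Real.log X) ^ (k + 1) * (c / Real.log X) = (Real.log X) ^ k := by
        rw [pow_succ]; field_simp
      rw [h2] at h1
      exact hlogk1.trans h1
    -- the sets
    set B1 : ℕ → Finset ℕ := fun l0 => B.filter (fun x => good X (x + b 0 + Q * l0)) with hB1
    set B2 : ℕ → Finset ℕ := fun l0 => B.filter (fun x => bigp X (x + b 0 + Q * l0)) with hB2
    set A1 := (range L).filter (fun l0 => ((B1 l0).card : ℝ) < W / 2 * n) with hA1
    set A2 := (range L).filter (fun l0 => ε' * (1 / 2 * (W * n)) ^ 2 < Pair y (κ * k) (B1 l0))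
      with hA2
    set A3 := (range L).filter (fun l0 => ε' * (cp * (W * n)) ^ 2 < Pair y (κ * k) (B2 l0))
      with hA3
    set Pr := (range L).filter (fun l0 => cp * (W * n) ≤ ((B2 l0).card : ℝ)) with hPr
    have hA1b : (A1.card : ℝ) ≤ η / 8 * L := by
      have h1 := ha B r (b 0) L hBne hB (hb 0).1 (hb 0).2 hL hL2
      refine h1.trans ?_
      have h2 : K * (1 / y + Pair y κ B / n ^ 2 + Real.log X / n) ≤ η / 8 := by
        have a1 : K * (1 / y) ≤ η / 32 := by
          rw [mul_one_div, div_le_iff₀ hy0]
          rw [div_le_iff₀ hη] at hyK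
          linarith
        have a2 : K * (Pair y κ B / n ^ 2) ≤ η / 32 := by
          have b2 : Pair y κ B / n ^ 2 ≤ ε := by
            rw [div_le_iff₀ (by positivity)]
            exact hpairκ.trans hpair
          calc K * (Pair y κ B / n ^ 2) ≤ K * (η / (32 * K)) :=
                mul_le_mul_of_nonneg_left (b2.trans hε2) hK.le
            _ = η / 32 := by field_simp
        have a3 : K * (Real.log X / n) ≤ η / 32 := by
          have b1 : Real.log X ≤ (Real.log X) ^ (k + 1) := by
            calc Real.log X = (Real.log X) ^ 1 := (pow_one _).symm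
              _ ≤ _ := pow_le_pow_right₀ hlog (by omega)
          rw [← mul_div_assoc, div_le_iff₀ hnpos]
          have b2 : 32 * K / η * Real.log X ≤ n :=
            (mul_le_mul_of_nonneg_left b1 (by positivity)).trans hn1
          have b3 : η / 32 * (32 * K / η * Real.log X) ≤ η / 32 * n :=
            mul_le_mul_of_nonneg_left b2 (by positivity)
          have b4 : η / 32 * (32 * K / η * Real.log X) = K * Real.log X := by field_simp
          linarith
        have : K * (1 / y + Pair y κ B / n ^ 2 + Real.log X / n) =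
          K * (1 / y) + K * (Pair y κ B / n ^ 2) + K * (Real.log X / n) := by ring
        linarith
      calc L * (K * (1 / y + Pair y κ B / n ^ 2 + Real.log X / n)) ≤ L * (η / 8) :=
            mul_le_mul_of_nonneg_left h2 hL0
        _ = η / 8 * L := by ring
    have hA2b : (A2.card : ℝ) ≤ η / 8 * L := by
      have h1 := markov_pair κ K hκ hK X y L (b 0) k (good X) (fun n hn => hn.1)
        (fun a a' haa => hbb a a' L haa hL) B ε ε' (1 / 2) η1 hε' (by norm_num) hnpos hWpos hpair
        hε3
      refine h1.trans ?_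
      exact mul_le_mul_of_nonneg_right (min_le_left _ _) hL0
    have hA3b : (A3.card : ℝ) ≤ δ0 / 2 * L := by
      have h1 := markov_pair κ K hκ hK X y L (b 0) k (bigp X) (fun n hn => hn.rough)
        (fun a a' haa => hbb a a' L haa hL) B ε ε' cp η1 hε' hcp hnpos hWpos hpair
        hε4
      refine h1.trans ?_
      exact mul_le_mul_of_nonneg_right (min_le_right _ _) hL0
    have hPrb : δ0 * L ≤ (Pr.card : ℝ) := by
      apply hprime B r (b 0) L hBne hB (hb 0).1 (hb 0).2 hL hL2 hnW
      refine (hpairκ.trans hpair).trans ?_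
      have : 0 ≤ n ^ 2 := by positivity
      nlinarith
    have hGb : δ * L ≤ ((Pr \ A3).card : ℝ) := by
      have h1 : Pr.card ≤ (Pr \ A3).card + A3.card := by
        have := card_sdiff_add_card Pr A3
        have h2 : Pr.card ≤ (Pr ∪ A3).card := card_le_card subset_union_left
        omega
      have h2 : (Pr.card : ℝ) ≤ ((Pr \ A3).card : ℝ) + A3.card := by exact_mod_cast h1
      rw [hδ]
      linarith
    -- the number of failures for a fixed first coordinate
    set P : (Fin (k + 1) → ℕ) → Prop := fun l =>
      Fail X y (k + 1) j B (c' * (c * cm) * n / (Real.log X) ^ (k + 1)) b l with hP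
    have hcount := card_cons_le k L P
    refine hcount.trans ?_
    have hW2 : c * cm / Real.log X ≤ cm * W := by
      have := mul_le_mul_of_nonneg_left hWlo hcmpos.le
      calc c * cm / Real.log X = cm * (c / Real.log X) := by ring
        _ ≤ _ := this
    -- general step
    have hgen : ∀ B3 : Finset ℕ, B3 ⊆ B → cm * (W * n) ≤ (B3.card : ℝ) →
        C' * (Real.log X) ^ k ≤ (B3.card : ℝ) ∧
        c' * (c * cm) * n / (Real.log X) ^ (k + 1) ≤ c' * B3.card / (Real.log X) ^ k := by
      intro B3 _ h3
      have h4 : c * cm / Real.log X * n ≤ (B3.card : ℝ) := by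
        refine le_trans ?_ h3
        calc c * cm / Real.log X * n ≤ cm * W * n := mul_le_mul_of_nonneg_right hW2 hnpos.le
          _ = _ := by ring
      constructor
      · refine le_trans ?_ h4
        have e1 : c * cm / Real.log X * (C' / (c * cm) * (Real.log X) ^ (k + 1)) =
          C' * (Real.log X) ^ k := by
          rw [pow_succ]; field_simp
        rw [← e1]
        exact mul_le_mul_of_nonneg_left hn2 (by positivity)
      · have e2 : c' * (c * cm) * n / (Real.log X) ^ (k + 1) =
          c' * (c * cm / Real.log X * n) / (Real.log X) ^ k := by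
          rw [pow_succ]; field_simp
        rw [e2]
        apply div_le_div_of_nonneg_right _ hlogk.le
        exact mul_le_mul_of_nonneg_left h4 hc'.le
    have hLk : 0 ≤ (L : ℝ) ^ k := by positivity
    have htriv : ∀ l0, (((Fintype.piFinset (fun _ : Fin k => range L)).filter
        (fun l => P (Fin.cons l0 l))).card : ℝ) ≤ (L : ℝ) ^ k := by
      intro l0
      have := card_filter_le (Fintype.piFinset (fun _ : Fin k => range L))
        (fun l => P (Fin.cons l0 l))
      rw [Fintype.card_piFinset] at this
      simp only [card_range, prod_const, card_univ, Fintype.card_fin] at this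
      exact_mod_cast this
    have hgood : ∀ l0 ∈ range L, l0 ∉ A1 ∪ A2 →
        (((Fintype.piFinset (fun _ : Fin k => range L)).filter
        (fun l => P (Fin.cons l0 l))).card : ℝ) ≤ (η / 2 + bt δ k j) * (L : ℝ) ^ k := by
      intro l0 hl0 hmem
      rw [mem_union, not_or, hA1, hA2, mem_filter, mem_filter, not_and, not_and, not_lt,
        not_lt] at hmem
      have h1 := hmem.1 hl0
      have h2 := hmem.2 hl0
      have h3 : cm * (W * n) ≤ ((B1 l0).card : ℝ) := by
        refine le_trans ?_ h1
        have : cm * (W * n) ≤ 1 / 2 * (W * n) :=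
          mul_le_mul_of_nonneg_right (min_le_right _ _) (by positivity)
        linarith
      obtain ⟨h4, h5⟩ := hgen (B1 l0) (filter_subset _ _) h3
      have h6 : Pair y (κ * k) (B1 l0) ≤ ε' * ((B1 l0).card : ℝ) ^ 2 := by
        refine h2.trans ?_
        apply mul_le_mul_of_nonneg_left _ hε'.le
        apply pow_le_pow_left₀ (by positivity)
        linarith
      have h7 := IHX X hX2 (B1 l0) r L (fun i => b i.succ)
        (fun x hx => hB x (mem_filter.1 hx).1) (fun i => hb i.succ) hL hL2 h4 h6 j
      refine le_trans ?_ h7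
      have h8 : (Fintype.piFinset (fun _ : Fin k => range L)).filter
          (fun l => P (Fin.cons l0 l)) ⊆
        (Fintype.piFinset (fun _ : Fin k => range L)).filter (fun l : Fin k → ℕ =>
          Fail X y k j (B1 l0) (c' * (B1 l0).card / (Real.log X) ^ k) (fun i => b i.succ) l) := by
        intro l hl
        rw [mem_filter] at hl ⊢
        refine ⟨hl.1, fun hs => hl.2 ?_⟩
        exact (Succ.cons_good (filter_subset _ _) (fun x hx => (mem_filter.1 hx).2) hs).mono h5
      exact_mod_cast card_le_card h8
    have hAA : ((A1 ∪ A2).card : ℝ) ≤ η / 4 * L := by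
      have h1 : ((A1 ∪ A2).card : ℝ) ≤ (A1.card : ℝ) + A2.card := by
        exact_mod_cast card_union_le _ _
      linarith
    have hAAsub : A1 ∪ A2 ⊆ range L :=
      union_subset (filter_subset _ _) (filter_subset _ _)
    have hbt0 : 0 ≤ bt δ k j := bt_nonneg δ hδpos.le hδ1 k j
    rcases j with _ | j
    · -- no primes required
      have hstep : ∀ l0 ∈ range L, (((Fintype.piFinset (fun _ : Fin k => range L)).filter
          (fun l => P (Fin.cons l0 l))).card : ℝ) ≤
          (if l0 ∈ A1 ∪ A2 then (L : ℝ) ^ k else 0) + η / 2 * (L : ℝ) ^ k := by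
        intro l0 hl0
        by_cases hmem : l0 ∈ A1 ∪ A2
        · rw [if_pos hmem]
          have h1 := htriv l0
          have h2 : 0 ≤ η / 2 * (L : ℝ) ^ k := by positivity
          linarith
        · rw [if_neg hmem, zero_add]
          have := hgood l0 hl0 hmem
          rw [bt_zero, add_zero] at this
          exact this
      refine (sum_le_sum hstep).trans ?_
      rw [sum_add_distrib, sum_ite_mem, sum_const, sum_const, card_range, nsmul_eq_mul,
        nsmul_eq_mul, inter_eq_right.2 hAAsub, bt_zero, add_zero]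
      calc ((A1 ∪ A2).card : ℝ) * (L : ℝ) ^ k + L * (η / 2 * (L : ℝ) ^ k) ≤
          (η / 4 * L) * (L : ℝ) ^ k + L * (η / 2 * (L : ℝ) ^ k) := by
            have := mul_le_mul_of_nonneg_right hAA hLk
            linarith
        _ ≤ η * (L : ℝ) ^ (k + 1) := by
            rw [pow_succ]
            have : 0 ≤ (L : ℝ) ^ k * L := by positivity
            nlinarith
    · -- primes required in `j + 1` coordinates
      set G := Pr \ A3 with hG
      have hprimeStep : ∀ l0 ∈ G, (((Fintype.piFinset (fun _ : Fin k => range L)).filter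
          (fun l => P (Fin.cons l0 l))).card : ℝ) ≤ (η / 2 + bt δ k j) * (L : ℝ) ^ k := by
        intro l0 hl0
        rw [hG, mem_sdiff, hPr, hA3, mem_filter, mem_filter, not_and, not_lt] at hl0
        have h1 := hl0.1.2
        have h2 := hl0.2 hl0.1.1
        have h3 : cm * (W * n) ≤ ((B2 l0).card : ℝ) := by
          refine le_trans ?_ h1
          exact mul_le_mul_of_nonneg_right (min_le_left _ _) (by positivity)
        obtain ⟨h4, h5⟩ := hgen (B2 l0) (filter_subset _ _) h3
        have h6 : Pair y (κ * k) (B2 l0) ≤ ε' * ((B2 l0).card : ℝ) ^ 2 := by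
          refine h2.trans ?_
          apply mul_le_mul_of_nonneg_left _ hε'.le
          exact pow_le_pow_left₀ (by positivity) h1 2
        have h7 := IHX X hX2 (B2 l0) r L (fun i => b i.succ)
          (fun x hx => hB x (mem_filter.1 hx).1) (fun i => hb i.succ) hL hL2 h4 h6 j
        refine le_trans ?_ h7
        have h8 : (Fintype.piFinset (fun _ : Fin k => range L)).filter
            (fun l => P (Fin.cons l0 l)) ⊆
          (Fintype.piFinset (fun _ : Fin k => range L)).filter (fun l : Fin k → ℕ =>
            Fail X y k j (B2 l0) (c' * (B2 l0).card / (Real.log X) ^ k) (fun i => b i.succ) l) := by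
          intro l hl
          rw [mem_filter] at hl ⊢
          refine ⟨hl.1, fun hs => hl.2 ?_⟩
          exact (Succ.cons_prime (filter_subset _ _) (fun x hx => (mem_filter.1 hx).2) hs).mono h5
        exact_mod_cast card_le_card h8
      have hbtm : bt δ k j ≤ bt δ k (j + 1) := bt_mono δ hδpos.le hδ1 k j
      have hstep : ∀ l0 ∈ range L, (((Fintype.piFinset (fun _ : Fin k => range L)).filter
          (fun l => P (Fin.cons l0 l))).card : ℝ) ≤
          (if l0 ∈ A1 ∪ A2 then (L : ℝ) ^ k else 0) + (η / 2 + bt δ k (j + 1)) * (L : ℝ) ^ k -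
          (if l0 ∈ G then (bt δ k (j + 1) - bt δ k j) * (L : ℝ) ^ k else 0) := by
        intro l0 hl0
        by_cases hmG : l0 ∈ G
        · rw [if_pos hmG]
          have h1 := hprimeStep l0 hmG
          have h2 : 0 ≤ (if l0 ∈ A1 ∪ A2 then (L : ℝ) ^ k else 0) := by
            split_ifs
            · exact hLk
            · exact le_rfl
          have h3 : (η / 2 + bt δ k (j + 1)) * (L : ℝ) ^ k -
            (bt δ k (j + 1) - bt δ k j) * (L : ℝ) ^ k = (η / 2 + bt δ k j) * (L : ℝ) ^ k := by ring
          linarith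
        · rw [if_neg hmG, sub_zero]
          by_cases hmem : l0 ∈ A1 ∪ A2
          · rw [if_pos hmem]
            have h1 := htriv l0
            have h2 : 0 ≤ (η / 2 + bt δ k (j + 1)) * (L : ℝ) ^ k := by positivity
            linarith
          · rw [if_neg hmem, zero_add]
            exact hgood l0 hl0 hmem
      refine (sum_le_sum hstep).trans ?_
      have hGsub : G ⊆ range L := (sdiff_subset).trans (filter_subset _ _)
      rw [sum_sub_distrib, sum_add_distrib, sum_ite_mem, sum_ite_mem, sum_const, sum_const,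
        sum_const, card_range, nsmul_eq_mul, nsmul_eq_mul, nsmul_eq_mul,
        inter_eq_right.2 hAAsub, inter_eq_right.2 hGsub, bt_rec]
      have h1 := mul_le_mul_of_nonneg_right hAA hLk
      have h2 : δ * L * ((bt δ k (j + 1) - bt δ k j) * (L : ℝ) ^ k) ≤
          (G.card : ℝ) * ((bt δ k (j + 1) - bt δ k j) * (L : ℝ) ^ k) :=
        mul_le_mul_of_nonneg_right hGb (mul_nonneg (by linarith) hLk)
      have h3 : 0 ≤ η * ((L : ℝ) ^ k * L) := by positivity
      rw [pow_succ]
      nlinarith

end Pool.Agent.H75.AP
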