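import Pool.Agent.H75.AP.Alt

/-!
# Module MODELA (helpwanted): the probabilistic model of one block

`prb T D = ∏_{p ∈ D} 1/p * ∏_{p ∈ T \ D} (1 - 1/p)`, `∑_{D ⊆ T} prb T D = 1`, and for `R ⊆ T`:
`∑_{D ⊆ T, R ⊆ D} prb T D = ∏_{p ∈ R} 1/p` (write `D = R ∪ E`, `E ⊆ T \ R`, and
`∑_{E ⊆ T \ R} ∏_E 1/p ∏_{(T\R)\E} (1 - 1/p) = ∏_{T \ R} (1/p + (1 - 1/p)) = 1`: `Finset.prod_add`).

* `mv_model`, `pv_model`: exchange the order of summation (`S ⊆ D`; `S ∪ S' ⊆ D`; for `H = T` the condition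
  `S ∩ S' ⊆ T` in `pv` is automatic).
* For `D` with `m` elements: `∑_{S ⊆ D} fU b S = 1` if `m = 0`, `= C(m-1,b)` if `m ≥ 1` (`b` even), `∑_{S ⊆ D} fC s S = C(m,s)`
  (same computation as `ev_fU`, `ev_fC`; one can use these with `n = 0`: `ev D f 0 = ∑_{S ⊆ D} f S`).
* `mv_fU_ge`: the model value is `≥ 1[D = ∅]` and `prb T ∅ = vv T`.
* `mv_fC_nonneg`, `mv_fC_le`: `∑_{S ⊆ T, |S| = s} ∏_S 1/p ≤ (lam T)^s / s!` (elementary symmetric function; Mathlib may have
  `Finset.prod_powersetCard..` / `Finset.esymm`; induction on `T`: `e_s(T ∪ {p}) = e_s(T) + x e_{s-1}(T)` and `(λ+x)^s ≥ λ^s + s x λ^(s-1)`).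
* `pv_fU_fU_le` etc.: for `m ≥ 1`: `C(m-1,b)^2 ≤ C(m,b+1)^2`?? not needed; use: `C(m-1,b) ≤ 2^m`, `C(m,b+1) ≤ 2^m`, both vanish unless
  `m ≥ b+1`, and then `1 ≤ 2^(m-b-1)`; so the products are `≤ 4^m 2^m / 2^(b+1) = 8^m / 2^(b+1)`. And
  `∑_D prb T D * 8^|D| = ∏_{p ∈ T} (8/p + 1 - 1/p) = ∏ (1 + 7/p) ≤ exp (7 lam T)`. For `fU, fU` the set `D = ∅` contributes `prb T ∅ = vv T`.
* the statements with `f0`: `pv T T (fU 0) (f0 ω) = mv T (f0 ω) = ∑ ω p / p` (only `S = ∅` in `fU 0`), and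
  `pv T T (f0 ω) (f0 ω) = ∑_{p,p'} ω p ω p' ∏_{ {p,p'} } 1/q ≤ (∑ 1/p)^2 + ∑ 1/p` (`p ≠ p'` / `p = p'`).

(The bounds `pv_*_le`, `mv_fC_le`, `mv_fU_le` are in the separate module MODELB, which uses the statements of this file.)
-/

namespace Pool.Agent.H75.AP

open Finset

private theorem ev_zero (D : Finset ℕ) (f : Finset ℕ → ℝ) : ev D f 0 = ∑ S ∈ D.powerset, f S := by
  unfold ev
  rw [filter_true_of_mem fun p _ => dvd_zero p]

/-- probability that the random set contains `R` -/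
private theorem prb_sup (T R : Finset ℕ) (hR : R ⊆ T) :
    ∑ D ∈ T.powerset, (if R ⊆ D then prb T D else 0) = ∏ p ∈ R, (1 / (p : ℝ)) := by
  have h1 := prod_add (fun p : ℕ => 1 / (p : ℝ)) (fun p : ℕ => if p ∈ R then (0 : ℝ) else 1 - 1 / (p : ℝ)) T
  have h2 : ∏ p ∈ T, (1 / (p : ℝ) + (if p ∈ R then (0 : ℝ) else 1 - 1 / (p : ℝ)))
      = ∏ p ∈ R, (1 / (p : ℝ)) := by
    rw [← prod_sdiff hR]
    have h3 : ∏ p ∈ T \ R, (1 / (p : ℝ) + (if p ∈ R then (0 : ℝ) else 1 - 1 / (p : ℝ))) = 1 := by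
      apply prod_eq_one
      intro p hp
      rw [if_neg (mem_sdiff.mp hp).2]
      ring
    rw [h3, one_mul]
    apply prod_congr rfl
    intro p hp
    rw [if_pos hp, add_zero]
  rw [← h2, h1]
  apply sum_congr rfl
  intro D hD
  rw [mem_powerset] at hD
  split_ifs with h
  · unfold prb
    congr 1
    apply prod_congr rfl
    intro p hp
    rw [if_neg fun hpR => (mem_sdiff.mp hp).2 (h hpR)]
  · rw [not_subset] at h
    obtain ⟨p, hpR, hpD⟩ := h
    have h3 : ∏ p ∈ T \ D, (if p ∈ R then (0 : ℝ) else 1 - 1 / (p : ℝ)) = 0 := by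
      apply prod_eq_zero (mem_sdiff.mpr ⟨hR hpR, hpD⟩)
      rw [if_pos hpR]
    rw [h3, mul_zero]

private theorem sum_prb (T : Finset ℕ) : ∑ D ∈ T.powerset, prb T D = 1 := by
  have h := prb_sup T ∅ (empty_subset T)
  simpa using h

theorem mv_model (T : Finset ℕ) (f : Finset ℕ → ℝ) :
    mv T f = ∑ D ∈ T.powerset, prb T D * ∑ S ∈ D.powerset, f S := by
  have h1 : ∀ D ∈ T.powerset, prb T D * ∑ S ∈ D.powerset, f S =
      ∑ S ∈ T.powerset, f S * (if S ⊆ D then prb T D else 0) := by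
    intro D hD
    rw [mem_powerset] at hD
    have h2 : D.powerset = T.powerset.filter (fun S => S ⊆ D) := by
      ext S
      rw [mem_powerset, mem_filter, mem_powerset]
      exact ⟨fun h => ⟨h.trans hD, h⟩, fun h => h.2⟩
    rw [h2, sum_filter, mul_sum]
    apply sum_congr rfl
    intro S _
    split_ifs <;> ring
  rw [sum_congr rfl h1, sum_comm]
  unfold mv
  apply sum_congr rfl
  intro S hS
  rw [← mul_sum, prb_sup T S (mem_powerset.mp hS)]

theorem pv_model (T : Finset ℕ) (f g : Finset ℕ → ℝ) :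
    pv T T f g = ∑ D ∈ T.powerset, prb T D * ((∑ S ∈ D.powerset, f S) * ∑ S ∈ D.powerset, g S) := by
  have h1 : ∀ D ∈ T.powerset, prb T D * ((∑ S ∈ D.powerset, f S) * ∑ S ∈ D.powerset, g S) =
      ∑ S ∈ T.powerset, ∑ S' ∈ T.powerset, f S * g S' * (if S ∪ S' ⊆ D then prb T D else 0) := by
    intro D hD
    rw [mem_powerset] at hD
    have h2 : D.powerset = T.powerset.filter (fun S => S ⊆ D) := by
      ext S
      rw [mem_powerset, mem_filter, mem_powerset]
      exact ⟨fun h => ⟨h.trans hD, h⟩, fun h => h.2⟩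
    rw [h2, sum_filter, sum_filter, sum_mul_sum, mul_sum]
    apply sum_congr rfl
    intro S _
    rw [mul_sum]
    apply sum_congr rfl
    intro S' _
    by_cases h3 : S ⊆ D
    · by_cases h4 : S' ⊆ D
      · rw [if_pos h3, if_pos h4, if_pos (union_subset h3 h4)]
        ring
      · rw [if_neg h4, if_neg fun h => h4 (subset_union_right.trans h)]
        ring
    · rw [if_neg h3, if_neg fun h => h3 (subset_union_left.trans h)]
      ring
  rw [sum_congr rfl h1, sum_comm]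
  unfold pv
  apply sum_congr rfl
  intro S hS
  rw [sum_comm]
  apply sum_congr rfl
  intro S' hS'
  rw [mem_powerset] at hS hS'
  rw [← mul_sum, prb_sup T (S ∪ S') (union_subset hS hS'), if_pos (inter_subset_left.trans hS)]

/-- `∑_{D ⊆ T} prb T D * 8^|D| ≤ exp (7 lam T)` -/
theorem prb_eight (T : Finset ℕ) (hT : ∀ p ∈ T, 2 ≤ p) :
    ∑ D ∈ T.powerset, prb T D * 8 ^ D.card ≤ Real.exp (7 * lam T) := by
  have h1 := prod_add (fun p : ℕ => 8 / (p : ℝ)) (fun p : ℕ => 1 - 1 / (p : ℝ)) T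
  have h2 : ∑ D ∈ T.powerset, prb T D * 8 ^ D.card = ∏ p ∈ T, (8 / (p : ℝ) + (1 - 1 / (p : ℝ))) := by
    rw [h1]
    apply sum_congr rfl
    intro D _
    unfold prb
    have h3 : ∏ p ∈ D, (8 / (p : ℝ)) = (∏ p ∈ D, (1 / (p : ℝ))) * 8 ^ D.card := by
      rw [← prod_const, ← prod_mul_distrib]
      apply prod_congr rfl
      intro p _
      ring
    rw [h3]
    ring
  rw [h2]
  unfold lam
  rw [mul_sum, Real.exp_sum]
  apply prod_le_prod
  · intro p hp
    have h4 : (2 : ℝ) ≤ p := by exact_mod_cast hT p hp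
    have h5 : 8 / (p : ℝ) + (1 - 1 / (p : ℝ)) = 1 + 7 / p := by ring
    rw [h5]
    positivity
  · intro p _
    have h5 : 8 / (p : ℝ) + (1 - 1 / (p : ℝ)) = 7 * (1 / (p : ℝ)) + 1 := by ring
    rw [h5]
    exact Real.add_one_le_exp _

theorem prb_nonneg (T D : Finset ℕ) : 0 ≤ prb T D := by
  unfold prb
  apply mul_nonneg
  · exact prod_nonneg fun p _ => by positivity
  · apply prod_nonneg
    intro p _
    rcases Nat.eq_zero_or_pos p with h | h
    · subst h
      simp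
    · have h1 : (1 : ℝ) ≤ p := by exact_mod_cast h
      have h2 : 1 / (p : ℝ) ≤ 1 := by
        rw [div_le_one (by linarith)]
        exact h1
      linarith

/-- value of the model sum for `fU` -/
theorem model_fU (D : Finset ℕ) (b : ℕ) (hb : Even b) : ∑ S ∈ D.powerset, fU b S =
    if D.card = 0 then 1 else (((D.card - 1).choose b : ℕ) : ℝ) := by
  have h := ev_fU D b 0 hb
  rw [ev_zero, filter_true_of_mem fun p _ => dvd_zero p] at h
  exact h

theorem model_fC (D : Finset ℕ) (s : ℕ) : ∑ S ∈ D.powerset, fC s S = ((D.card.choose s : ℕ) : ℝ) := by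
  have h := ev_fC D s 0
  rw [ev_zero, filter_true_of_mem fun p _ => dvd_zero p] at h
  exact h

/-- model values of the coefficient functions are nonnegative -/
theorem model_fU_nonneg (D : Finset ℕ) (b : ℕ) (hb : Even b) : 0 ≤ ∑ S ∈ D.powerset, fU b S := by
  rw [model_fU D b hb]
  split_ifs
  · norm_num
  · positivity

theorem mv_fU_ge (T : Finset ℕ) (b : ℕ) (hb : Even b) (hT : ∀ p ∈ T, 2 ≤ p) :
    vv T ≤ mv T (fU b) := by
  rw [mv_model]
  have h1 : vv T = prb T ∅ * ∑ S ∈ (∅ : Finset ℕ).powerset, fU b S := by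
    rw [model_fU ∅ b hb, card_empty, if_pos rfl, mul_one]
    unfold vv prb
    simp
  rw [h1]
  apply single_le_sum (f := fun D => prb T D * ∑ S ∈ D.powerset, fU b S)
    (fun D _ => mul_nonneg (prb_nonneg T D) (model_fU_nonneg D b hb)) (empty_mem_powerset T)

theorem mv_fU_zero (T : Finset ℕ) : mv T (fU 0) = 1 := by
  unfold mv
  rw [sum_eq_single ∅]
  · simp [fU]
  · intro S _ hS
    have h1 : ¬ S.card ≤ 0 := by
      have := card_pos.mpr (nonempty_iff_ne_empty.mpr hS)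
      omega
    unfold fU
    rw [if_neg h1, zero_mul]
  · intro h
    exact absurd (empty_mem_powerset T) h

theorem mv_fC_nonneg (T : Finset ℕ) (s : ℕ) : 0 ≤ mv T (fC s) := by
  unfold mv fC
  apply sum_nonneg
  intro S _
  apply mul_nonneg
  · split_ifs <;> norm_num
  · exact prod_nonneg fun p _ => by positivity

theorem mv_f0 (T : Finset ℕ) (ω : ℕ → ℝ) : mv T (f0 ω) = ∑ p ∈ T, ω p / p := by
  have h1 : mv T (f0 ω) = ∑ S ∈ powersetCard 1 T, (∑ p ∈ S, ω p) * ∏ p ∈ S, (1 / (p : ℝ)) := by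
    rw [powersetCard_eq_filter, sum_filter]
    unfold mv f0
    apply sum_congr rfl
    intro S _
    split_ifs
    · rfl
    · rw [zero_mul]
  rw [h1, powersetCard_one, sum_map]
  apply sum_congr rfl
  intro p _
  simp only [Function.Embedding.coeFn_mk, sum_singleton, prod_singleton]
  ring

theorem pv_nonneg (T : Finset ℕ) (f g : Finset ℕ → ℝ) (hT : ∀ p ∈ T, 2 ≤ p)
    (hf : ∀ D ∈ T.powerset, 0 ≤ ∑ S ∈ D.powerset, f S)
    (hg : ∀ D ∈ T.powerset, 0 ≤ ∑ S ∈ D.powerset, g S) : 0 ≤ pv T T f g := by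
  rw [pv_model]
  exact sum_nonneg fun D hD => mul_nonneg (prb_nonneg T D) (mul_nonneg (hf D hD) (hg D hD))

theorem model_fC_nonneg (D : Finset ℕ) (s : ℕ) : 0 ≤ ∑ S ∈ D.powerset, fC s S := by
  rw [model_fC]
  positivity

theorem model_f0_nonneg (D : Finset ℕ) (ω : ℕ → ℝ) (hω : ∀ p, 0 ≤ ω p) :
    0 ≤ ∑ S ∈ D.powerset, f0 ω S := by
  have h := ev_f0 D ω 0
  rw [ev_zero] at h
  rw [h]
  exact sum_nonneg fun p _ => hω p

theorem pv_top_one (T : Finset ℕ) : pv T T (fU 0) (fU 0) = 1 := by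
  rw [pv_model]
  have h1 : ∀ D : Finset ℕ, ∑ S ∈ D.powerset, fU 0 S = 1 := by
    intro D
    rw [model_fU D 0 (by decide)]
    simp
  simp only [h1, mul_one]
  exact sum_prb T

end Pool.Agent.H75.AP
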