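import Pool.Agent.H75.AP.MertensB
import Pool.Agent.H75.AP.Blocks

/-!
# Auxiliary estimates for the modules NUMA and NUMC
-/

namespace Pool.Agent.H75.AP

open Finset

namespace NumAux

lemma one_sub_ge {x : ℝ} (h0 : 0 ≤ x) (h1 : x ≤ 1 / 2) : Real.exp (-x - x ^ 2) ≤ 1 - x := by
  have hx : 0 < 1 - x := by linarith
  have h2 := Real.quadratic_le_exp_of_nonneg (x := x + x ^ 2) (by positivity)
  have h3 : 1 ≤ (1 + (x + x ^ 2) + (x + x ^ 2) ^ 2 / 2) * (1 - x) := by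
    have e : (1 + (x + x ^ 2) + (x + x ^ 2) ^ 2 / 2) * (1 - x) - 1 =
        x ^ 2 / 2 * (1 - x - x ^ 2 - x ^ 3) := by ring
    have h4 : x ^ 2 ≤ 1 / 4 := by nlinarith
    have h5 : x ^ 3 ≤ 1 / 8 := by nlinarith [pow_nonneg h0 2]
    have h6 : 0 ≤ x ^ 2 / 2 * (1 - x - x ^ 2 - x ^ 3) := by
      apply mul_nonneg (by positivity); linarith
    linarith
  have h4 : 1 ≤ Real.exp (x + x ^ 2) * (1 - x) :=
    h3.trans (mul_le_mul_of_nonneg_right h2 hx.le)
  have h5 : Real.exp (-x - x ^ 2) = (Real.exp (x + x ^ 2))⁻¹ := by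
    rw [← Real.exp_neg]; congr 1; ring
  rw [h5, inv_le_iff_one_le_mul₀ (Real.exp_pos _)]
  linarith

lemma sq_tail (y : ℕ) (hy : 1 ≤ y) (T : Finset ℕ) (hT : ∀ p ∈ T, y < p) :
    ∑ p ∈ T, 1 / (p : ℝ) ^ 2 ≤ 1 / (y : ℝ) := by
  have h1 : ∀ M : ℕ, y ≤ M →
      ∑ n ∈ Finset.Ioc y M, 1 / (n : ℝ) ^ 2 ≤ 1 / (y : ℝ) - 1 / (M : ℝ) := by
    intro M hM
    induction M, hM using Nat.le_induction with
    | base => simp
    | succ M hM ih =>
      rw [← Finset.insert_Ioc_right_eq_Ioc_add_one hM, Finset.sum_insert (by simp)]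
      have hM0 : (0 : ℝ) < M := by exact_mod_cast (lt_of_lt_of_le hy hM)
      have h3 : 1 / (((M + 1 : ℕ) : ℝ)) ^ 2 ≤ 1 / M - 1 / ((M + 1 : ℕ) : ℝ) := by
        push_cast
        have : 1 / (M : ℝ) - 1 / ((M : ℝ) + 1) = 1 / (M * ((M : ℝ) + 1)) := by
          field_simp; ring
        rw [this]
        apply one_div_le_one_div_of_le (by positivity)
        nlinarith
      linarith
  have h2 : T ⊆ Finset.Ioc y (T.sup id + y) := by
    intro p hp
    rw [Finset.mem_Ioc]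
    refine ⟨hT p hp, ?_⟩
    have := Finset.le_sup (f := id) hp
    simp only [id] at this
    omega
  have h3 := h1 (T.sup id + y) (by omega)
  have h4 : (0 : ℝ) ≤ 1 / ((T.sup id + y : ℕ) : ℝ) := by positivity
  have h5 := Finset.sum_le_sum_of_subset_of_nonneg h2
    (fun (n : ℕ) (_ : n ∈ Finset.Ioc y (T.sup id + y)) (_ : n ∉ T) =>
      (by positivity : (0 : ℝ) ≤ 1 / (n : ℝ) ^ 2))
  linarith

lemma prod_ge (T : Finset ℕ) (hT : ∀ p ∈ T, 2 ≤ p) :
    Real.exp (-(∑ p ∈ T, 1 / (p : ℝ)) - ∑ p ∈ T, 1 / (p : ℝ) ^ 2) ≤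
      ∏ p ∈ T, (1 - 1 / (p : ℝ)) := by
  have h1 : Real.exp (-(∑ p ∈ T, 1 / (p : ℝ)) - ∑ p ∈ T, 1 / (p : ℝ) ^ 2) =
      ∏ p ∈ T, Real.exp (-(1 / (p : ℝ)) - (1 / (p : ℝ)) ^ 2) := by
    rw [← Real.exp_sum]
    congr 1
    rw [Finset.sum_sub_distrib, Finset.sum_neg_distrib]
    congr 1
    exact Finset.sum_congr rfl fun p _ => by rw [div_pow, one_pow]
  rw [h1]
  refine Finset.prod_le_prod (fun p _ => (Real.exp_pos _).le) fun p hp => ?_
  have h2 : (2 : ℝ) ≤ p := by exact_mod_cast hT p hp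
  exact one_sub_ge (by positivity) (one_div_le_one_div_of_le (by norm_num) h2)

lemma prod_le (T : Finset ℕ) (hT : ∀ p ∈ T, 2 ≤ p) :
    ∏ p ∈ T, (1 - 1 / (p : ℝ)) ≤ Real.exp (-(∑ p ∈ T, 1 / (p : ℝ))) := by
  have h1 : Real.exp (-(∑ p ∈ T, 1 / (p : ℝ))) = ∏ p ∈ T, Real.exp (-(1 / (p : ℝ))) := by
    rw [← Real.exp_sum, Finset.sum_neg_distrib]
  rw [h1]
  refine Finset.prod_le_prod (fun p hp => ?_) fun p hp => ?_
  · have h2 : (2 : ℝ) ≤ p := by exact_mod_cast hT p hp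
    have : 1 / (p : ℝ) ≤ 1 / 2 := one_div_le_one_div_of_le (by norm_num) h2
    linarith
  · have := Real.add_one_le_exp (-(1 / (p : ℝ)))
    linarith

lemma log_three : Real.log 3 ≤ 10987 / 10000 := by
  have h1 : (12 : ℝ) * Real.log 3 = 19 * Real.log 2 + Real.log (531441 / 524288) := by
    have h2 : Real.log ((3 : ℝ) ^ 12) = Real.log ((2 : ℝ) ^ 19 * (531441 / 524288)) := by
      norm_num
    rw [Real.log_pow, Real.log_mul (by norm_num) (by norm_num), Real.log_pow] at h2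
    push_cast at h2
    exact h2
  have h3 : Real.log (531441 / 524288) ≤ 531441 / 524288 - 1 :=
    Real.log_le_sub_one_of_pos (by norm_num)
  have h4 := Real.log_two_lt_d9
  norm_num at h3 h4 ⊢
  linarith

lemma log_seventeen : Real.log 17 ≤ 28333 / 10000 := by
  have h1 : Real.log 17 = 4 * Real.log 2 + Real.log (17 / 16) := by
    rw [show (17 : ℝ) = 2 ^ 4 * (17 / 16) by norm_num, Real.log_mul (by norm_num) (by norm_num),
      Real.log_pow]
    norm_num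
  have h3 : Real.log (17 / 16) ≤ 607 / 10000 := by
    rw [Real.log_le_iff_le_exp (by norm_num)]
    have := Real.quadratic_le_exp_of_nonneg (x := (607 / 10000 : ℝ)) (by norm_num)
    norm_num at this ⊢
    linarith
  have h4 := Real.log_two_lt_d9
  norm_num at h3 h4 ⊢
  linarith

end NumAux

end Pool.Agent.H75.AP
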