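import Pool.Agent.H75.AP.Blocks
import Pool.Agent.H75.AP.MertensB
import Pool.Agent.H75.AP.ModelB
import Pool.Agent.H75.AP.NumAux

/-!
# Module NUMA (helpwanted): numerical bounds for one block

Uses `mertens_ratio`, `logp_lower` (MERTB), `TT_eq_PI`, `mem_TT` (BLOCKS), `mv_f0` (MODEL).
For `j ≥ 1`: `TT X y j = PI u v` with `u = max y (X ^ th (j+1)) ≥ y`, `v = X ^ th j = (X ^ th (j+1))^3 ≤ u^3` (`th j = 3 th (j+1)`), so for
`y ≥ y0` (with `R = 3`, `ε = 1/2000`): `lam ≤ log 3 + 0.0005 ≤ 1.0992` (`log 3 < 1.0987`: e.g. `3 < exp 1.0987` from `Real.exp_one_gt_d9` and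
`exp 0.0987 ≥ 1 + 0.0987 + 0.0987^2/2 + 0.0987^3/6`; check `2.7182818 * 1.103731 = 3.00025`).
`vv (TT X y j) ≥ exp (- lam - ∑_{p > y} 1/p^2) ≥ exp (-1.0992 - 1/y) ≥ exp (-1.1)` for `y ≥ 1250`, since `1 - x ≥ exp (-x - x^2)` for `0 ≤ x ≤ 1/2`
and `∑_{p > y} 1/p^2 ≤ 1/y`.
`j = 0`: `u = max y (X^(1/50))`, `v = X^(17/50) = (X^(1/50))^17 ≤ u^17`: `lam ≤ log 17 + 0.0003 ≤ 2.84` (`log 17 < 2.8333`; e.g. `17 < exp 2.8333`:
`log 17 = 4 log 2 + log (17/16)`, `log 2 < 0.6931471808` (`Real.log_two_lt_d9`), `log (17/16) ≤ 0.0606246...`: `log (1+x) ≤ x - x^2/2 + x^3/3`, `x = 1/16`).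
`gg X y 0 = ∑_{p ∈ TT X y 0} max 0 (min (1/2) (om X p)) / p = (1/2) ∑ (1/p) (1 - log p / (17/50 log X))` (on the block `0 ≤ om ≤ 1/2`)
`≤ (1/2) (log 17 + ε - (16/50 log X - C) / (17/50 log X)) = (1/2)(log 17 + ε - 16/17 + (50 C/17)/log X) ≤ (1/2)(2.8333 + 0.0003 - 0.941176 + 0.0003) ≤ 0.9465`
for `X ≥ X0` (so large that `X^(1/50) ≥ y`, and that `50 C / 17 / log X ≤ 0.0003`).
-/

namespace Pool.Agent.H75.AP

open Finset

open NumAux

theorem num_block : ∃ y0 : ℕ, ∀ y : ℕ, y0 ≤ y → ∀ X : ℕ, 1 ≤ X → ∀ j : ℕ, 1 ≤ j →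
    lam (TT X y j) ≤ 10992 / 10000 ∧ Real.exp (-(11 / 10)) ≤ vv (TT X y j) := by
  obtain ⟨u0, hu0, h⟩ := mertens_ratio 3 (1 / 2000) (by norm_num) (by norm_num)
  obtain ⟨y0, hy0⟩ := exists_nat_ge (max u0 1250)
  refine ⟨y0, ?_⟩
  intro y hy X hX j hj
  have hyr : max u0 1250 ≤ (y : ℝ) := hy0.trans (by exact_mod_cast hy)
  have hy1 : u0 ≤ y := (le_max_left _ _).trans hyr
  have hy2 : (1250 : ℝ) ≤ y := (le_max_right _ _).trans hyr
  have hXr : (1 : ℝ) ≤ X := by exact_mod_cast hX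
  have hth : th j = th (j + 1) * 3 := by
    obtain ⟨i, rfl⟩ : ∃ i, j = i + 1 := ⟨j - 1, by omega⟩
    simp only [th, Nat.add_one_ne_zero, if_false, Nat.add_sub_cancel]
    rw [pow_succ]; ring
  have hlam : lam (TT X y j) ≤ 10992 / 10000 := by
    have h1 := h (max (y : ℝ) ((X : ℝ) ^ th (j + 1))) ((X : ℝ) ^ th j)
      (hy1.trans (le_max_left _ _)) (by
        rw [hth, Real.rpow_mul (by linarith)]
        exact Real.rpow_le_rpow (by positivity) (le_max_right _ _) (by norm_num))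
    rw [lam, TT_eq_PI]
    have := log_three
    linarith
  refine ⟨hlam, ?_⟩
  have h2 := prod_ge (TT X y j) (fun p hp => TT_two_le hp)
  have h3 := sq_tail y (by exact_mod_cast (by linarith : (1 : ℝ) ≤ y)) (TT X y j)
    (fun p hp => (mem_TT.1 hp).2.1)
  have h4 : 1 / (y : ℝ) ≤ 1 / 1250 := one_div_le_one_div_of_le (by norm_num) hy2
  rw [lam] at hlam
  refine le_trans (Real.exp_le_exp.2 ?_) h2
  linarith

theorem num_top : ∃ y0 : ℕ, ∀ y : ℕ, y0 ≤ y → ∃ X0 : ℕ, ∀ X : ℕ, X0 ≤ X →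
    lam (TT X y 0) ≤ 284 / 100 ∧ gg X y 0 ≤ 9465 / 10000 := by
  obtain ⟨u0, hu0, h⟩ := mertens_ratio 17 (3 / 10000) (by norm_num) (by norm_num)
  obtain ⟨C, hC, hl⟩ := logp_lower
  obtain ⟨y0, hy0⟩ := exists_nat_ge (max u0 2)
  refine ⟨y0, ?_⟩
  intro y hy
  have hyr : max u0 2 ≤ (y : ℝ) := hy0.trans (by exact_mod_cast hy)
  have hy1 : u0 ≤ y := (le_max_left _ _).trans hyr
  have hy2 : (2 : ℝ) ≤ y := (le_max_right _ _).trans hyr
  obtain ⟨X0, hX0⟩ := exists_nat_ge (max ((y : ℝ) ^ (50 : ℕ)) (Real.exp (10000 * C + 1)))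
  refine ⟨X0, ?_⟩
  intro X hX
  have hXr : max ((y : ℝ) ^ (50 : ℕ)) (Real.exp (10000 * C + 1)) ≤ (X : ℝ) :=
    hX0.trans (by exact_mod_cast hX)
  have hX1 : (y : ℝ) ^ (50 : ℕ) ≤ X := (le_max_left _ _).trans hXr
  have hX2 : Real.exp (10000 * C + 1) ≤ X := (le_max_right _ _).trans hXr
  have hXpos : (0 : ℝ) < X := lt_of_lt_of_le (Real.exp_pos _) hX2
  have hX1' : (1 : ℝ) < X := lt_of_lt_of_le (Real.one_lt_exp_iff.2 (by positivity)) hX2
  have hL : 10000 * C + 1 ≤ Real.log X := by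
    rw [Real.le_log_iff_exp_le hXpos]; exact hX2
  have hL0 : 0 < Real.log X := by linarith
  set u : ℝ := (X : ℝ) ^ (1 / 50 : ℝ) with hu
  set v : ℝ := (X : ℝ) ^ (17 / 50 : ℝ) with hv
  have hyu : (y : ℝ) ≤ u := by
    have h3 : ((y : ℝ) ^ (50 : ℕ)) ^ (1 / 50 : ℝ) ≤ (X : ℝ) ^ (1 / 50 : ℝ) :=
      Real.rpow_le_rpow (by positivity) hX1 (by norm_num)
    rw [← Real.rpow_natCast, ← Real.rpow_mul (by positivity)] at h3
    norm_num at h3
    rw [hu]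
    norm_num
    exact h3
  have hT : TT X y 0 = PI u v := by
    rw [TT_eq_PI]
    have e1 : th (0 + 1) = 1 / 50 := by simp [th]
    have e2 : th 0 = 17 / 50 := by simp [th]
    rw [e1, e2, max_eq_right hyu]
  have hu1 : 1 ≤ u := by linarith
  have huv : u ≤ v := Real.rpow_le_rpow_of_exponent_le hX1'.le (by norm_num)
  have h1 : ∑ p ∈ PI u v, 1 / (p : ℝ) ≤ Real.log 17 + 3 / 10000 := by
    apply h u v (hy1.trans hyu)
    rw [hu, hv, ← Real.rpow_mul hXpos.le]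
    norm_num
  have hl17 := log_seventeen
  refine ⟨?_, ?_⟩
  · rw [lam, hT]; linarith
  have hlu : Real.log u = 1 / 50 * Real.log X := by rw [hu, Real.log_rpow hXpos]
  have hlv : Real.log v = 17 / 50 * Real.log X := by rw [hv, Real.log_rpow hXpos]
  have h2 := hl u v hu1 huv
  rw [hlu, hlv] at h2
  have h3 : gg X y 0 ≤ ∑ p ∈ PI u v, om X p / p := by
    have e : gg X y 0 = ∑ p ∈ PI u v, max 0 (min (1 / 2) (om X p)) / (p : ℝ) := by
      rw [gg, fc, if_pos rfl, mv_f0, hT]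
    rw [e]
    refine Finset.sum_le_sum fun p hp => ?_
    rw [MertB.mem_PI (by linarith)] at hp
    have hp0 : (0 : ℝ) < p := by linarith [hp.2.1]
    refine div_le_div_of_nonneg_right ?_ hp0.le
    have h4 : 0 ≤ om X p := by
      unfold om
      have h5 : Real.log p ≤ Real.log v := Real.log_le_log hp0 hp.2.2
      rw [hlv] at h5
      have h6 : Real.log p / (17 / 50 * Real.log X) ≤ 1 := by
        rw [div_le_one (by positivity)]; exact h5
      linarith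
    exact max_le h4 (min_le_right _ _)
  have h4 : ∑ p ∈ PI u v, om X p / p = 1 / 2 * (∑ p ∈ PI u v, 1 / (p : ℝ)) -
      1 / 2 * ((∑ p ∈ PI u v, Real.log p / p) / (17 / 50 * Real.log X)) := by
    rw [Finset.mul_sum, Finset.sum_div, Finset.mul_sum, ← Finset.sum_sub_distrib]
    refine Finset.sum_congr rfl fun p _ => ?_
    unfold om
    ring
  have h5 : 16 / 17 - 3 / 10000 ≤ (∑ p ∈ PI u v, Real.log p / p) / (17 / 50 * Real.log X) := by
    rw [le_div_iff₀ (by positivity)]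
    have : (16 / 17 - 3 / 10000) * (17 / 50 * Real.log X) ≤
        17 / 50 * Real.log X - 1 / 50 * Real.log X - C := by
      nlinarith
    linarith
  rw [h4] at h3
  linarith

end Pool.Agent.H75.AP
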