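import Pool.Agent.H75.AP.Cover
import Pool.Agent.H75.AP.MertensB
import Pool.Agent.H75.AP.NumAux

/-!
# Module NUMC (helpwanted): size of `∏ (1 - 1/p)` over `(y, X^(1/50)]`

For `X ≥ X0(y)` the blocks `TT X y j`, `1 ≤ j < JJ X`, are disjoint and their union is the set of primes `p` with
`y < p ≤ X^(1/50)` (`TT_cover`, `TT_disjoint`, `mem_TT`, `th_anti`), so the product is `∏_{y < p ≤ X^(1/50)} (1 - 1/p)`.
Lower bound: `1 - 1/p ≥ exp (-1/p - 1/p^2)` (for `p ≥ 2`), `∑ 1/p ≤ ∑_{p ≤ X} 1/p ≤ log log X + C` (`mertens_upper`), `∑ 1/p^2 ≤ 1`.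
The constant `c = exp (-C - 1)` is independent of `y`.
Upper bound: `1 - 1/p ≤ exp (-1/p)`, `∑_{y < p ≤ X^(1/50)} 1/p ≥ log log (X^(1/50)) - C - ∑_{p ≤ y} 1/p ≥ log log X - log 50 - C - (y : ℝ)` (`mertens_low`).
-/

namespace Pool.Agent.H75.AP

open Finset

namespace NumC

/-- the primes in `(y, X^(1/50)]` -/
noncomputable def P0 (X y : ℕ) : Finset ℕ := PI (y : ℝ) ((X : ℝ) ^ (1 / 50 : ℝ))

lemma prod_eq : ∃ X0 : ℕ, ∀ X : ℕ, X0 ≤ X → ∀ y : ℕ,
    ∏ j ∈ range (JJ X), (if j = 0 then 1 else vv (TT X y j)) =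
      ∏ p ∈ P0 X y, (1 - 1 / (p : ℝ)) := by
  obtain ⟨X1, hX1⟩ := TT_cover
  refine ⟨max X1 1, ?_⟩
  intro X hX y
  have hXX1 : X1 ≤ X := le_trans (le_max_left _ _) hX
  have hX1' : 1 ≤ X := le_trans (le_max_right _ _) hX
  have hXr : (1 : ℝ) ≤ X := by exact_mod_cast hX1'
  have h1 : ∏ j ∈ range (JJ X), (if j = 0 then 1 else vv (TT X y j)) =
      ∏ j ∈ (range (JJ X)).filter (fun j => j ≠ 0), vv (TT X y j) := by
    rw [Finset.prod_filter]
    refine Finset.prod_congr rfl fun j _ => ?_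
    by_cases h : j = 0 <;> simp [h]
  have h2 : P0 X y = ((range (JJ X)).filter (fun j => j ≠ 0)).biUnion (fun j => TT X y j) := by
    ext p
    rw [P0, MertB.mem_PI (by positivity), Finset.mem_biUnion]
    constructor
    · rintro ⟨hp, hyp, hpX⟩
      obtain ⟨j, hj1, hj2, hj3⟩ := hX1 X hXX1 y p hp (by exact_mod_cast hyp) hpX
      refine ⟨j, ?_, hj3⟩
      rw [Finset.mem_filter, Finset.mem_range]
      exact ⟨hj2, by omega⟩
    · rintro ⟨j, hj, hjp⟩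
      rw [Finset.mem_filter, Finset.mem_range] at hj
      rw [mem_TT] at hjp
      refine ⟨hjp.1, by exact_mod_cast hjp.2.1, hjp.2.2.2.trans ?_⟩
      have h3 : th j ≤ th 1 := th_anti (by omega)
      have h4 : th 1 = 1 / 50 := by simp [th]
      rw [h4] at h3
      exact Real.rpow_le_rpow_of_exponent_le hXr h3
  rw [h1, h2, Finset.prod_biUnion]
  · rfl
  · intro i _ j _ hij
    exact TT_disjoint X y hX1' hij

lemma two_le {X y p : ℕ} (h : p ∈ P0 X y) : 2 ≤ p := by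
  rw [P0, MertB.mem_PI (by positivity)] at h
  exact h.1.two_le

lemma sum_inv_sq (T : Finset ℕ) (hT : ∀ p ∈ T, 2 ≤ p) : ∑ p ∈ T, 1 / (p : ℝ) ^ 2 ≤ 1 := by
  have h := NumAux.sq_tail 1 le_rfl T (fun p hp => lt_of_lt_of_le one_lt_two (hT p hp))
  simpa using h

end NumC

open NumC NumAux

theorem vprod_lower : ∃ c : ℝ, 0 < c ∧ ∀ y : ℕ, 1 ≤ y → ∃ X0 : ℕ, ∀ X : ℕ, X0 ≤ X →
    c / Real.log X ≤ ∏ j ∈ range (JJ X), (if j = 0 then 1 else vv (TT X y j)) := by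
  obtain ⟨X1, hX1⟩ := prod_eq
  obtain ⟨C, hC, hup⟩ := mertens_upper
  refine ⟨Real.exp (-C - 1), Real.exp_pos _, ?_⟩
  intro y _
  refine ⟨max X1 3, ?_⟩
  intro X hX
  have hXX1 : X1 ≤ X := le_trans (le_max_left _ _) hX
  have hX3 : 3 ≤ X := le_trans (le_max_right _ _) hX
  have hXr : (3 : ℝ) ≤ X := by exact_mod_cast hX3
  rw [hX1 X hXX1 y]
  have h1 := prod_ge (P0 X y) (fun p hp => two_le hp)
  refine le_trans ?_ h1
  have h2 := sum_inv_sq (P0 X y) (fun p hp => two_le hp)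
  have h3 : ∑ p ∈ P0 X y, 1 / (p : ℝ) ≤ Real.log (Real.log X) + C := by
    refine le_trans ?_ (hup X hXr)
    refine Finset.sum_le_sum_of_subset_of_nonneg ?_ fun p _ _ => by positivity
    intro p hp
    rw [P0, MertB.mem_PI (by positivity)] at hp
    rw [MertB.mem_PI le_rfl]
    refine ⟨hp.1, by exact_mod_cast hp.1.pos, hp.2.2.trans ?_⟩
    calc (X : ℝ) ^ (1 / 50 : ℝ) ≤ (X : ℝ) ^ (1 : ℝ) :=
          Real.rpow_le_rpow_of_exponent_le (by linarith) (by norm_num)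
      _ = X := Real.rpow_one _
  have hlog : 0 < Real.log X := Real.log_pos (by linarith)
  have h4 : Real.exp (-C - 1) / Real.log X = Real.exp (-(Real.log (Real.log X) + C) - 1) := by
    rw [show -(Real.log (Real.log X) + C) - 1 = (-C - 1) - Real.log (Real.log X) by ring,
      Real.exp_sub (-C - 1), Real.exp_log hlog]
  rw [h4]
  apply Real.exp_le_exp.2
  linarith

theorem vprod_upper : ∀ y : ℕ, 1 ≤ y → ∃ C : ℝ, 0 < C ∧ ∃ X0 : ℕ, ∀ X : ℕ, X0 ≤ X →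
    ∏ j ∈ range (JJ X), (if j = 0 then 1 else vv (TT X y j)) ≤ C / Real.log X := by
  intro y _
  obtain ⟨X1, hX1⟩ := prod_eq
  obtain ⟨C, hC, hlow⟩ := mertens_low
  refine ⟨Real.exp (C + y + Real.log 50), Real.exp_pos _, ?_⟩
  obtain ⟨X2, hX2⟩ := exists_nat_ge ((max 3 (y : ℝ)) ^ (50 : ℕ))
  refine ⟨max X1 (max X2 3), ?_⟩
  intro X hX
  have hXX1 : X1 ≤ X := le_trans (le_max_left _ _) hX
  have hXX2 : X2 ≤ X := le_trans (le_max_left _ _) (le_trans (le_max_right _ _) hX)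
  have hX3 : 3 ≤ X := le_trans (le_max_right _ _) (le_trans (le_max_right _ _) hX)
  have hXr : (3 : ℝ) ≤ X := by exact_mod_cast hX3
  rw [hX1 X hXX1 y]
  have h1 := prod_le (P0 X y) (fun p hp => two_le hp)
  refine le_trans h1 ?_
  have hlog : 0 < Real.log X := Real.log_pos (by linarith)
  have hv : max 3 (y : ℝ) ≤ (X : ℝ) ^ (1 / 50 : ℝ) := by
    have h2 : (max 3 (y : ℝ)) ^ (50 : ℕ) ≤ X := hX2.trans (by exact_mod_cast hXX2)
    have h3 : ((max 3 (y : ℝ)) ^ (50 : ℕ)) ^ (1 / 50 : ℝ) ≤ (X : ℝ) ^ (1 / 50 : ℝ) :=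
      Real.rpow_le_rpow (by positivity) h2 (by norm_num)
    rw [← Real.rpow_natCast, ← Real.rpow_mul (by positivity)] at h3
    norm_num at h3
    exact max_le h3.1 h3.2
  have h3 := hlow ((X : ℝ) ^ (1 / 50 : ℝ)) ((le_max_left _ _).trans hv)
  have h4 : Real.log (Real.log ((X : ℝ) ^ (1 / 50 : ℝ))) = Real.log (Real.log X) - Real.log 50 := by
    rw [Real.log_rpow (by linarith), Real.log_mul (by norm_num) hlog.ne',
      one_div, Real.log_inv]
    ring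
  rw [h4, MertB.sum_split le_rfl (Nat.cast_nonneg y) ((le_max_right _ _).trans hv)] at h3
  have h5 : ∑ p ∈ PI 0 (y : ℝ), 1 / (p : ℝ) ≤ y := by
    have h6 : PI 0 (y : ℝ) ⊆ Finset.Icc 1 y := by
      intro p hp
      rw [MertB.mem_PI le_rfl] at hp
      rw [Finset.mem_Icc]
      exact ⟨hp.1.one_lt.le, by exact_mod_cast hp.2.2⟩
    refine (Finset.sum_le_sum_of_subset_of_nonneg h6 fun p _ _ => by positivity).trans ?_
    have h7 : ∑ p ∈ Finset.Icc 1 y, 1 / (p : ℝ) ≤ ∑ p ∈ Finset.Icc 1 y, (1 : ℝ) := by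
      refine Finset.sum_le_sum fun p hp => ?_
      rw [Finset.mem_Icc] at hp
      have : (1 : ℝ) ≤ p := by exact_mod_cast hp.1
      rw [div_le_one (by linarith)]
      exact this
    refine h7.trans ?_
    simp
  have h6 : ∑ p ∈ PI (y : ℝ) ((X : ℝ) ^ (1 / 50 : ℝ)), 1 / (p : ℝ) =
      ∑ p ∈ P0 X y, 1 / (p : ℝ) := rfl
  rw [h6] at h3
  have h7 : Real.exp (C + y + Real.log 50) / Real.log X =
      Real.exp (C + y + Real.log 50 - Real.log (Real.log X)) := by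
    rw [Real.exp_sub, Real.exp_log hlog]
  rw [h7]
  apply Real.exp_le_exp.2
  linarith

end Pool.Agent.H75.AP
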