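import Pool.Agent.H5.PNT.PNT
import Pool.Agent.H33.Cubic.Many

/-!
# Module PRIMEAP (helpwanted): primes in a long progression, lower bound with absolute constant

`theta_ap` (`Pool.Agent.H5.PNT.PNT`): `θ(x; Q, a)/x → 1/φ(Q)` for each unit `a` (finitely many classes for fixed `Q`, so uniformly). The numbers `a + Q l`, `l < L`, are the
integers `n ≡ a (mod Q)` in `[a, a + Q L)`, `X ≤ L Q ≤ X + Q`, `a ≤ 2 X`. So
`∑_{l < L, a + Q l prime} log (a + Q l) = θ(a + QL - 1; Q, a) - θ(a - 1; Q, a) ≥ (1-ε)(a + QL)/φ - (1+ε) a/φ - (const) ≥ QL/(2φ)` for `ε = 1/20` and `X ≥ X0(Q)` (for small `a`, `θ(a-1;Q,a) ≤ ε X/φ` trivially).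
Each prime contributes at most `log (a + QL) ≤ log (4X) ≤ 2 log X`, so there are `≥ QL/(4 φ log X)` primes, and at most `X^(1/50) + 1 ≤ QL/(8 φ log X)` of them are `≤ X^(1/50)`.
So `c1 = 1/8`. (Any absolute `c1 > 0` is fine.)
-/

namespace Pool.Agent.H75.AP

open Finset Filter Topology Pool.Agent.H5.PNT

theorem prime_ap_theta (Q : ℕ) [NeZero Q] : ∃ T : ℝ, 1 ≤ T ∧ ∀ a : ZMod Q, IsUnit a →
    (∀ x : ℝ, T ≤ x → 19 / 20 * x / Q.totient ≤ ∑ p ∈ primesIn Q a x, Real.log p) ∧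
    (∀ x : ℝ, 0 ≤ x → ∑ p ∈ primesIn Q a x, Real.log p ≤ 21 / 20 * (x + T) / Q.totient) := by
  have hphi : (0 : ℝ) < Q.totient := by
    exact_mod_cast Nat.totient_pos.2 (Nat.pos_of_ne_zero (NeZero.ne Q))
  have hev : ∀ᶠ x : ℝ in atTop, ∀ a : ZMod Q, IsUnit a →
      19 / 20 * x / Q.totient ≤ ∑ p ∈ primesIn Q a x, Real.log p ∧
      ∑ p ∈ primesIn Q a x, Real.log p ≤ 21 / 20 * x / Q.totient := by
    rw [eventually_all]
    intro a
    by_cases ha : IsUnit a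
    swap
    · exact Eventually.of_forall fun x h => absurd h ha
    have h1 := theta_ap Q a ha
    have hp : 0 < (Q.totient : ℝ)⁻¹ := by positivity
    have h2 := h1.eventually_const_lt (show 19 / 20 * (Q.totient : ℝ)⁻¹ < (Q.totient : ℝ)⁻¹ by
      linarith)
    have h3 := h1.eventually_lt_const (show (Q.totient : ℝ)⁻¹ < 21 / 20 * (Q.totient : ℝ)⁻¹ by
      linarith)
    filter_upwards [h2, h3, eventually_gt_atTop 0] with x h2 h3 hx _
    rw [lt_div_iff₀ hx] at h2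
    rw [div_lt_iff₀ hx] at h3
    constructor
    · calc 19 / 20 * x / (Q.totient : ℝ) = 19 / 20 * (Q.totient : ℝ)⁻¹ * x := by
            rw [div_eq_mul_inv]; ring
        _ ≤ _ := h2.le
    · calc _ ≤ 21 / 20 * (Q.totient : ℝ)⁻¹ * x := h3.le
        _ = 21 / 20 * x / (Q.totient : ℝ) := by rw [div_eq_mul_inv]; ring
  obtain ⟨T0, hT0⟩ := eventually_atTop.1 hev
  refine ⟨max T0 1, le_max_right _ _, ?_⟩
  intro a ha
  constructor
  · intro x hx
    exact (hT0 x (le_trans (le_max_left _ _) hx) a ha).1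
  · intro x hx
    have hT1 : (1 : ℝ) ≤ max T0 1 := le_max_right _ _
    rcases le_total (max T0 1) x with h | h
    · refine le_trans (hT0 x (le_trans (le_max_left _ _) h) a ha).2 ?_
      gcongr
      linarith
    · have hsub : primesIn Q a x ⊆ primesIn Q a (max T0 1) := by
        unfold primesIn
        apply filter_subset_filter
        apply Icc_subset_Icc le_rfl
        exact Nat.floor_le_floor h
      calc ∑ p ∈ primesIn Q a x, Real.log p ≤ ∑ p ∈ primesIn Q a (max T0 1), Real.log p := by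
            apply sum_le_sum_of_subset_of_nonneg hsub
            intro p _ _
            exact Real.log_natCast_nonneg p
        _ ≤ 21 / 20 * (max T0 1) / Q.totient := (hT0 _ (le_max_left _ _) a ha).2
        _ ≤ _ := by
          gcongr
          linarith

theorem prime_ap_num (φ : ℝ) (hφ : 0 < φ) : ∀ᶠ x : ℝ in atTop,
    x ^ (1 / 50 : ℝ) + 1 ≤ x / (8 * φ * Real.log x) := by
  have h := (isLittleO_log_rpow_atTop (show (0 : ℝ) < 49 / 50 by norm_num)).bound
    (show 0 < 1 / (16 * φ) by positivity)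
  filter_upwards [h, eventually_gt_atTop (1 : ℝ)] with x h1 hx
  have hlog : 0 < Real.log x := Real.log_pos hx
  have hx0 : 0 < x := by linarith
  rw [Real.norm_of_nonneg hlog.le, Real.norm_of_nonneg (Real.rpow_nonneg hx0.le _)] at h1
  rw [le_div_iff₀ (by positivity)]
  have h2 : (1 : ℝ) ≤ x ^ (1 / 50 : ℝ) := Real.one_le_rpow hx.le (by norm_num)
  have h3 : x ^ (1 / 50 : ℝ) * x ^ (49 / 50 : ℝ) = x := by
    rw [← Real.rpow_add hx0]
    norm_num
  calc (x ^ (1 / 50 : ℝ) + 1) * (8 * φ * Real.log x) ≤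
      (2 * x ^ (1 / 50 : ℝ)) * (8 * φ * (1 / (16 * φ) * x ^ (49 / 50 : ℝ))) := by
        gcongr
        linarith
    _ = x ^ (1 / 50 : ℝ) * x ^ (49 / 50 : ℝ) := by
        field_simp
        ring
    _ = x := h3

open Classical in
theorem prime_ap : ∃ c1 : ℝ, 0 < c1 ∧ ∀ Q : ℕ, 1 ≤ Q → ∃ X0 : ℕ, ∀ X a L : ℕ, X0 ≤ X → a ≤ 2 * X →
    a.Coprime Q → X ≤ L * Q → L * Q ≤ X + Q →
    c1 * ((Q : ℝ) / Q.totient) * L / Real.log X ≤
      (((range L).filter (fun l => (a + Q * l).Prime ∧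
        (X : ℝ) ^ (1 / 50 : ℝ) < ((a + Q * l : ℕ) : ℝ))).card : ℝ) := by
  refine ⟨1 / 8, by norm_num, ?_⟩
  intro Q hQ
  haveI : NeZero Q := ⟨by omega⟩
  have hphi : (0 : ℝ) < Q.totient := by
    exact_mod_cast Nat.totient_pos.2 hQ
  obtain ⟨T, hT1, hT⟩ := prime_ap_theta Q
  have hnum := tendsto_natCast_atTop_atTop.eventually (prime_ap_num (Q.totient : ℝ) hphi)
  obtain ⟨X1, hX1⟩ := eventually_atTop.1 hnum
  refine ⟨max (max X1 4) (max Q ⌈5 * T⌉₊), ?_⟩
  intro X a L hX ha hcop hL1 hL2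
  have hXX1 : X1 ≤ X := le_trans (le_trans (le_max_left _ _) (le_max_left _ _)) hX
  have hX4 : 4 ≤ X := le_trans (le_trans (le_max_right _ _) (le_max_left _ _)) hX
  have hXQ : Q ≤ X := le_trans (le_trans (le_max_left _ _) (le_max_right _ _)) hX
  have hXT : 5 * T ≤ X := by
    have h1 : ⌈5 * T⌉₊ ≤ X := le_trans (le_trans (le_max_right _ _) (le_max_right _ _)) hX
    exact le_trans (Nat.le_ceil _) (by exact_mod_cast h1)
  have hXR : (4 : ℝ) ≤ X := by exact_mod_cast hX4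
  have hX0 : (0 : ℝ) < X := by linarith
  have hlog : 0 < Real.log X := Real.log_pos (by linarith)
  have haR : (a : ℝ) ≤ 2 * X := by exact_mod_cast ha
  have hL1R : (X : ℝ) ≤ (L : ℝ) * Q := by exact_mod_cast hL1
  have hL2R : (L : ℝ) * Q ≤ (X : ℝ) + Q := by exact_mod_cast hL2
  have hQX : (Q : ℝ) ≤ X := by exact_mod_cast hXQ
  have hunit : IsUnit (a : ZMod Q) := (ZMod.isUnit_iff_coprime a Q).2 hcop
  obtain ⟨hlow, hupp⟩ := hT (a : ZMod Q) hunit
  set N : ℕ := a + Q * L with hN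
  have hNR : (N : ℝ) = a + Q * L := by rw [hN]; push_cast; ring
  have ha0 : (0 : ℝ) ≤ a := Nat.cast_nonneg a
  have hlow1 := hlow (N : ℝ) (by rw [hNR]; nlinarith)
  have hupp1 := hupp (a : ℝ) ha0
  set S : Finset ℕ := (Ioc a N).filter (fun n => n.Prime ∧ (n : ZMod Q) = (a : ZMod Q)) with hS
  have hsub : primesIn Q (a : ZMod Q) (N : ℝ) ⊆ primesIn Q (a : ZMod Q) (a : ℝ) ∪ S := by
    intro n hn
    unfold primesIn at hn ⊢
    rw [mem_filter, mem_Icc, Nat.floor_natCast] at hn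
    rw [mem_union, mem_filter, hS, mem_filter, mem_Icc, mem_Ioc, Nat.floor_natCast]
    rcases Nat.lt_or_ge a n with h | h
    · right
      exact ⟨⟨h, hn.1.2⟩, hn.2⟩
    · left
      exact ⟨⟨hn.1.1, h⟩, hn.2⟩
  have hsum : ∑ p ∈ primesIn Q (a : ZMod Q) (N : ℝ), Real.log p ≤
      ∑ p ∈ primesIn Q (a : ZMod Q) (a : ℝ), Real.log p + ∑ p ∈ S, Real.log p := by
    refine le_trans (sum_le_sum_of_subset_of_nonneg hsub fun p _ _ => Real.log_natCast_nonneg p) ?_
    rw [← sum_union_inter]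
    apply le_add_of_nonneg_right
    exact sum_nonneg fun p _ => Real.log_natCast_nonneg p
  have hSsum : ∑ p ∈ S, Real.log p ≤ S.card * (2 * Real.log X) := by
    rw [← nsmul_eq_mul]
    apply sum_le_card_nsmul
    intro p hp
    rw [hS, mem_filter, mem_Ioc] at hp
    have hp0 : (0 : ℝ) < p := by exact_mod_cast hp.2.1.pos
    have hpN : (p : ℝ) ≤ N := by exact_mod_cast hp.1.2
    have h2 : 2 * Real.log X = Real.log ((X : ℝ) ^ 2) := by
      rw [Real.log_pow]; norm_num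
    rw [h2]
    apply Real.log_le_log hp0
    refine le_trans hpN ?_
    rw [hNR]
    nlinarith
  have hmain : (L : ℝ) * Q / (2 * Q.totient) ≤ S.card * (2 * Real.log X) := by
    have h1 : 19 / 20 * (N : ℝ) / Q.totient - 21 / 20 * ((a : ℝ) + T) / Q.totient ≤
        S.card * (2 * Real.log X) := by linarith
    refine le_trans ?_ h1
    rw [← sub_div]
    rw [div_le_div_iff₀ (by positivity) hphi, hNR]
    have h2 : (L : ℝ) * Q ≤ 2 * (19 / 20 * (a + Q * L) - 21 / 20 * ((a : ℝ) + T)) := by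
      nlinarith
    nlinarith
  have hcover : S ⊆ ((range L).filter (fun l => (a + Q * l).Prime ∧
        (X : ℝ) ^ (1 / 50 : ℝ) < ((a + Q * l : ℕ) : ℝ))).image (fun l => a + Q * l) ∪
        ({N} ∪ Icc 1 ⌊(X : ℝ) ^ (1 / 50 : ℝ)⌋₊) := by
    intro n hn
    rw [hS, mem_filter, mem_Ioc] at hn
    obtain ⟨⟨hn1, hn2⟩, hnp, hnc⟩ := hn
    rw [ZMod.natCast_eq_natCast_iff] at hnc
    obtain ⟨l, hl⟩ := (Nat.modEq_iff_dvd' hn1.le).1 hnc.symm
    have hnl : n = a + Q * l := by omega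
    rw [mem_union, mem_union, mem_image, mem_singleton, mem_Icc]
    rcases le_or_gt (n : ℝ) ((X : ℝ) ^ (1 / 50 : ℝ)) with h | h
    · right
      right
      exact ⟨hnp.pos, Nat.le_floor h⟩
    · rcases Nat.lt_or_ge l L with h2 | h2
      · left
        refine ⟨l, ?_, hnl.symm⟩
        rw [mem_filter, mem_range, ← hnl]
        exact ⟨h2, hnp, h⟩
      · right
        left
        have h3 : Q * L ≤ Q * l := Nat.mul_le_mul_left Q h2
        omega
  have hcard : (S.card : ℝ) ≤ (((range L).filter (fun l => (a + Q * l).Prime ∧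
        (X : ℝ) ^ (1 / 50 : ℝ) < ((a + Q * l : ℕ) : ℝ))).card : ℝ) +
        (1 + (X : ℝ) ^ (1 / 50 : ℝ)) := by
    have h1 := card_le_card hcover
    have h2 := card_union_le (((range L).filter (fun l => (a + Q * l).Prime ∧
        (X : ℝ) ^ (1 / 50 : ℝ) < ((a + Q * l : ℕ) : ℝ))).image (fun l => a + Q * l))
        ({N} ∪ Icc 1 ⌊(X : ℝ) ^ (1 / 50 : ℝ)⌋₊)
    have h3 := card_union_le ({N} : Finset ℕ) (Icc 1 ⌊(X : ℝ) ^ (1 / 50 : ℝ)⌋₊)
    have h4 : (((range L).filter (fun l => (a + Q * l).Prime ∧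
        (X : ℝ) ^ (1 / 50 : ℝ) < ((a + Q * l : ℕ) : ℝ))).image (fun l => a + Q * l)).card ≤
        ((range L).filter (fun l => (a + Q * l).Prime ∧
        (X : ℝ) ^ (1 / 50 : ℝ) < ((a + Q * l : ℕ) : ℝ))).card := card_image_le
    rw [card_singleton, Nat.card_Icc] at h3
    have h5 : ((⌊(X : ℝ) ^ (1 / 50 : ℝ)⌋₊ : ℕ) : ℝ) ≤ (X : ℝ) ^ (1 / 50 : ℝ) :=
      Nat.floor_le (Real.rpow_nonneg hX0.le _)
    have h6 : S.card ≤ ((range L).filter (fun l => (a + Q * l).Prime ∧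
        (X : ℝ) ^ (1 / 50 : ℝ) < ((a + Q * l : ℕ) : ℝ))).card +
        (1 + ⌊(X : ℝ) ^ (1 / 50 : ℝ)⌋₊) := by omega
    have h7 : (S.card : ℝ) ≤ (((range L).filter (fun l => (a + Q * l).Prime ∧
        (X : ℝ) ^ (1 / 50 : ℝ) < ((a + Q * l : ℕ) : ℝ))).card : ℝ) +
        (1 + (⌊(X : ℝ) ^ (1 / 50 : ℝ)⌋₊ : ℝ)) := by exact_mod_cast h6
    linarith
  have hX1' := hX1 X hXX1
  have hsmall : (X : ℝ) ^ (1 / 50 : ℝ) + 1 ≤ (L : ℝ) * Q / (8 * Q.totient * Real.log X) := by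
    refine le_trans hX1' ?_
    gcongr
  have hbig : (L : ℝ) * Q / (4 * Q.totient * Real.log X) ≤ S.card := by
    rw [div_le_iff₀ (by positivity)]
    rw [div_le_iff₀ (by positivity)] at hmain
    calc (L : ℝ) * Q ≤ S.card * (2 * Real.log X) * (2 * Q.totient) := hmain
      _ = _ := by ring
  have hfin : 1 / 8 * ((Q : ℝ) / Q.totient) * L / Real.log X =
      (L : ℝ) * Q / (4 * Q.totient * Real.log X) - (L : ℝ) * Q / (8 * Q.totient * Real.log X) := by
    field_simp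
    ring
  rw [hfin]
  linarith

end Pool.Agent.H75.AP
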