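import Pool.Agent.H75.AP.Pack

/-!
# Module WUP (helpwanted): upper bound for `WW` with the right dependence on `y`

Let `c, y0` be from `package`; take `y ≥ y0`, `X ≥ X0(y)`, `h : Pk c C X y`.
`WW = (∏ uu) (1 - τ) ≤ ∏ uu` (`uu > 0`, `gg ≥ 0`: `h.upos`, `h.gnn`) `≤ V exp (exp 9)` (`uprod_le` of NUMB with `h.lam1`), `V = ∏_{1 ≤ j < J} vv (TT X y j)`.
Each factor `vv T = ∏_{p ∈ T} (1 - 1/p) ≤ exp (- ∑_{p ∈ T} 1/p)`; by `h.cover` every prime in `(y, X^(1/50)]` lies in some block `1 ≤ j < J`, so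
`∑_{1 ≤ j < J} ∑_{p ∈ TT X y j} 1/p ≥ ∑_{y < p ≤ X^(1/50)} 1/p ≥ log log (X^(1/50)) - C1 - ∑_{p ≤ y} 1/p` (`mertens_low`), i.e.
`V ≤ exp (C1) * 50 / log X * exp (∑_{p ≤ y} 1/p)`. And `Q / φ(Q) = ∏_{p ≤ y} (1 - 1/p)^(-1) ≥ exp (∑_{p ≤ y} 1/p)` (`Q = primorial y`; `Nat.totient_eq_mul_prod_factors`,
prime factors of `primorial y` are the primes `≤ y`; `1/(1 - x) ≥ exp x`). (The module NUMC contains similar computations.)
-/

namespace Pool.Agent.H75.AP

open Finset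

namespace WUp

open NumC NumAux

theorem vprod_upper' : ∃ C : ℝ, ∀ y : ℕ, 1 ≤ y → ∃ X0 : ℕ, ∀ X : ℕ, X0 ≤ X →
    ∏ j ∈ range (JJ X), (if j = 0 then 1 else vv (TT X y j)) ≤
      Real.exp C * Real.exp (∑ p ∈ PI 0 (y : ℝ), 1 / (p : ℝ)) / Real.log X := by
  obtain ⟨X1, hX1⟩ := prod_eq
  obtain ⟨C, hC, hlow⟩ := mertens_low
  refine ⟨C + Real.log 50, ?_⟩
  intro y _
  obtain ⟨X2, hX2⟩ := exists_nat_ge ((max 3 (y : ℝ)) ^ (50 : ℕ))
  refine ⟨max X1 (max X2 3), ?_⟩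
  intro X hX
  have hXX1 : X1 ≤ X := le_trans (le_max_left _ _) hX
  have hXX2 : X2 ≤ X := le_trans (le_max_left _ _) (le_trans (le_max_right _ _) hX)
  have hX3 : 3 ≤ X := le_trans (le_max_right _ _) (le_trans (le_max_right _ _) hX)
  have hXr : (3 : ℝ) ≤ X := by exact_mod_cast hX3
  rw [hX1 X hXX1 y]
  have h1 := prod_le (P0 X y) (fun p hp => two_le hp)
  refine le_trans h1 ?_
  have hlog : 0 < Real.log X := Real.log_pos (by linarith)
  have hv : max 3 (y : ℝ) ≤ (X : ℝ) ^ (1 / 50 : ℝ) := by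
    have h2 : (max 3 (y : ℝ)) ^ (50 : ℕ) ≤ X := hX2.trans (by exact_mod_cast hXX2)
    have h3 : ((max 3 (y : ℝ)) ^ (50 : ℕ)) ^ (1 / 50 : ℝ) ≤ (X : ℝ) ^ (1 / 50 : ℝ) :=
      Real.rpow_le_rpow (by positivity) h2 (by norm_num)
    rw [← Real.rpow_natCast, ← Real.rpow_mul (by positivity)] at h3
    norm_num at h3
    exact max_le h3.1 h3.2
  have h3 := hlow ((X : ℝ) ^ (1 / 50 : ℝ)) ((le_max_left _ _).trans hv)
  have h4 : Real.log (Real.log ((X : ℝ) ^ (1 / 50 : ℝ))) = Real.log (Real.log X) - Real.log 50 := by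
    rw [Real.log_rpow (by linarith), Real.log_mul (by norm_num) hlog.ne',
      one_div, Real.log_inv]
    ring
  rw [h4, MertB.sum_split le_rfl (Nat.cast_nonneg y) ((le_max_right _ _).trans hv)] at h3
  have h6 : ∑ p ∈ PI (y : ℝ) ((X : ℝ) ^ (1 / 50 : ℝ)), 1 / (p : ℝ) =
      ∑ p ∈ P0 X y, 1 / (p : ℝ) := rfl
  rw [h6] at h3
  have h7 : Real.exp (C + Real.log 50) * Real.exp (∑ p ∈ PI 0 (y : ℝ), 1 / (p : ℝ)) / Real.log X =
      Real.exp (C + Real.log 50 + ∑ p ∈ PI 0 (y : ℝ), 1 / (p : ℝ) - Real.log (Real.log X)) := by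
    rw [Real.exp_sub, Real.exp_log hlog, Real.exp_add (C + Real.log 50)]
  rw [h7]
  apply Real.exp_le_exp.2
  linarith

theorem exp_le_ratio (y : ℕ) : Real.exp (∑ p ∈ PI 0 (y : ℝ), 1 / (p : ℝ)) ≤
    (primorial y : ℝ) / (primorial y).totient := by
  have hP : PI 0 (y : ℝ) = (primorial y).primeFactors := by
    have h1 : (primorial y).primeFactors = (range (y + 1)).filter Nat.Prime := by
      unfold primorial
      exact Nat.primeFactors_prod fun p hp => (mem_filter.1 hp).2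
    rw [h1]
    ext p
    rw [MertB.mem_PI le_rfl, mem_filter, mem_range]
    constructor
    · rintro ⟨h1, _, h3⟩
      have h4 : p ≤ y := by exact_mod_cast h3
      exact ⟨by omega, h1⟩
    · rintro ⟨h1, h2⟩
      exact ⟨h2, by exact_mod_cast h2.pos, by exact_mod_cast (by omega : p ≤ y)⟩
  have hQ : (0 : ℝ) < (primorial y : ℝ) := by exact_mod_cast primorial_pos y
  have htot : ((primorial y).totient : ℝ) =
      (primorial y : ℝ) * ∏ p ∈ PI 0 (y : ℝ), (1 - 1 / (p : ℝ)) := by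
    rw [hP]
    have h := Nat.totient_eq_mul_prod_factors (primorial y)
    have h' : (((primorial y).totient : ℚ) : ℝ) =
        (((primorial y : ℚ) * ∏ p ∈ (primorial y).primeFactors, (1 - (p : ℚ)⁻¹) : ℚ) : ℝ) := by
      rw [h]
    push_cast at h'
    simpa [one_div] using h'
  have hle := prod_le (PI 0 (y : ℝ)) (fun p hp => by
    rw [MertB.mem_PI le_rfl] at hp
    exact hp.1.two_le)
  have htpos : (0 : ℝ) < ((primorial y).totient : ℝ) := by
    exact_mod_cast Nat.totient_pos.2 (primorial_pos y)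
  rw [le_div_iff₀ htpos, htot]
  calc Real.exp (∑ p ∈ PI 0 (y : ℝ), 1 / (p : ℝ)) *
        ((primorial y : ℝ) * ∏ p ∈ PI 0 (y : ℝ), (1 - 1 / (p : ℝ)))
      ≤ Real.exp (∑ p ∈ PI 0 (y : ℝ), 1 / (p : ℝ)) *
        ((primorial y : ℝ) * Real.exp (-∑ p ∈ PI 0 (y : ℝ), 1 / (p : ℝ))) := by
        apply mul_le_mul_of_nonneg_left _ (Real.exp_pos _).le
        exact mul_le_mul_of_nonneg_left hle hQ.le
    _ = (primorial y : ℝ) := by
        rw [Real.exp_neg]
        field_simp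

end WUp

theorem WW_upper_abs : ∃ C0 : ℝ, 0 < C0 ∧ ∃ y0 : ℕ, ∀ y : ℕ, y0 ≤ y → ∃ X0 : ℕ, ∀ X : ℕ, X0 ≤ X →
    WW X y ≤ C0 * ((primorial y : ℝ) / (primorial y).totient) / Real.log X := by
  obtain ⟨c, _, y0, hy0⟩ := package
  obtain ⟨C1, hC1⟩ := WUp.vprod_upper'
  refine ⟨Real.exp C1 * Real.exp (Real.exp 9), by positivity, max y0 1, fun y hy => ?_⟩
  obtain ⟨C, _, X0, hX0⟩ := hy0 y ((le_max_left _ _).trans hy)
  obtain ⟨X1, hX1⟩ := hC1 y ((le_max_right _ _).trans hy)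
  refine ⟨max X0 X1, fun X hX => ?_⟩
  have h := hX0 X ((le_max_left _ _).trans hX)
  have hV := hX1 X ((le_max_right _ _).trans hX)
  have hU := uprod_le X y h.lam1
  have hL : 0 < Real.log (X : ℝ) := zero_lt_one.trans_le h.logX
  set V := ∏ j ∈ range (JJ X), (if j = 0 then 1 else vv (TT X y j)) with hVdef
  set U := ∏ j ∈ range (JJ X), uu X y j with hUdef
  set τ := ∑ j ∈ range (JJ X), gg X y j / uu X y j with hτ
  have hWW : WW X y = U * (1 - τ) := rfl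
  have hτ0 : 0 ≤ τ := Finset.sum_nonneg fun j hj =>
    div_nonneg (h.gnn j hj) ((Real.exp_pos _).le.trans (h.upos j hj))
  have hU0 : 0 ≤ U := Finset.prod_nonneg fun j hj => (Real.exp_pos _).le.trans (h.upos j hj)
  have hWU : WW X y ≤ U := by
    rw [hWW]
    nlinarith
  have hr := WUp.exp_le_ratio y
  calc WW X y ≤ U := hWU
    _ ≤ V * Real.exp (Real.exp 9) := hU
    _ ≤ (Real.exp C1 * Real.exp (∑ p ∈ PI 0 (y : ℝ), 1 / (p : ℝ)) / Real.log X) *
        Real.exp (Real.exp 9) := mul_le_mul_of_nonneg_right hV (Real.exp_pos _).le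
    _ ≤ (Real.exp C1 * ((primorial y : ℝ) / (primorial y).totient) / Real.log X) *
        Real.exp (Real.exp 9) := by
        apply mul_le_mul_of_nonneg_right _ (Real.exp_pos _).le
        apply div_le_div_of_nonneg_right _ hL.le
        exact mul_le_mul_of_nonneg_left hr (Real.exp_pos _).le
    _ = Real.exp C1 * Real.exp (Real.exp 9) * ((primorial y : ℝ) / (primorial y).totient) /
        Real.log X := by ring

end Pool.Agent.H75.AP
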