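import Pool.Agent.H75.AP.Core
import Pool.Agent.H75.AP.WUp
import Pool.Agent.H75.AP.PrimeAP

/-!
# Module PSTEP (helper75): for a positive proportion of the translates many elements become prime
-/

namespace Pool.Agent.H75.AP

open Finset

/-- `n` is a prime larger than `X ^ (1/50)` -/
def bigp (X n : ℕ) : Prop := n.Prime ∧ (X : ℝ) ^ (1 / 50 : ℝ) < (n : ℝ)

theorem bigp.good {X n : ℕ} (h : bigp X n) : good X n := by
  refine ⟨?_, ?_⟩
  · intro p hp hpn
    have : p = n := (Nat.prime_dvd_prime_iff_eq hp h.1).1 hpn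
    rw [this]; exact h.2
  · rw [ArithmeticFunction.cardFactors_apply_prime h.1]; norm_num

theorem bigp.rough {X n : ℕ} (h : bigp X n) : rough X n := h.good.1

/-- Paley–Zygmund for a finite family of nonnegative reals -/
theorem paley (L : ℕ) (R : ℕ → ℝ) (hR : ∀ l, 0 ≤ R l) (m S : ℝ) (hm : 0 < m) (hS : 0 < S)
    (h1 : L * m ≤ ∑ l ∈ range L, R l) (h2 : ∑ l ∈ range L, (R l) ^ 2 ≤ S * (L * m ^ 2)) :
    1 / (4 * S) * L ≤ (((range L).filter (fun l => m / 2 ≤ R l)).card : ℝ) := by
  classical
  set A := (range L).filter (fun l => m / 2 ≤ R l) with hA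
  have hL0 : (0 : ℝ) ≤ L := by positivity
  have h3 : L * m / 2 ≤ ∑ l ∈ A, R l := by
    have e1 : ∑ l ∈ range L, R l = ∑ l ∈ A, R l +
        ∑ l ∈ (range L).filter (fun l => ¬ m / 2 ≤ R l), R l := by
      rw [hA, sum_filter_add_sum_filter_not]
    have e2 : ∑ l ∈ (range L).filter (fun l => ¬ m / 2 ≤ R l), R l ≤ L * (m / 2) := by
      calc ∑ l ∈ (range L).filter (fun l => ¬ m / 2 ≤ R l), R l ≤
          ∑ _l ∈ (range L).filter (fun l => ¬ m / 2 ≤ R l), (m / 2) := by
            apply sum_le_sum
            intro l hl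
            rw [mem_filter, not_le] at hl
            exact hl.2.le
        _ = (((range L).filter (fun l => ¬ m / 2 ≤ R l)).card : ℝ) * (m / 2) := by
            rw [sum_const, nsmul_eq_mul]
        _ ≤ L * (m / 2) := by
            apply mul_le_mul_of_nonneg_right _ (by positivity)
            have := card_filter_le (range L) (fun l => ¬ m / 2 ≤ R l)
            rw [card_range] at this
            exact_mod_cast this
    linarith
  have h4 : (∑ l ∈ A, R l) ^ 2 ≤ (A.card : ℝ) * (S * (L * m ^ 2)) := by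
    have e2 : (∑ l ∈ A, (1 : ℝ) * R l) ^ 2 ≤ (∑ l ∈ A, (1 : ℝ) ^ 2) * ∑ l ∈ A, (R l) ^ 2 :=
      sum_mul_sq_le_sq_mul_sq A (fun _ => (1 : ℝ)) R
    simp only [one_mul, one_pow, sum_const, nsmul_eq_mul, mul_one] at e2
    refine e2.trans ?_
    apply mul_le_mul_of_nonneg_left _ (by positivity)
    refine le_trans ?_ h2
    apply sum_le_sum_of_subset_of_nonneg (filter_subset _ _)
    intro _ _ _; positivity
  by_cases hL : L = 0
  · rw [hL]; simp
  · have hLpos : (0 : ℝ) < L := by exact_mod_cast Nat.pos_of_ne_zero hL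
    have h5 : (L * m / 2) ^ 2 ≤ (A.card : ℝ) * (S * (L * m ^ 2)) := by
      refine le_trans ?_ h4
      exact pow_le_pow_left₀ (by positivity) h3 2
    have h6 : 0 < S * (L * m ^ 2) := by positivity
    have h7 : 1 / (4 * S) * L = (L * m / 2) ^ 2 / (S * (L * m ^ 2)) := by
      field_simp
      ring
    rw [h7, div_le_iff₀ h6]
    exact h5

open Classical in
theorem core2 : ∃ κ K c δ cp : ℝ, 0 < κ ∧ 0 < K ∧ 0 < c ∧ 0 < δ ∧ δ ≤ 1 ∧ 0 < cp ∧
    ∃ y0 : ℕ, 2 ≤ y0 ∧ ∀ y : ℕ, y0 ≤ y →
    ∃ C : ℝ, 0 < C ∧ ∃ X0 : ℕ, ∀ X : ℕ, X0 ≤ X →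
    c / Real.log X ≤ WW X y ∧ WW X y ≤ C / Real.log X ∧
    (∀ (B : Finset ℕ) (r b L : ℕ), B.Nonempty →
      (∀ x ∈ B, x ≤ X ∧ 1 ≤ x ∧ x ≡ r [MOD primorial y]) → b ≤ primorial y →
      (r + b).Coprime (primorial y) → X ≤ L * primorial y → L * primorial y ≤ X + primorial y →
      (((range L).filter (fun l =>
        ((B.filter (fun x => good X (x + b + primorial y * l))).card : ℝ) <
          WW X y / 2 * B.card)).card : ℝ) ≤
        L * (K * (1 / y + Pair y κ B / (B.card : ℝ) ^ 2 + Real.log X / B.card))) ∧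
    (∀ a a' L : ℕ, a ≠ a' → X ≤ L * primorial y →
      (((range L).filter (fun l => rough X (a + primorial y * l) ∧
        rough X (a' + primorial y * l))).card : ℝ) ≤
        K * (L * (WW X y) ^ 2 * Real.exp (κ * hh y a a'))) ∧
    (∀ (B : Finset ℕ) (r b L : ℕ), B.Nonempty →
      (∀ x ∈ B, x ≤ X ∧ 1 ≤ x ∧ x ≡ r [MOD primorial y]) → b ≤ primorial y →
      (r + b).Coprime (primorial y) → X ≤ L * primorial y → L * primorial y ≤ X + primorial y →
      1 ≤ B.card * WW X y → Pair y κ B ≤ (B.card : ℝ) ^ 2 →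
      δ * L ≤ (((range L).filter (fun l => cp * (WW X y * B.card) ≤
        ((B.filter (fun x => bigp X (x + b + primorial y * l))).card : ℝ))).card : ℝ)) := by
  obtain ⟨κ, K, c, hκ, hK, hc, y0, hy0, H⟩ := core
  obtain ⟨C0, hC0, y1, HW⟩ := WW_upper_abs
  obtain ⟨c1, hc1, HP⟩ := prime_ap
  set c2 := c1 / C0 with hc2
  have hc2pos : 0 < c2 := by positivity
  set S := 3 * K / c2 ^ 2 with hS
  have hSpos : 0 < S := by positivity
  refine ⟨κ, K, c, min 1 (1 / (4 * S)), c2 / 2, hκ, hK, hc, lt_min one_pos (by positivity),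
    min_le_left _ _, by positivity, max y0 y1, le_trans hy0 (le_max_left _ _), ?_⟩
  intro y hy
  obtain ⟨C, hC, X0, HX⟩ := H y (le_trans (le_max_left _ _) hy)
  obtain ⟨X1, HX1⟩ := HW y (le_trans (le_max_right _ _) hy)
  have hQpos : 0 < primorial y := primorial_pos y
  obtain ⟨X2, HX2⟩ := HP (primorial y) hQpos
  refine ⟨C, hC, max (max X0 X1) (max X2 (max 3 (primorial y))), ?_⟩
  intro X hX
  have hX0 : X0 ≤ X := le_trans (le_trans (le_max_left _ _) (le_max_left _ _)) hX
  have hX1 : X1 ≤ X := le_trans (le_trans (le_max_right _ _) (le_max_left _ _)) hX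
  have hX2 : X2 ≤ X := le_trans (le_trans (le_max_left _ _) (le_max_right _ _)) hX
  have hX3 : 3 ≤ X := le_trans (le_trans (le_max_left _ _)
    (le_trans (le_max_right _ _) (le_max_right _ _))) hX
  have hX4 : primorial y ≤ X := le_trans (le_trans (le_max_right _ _)
    (le_trans (le_max_right _ _) (le_max_right _ _))) hX
  obtain ⟨h1, h2, h3, h4, h5⟩ := HX X hX0
  refine ⟨h1, h2, h3, h4, ?_⟩
  intro B r b L hB hBX hb hrb hL hL2 hBW hpair
  set W := WW X y with hW
  set Q := primorial y with hQ
  set n : ℝ := (B.card : ℝ) with hn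
  have hn0 : 0 < n := by rw [hn]; exact_mod_cast hB.card_pos
  have hlog : 1 ≤ Real.log X := by
    rw [Real.le_log_iff_exp_le (by exact_mod_cast (by omega : 0 < X))]
    have : (3 : ℝ) ≤ X := by exact_mod_cast hX3
    linarith [Real.exp_one_lt_three]
  have hlog0 : 0 < Real.log X := by linarith
  have hWpos : 0 < W := lt_of_lt_of_le (by positivity) h1
  have hQR : (0 : ℝ) < Q := by exact_mod_cast hQpos
  have hphi0 : (0 : ℝ) < Q.totient := by exact_mod_cast Nat.totient_pos.2 hQpos
  set R : ℕ → ℝ := fun l => ((B.filter (fun x => bigp X (x + b + Q * l))).card : ℝ) with hR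
  set m0 : ℝ := c1 * ((Q : ℝ) / Q.totient) / Real.log X with hm0
  have hm0pos : 0 < m0 := by positivity
  have hWm : c2 * W ≤ m0 := by
    have := HX1 X hX1
    calc c2 * W ≤ c2 * (C0 * ((Q : ℝ) / Q.totient) / Real.log X) :=
          mul_le_mul_of_nonneg_left this hc2pos.le
      _ = m0 := by rw [hc2, hm0]; field_simp
  have hL0 : (0 : ℝ) ≤ L := by positivity
  -- first moment
  have hfirst : L * (n * m0) ≤ ∑ l ∈ range L, R l := by
    have e3 : ∑ l ∈ range L, R l =
        ∑ x ∈ B, (((range L).filter (fun l => bigp X (x + b + Q * l))).card : ℝ) := by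
      simp only [hR]
      simp_rw [card_filter]
      push_cast
      rw [sum_comm]
    rw [e3]
    calc L * (n * m0) = ∑ _x ∈ B, (L * m0) := by rw [sum_const, nsmul_eq_mul]; ring
      _ ≤ _ := by
          apply sum_le_sum
          intro x hx
          have hx' := hBX x hx
          have hco : (x + b).Coprime Q := by
            have h12 : x + b ≡ r + b [MOD Q] := hx'.2.2.add_right b
            rw [Nat.Coprime, Nat.ModEq.gcd_eq h12]
            exact hrb
          have e4 := HX2 X (x + b) L hX2 (by omega) hco hL hL2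
          have e5 : c1 * ((Q : ℝ) / Q.totient) * L / Real.log X = L * m0 := by
            rw [hm0]; ring
          rw [e5] at e4
          refine e4.trans ?_
          have e6 : (range L).filter (fun l => (x + b + Q * l).Prime ∧
              (X : ℝ) ^ (1 / 50 : ℝ) < ((x + b + Q * l : ℕ) : ℝ)) ⊆
              (range L).filter (fun l => bigp X (x + b + Q * l)) := by
            intro l hl
            rw [mem_filter] at hl ⊢
            exact hl
          exact_mod_cast card_le_card e6
  -- second moment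
  have hsecond : ∑ l ∈ range L, (R l) ^ 2 ≤ 3 * K * (L * (n * W) ^ 2) := by
    have e1 : ∑ l ∈ range L, (R l) ^ 2 ≤
        ∑ x ∈ B, ∑ x' ∈ B, (((range L).filter (fun l => rough X (x + b + Q * l) ∧
          rough X (x' + b + Q * l))).card : ℝ) := by
      have e2 : ∀ l ∈ range L, (R l) ^ 2 ≤ ∑ x ∈ B, ∑ x' ∈ B,
          (if rough X (x + b + Q * l) ∧ rough X (x' + b + Q * l) then (1 : ℝ) else 0) := by
        intro l _
        simp only [hR]
        rw [card_filter]
        push_cast
        rw [pow_two, sum_mul_sum]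
        apply sum_le_sum; intro x _
        apply sum_le_sum; intro x' _
        by_cases g1 : bigp X (x + b + Q * l)
        · by_cases g2 : bigp X (x' + b + Q * l)
          · have : rough X (x + b + Q * l) ∧ rough X (x' + b + Q * l) := ⟨g1.rough, g2.rough⟩
            rw [if_pos g1, if_pos g2, if_pos this, mul_one]
          · rw [if_neg g2, mul_zero]
            split_ifs <;> norm_num
        · rw [if_neg g1, zero_mul]
          split_ifs <;> norm_num
      refine (sum_le_sum e2).trans (le_of_eq ?_)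
      rw [sum_comm]
      apply sum_congr rfl; intro x _
      rw [sum_comm]
      apply sum_congr rfl; intro x' _
      rw [card_filter]
      push_cast
      rfl
    refine e1.trans ?_
    have e3 : ∀ x ∈ B, ∀ x' ∈ B, (((range L).filter (fun l => rough X (x + b + Q * l) ∧
          rough X (x' + b + Q * l))).card : ℝ) ≤
        K * (L * W ^ 2) * (1 + (if x ≠ x' then Real.exp (κ * hh y x x') - 1 else 0)) +
          (if x = x' then K * (L * W) else 0) := by
      intro x _ x' _
      by_cases hxx : x = x'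
      · subst hxx
        simp only [ne_eq, not_true_eq_false, if_false, if_true, add_zero, mul_one, and_self]
        have := h5 (x + b) L hL
        have h6 : 0 ≤ K * (L * W ^ 2) := by positivity
        linarith
      · have := h4 (x + b) (x' + b) L (by omega) hL
        rw [hh_shift] at this
        simp only [ne_eq, hxx, not_false_eq_true, if_true, if_false, add_zero]
        refine this.trans (le_of_eq ?_)
        ring
    refine (sum_le_sum fun x hx => sum_le_sum fun x' hx' => e3 x hx x' hx').trans ?_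
    have e4 : ∀ x ∈ B, ∑ x' ∈ B, (K * (L * W ^ 2) * (1 +
        (if x ≠ x' then Real.exp (κ * hh y x x') - 1 else 0)) +
          (if x = x' then K * (L * W) else 0)) =
        K * (L * W ^ 2) * (n + ∑ x' ∈ B, (if x ≠ x' then Real.exp (κ * hh y x x') - 1 else 0)) +
          K * (L * W) := by
      intro x hx
      rw [sum_add_distrib, ← mul_sum, sum_add_distrib, sum_const, sum_ite_eq, if_pos hx,
        nsmul_eq_mul, mul_one]
    rw [sum_congr rfl e4]
    simp only [sum_add_distrib, ← mul_sum, sum_const, nsmul_eq_mul]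
    rw [← hn]
    have e5 : ∑ x ∈ B, ∑ x' ∈ B, (if x ≠ x' then Real.exp (κ * hh y x x') - 1 else 0) =
      Pair y κ B := rfl
    rw [e5]
    have e6 : K * (L * W ^ 2) * (n * n + Pair y κ B) ≤ K * (L * W ^ 2) * (2 * n ^ 2) := by
      apply mul_le_mul_of_nonneg_left _ (by positivity)
      nlinarith
    have e7 : n * (K * (L * W)) ≤ K * (L * (n * W) ^ 2) := by
      have e8 : (n * W) * 1 ≤ (n * W) * (n * W) := mul_le_mul_of_nonneg_left hBW (by positivity)
      calc n * (K * (L * W)) = K * L * ((n * W) * 1) := by ring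
        _ ≤ K * L * ((n * W) * (n * W)) := mul_le_mul_of_nonneg_left e8 (by positivity)
        _ = _ := by ring
    calc _ ≤ K * (L * W ^ 2) * (2 * n ^ 2) + K * (L * (n * W) ^ 2) := by linarith
      _ = _ := by ring
  have hsecond' : ∑ l ∈ range L, (R l) ^ 2 ≤ S * (L * (n * m0) ^ 2) := by
    refine hsecond.trans ?_
    have e1 : (n * (c2 * W)) ^ 2 ≤ (n * m0) ^ 2 := by
      apply pow_le_pow_left₀ (by positivity)
      exact mul_le_mul_of_nonneg_left hWm hn0.le
    calc 3 * K * (L * (n * W) ^ 2) = S * (L * (n * (c2 * W)) ^ 2) := by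
          rw [hS]; field_simp
      _ ≤ _ := by
          apply mul_le_mul_of_nonneg_left _ hSpos.le
          exact mul_le_mul_of_nonneg_left e1 hL0
  have hpz := paley L R (fun l => by simp only [hR]; positivity) (n * m0) S (by positivity) hSpos
    hfirst hsecond'
  have hsub : (range L).filter (fun l => n * m0 / 2 ≤ R l) ⊆
      (range L).filter (fun l => c2 / 2 * (W * n) ≤ R l) := by
    intro l hl
    rw [mem_filter] at hl ⊢
    refine ⟨hl.1, le_trans ?_ hl.2⟩
    have := mul_le_mul_of_nonneg_left hWm hn0.le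
    linarith
  calc min 1 (1 / (4 * S)) * L ≤ 1 / (4 * S) * L :=
        mul_le_mul_of_nonneg_right (min_le_right _ _) hL0
    _ ≤ _ := hpz
    _ ≤ _ := by exact_mod_cast card_le_card hsub

end Pool.Agent.H75.AP
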