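import Pool.Agent.H75.AP.NumA
import Pool.Agent.H75.AP.NumB
import Pool.Agent.H75.AP.NumC

/-!
# Module PACK (helpwanted): all numerical facts together

`y0` = maximum of the thresholds in `num_block`, `num_top`, and `2`. Put `V = ∏ (if j = 0 then 1 else vv ..)`, `U = ∏ uu`, `τ = ∑ gg/uu ≤ 99/100` (`tau_le`).
`V ≤ U` (`vprod_le`), `U ≤ V exp (exp 9)` (`uprod_le`), `WW = U (1 - τ) ≥ U / 100 ≥ V / 100 ≥ (c/100) / log X` (`vprod_lower`; the final `c` is `c/100`), and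
`WW ≤ U ≤ exp (exp 9) C / log X` (`τ ≥ 0` as `gg, uu ≥ 0`); `WW ≤ 1` for `X` large from this bound. `uprod`, `vprod`: `U ≤ 100 WW`, `V ≤ U ≤ 100 WW`.
`upos`: `uu X y 0 = 1 ≥ exp (-11/10)`, `uu X y j ≥ vv ≥ exp (-11/10)`.
`err`: `(JJ X + 1)^2 X^(98/100) ≤ X / Q * (c/log X)^2 / y` for `X ≥ X0(y)`: `JJ X + 1 ≤ 2 log log X + 4 ≤ 5 log X`, so it suffices that
`25 (log X)^4 * Q * y / c^2 ≤ X^(2/100)` (`isLittleO_log_rpow_atTop` / `Real.isLittleO_pow_log_id_atTop`).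
`cover`: `TT_cover`.
-/

namespace Pool.Agent.H75.AP

open Finset

open Filter in
theorem eventually_pow_log_le (K : ℝ) :
    ∀ᶠ X : ℕ in atTop, K * (Real.log (X : ℝ)) ^ 4 ≤ (X : ℝ) ^ (1 / 50 : ℝ) := by
  have hK : (0 : ℝ) < |K| + 1 := by positivity
  have h1 := (isLittleO_log_rpow_rpow_atTop (s := 1 / 50) (4 : ℝ) (by norm_num)).comp_tendsto
    tendsto_natCast_atTop_atTop
  have h2 := h1.def (c := 1 / (|K| + 1)) (by positivity)
  filter_upwards [h2] with X hX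
  simp only [Function.comp_apply, Real.norm_eq_abs] at hX
  rw [show (4 : ℝ) = ((4 : ℕ) : ℝ) by norm_num, Real.rpow_natCast,
    abs_of_nonneg (Real.rpow_nonneg (Nat.cast_nonneg X) _)] at hX
  have h3 : (0 : ℝ) ≤ Real.log (X : ℝ) ^ 4 := by positivity
  rw [abs_of_nonneg h3] at hX
  calc K * Real.log (X : ℝ) ^ 4 ≤ (|K| + 1) * Real.log (X : ℝ) ^ 4 :=
        mul_le_mul_of_nonneg_right ((le_abs_self K).trans (by linarith)) h3
    _ ≤ (|K| + 1) * (1 / (|K| + 1) * (X : ℝ) ^ (1 / 50 : ℝ)) :=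
        mul_le_mul_of_nonneg_left hX hK.le
    _ = (X : ℝ) ^ (1 / 50 : ℝ) := by field_simp

theorem JJ_add_one_le (X : ℕ) (h : 1 ≤ Real.log X) : (JJ X : ℝ) + 1 ≤ 4 * Real.log X := by
  unfold JJ
  have h0 : 0 ≤ 2 * Real.log (Real.log X) := mul_nonneg (by norm_num) (Real.log_nonneg h)
  have h1 := Nat.ceil_lt_add_one h0
  have h2 := Real.log_le_sub_one_of_pos (zero_lt_one.trans_le h)
  push_cast
  linarith

open Filter in
theorem package : ∃ c : ℝ, 0 < c ∧ ∃ y0 : ℕ, ∀ y : ℕ, y0 ≤ y → ∃ C : ℝ, 0 < C ∧ ∃ X0 : ℕ,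
    ∀ X : ℕ, X0 ≤ X → Pk c C X y := by
  obtain ⟨y1, hy1⟩ := num_block
  obtain ⟨y2, hy2⟩ := num_top
  obtain ⟨c0, hc0, hlow⟩ := vprod_lower
  obtain ⟨X5, hX5⟩ := TT_cover
  refine ⟨c0 / 100, by positivity, max (max y1 y2) 2, fun y hy => ?_⟩
  have hyy1 : y1 ≤ y := ((le_max_left _ _).trans (le_max_left _ _)).trans hy
  have hyy2 : y2 ≤ y := ((le_max_right _ _).trans (le_max_left _ _)).trans hy
  have hy2' : 2 ≤ y := (le_max_right _ _).trans hy
  obtain ⟨X2, hX2⟩ := hy2 y hyy2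
  obtain ⟨X3, hX3⟩ := hlow y (by omega)
  obtain ⟨C0, hC0, X4, hX4⟩ := vprod_upper y (by omega)
  have hCpos : 0 < C0 * Real.exp (Real.exp 9) := by positivity
  have hlog : Tendsto (fun X : ℕ => Real.log (X : ℝ)) atTop atTop :=
    Real.tendsto_log_atTop.comp tendsto_natCast_atTop_atTop
  have hrp : Tendsto (fun X : ℕ => (X : ℝ) ^ (1 / 50 : ℝ)) atTop atTop :=
    (tendsto_rpow_atTop (by norm_num)).comp tendsto_natCast_atTop_atTop
  refine ⟨C0 * Real.exp (Real.exp 9), hCpos, ?_⟩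
  rw [← Filter.eventually_atTop]
  filter_upwards [eventually_ge_atTop X2, eventually_ge_atTop X3, eventually_ge_atTop X4,
    eventually_ge_atTop X5, eventually_ge_atTop 1, hlog.eventually_ge_atTop 1,
    hrp.eventually_ge_atTop (y : ℝ), hlog.eventually_ge_atTop (C0 * Real.exp (Real.exp 9)),
    eventually_pow_log_le (16 * primorial y * y / (c0 / 100) ^ 2)]
    with X e2 e3 e4 e5 e6 e7 e8 e9 e10
  have hL : 0 < Real.log (X : ℝ) := zero_lt_one.trans_le e7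
  have h1 : ∀ j, 1 ≤ j → lam (TT X y j) ≤ 10992 / 10000 ∧ Real.exp (-(11 / 10)) ≤ vv (TT X y j) :=
    fun j hj => hy1 y hyy1 X e6 j hj
  have htop := hX2 X e2
  have htau := tau_le X y htop.2 h1
  have hV1 := hX3 X e3
  have hV2 := hX4 X e4
  have hVU := vprod_le X y h1
  have hUV := uprod_le X y h1
  set V := ∏ j ∈ range (JJ X), (if j = 0 then 1 else vv (TT X y j)) with hV
  set U := ∏ j ∈ range (JJ X), uu X y j with hU
  set τ := ∑ j ∈ range (JJ X), gg X y j / uu X y j with hτ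
  have hWW : WW X y = U * (1 - τ) := rfl
  have hupos : ∀ j ∈ range (JJ X), Real.exp (-(11 / 10)) ≤ uu X y j := by
    intro j _
    by_cases hj : j = 0
    · rw [hj, uu_zero]
      exact Real.exp_le_one_iff.2 (by norm_num)
    · have hj' : 1 ≤ j := Nat.one_le_iff_ne_zero.2 hj
      exact (h1 j hj').2.trans (uu_ge X y j hj')
  have hτ0 : 0 ≤ τ := Finset.sum_nonneg fun j hj =>
    div_nonneg (gg_nonneg X y j) ((Real.exp_pos _).le.trans (hupos j hj))
  have hVpos : 0 < V := lt_of_lt_of_le (by positivity) hV1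
  have hUpos : 0 < U := hVpos.trans_le hVU
  have hUW : U ≤ 100 * WW X y := by
    rw [hWW]
    nlinarith
  have hWU : WW X y ≤ U := by
    rw [hWW]
    nlinarith
  have hwlo : c0 / 100 / Real.log X ≤ WW X y := by
    have h2 : c0 / Real.log X ≤ 100 * WW X y := hV1.trans (hVU.trans hUW)
    have h3 : c0 / 100 / Real.log X = c0 / Real.log X / 100 := by ring
    rw [h3]
    linarith
  have hwpos : 0 < WW X y := lt_of_lt_of_le (by positivity) hwlo
  have hwhi : WW X y ≤ C0 * Real.exp (Real.exp 9) / Real.log X := by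
    refine hWU.trans (hUV.trans ((mul_le_mul_of_nonneg_right hV2 (Real.exp_pos _).le).trans
      (le_of_eq ?_)))
    ring
  refine ⟨hy2', e6, by positivity, hCpos, e7, e8, hwlo, hwhi, hwpos,
    hwhi.trans ((div_le_one hL).2 e9), hupos, fun j _ => gg_nonneg X y j, htau, htop.1, h1, hUW,
    hVU.trans hUW, ?_, hX5 X e5 y⟩
  -- the error term
  have hXpos : (0 : ℝ) < X := by exact_mod_cast e6
  have hyp : (0 : ℝ) < y := by
    have : 0 < y := by omega
    exact_mod_cast this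
  have hP : (0 : ℝ) < (primorial y : ℝ) := by exact_mod_cast primorial_pos y
  have hJ := JJ_add_one_le X e7
  have hJ0 : (0 : ℝ) ≤ (JJ X : ℝ) + 1 := by positivity
  have hX98 : (0 : ℝ) < (X : ℝ) ^ (98 / 100 : ℝ) := Real.rpow_pos_of_pos hXpos _
  have hsplit : (X : ℝ) = (X : ℝ) ^ (98 / 100 : ℝ) * (X : ℝ) ^ (1 / 50 : ℝ) := by
    rw [← Real.rpow_add hXpos]
    norm_num
  have hW2 : (c0 / 100) ^ 2 / Real.log X ^ 2 ≤ (WW X y) ^ 2 := by
    rw [← div_pow]
    exact pow_le_pow_left₀ (by positivity) hwlo 2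
  have key : ((JJ X : ℝ) + 1) ^ 2 ≤ (X : ℝ) ^ (1 / 50 : ℝ) / primorial y * (WW X y) ^ 2 / y := by
    calc ((JJ X : ℝ) + 1) ^ 2 ≤ (4 * Real.log X) ^ 2 := pow_le_pow_left₀ hJ0 hJ 2
      _ = (16 * primorial y * y / (c0 / 100) ^ 2 * Real.log X ^ 4) / primorial y
          * ((c0 / 100) ^ 2 / Real.log X ^ 2) / y := by
          field_simp
          ring
      _ ≤ (X : ℝ) ^ (1 / 50 : ℝ) / primorial y * (WW X y) ^ 2 / y := by
          refine div_le_div_of_nonneg_right ?_ hyp.le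
          exact mul_le_mul (div_le_div_of_nonneg_right e10 hP.le) hW2 (by positivity)
            (by positivity)
  calc ((JJ X : ℝ) + 1) ^ 2 * (X : ℝ) ^ (98 / 100 : ℝ)
      ≤ ((X : ℝ) ^ (1 / 50 : ℝ) / primorial y * (WW X y) ^ 2 / y) * (X : ℝ) ^ (98 / 100 : ℝ) :=
        mul_le_mul_of_nonneg_right key hX98.le
    _ = ((X : ℝ) ^ (98 / 100 : ℝ) * (X : ℝ) ^ (1 / 50 : ℝ)) / primorial y * (WW X y) ^ 2 / y := by
        ring
    _ = (X : ℝ) / primorial y * (WW X y) ^ 2 / y := by rw [← hsplit]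

end Pool.Agent.H75.AP
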