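import Pool.Agent.H75.AP.MertensB

/-!
# Module PAIRGEN (helpwanted): pair sums of well distributed sets

Let `n = |B|`, `z = (log n)^2`. Fix `x ∈ B`. For `x' ≠ x` in `B` let `d = |x - x'|`, `1 ≤ d ≤ n^4`. The primes `p > z` dividing `d` are at most `log d / log 2 ≤ 6 log n`
in number, so they contribute at most `6 log n / z = 6 / log n` to `hh y x x'`. With
`F(x') = ∏_{p ∣ d, y < p ≤ z} exp (κ/p) = ∑_{g} ∏_{p ∣ g} (exp (κ/p) - 1)` over the squarefree `g ∣ d` whose primes lie in `(y, z]`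
(i.e. over the subsets `S` of `{y < p ≤ z}`, `p ∣ d` for all `p ∈ S`, `g = ∏ S`; `Finset.prod_one_add`), `exp (κ hh) - 1 ≤ exp (6κ/log n) F - 1 ≤ 2 (F - 1) + (exp (6κ/log n) - 1)`
(if `exp (6κ/log n) ≤ 2`), the last term is `≤ 1/y` for `n ≥ N0(y)`.
`exp (κ/p) - 1 ≤ 2κ/p` for `p > y ≥ κ`. Summing over `x'` and using the hypothesis (`g > 1`):
`∑_{x'} (F - 1) ≤ ∑_{∅ ≠ S} ∏_{p ∈ S} (2κ/p) * K1 A^|S| (n / ∏ S + n^(2/3))
 ≤ K1 n (∏_{p > y} (1 + 2κA/p^2) - 1) + K1 n^(2/3) ∏_{p ≤ z} (1 + 2κA/p)`.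
First product: `≤ exp (2κA/y) - 1 ≤ 4κA/y` for `y ≥ 2κA` (`∑_{p > y} 1/p^2 ≤ 1/y`). Second: `≤ exp (2κA (log log z + C)) = (log z)^(2κA) e^(..)` (`mertens_upper`), which is
`≤ n^(1/3)/ y` for `n ≥ N0(y)` (a power of `log log n`; a cruder bound `∑_{p ≤ z} 1/p ≤ 1 + log z` gives a power of `log n`, also fine).
Total `Pair ≤ n * (2 (4κA K1 + K1)/y * n + n/y) ≤ (K/y) n^2` with `K = 8κA K1 + 2 K1 + 1`.
`ω(g)` = `g.primeFactors.card`.
-/

namespace Pool.Agent.H75.AP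

open Finset

/-- the primes `p` with `y < p ≤ Z` -/
def pgT (y Z : ℕ) : Finset ℕ := (range (Z + 1)).filter (fun p => p.Prime ∧ y < p)

theorem pg_mem (y Z p : ℕ) : p ∈ pgT y Z ↔ p ≤ Z ∧ p.Prime ∧ y < p := by
  unfold pgT
  rw [mem_filter, mem_range, Nat.lt_succ_iff]

theorem pg_sum_inv (y Z : ℕ) : ∑ p ∈ pgT y Z, 1 / (p : ℝ) ≤ 1 + Real.log Z := by
  have h1 := harmonic_le_one_add_log Z
  refine le_trans ?_ h1
  unfold harmonic
  push_cast
  have h2 : ∑ p ∈ pgT y Z, 1 / (p : ℝ) = ∑ p ∈ pgT y Z, (((p - 1 : ℕ) : ℝ) + 1)⁻¹ := by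
    refine Finset.sum_congr rfl ?_
    intro p hp
    have hp1 := ((pg_mem y Z p).1 hp).2.1.one_lt
    rw [one_div]
    congr 1
    rw [Nat.cast_sub hp1.le]; push_cast; ring
  rw [h2]
  have h3 : ∑ p ∈ pgT y Z, (((p - 1 : ℕ) : ℝ) + 1)⁻¹ =
      ∑ q ∈ (pgT y Z).image (fun p : ℕ => (p - 1 : ℕ)), (((q : ℕ) : ℝ) + 1)⁻¹ := by
    rw [Finset.sum_image]
    intro p hp q hq hpq
    have hp1 := ((pg_mem y Z p).1 hp).2.1.one_lt
    have hq1 := ((pg_mem y Z q).1 hq).2.1.one_lt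
    simp only at hpq
    omega
  rw [h3]
  refine Finset.sum_le_sum_of_subset_of_nonneg ?_ ?_
  · intro q hq
    obtain ⟨p, hp, rfl⟩ := Finset.mem_image.1 hq
    have hp1 := ((pg_mem y Z p).1 hp)
    have := hp1.2.1.one_lt
    rw [mem_range]; omega
  · intro q _ _; positivity

theorem pg_sum_inv_sq (y Z : ℕ) (hy : 1 ≤ y) : ∑ p ∈ pgT y Z, 1 / (p : ℝ) ^ 2 ≤ 1 / (y : ℝ) := by
  rcases le_or_gt y Z with h | h
  · have h1 := sum_Ioc_inv_sq_le_sub (α := ℝ) (by omega : y ≠ 0) h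
    have h2 : ∑ p ∈ pgT y Z, 1 / (p : ℝ) ^ 2 ≤ ∑ i ∈ Ioc y Z, ((i : ℝ) ^ 2)⁻¹ := by
      simp_rw [one_div]
      refine Finset.sum_le_sum_of_subset_of_nonneg ?_ ?_
      · intro p hp
        have := (pg_mem y Z p).1 hp
        exact Finset.mem_Ioc.2 ⟨this.2.2, this.1⟩
      · intro q _ _; positivity
    have h3 : (0 : ℝ) ≤ (Z : ℝ)⁻¹ := by positivity
    rw [one_div]
    linarith
  · have h1 : pgT y Z = ∅ := by
      rw [Finset.eq_empty_iff_forall_notMem]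
      intro p hp
      have := (pg_mem y Z p).1 hp
      omega
    rw [h1, Finset.sum_empty]; positivity

theorem pg_card_primeFactors (d : ℕ) (hd : 1 ≤ d) :
    (d.primeFactors.card : ℝ) * Real.log 2 ≤ Real.log d := by
  have h1 : 2 ^ d.primeFactors.card ≤ d := by
    have h2 : 2 ^ d.primeFactors.card ≤ ∏ p ∈ d.primeFactors, p :=
      Finset.pow_card_le_prod _ _ _ (fun p hp => (Nat.prime_of_mem_primeFactors hp).two_le)
    exact h2.trans (Nat.le_of_dvd hd (Nat.prod_primeFactors_dvd d))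
  have h3 : (2 : ℝ) ^ d.primeFactors.card ≤ d := by exact_mod_cast h1
  rw [← Real.log_pow]
  exact Real.log_le_log (by positivity) h3

theorem pg_hh (n y x x' Z : ℕ) (hx : x ≤ n ^ 4) (hx' : x' ≤ n ^ 4) (hne : x ≠ x')
    (hL : 1 ≤ Real.log n) (hZ : (Real.log n) ^ 2 ≤ (Z : ℝ) + 1) :
    hh y x x' ≤ ∑ p ∈ (pgT y Z).filter (fun p : ℕ => (p : ℤ) ∣ (x : ℤ) - (x' : ℤ)), 1 / (p : ℝ) +
      6 / Real.log n := by
  set L := Real.log n with hLdef
  have hn : 1 ≤ n := by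
    by_contra h
    have h0 : n = 0 := by omega
    rw [hLdef, h0] at hL
    simp at hL
    linarith
  set d := ((x : ℤ) - (x' : ℤ)).natAbs with hd
  have hd1 : 1 ≤ d := by omega
  have hdn : d ≤ n ^ 4 := by
    rw [hd]
    omega
  have hlogd : Real.log d ≤ 4 * L := by
    have h1 : (d : ℝ) ≤ (n : ℝ) ^ 4 := by exact_mod_cast hdn
    have h2 := Real.log_le_log (by exact_mod_cast hd1) h1
    rw [Real.log_pow] at h2
    push_cast at h2
    exact h2
  have hcard := pg_card_primeFactors d hd1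
  have hlog2 : (0.6931471803 : ℝ) < Real.log 2 := Real.log_two_gt_d9
  have hcard6 : (d.primeFactors.card : ℝ) ≤ 6 * L := by
    have h0 : (0 : ℝ) ≤ (d.primeFactors.card : ℝ) := Nat.cast_nonneg _
    nlinarith
  unfold hh
  rw [← hd, ← Finset.sum_filter_add_sum_filter_not (d.primeFactors.filter (y < ·)) (fun p => p ≤ Z)]
  refine add_le_add ?_ ?_
  · refine Finset.sum_le_sum_of_subset_of_nonneg ?_ ?_
    · intro p hp
      rw [Finset.mem_filter, Finset.mem_filter] at hp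
      obtain ⟨⟨hp1, hp2⟩, hp3⟩ := hp
      rw [Finset.mem_filter, pg_mem]
      refine ⟨⟨hp3, Nat.prime_of_mem_primeFactors hp1, hp2⟩, ?_⟩
      rw [Int.natCast_dvd]
      exact Nat.dvd_of_mem_primeFactors hp1
    · intro q _ _; positivity
  · have h1 : ∀ p ∈ (d.primeFactors.filter (y < ·)).filter (fun p => ¬ p ≤ Z),
        1 / (p : ℝ) ≤ 1 / L ^ 2 := by
      intro p hp
      have hp' := (Finset.mem_filter.1 hp).2
      have h2 : (Z : ℝ) + 1 ≤ p := by exact_mod_cast (by omega : Z + 1 ≤ p)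
      exact one_div_le_one_div_of_le (by positivity) (hZ.trans h2)
    have h2 := Finset.sum_le_sum h1
    rw [Finset.sum_const, nsmul_eq_mul] at h2
    refine h2.trans ?_
    have h3 : (((d.primeFactors.filter (y < ·)).filter (fun p => ¬ p ≤ Z)).card : ℝ)
        ≤ 6 * L := by
      refine le_trans ?_ hcard6
      exact_mod_cast (Finset.card_filter_le _ _).trans (Finset.card_filter_le _ _)
    have hLpos : 0 < L := by linarith
    calc (((d.primeFactors.filter (y < ·)).filter (fun p => ¬ p ≤ Z)).card : ℝ) * (1 / L ^ 2)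
        ≤ (6 * L) * (1 / L ^ 2) := by
          apply mul_le_mul_of_nonneg_right h3 (by positivity)
      _ = 6 / L := by field_simp

theorem pg_exp (κ : ℝ) (hκ : 0 < κ) (y : ℕ) (hy : κ ≤ y) (T : Finset ℕ)
    (hT : ∀ p ∈ T, y < p) :
    Real.exp (κ * ∑ p ∈ T, 1 / (p : ℝ)) ≤ ∏ p ∈ T, (1 + 2 * κ / (p : ℝ)) := by
  rw [Finset.mul_sum, Real.exp_sum]
  refine Finset.prod_le_prod (fun p _ => (Real.exp_pos _).le) ?_
  intro p hp
  have h1 : (y : ℝ) < p := by exact_mod_cast hT p hp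
  have hp0 : (0 : ℝ) < p := by linarith [hκ, hy]
  have h2 : κ * (1 / (p : ℝ)) ≤ 1 := by
    rw [mul_one_div, div_le_one hp0]; linarith
  have h3 : 0 ≤ κ * (1 / (p : ℝ)) := by positivity
  have h4 := Real.abs_exp_sub_one_le (x := κ * (1 / (p : ℝ))) (by rw [abs_of_nonneg h3]; exact h2)
  rw [abs_of_nonneg h3] at h4
  have h5 := (abs_le.1 h4).2
  have h6 : 2 * (κ * (1 / (p : ℝ))) = 2 * κ / (p : ℝ) := by ring
  linarith

theorem pg_double (B T : Finset ℕ) (q : ℕ → ℕ → Prop) [∀ x p, Decidable (q x p)]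
    (c : ℕ → ℝ) :
    ∑ x ∈ B, (∏ p ∈ T.filter (q x), (1 + c p) - 1) =
      ∑ S ∈ T.powerset.erase ∅, (∏ p ∈ S, c p) * ((B.filter (fun x => ∀ p ∈ S, q x p)).card : ℝ) := by
  classical
  have h1 : ∀ x, ∏ p ∈ T.filter (q x), (1 + c p) - 1 =
      ∑ S ∈ T.powerset.erase ∅, (∏ p ∈ S, c p) * (if ∀ p ∈ S, q x p then 1 else 0) := by
    intro x
    have h2 : ∏ p ∈ T.filter (q x), (1 + c p) =
        ∑ S ∈ T.powerset, (∏ p ∈ S, c p) * (if ∀ p ∈ S, q x p then 1 else 0) := by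
      rw [Finset.prod_one_add]
      have h3 : (T.filter (q x)).powerset = T.powerset.filter (fun S => ∀ p ∈ S, q x p) := by
        ext S
        rw [Finset.mem_powerset, Finset.mem_filter, Finset.mem_powerset]
        constructor
        · intro h
          exact ⟨fun p hp => (Finset.mem_filter.1 (h hp)).1,
            fun p hp => (Finset.mem_filter.1 (h hp)).2⟩
        · rintro ⟨h, h'⟩ p hp
          exact Finset.mem_filter.2 ⟨h hp, h' p hp⟩
      rw [h3, Finset.sum_filter]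
      refine Finset.sum_congr rfl ?_
      intro S _
      by_cases h : ∀ p ∈ S, q x p
      · rw [if_pos h, if_pos h, mul_one]
      · rw [if_neg h, if_neg h, mul_zero]
    rw [h2, ← Finset.add_sum_erase _ _ (Finset.empty_mem_powerset T)]
    simp
  simp_rw [h1]
  rw [Finset.sum_comm]
  refine Finset.sum_congr rfl ?_
  intro S _
  rw [← Finset.mul_sum]
  congr 1
  rw [Finset.sum_boole]

theorem pg_sum_powerset (T : Finset ℕ) (b : ℕ → ℝ) :
    ∑ S ∈ T.powerset.erase ∅, ∏ p ∈ S, b p = ∏ p ∈ T, (1 + b p) - 1 := by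
  rw [Finset.prod_one_add, ← Finset.add_sum_erase _ _ (Finset.empty_mem_powerset T)]
  simp

theorem pg_squarefree (S : Finset ℕ) (hS : ∀ p ∈ S, p.Prime) : Squarefree (∏ p ∈ S, p) := by
  refine Finset.squarefree_prod_of_pairwise_isCoprime (fun p hp q hq hpq => ?_)
    (fun p hp => (hS p hp).squarefree)
  exact Nat.coprime_iff_isRelPrime.1 ((Nat.coprime_primes (hS p hp) (hS q hq)).2 hpq)

/-- the main estimate for one `x` -/
theorem pg_row (κ K1 A : ℝ) (hκ : 0 < κ) (hK1 : 0 < K1) (hA : 1 ≤ A) (y : ℕ) (hy1 : 1 ≤ y)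
    (hy : κ ≤ y) (hy2 : 2 * κ * A ≤ y) (B : Finset ℕ) (x : ℕ) (hxB : x ∈ B)
    (hL : 1 ≤ Real.log B.card)
    (hB : ∀ x ∈ B, x ≤ B.card ^ 4)
    (hg : ∀ g : ℕ, Squarefree g → 1 < g → (∀ p : ℕ, p.Prime → p ∣ g → y < p) →
      (((B.filter (fun x' => x' ≠ x ∧ (g : ℤ) ∣ (x : ℤ) - (x' : ℤ))).card : ℕ) : ℝ) ≤
        K1 * A ^ g.primeFactors.card * ((B.card : ℝ) / g + (B.card : ℝ) ^ (2 / 3 : ℝ)))
    (hδ : Real.exp (6 * κ / Real.log B.card) - 1 ≤ 1 / y)
    (hbig : K1 * (B.card : ℝ) ^ (2 / 3 : ℝ) *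
      Real.exp (2 * κ * A * (1 + 2 * Real.log (Real.log B.card))) ≤ (B.card : ℝ) / y) :
    ∑ x' ∈ B, (if x ≠ x' then Real.exp (κ * hh y x x') - 1 else 0) ≤
      (4 * (2 * κ * A) * K1 + 3) / y * (B.card : ℝ) := by
  classical
  set n := B.card with hn
  set L := Real.log n with hLdef
  set Z := ⌊L ^ 2⌋₊ with hZdef
  have hLpos : 0 < L := by linarith
  have hypos : (0 : ℝ) < y := by exact_mod_cast hy1
  have hZ : L ^ 2 ≤ (Z : ℝ) + 1 := (Nat.lt_floor_add_one (L ^ 2)).le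
  set δ := Real.exp (6 * κ / L) - 1 with hδdef
  have hδ0 : 0 ≤ δ := by
    have : 1 ≤ Real.exp (6 * κ / L) := Real.one_le_exp (by positivity)
    linarith
  have hδ1 : δ ≤ 1 := by
    have h1 : (1 : ℝ) / y ≤ 1 := by
      rw [div_le_one hypos]; exact_mod_cast hy1
    linarith
  set T := pgT y Z with hT
  have hTp : ∀ p ∈ T, p.Prime := fun p hp => ((pg_mem y Z p).1 hp).2.1
  have hTy : ∀ p ∈ T, y < p := fun p hp => ((pg_mem y Z p).1 hp).2.2
  let q : ℕ → ℕ → Prop := fun x' p => (p : ℤ) ∣ (x : ℤ) - (x' : ℤ)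
  -- pointwise bound
  have hpt : ∀ x' ∈ B.erase x, Real.exp (κ * hh y x x') - 1 ≤
      2 * (∏ p ∈ T.filter (q x'), (1 + 2 * κ / (p : ℝ)) - 1) + δ := by
    intro x' hx'
    have hx'B := Finset.mem_of_mem_erase hx'
    have hne : x ≠ x' := (Finset.ne_of_mem_erase hx').symm
    have h1 := pg_hh n y x x' Z (hB x hxB) (hB x' hx'B) hne hL hZ
    have h2 := pg_exp κ hκ y hy (T.filter (q x')) (fun p hp => hTy p (Finset.mem_filter.1 hp).1)
    set F := ∏ p ∈ T.filter (q x'), (1 + 2 * κ / (p : ℝ)) with hF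
    have hF1 : 1 ≤ F := by
      refine le_trans ?_ h2
      apply Real.one_le_exp
      apply mul_nonneg hκ.le
      exact Finset.sum_nonneg (fun p _ => by positivity)
    have h3 : Real.exp (κ * hh y x x') ≤ (1 + δ) * F := by
      calc Real.exp (κ * hh y x x')
          ≤ Real.exp (κ * (∑ p ∈ T.filter (q x'), 1 / (p : ℝ) + 6 / L)) := by
            apply Real.exp_le_exp.2
            exact mul_le_mul_of_nonneg_left h1 hκ.le
        _ = Real.exp (6 * κ / L) * Real.exp (κ * ∑ p ∈ T.filter (q x'), 1 / (p : ℝ)) := by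
            rw [← Real.exp_add]
            congr 1
            ring
        _ ≤ (1 + δ) * F := by
            rw [hδdef]
            have h4 : 1 + (Real.exp (6 * κ / L) - 1) = Real.exp (6 * κ / L) := by ring
            rw [h4]
            exact mul_le_mul_of_nonneg_left h2 (Real.exp_pos _).le
    nlinarith
  -- summation
  have hsum1 : ∑ x' ∈ B, (if x ≠ x' then Real.exp (κ * hh y x x') - 1 else 0) =
      ∑ x' ∈ B.erase x, (Real.exp (κ * hh y x x') - 1) := by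
    rw [← Finset.add_sum_erase _ _ hxB]
    simp only [ne_eq, not_true_eq_false, if_false, zero_add]
    refine Finset.sum_congr rfl ?_
    intro x' hx'
    rw [if_pos (Finset.ne_of_mem_erase hx').symm]
  rw [hsum1]
  refine (Finset.sum_le_sum hpt).trans ?_
  rw [Finset.sum_add_distrib, ← Finset.mul_sum,
    pg_double (B.erase x) T q (fun p => 2 * κ / (p : ℝ)), Finset.sum_const, nsmul_eq_mul]
  have hcardle : ((B.erase x).card : ℝ) ≤ n := by
    exact_mod_cast Finset.card_erase_le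
  have hn0 : (0 : ℝ) ≤ n := Nat.cast_nonneg _
  -- main sum
  set a := 2 * κ * A with ha
  have ha0 : 0 < a := by rw [ha]; positivity
  have hterm : ∀ S ∈ T.powerset.erase ∅, (∏ p ∈ S, (2 * κ / (p : ℝ))) *
      (((B.erase x).filter (fun x' => ∀ p ∈ S, q x' p)).card : ℝ) ≤
      K1 * (n * ∏ p ∈ S, (a / (p : ℝ) ^ 2)) +
        K1 * ((n : ℝ) ^ (2 / 3 : ℝ) * ∏ p ∈ S, (a / (p : ℝ))) := by
    intro S hS
    have hSne : S ≠ ∅ := Finset.ne_of_mem_erase hS
    have hST : S ⊆ T := Finset.mem_powerset.1 (Finset.mem_of_mem_erase hS)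
    have hSp : ∀ p ∈ S, p.Prime := fun p hp => hTp p (hST hp)
    set g := ∏ p ∈ S, p with hgdef
    have hgpf : g.primeFactors = S := Nat.primeFactors_prod hSp
    have hgsq : Squarefree g := pg_squarefree S hSp
    have hg0 : g ≠ 0 := hgsq.ne_zero
    have hg1 : 1 < g := by
      rcases Finset.nonempty_iff_ne_empty.2 hSne with ⟨p, hp⟩
      have h1 : p ∣ g := Finset.dvd_prod_of_mem _ hp
      exact lt_of_lt_of_le (hSp p hp).one_lt (Nat.le_of_dvd (Nat.pos_of_ne_zero hg0) h1)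
    have hgy : ∀ p : ℕ, p.Prime → p ∣ g → y < p := by
      intro p hp hpg
      have h1 : p ∈ g.primeFactors := Nat.mem_primeFactors.2 ⟨hp, hpg, hg0⟩
      rw [hgpf] at h1
      exact hTy p (hST h1)
    have hcount := hg g hgsq hg1 hgy
    rw [hgpf] at hcount
    have hsub : (B.erase x).filter (fun x' => ∀ p ∈ S, q x' p) ⊆
        B.filter (fun x' => x' ≠ x ∧ (g : ℤ) ∣ (x : ℤ) - (x' : ℤ)) := by
      intro x' hx'
      rw [Finset.mem_filter] at hx' ⊢
      refine ⟨Finset.mem_of_mem_erase hx'.1, Finset.ne_of_mem_erase hx'.1, ?_⟩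
      rw [Int.natCast_dvd]
      refine Finset.prod_primes_dvd _ (fun p hp => (hSp p hp).prime) ?_
      intro p hp
      rw [← Int.natCast_dvd]
      exact hx'.2 p hp
    have hc1 : (((B.erase x).filter (fun x' => ∀ p ∈ S, q x' p)).card : ℝ) ≤
        K1 * A ^ S.card * ((n : ℝ) / g + (n : ℝ) ^ (2 / 3 : ℝ)) := by
      refine le_trans ?_ hcount
      exact_mod_cast Finset.card_le_card hsub
    have hprod0 : 0 ≤ ∏ p ∈ S, (2 * κ / (p : ℝ)) := Finset.prod_nonneg (fun p _ => by positivity)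
    refine (mul_le_mul_of_nonneg_left hc1 hprod0).trans (le_of_eq ?_)
    have hgc : (g : ℝ) = ∏ p ∈ S, (p : ℝ) := by rw [hgdef]; push_cast; rfl
    have hAc : A ^ S.card = ∏ _p ∈ S, A := by rw [Finset.prod_const]
    have e1 : (∏ p ∈ S, (2 * κ / (p : ℝ))) * A ^ S.card = ∏ p ∈ S, (a / (p : ℝ)) := by
      rw [hAc, ← Finset.prod_mul_distrib]
      refine Finset.prod_congr rfl ?_
      intro p _
      rw [ha]; ring
    have e2 : (∏ p ∈ S, (a / (p : ℝ))) / g = ∏ p ∈ S, (a / (p : ℝ) ^ 2) := by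
      rw [hgc, ← Finset.prod_div_distrib]
      refine Finset.prod_congr rfl ?_
      intro p _
      rw [div_div]; ring_nf
    calc (∏ p ∈ S, (2 * κ / (p : ℝ))) *
          (K1 * A ^ S.card * ((n : ℝ) / g + (n : ℝ) ^ (2 / 3 : ℝ)))
        = K1 * (n * (((∏ p ∈ S, (2 * κ / (p : ℝ))) * A ^ S.card) / g)) +
          K1 * ((n : ℝ) ^ (2 / 3 : ℝ) * ((∏ p ∈ S, (2 * κ / (p : ℝ))) * A ^ S.card)) := by ring
      _ = _ := by rw [e1, e2]
  have hsum2 := Finset.sum_le_sum hterm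
  rw [Finset.sum_add_distrib, ← Finset.mul_sum, ← Finset.mul_sum, ← Finset.mul_sum,
    ← Finset.mul_sum, pg_sum_powerset, pg_sum_powerset] at hsum2
  -- the two products
  have hP1 : ∏ p ∈ T, (1 + a / (p : ℝ) ^ 2) - 1 ≤ 2 * a / y := by
    have h1 : ∏ p ∈ T, (1 + a / (p : ℝ) ^ 2) ≤ Real.exp (∑ p ∈ T, a / (p : ℝ) ^ 2) :=
      Real.prod_one_add_le_exp_sum T (fun p => by positivity)
    have h2 : ∑ p ∈ T, a / (p : ℝ) ^ 2 ≤ a / y := by
      have h3 := pg_sum_inv_sq y Z hy1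
      have h4 : ∑ p ∈ T, a / (p : ℝ) ^ 2 = a * ∑ p ∈ T, 1 / (p : ℝ) ^ 2 := by
        rw [Finset.mul_sum]
        refine Finset.sum_congr rfl ?_
        intro p _; ring
      rw [h4]
      calc a * ∑ p ∈ T, 1 / (p : ℝ) ^ 2 ≤ a * (1 / y) := mul_le_mul_of_nonneg_left h3 ha0.le
        _ = a / y := by ring
    have h5 : 0 ≤ a / y := by positivity
    have h6 : a / y ≤ 1 := by rw [div_le_one hypos]; exact hy2
    have h7 := Real.abs_exp_sub_one_le (x := a / y) (by rw [abs_of_nonneg h5]; exact h6)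
    rw [abs_of_nonneg h5] at h7
    have h8 := (abs_le.1 h7).2
    have h9 := Real.exp_le_exp.2 h2
    have h10 : 2 * (a / y) = 2 * a / y := by ring
    linarith
  have hP2 : ∏ p ∈ T, (1 + a / (p : ℝ)) - 1 ≤
      Real.exp (a * (1 + 2 * Real.log L)) := by
    have h1 : ∏ p ∈ T, (1 + a / (p : ℝ)) ≤ Real.exp (∑ p ∈ T, a / (p : ℝ)) :=
      Real.prod_one_add_le_exp_sum T (fun p => by positivity)
    have h2 : ∑ p ∈ T, a / (p : ℝ) ≤ a * (1 + 2 * Real.log L) := by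
      have h3 := pg_sum_inv y Z
      have h4 : ∑ p ∈ T, a / (p : ℝ) = a * ∑ p ∈ T, 1 / (p : ℝ) := by
        rw [Finset.mul_sum]
        refine Finset.sum_congr rfl ?_
        intro p _; ring
      rw [h4]
      refine mul_le_mul_of_nonneg_left (h3.trans ?_) ha0.le
      have h5 : Real.log Z ≤ 2 * Real.log L := by
        have h6 : (Z : ℝ) ≤ L ^ 2 := Nat.floor_le (by positivity)
        have h7 : (1 : ℝ) ≤ Z := by
          have : 1 ≤ ⌊L ^ 2⌋₊ := Nat.one_le_floor_iff _ |>.2 (by nlinarith)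
          exact_mod_cast this
        have h8 := Real.log_le_log (by linarith) h6
        rw [Real.log_pow] at h8
        push_cast at h8
        exact h8
      linarith
    have h9 := Real.exp_le_exp.2 h2
    linarith
  -- conclusion
  set Sig := ∑ S ∈ T.powerset.erase ∅, (∏ p ∈ S, (2 * κ / (p : ℝ))) *
      (((B.erase x).filter (fun x' => ∀ p ∈ S, q x' p)).card : ℝ) with hSig
  have hb1 : K1 * (n * (∏ p ∈ T, (1 + a / (p : ℝ) ^ 2) - 1)) ≤ K1 * (n * (2 * a / y)) := by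
    gcongr
  have hb2 : K1 * ((n : ℝ) ^ (2 / 3 : ℝ) * (∏ p ∈ T, (1 + a / (p : ℝ)) - 1)) ≤ n / y := by
    refine le_trans ?_ hbig
    rw [← mul_assoc]
    gcongr
  have hb3 : Sig ≤ K1 * (n * (2 * a / y)) + n / y := by linarith
  have hb4 : ((B.erase x).card : ℝ) * δ ≤ n / y := by
    calc ((B.erase x).card : ℝ) * δ ≤ n * (1 / y) := by
          apply mul_le_mul hcardle hδ hδ0 hn0
      _ = n / y := by ring
  have hfin : (4 * a * K1 + 3) / y * (n : ℝ) =
      2 * (K1 * (n * (2 * a / y)) + n / y) + n / y := by ring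
  rw [hfin]
  linarith

theorem pg_eventually (κ K1 A : ℝ) (hκ : 0 < κ) (hK1 : 0 < K1) (hA : 1 ≤ A) (y : ℕ) (hy1 : 1 ≤ y) :
    ∃ N0 : ℕ, ∀ n : ℕ, N0 ≤ n → 1 ≤ Real.log n ∧
      Real.exp (6 * κ / Real.log n) - 1 ≤ 1 / y ∧
      K1 * (n : ℝ) ^ (2 / 3 : ℝ) *
      Real.exp (2 * κ * A * (1 + 2 * Real.log (Real.log n))) ≤ (n : ℝ) / y := by
  have hypos : (0 : ℝ) < y := by exact_mod_cast hy1
  set a := 2 * κ * A with ha
  have ha0 : 0 < a := by rw [ha]; positivity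
  have hlog : Filter.Tendsto (fun n : ℕ => Real.log n) Filter.atTop Filter.atTop :=
    Real.tendsto_log_atTop.comp tendsto_natCast_atTop_atTop
  have h1 : ∀ᶠ n : ℕ in Filter.atTop, 1 ≤ Real.log n := hlog.eventually_ge_atTop 1
  have h2 : ∀ᶠ n : ℕ in Filter.atTop, Real.exp (6 * κ / Real.log n) - 1 ≤ 1 / y := by
    have h3 : Filter.Tendsto (fun n : ℕ => Real.exp (6 * κ / Real.log n) - 1) Filter.atTop
        (nhds (Real.exp 0 - 1)) := by
      refine Filter.Tendsto.sub_const ?_ 1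
      exact (Real.continuous_exp.tendsto 0).comp (hlog.const_div_atTop (6 * κ))
    rw [Real.exp_zero, sub_self] at h3
    exact h3.eventually_le_const (by positivity)
  have h3 : ∀ᶠ n : ℕ in Filter.atTop, K1 * (n : ℝ) ^ (2 / 3 : ℝ) *
      Real.exp (a * (1 + 2 * Real.log (Real.log n))) ≤ (n : ℝ) / y := by
    have h4 := isLittleO_log_rpow_rpow_atTop (s := 1 / 3) (2 * a) (by norm_num)
    have hc : (0 : ℝ) < 1 / (K1 * Real.exp a * y) := by positivity
    have h5 := (h4.def hc).filter_mono (le_refl _)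
    have h6 := tendsto_natCast_atTop_atTop (R := ℝ) |>.eventually h5
    filter_upwards [h6, h1, Filter.eventually_ge_atTop 1] with n hn hL hn1
    have hLpos : 0 < Real.log n := by linarith
    have hnpos : (0 : ℝ) < n := by exact_mod_cast hn1
    rw [Real.norm_of_nonneg (by positivity), Real.norm_of_nonneg (by positivity)] at hn
    have e1 : Real.exp (a * (1 + 2 * Real.log (Real.log n))) =
        Real.exp a * (Real.log n) ^ (2 * a) := by
      rw [Real.rpow_def_of_pos hLpos, ← Real.exp_add]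
      congr 1; ring
    have e2 : (n : ℝ) = (n : ℝ) ^ (2 / 3 : ℝ) * (n : ℝ) ^ (1 / 3 : ℝ) := by
      rw [← Real.rpow_add hnpos]; norm_num
    rw [e1]
    have hpos : 0 < (n : ℝ) ^ (2 / 3 : ℝ) := by positivity
    calc K1 * (n : ℝ) ^ (2 / 3 : ℝ) * (Real.exp a * (Real.log n) ^ (2 * a))
        ≤ K1 * (n : ℝ) ^ (2 / 3 : ℝ) *
          (Real.exp a * (1 / (K1 * Real.exp a * y) * (n : ℝ) ^ (1 / 3 : ℝ))) := by
          gcongr
      _ = ((n : ℝ) ^ (2 / 3 : ℝ) * (n : ℝ) ^ (1 / 3 : ℝ)) / y := by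
          field_simp
      _ = n / y := by rw [← e2]
  obtain ⟨N0, hN0⟩ := Filter.eventually_atTop.1 ((h1.and h2).and h3)
  exact ⟨N0, fun n hn => ⟨(hN0 n hn).1.1, (hN0 n hn).1.2, (hN0 n hn).2⟩⟩

theorem pair_gen (κ K1 A : ℝ) (hκ : 0 < κ) (hK1 : 0 < K1) (hA : 1 ≤ A) :
    ∃ K : ℝ, 0 < K ∧ ∃ y0 : ℕ, ∀ y : ℕ, y0 ≤ y → ∃ N0 : ℕ, ∀ B : Finset ℕ, N0 ≤ B.card →
    (∀ x ∈ B, x ≤ B.card ^ 4) →
    (∀ x ∈ B, ∀ g : ℕ, Squarefree g → 1 < g → (∀ p : ℕ, p.Prime → p ∣ g → y < p) →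
      (((B.filter (fun x' => x' ≠ x ∧ (g : ℤ) ∣ (x : ℤ) - (x' : ℤ))).card : ℕ) : ℝ) ≤
        K1 * A ^ g.primeFactors.card * ((B.card : ℝ) / g + (B.card : ℝ) ^ (2 / 3 : ℝ))) →
    Pair y κ B ≤ K / y * (B.card : ℝ) ^ 2 := by
  refine ⟨4 * (2 * κ * A) * K1 + 3, by positivity, max 1 (max ⌈κ⌉₊ ⌈2 * κ * A⌉₊), ?_⟩
  intro y hy
  have hy1 : 1 ≤ y := le_trans (le_max_left _ _) hy
  have hyκ : κ ≤ y := (Nat.le_ceil κ).trans (by
    exact_mod_cast le_trans (le_trans (le_max_left _ _) (le_max_right _ _)) hy)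
  have hya : 2 * κ * A ≤ y := (Nat.le_ceil _).trans (by
    exact_mod_cast le_trans (le_trans (le_max_right _ _) (le_max_right _ _)) hy)
  obtain ⟨N0, hN0⟩ := pg_eventually κ K1 A hκ hK1 hA y hy1
  refine ⟨N0, ?_⟩
  intro B hBN hB hg
  obtain ⟨hL, hδ, hbig⟩ := hN0 B.card hBN
  unfold Pair
  have h1 : ∀ x ∈ B, ∑ x' ∈ B, (if x ≠ x' then Real.exp (κ * hh y x x') - 1 else 0) ≤
      (4 * (2 * κ * A) * K1 + 3) / y * (B.card : ℝ) := fun x hx =>
    pg_row κ K1 A hκ hK1 hA y hy1 hyκ hya B x hx hL hB (hg x hx) hδ hbig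
  refine (Finset.sum_le_sum h1).trans ?_
  rw [Finset.sum_const, nsmul_eq_mul]
  apply le_of_eq; ring

end Pool.Agent.H75.AP
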