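import Pool.Agent.H75.AP.Alt

/-!
# Module POINT (helpwanted): pointwise properties of the weights `lo` and `up`

Write `m_j = ((TT X y j).filter (· ∣ n)).card`, `U_j = ev (TT X y j) (fu j) n`,
`C_j = ev (TT X y j) (fc X j) n`. By module ALT (`fu j = fU (bb j)`, `bb j` even, `bb 0 = 0`):
`U_j = 1` if `m_j = 0`, `U_j = C(m_j - 1, bb j) ≥ 0` if `m_j ≥ 1`, in particular `U_0 = 1`;
`C_j = C(m_j, bb j + 1)` for `j ≥ 1`, and `C_0 = ∑_{p ∈ TT X y 0, p ∣ n} max 0 (min (1/2) (om X p)) ≥ 0`.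
All `U_j, C_j ≥ 0`.

* `lo_expand`: put the term `σ = JJ X` apart (`Finset.sum_range_succ`); `FF X (JJ X) j = fu j` for `j < JJ X`.
* `up_nonneg`, `up_ge_one`: clear.
* `lo_nonpos`: let `1 ≤ i < JJ X` with `m_i ≥ 1`. All terms `∏_j ev (FF X i' j)` are `≥ 0`, so
  `lo ≤ ∏_j U_j - C_i ∏_{j ≠ i} U_j = (U_i - C_i) ∏_{j ≠ i} U_j` and
  `U_i = C(m-1,b) ≤ C(m,b+1)`?? Precisely `C(m,b+1) = C(m-1,b) + C(m-1,b+1) ≥ C(m-1,b)` (Pascal, `m ≥ 1`),
  so `U_i - C_i ≤ 0`.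
* `lo_eq`: all `U_j = 1` (`j ≥ 1`: `m_j = 0`; `j = 0`: `bb 0 = 0`), `C_j = 0` for `1 ≤ j` (`C(0, bb j + 1) = 0`), so
  the `i`-th term of the sum is `0` for `i ≥ 1` and `C_0` for `i = 0` (`0 < JJ X`).
-/

namespace Pool.Agent.H75.AP

open Finset

theorem JJ_pos (X : ℕ) : 0 < JJ X := by unfold JJ; omega

theorem bb_even (j : ℕ) : Even (bb j) := by
  unfold bb
  split_ifs
  · exact Even.zero
  · exact ⟨j + 1, by ring⟩

theorem ev_fu (X y j n : ℕ) : ev (TT X y j) (fu j) n =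
    if ((TT X y j).filter (· ∣ n)).card = 0 then 1 else
      (((((TT X y j).filter (· ∣ n)).card - 1).choose (bb j) : ℕ) : ℝ) :=
  ev_fU _ _ _ (bb_even j)

theorem ev_fu_nonneg (X y j n : ℕ) : 0 ≤ ev (TT X y j) (fu j) n := by
  rw [ev_fu]
  split_ifs
  · exact zero_le_one
  · exact Nat.cast_nonneg _

theorem ev_fc_zero (X y n : ℕ) : ev (TT X y 0) (fc X 0) n =
    ∑ p ∈ (TT X y 0).filter (· ∣ n), max 0 (min (1 / 2) (om X p)) := by
  have h : fc X 0 = f0 (fun p => max 0 (min (1 / 2) (om X p))) := by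
    unfold fc
    rw [if_pos rfl]
  rw [h, ev_f0]

theorem ev_fc_pos (X y j n : ℕ) (hj : 1 ≤ j) : ev (TT X y j) (fc X j) n =
    ((((TT X y j).filter (· ∣ n)).card.choose (bb j + 1) : ℕ) : ℝ) := by
  have h : fc X j = fC (bb j + 1) := by
    unfold fc
    rw [if_neg (by omega)]
  rw [h, ev_fC]

theorem ev_fc_nonneg (X y j n : ℕ) : 0 ≤ ev (TT X y j) (fc X j) n := by
  rcases Nat.eq_zero_or_pos j with rfl | hj
  · rw [ev_fc_zero]
    exact sum_nonneg fun _ _ => le_max_left _ _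
  · rw [ev_fc_pos _ _ _ _ hj]
    exact Nat.cast_nonneg _

theorem FF_self (X j : ℕ) : FF X j j = fc X j := by
  unfold FF
  rw [if_pos rfl]

theorem FF_ne (X : ℕ) {σ j : ℕ} (h : j ≠ σ) : FF X σ j = fu j := by
  unfold FF
  rw [if_neg h]

theorem ev_FF_nonneg (X y σ j n : ℕ) : 0 ≤ ev (TT X y j) (FF X σ j) n := by
  by_cases h : j = σ
  · subst h
    rw [FF_self]
    exact ev_fc_nonneg _ _ _ _
  · rw [FF_ne X h]
    exact ev_fu_nonneg _ _ _ _

theorem card_filter_eq_zero (T : Finset ℕ) (n : ℕ) (h : ∀ p ∈ T, ¬ p ∣ n) :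
    (T.filter (· ∣ n)).card = 0 := by
  rw [card_eq_zero, filter_eq_empty_iff]
  exact fun p hp => h p hp

theorem ev_fu_eq_one (X y n : ℕ) (h : ∀ j, 1 ≤ j → j < JJ X → ∀ p ∈ TT X y j, ¬ p ∣ n)
    (j : ℕ) (hj : j < JJ X) : ev (TT X y j) (fu j) n = 1 := by
  rw [ev_fu]
  rcases Nat.eq_zero_or_pos j with rfl | hj0
  · split_ifs
    · rfl
    · simp [bb]
  · rw [if_pos (card_filter_eq_zero _ _ (h j hj0 hj))]

theorem lo_expand (X y n : ℕ) : lo X y n =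
    ∑ σ ∈ range (JJ X + 1), sg (JJ X) σ * ∏ j ∈ range (JJ X), ev (TT X y j) (FF X σ j) n := by
  rw [sum_range_succ]
  have h1 : ∏ j ∈ range (JJ X), ev (TT X y j) (FF X (JJ X) j) n =
      ∏ j ∈ range (JJ X), ev (TT X y j) (fu j) n := by
    apply prod_congr rfl
    intro j hj
    rw [mem_range] at hj
    rw [FF_ne X (by omega)]
  have h2 : ∑ σ ∈ range (JJ X), sg (JJ X) σ * ∏ j ∈ range (JJ X), ev (TT X y j) (FF X σ j) n =
      - ∑ σ ∈ range (JJ X), ∏ j ∈ range (JJ X), ev (TT X y j) (FF X σ j) n := by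
    rw [← sum_neg_distrib]
    apply sum_congr rfl
    intro σ hσ
    rw [mem_range] at hσ
    rw [sg, if_neg (by omega), neg_one_mul]
  rw [h1, h2, sg, if_pos rfl, one_mul, lo]
  ring

theorem up_nonneg (X y n : ℕ) : 0 ≤ up X y n := by
  exact prod_nonneg fun j _ => ev_fu_nonneg X y j n

theorem up_ge_one (X y n : ℕ)
    (h : ∀ j, 1 ≤ j → j < JJ X → ∀ p ∈ TT X y j, ¬ p ∣ n) : 1 ≤ up X y n := by
  unfold up
  rw [prod_congr rfl (g := fun _ => (1 : ℝ)) fun j hj => ev_fu_eq_one X y n h j (mem_range.1 hj)]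
  simp

theorem lo_nonpos (X y n : ℕ)
    (h : ∃ j, 1 ≤ j ∧ j < JJ X ∧ ∃ p ∈ TT X y j, p ∣ n) : lo X y n ≤ 0 := by
  obtain ⟨i, hi1, hi, p, hp, hpn⟩ := h
  have hm : 1 ≤ ((TT X y i).filter (· ∣ n)).card :=
    card_pos.2 ⟨p, mem_filter.2 ⟨hp, hpn⟩⟩
  have hmem : i ∈ range (JJ X) := mem_range.2 hi
  have h1 : ∏ j ∈ range (JJ X), ev (TT X y j) (FF X i j) n ≤
      ∑ i ∈ range (JJ X), ∏ j ∈ range (JJ X), ev (TT X y j) (FF X i j) n :=
    single_le_sum (f := fun i => ∏ j ∈ range (JJ X), ev (TT X y j) (FF X i j) n)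
      (fun i _ => prod_nonneg fun j _ => ev_FF_nonneg X y i j n) hmem
  have h2 : ∏ j ∈ range (JJ X), ev (TT X y j) (FF X i j) n =
      ev (TT X y i) (fc X i) n * ∏ j ∈ (range (JJ X)).erase i, ev (TT X y j) (fu j) n := by
    rw [← mul_prod_erase _ _ hmem, FF_self]
    congr 1
    apply prod_congr rfl
    intro j hj
    rw [FF_ne X (ne_of_mem_erase hj)]
  have h3 : ∏ j ∈ range (JJ X), ev (TT X y j) (fu j) n =
      ev (TT X y i) (fu i) n * ∏ j ∈ (range (JJ X)).erase i, ev (TT X y j) (fu j) n :=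
    (mul_prod_erase _ _ hmem).symm
  have h4 : ev (TT X y i) (fu i) n ≤ ev (TT X y i) (fc X i) n := by
    rw [ev_fu, ev_fc_pos _ _ _ _ hi1, if_neg (by omega)]
    obtain ⟨m, hm'⟩ : ∃ m, ((TT X y i).filter (· ∣ n)).card = m + 1 :=
      ⟨((TT X y i).filter (· ∣ n)).card - 1, by omega⟩
    rw [hm', Nat.add_sub_cancel, Nat.choose_succ_succ]
    exact_mod_cast Nat.le_add_right _ _
  have h5 : 0 ≤ ∏ j ∈ (range (JJ X)).erase i, ev (TT X y j) (fu j) n :=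
    prod_nonneg fun j _ => ev_fu_nonneg X y j n
  unfold lo
  rw [h3]
  have h6 := mul_le_mul_of_nonneg_right h4 h5
  linarith [h2 ▸ h1]

theorem lo_eq (X y n : ℕ)
    (h : ∀ j, 1 ≤ j → j < JJ X → ∀ p ∈ TT X y j, ¬ p ∣ n) :
    lo X y n = 1 - ∑ p ∈ (TT X y 0).filter (· ∣ n), max 0 (min (1 / 2) (om X p)) := by
  have h1 : ∏ j ∈ range (JJ X), ev (TT X y j) (fu j) n = 1 := by
    rw [prod_congr rfl (g := fun _ => (1 : ℝ)) fun j hj => ev_fu_eq_one X y n h j (mem_range.1 hj)]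
    simp
  have h2 : ∑ i ∈ range (JJ X), ∏ j ∈ range (JJ X), ev (TT X y j) (FF X i j) n =
      ∑ i ∈ range (JJ X), ev (TT X y i) (fc X i) n := by
    apply sum_congr rfl
    intro i hi
    rw [← mul_prod_erase _ _ hi, FF_self]
    have : ∏ j ∈ (range (JJ X)).erase i, ev (TT X y j) (FF X i j) n = 1 := by
      rw [prod_congr rfl (g := fun _ => (1 : ℝ)) fun j hj => by
        rw [FF_ne X (ne_of_mem_erase hj)]
        exact ev_fu_eq_one X y n h j (mem_range.1 (mem_of_mem_erase hj))]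
      simp
    rw [this, mul_one]
  have h3 : ∑ i ∈ range (JJ X), ev (TT X y i) (fc X i) n = ev (TT X y 0) (fc X 0) n := by
    apply sum_eq_single_of_mem 0 (mem_range.2 (JJ_pos X))
    intro j hj hj0
    rw [ev_fc_pos _ _ _ _ (by omega),
      card_filter_eq_zero _ _ (h j (by omega) (mem_range.1 hj)),
      Nat.choose_eq_zero_of_lt (by omega), Nat.cast_zero]
  unfold lo
  rw [h1, h2, h3, ev_fc_zero]

theorem lo_le_one (X y n : ℕ) : lo X y n ≤ 1 := by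
  by_cases h : ∃ j, 1 ≤ j ∧ j < JJ X ∧ ∃ p ∈ TT X y j, p ∣ n
  · exact (lo_nonpos X y n h).trans zero_le_one
  · push Not at h
    rw [lo_eq X y n h]
    have : 0 ≤ ∑ p ∈ (TT X y 0).filter (· ∣ n), max 0 (min (1 / 2) (om X p)) :=
      sum_nonneg fun _ _ => le_max_left _ _
    linarith

end Pool.Agent.H75.AP
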