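import Pool.Agent.H75.AP.PrimePair

/-!
# Module PRIMEDIST (helpwanted): the primes of a class are well distributed

`PQ Q r M` = primes `N ≤ M`, `N ≡ r (mod Q)`. `Pool.Agent.H33.Cubic.lower_primes` (PNT in progressions): for `M ≥ M0(Q)` and `r` coprime to `Q`:
`|PQ| ≥ M / (2 φ(Q) log M)`. So `M ≤ |PQ|^(1.01)` for `M` large, in particular `N ≤ M ≤ |PQ|^4`.
`prime_dist`: for `x ∈ PQ` and `g` squarefree, coprime to `Q`, the `x' ∈ PQ` with `g ∣ x - x'` are primes `≤ M` in one class mod `Q g`.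
If `g ≤ M^(0.4)`: Brun-Titchmarsh (`Pool.Agent.H5.W.block_count` over the dyadic intervals `(Y, 2Y]`, with `J = Y^(1/10)`, down to `Y = √M`, plus the trivial bound `√M + 1`; or
`selberg_count` on `[1, M]` directly) gives `≤ K M / (Q g) ρ(Q g) / log M + M^(0.55)`, where `ρ(n) = ∏_{p ∣ n} (1 + 1/p)`; and
`ρ(Q)/Q ≤ 1/φ(Q)` (`(1 + 1/p)(1 - 1/p) ≤ 1`), `ρ(g) ≤ 2^ω(g)`; so it is `≤ K' 2^ω(g) |PQ| / g + M^(0.55)` and `M^(0.55) ≤ |PQ|^(2/3)`, with `K'` absolute.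
(The constant must not depend on `Q`; `M0` may. To have `Q g` small compared with the sieve level take `M ≥ M0(Q)`, e.g. `Q g ≤ M^(0.45)`.)
If `g > M^(0.4)`: trivially `≤ M/g + 1 ≤ M^(0.6) + 1 ≤ |PQ|^(2/3)`.
-/

namespace Pool.Agent.H75.AP

open Finset

open Pool.Agent.H5.W in
/-- Brun-Titchmarsh by Selberg's sieve -/
theorem pd_bt (M J q u : ℕ) (hJ : 2 ≤ J) (hq : 0 < q) :
    ((((Icc 1 M).filter (fun p => p.Prime ∧ p ≡ u [MOD q])).card : ℕ) : ℝ) ≤
      2 * ((M : ℝ) / q) * rho q / Real.log J + (J : ℝ) ^ 4 + J := by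
  have hlog : 0 < Real.log J := Real.log_pos (by exact_mod_cast hJ)
  have h1 := selberg_count 1 J q q u 0 M le_rfl (by omega) hq
    (by
      intro l hl
      rw [goodPrimes, mem_filter] at hl
      exact hl.2.2)
    (by
      intro l hl
      rw [goodPrimes, mem_filter] at hl
      exact hl.2.1.one_lt)
    (fun _ => {0}) (by intro l _; simp)
    (by
      intro l hl a ha
      rw [goodPrimes, mem_filter] at hl
      rw [mem_singleton] at ha
      rw [ha]; exact hl.2.1.pos)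
  have h2 := sieveSum_one_ge J q (by omega) hq
  have hrz := rhoz_pos J q
  have hpos : 0 < Real.log J / (2 * rhoz J q) := by positivity
  have hsub : (Icc 1 M).filter (fun p => p.Prime ∧ p ≡ u [MOD q]) ⊆
      (Ioc 0 (0 + M)).filter (fun v => v ≡ u [MOD q] ∧
        ∀ l ∈ goodPrimes J q, v % l ∉ ({0} : Finset ℕ)) ∪ Icc 1 J := by
    intro p hp
    rw [mem_filter, mem_Icc] at hp
    rw [mem_union]
    by_cases hpJ : p ≤ J
    · right
      rw [mem_Icc]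
      exact ⟨hp.1.1, hpJ⟩
    · left
      rw [mem_filter, mem_Ioc]
      refine ⟨⟨hp.1.1, by omega⟩, hp.2.2, ?_⟩
      intro l hl
      rw [goodPrimes, mem_filter, mem_range] at hl
      rw [mem_singleton]
      intro h0
      have hd : l ∣ p := Nat.dvd_of_mod_eq_zero h0
      have := (Nat.prime_dvd_prime_iff_eq hl.2.1 hp.2.1).mp hd
      omega
  have h3 : ((((Icc 1 M).filter (fun p => p.Prime ∧ p ≡ u [MOD q])).card : ℕ) : ℝ) ≤
      ((((Ioc 0 (0 + M)).filter (fun v => v ≡ u [MOD q] ∧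
        ∀ l ∈ goodPrimes J q, v % l ∉ ({0} : Finset ℕ))).card : ℕ) : ℝ) + J := by
    have h4 := (card_le_card hsub).trans (card_union_le _ _)
    rw [Nat.card_Icc, Nat.add_sub_cancel] at h4
    exact_mod_cast h4
  have h5 : ((M : ℝ) / q) / sieveSum 1 J q + (J : ℝ) ^ 4 ≤
      2 * ((M : ℝ) / q) * rho q / Real.log J + (J : ℝ) ^ 4 := by
    calc ((M : ℝ) / q) / sieveSum 1 J q + (J : ℝ) ^ 4
        ≤ ((M : ℝ) / q) / (Real.log J / (2 * rhoz J q)) + (J : ℝ) ^ 4 := by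
          gcongr
      _ = 2 * ((M : ℝ) / q) * rhoz J q / Real.log J + (J : ℝ) ^ 4 := by
          field_simp
      _ ≤ 2 * ((M : ℝ) / q) * rho q / Real.log J + (J : ℝ) ^ 4 := by
          have := rhoz_le_rho J q hq.ne'
          gcongr
  linarith

open Pool.Agent.H5.W in
theorem pd_rho_mul (Q g : ℕ) (h : g.Coprime Q) : rho (Q * g) = rho Q * rho g := by
  unfold rho
  rw [h.symm.primeFactors_mul, prod_union h.symm.disjoint_primeFactors]

open Pool.Agent.H5.W in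
theorem pd_rho_le (g : ℕ) : rho g ≤ 2 ^ g.primeFactors.card := by
  unfold rho
  rw [← prod_const]
  refine Finset.prod_le_prod (fun p _ => by positivity) fun p hp => ?_
  have h1 : (1 : ℝ) ≤ p := by exact_mod_cast (Nat.prime_of_mem_primeFactors hp).one_le
  have h2 : 1 / (p : ℝ) ≤ 1 := by
    rw [div_le_one (by linarith)]
    exact h1
  linarith

open Pool.Agent.H5.W in
theorem pd_rho_totient (Q : ℕ) : rho Q * (Q.totient : ℝ) ≤ Q := by
  have h1 : (Q.totient : ℝ) = Q * ∏ p ∈ Q.primeFactors, (1 - (p : ℝ)⁻¹) := by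
    have h2 := Nat.totient_eq_mul_prod_factors Q
    have h3 : ((Q.totient : ℚ) : ℝ) = ((Q * ∏ p ∈ Q.primeFactors, (1 - (p : ℚ)⁻¹) : ℚ) : ℝ) := by
      rw [h2]
    push_cast at h3
    exact h3
  rw [h1]
  unfold rho
  have h4 : (∏ p ∈ Q.primeFactors, (1 + 1 / (p : ℝ))) * (∏ p ∈ Q.primeFactors, (1 - (p : ℝ)⁻¹)) ≤
      1 := by
    rw [← prod_mul_distrib]
    refine prod_le_one (fun p hp => ?_) (fun p hp => ?_)
    · have h5 : (1 : ℝ) ≤ p := by exact_mod_cast (Nat.prime_of_mem_primeFactors hp).one_le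
      have h6 : (p : ℝ)⁻¹ ≤ 1 := inv_le_one_of_one_le₀ h5
      have h7 : 0 ≤ 1 / (p : ℝ) := by positivity
      exact mul_nonneg (by linarith) (by linarith)
    · have h5 : 0 ≤ ((p : ℝ)⁻¹) ^ 2 := by positivity
      rw [one_div]
      nlinarith
  have hQ : (0 : ℝ) ≤ Q := Nat.cast_nonneg Q
  calc _ = (Q : ℝ) * ((∏ p ∈ Q.primeFactors, (1 + 1 / (p : ℝ))) *
        (∏ p ∈ Q.primeFactors, (1 - (p : ℝ)⁻¹))) := by ring
    _ ≤ Q * 1 := mul_le_mul_of_nonneg_left h4 hQ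
    _ = Q := mul_one _

/-- choice of the sieve level -/
theorem pd_level (M : ℕ) (hM : 3 ^ 40 ≤ M) : ∃ J : ℕ, 2 ≤ J ∧ (J : ℝ) ≤ (M : ℝ) ^ (1 / 40 : ℝ) ∧
    Real.log M / 80 ≤ Real.log J := by
  have hM' : ((3 : ℝ) ^ 40) ≤ M := by exact_mod_cast hM
  have hM0 : (0 : ℝ) < M := lt_of_lt_of_le (by positivity) hM'
  set w := (M : ℝ) ^ (1 / 40 : ℝ) with hw
  have hw3 : 3 ≤ w := by
    have h1 : ((3 : ℝ) ^ 40) ^ (1 / 40 : ℝ) ≤ w :=
      Real.rpow_le_rpow (by positivity) hM' (by norm_num)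
    rw [← Real.rpow_natCast, ← Real.rpow_mul (by norm_num)] at h1
    norm_num at h1
    exact h1
  refine ⟨⌊w⌋₊, ?_, Nat.floor_le (by linarith), ?_⟩
  · rw [Nat.le_floor_iff (by linarith)]
    push_cast
    linarith
  · have h1 : w - 1 < ⌊w⌋₊ := by
      have := Nat.lt_floor_add_one w
      linarith
    have h2 : Real.sqrt w ≤ w - 1 := by
      rw [Real.sqrt_le_left (by linarith)]
      nlinarith
    have h3 : Real.log (Real.sqrt w) ≤ Real.log (⌊w⌋₊ : ℝ) :=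
      Real.log_le_log (Real.sqrt_pos.2 (by linarith)) (h2.trans h1.le)
    have h4 : Real.log (Real.sqrt w) = Real.log M / 80 := by
      rw [Real.log_sqrt (by linarith), hw, Real.log_rpow hM0]
      ring
    linarith

theorem prime_dist : ∃ K1 : ℝ, 0 < K1 ∧ ∀ Q : ℕ, 1 ≤ Q → ∃ M0 : ℕ, ∀ M : ℕ, M0 ≤ M → ∀ r : ℕ,
    r.Coprime Q → ∀ x ∈ PQ Q r M, ∀ g : ℕ, Squarefree g → 1 < g → g.Coprime Q →
    ((((PQ Q r M).filter (fun x' => x' ≠ x ∧ (g : ℤ) ∣ (x : ℤ) - (x' : ℤ))).card : ℕ) : ℝ) ≤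
      K1 * 2 ^ g.primeFactors.card *
        (((PQ Q r M).card : ℝ) / g + ((PQ Q r M).card : ℝ) ^ (2 / 3 : ℝ)) := by
  refine ⟨400, by norm_num, fun Q hQ => ?_⟩
  obtain ⟨M1, hM1⟩ := prime_lower Q hQ
  refine ⟨max M1 (3 ^ 40), fun M hM r hr x hx g hg hg1 hgQ => ?_⟩
  obtain ⟨hlow, hpow⟩ := hM1 M ((le_max_left _ _).trans hM) r hr
  have hM3 : 3 ^ 40 ≤ M := (le_max_right _ _).trans hM
  obtain ⟨J, hJ2, hJM, hJlog⟩ := pd_level M hM3
  set n := (PQ Q r M).card with hn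
  have hn1 : 1 ≤ n := by
    rw [hn]
    exact card_pos.2 ⟨x, hx⟩
  have hg0 : 0 < g := by omega
  have hq0 : 0 < Q * g := Nat.mul_pos hQ hg0
  -- the congruences
  have hx' := (mem_filter.1 hx).2.2
  have hsub : (PQ Q r M).filter (fun x' => x' ≠ x ∧ (g : ℤ) ∣ (x : ℤ) - (x' : ℤ)) ⊆
      (Icc 1 M).filter (fun p => p.Prime ∧ p ≡ x [MOD Q * g]) := by
    intro p hp
    rw [mem_filter] at hp
    obtain ⟨hp1, -, hp2⟩ := hp
    rw [PQ, mem_filter] at hp1
    rw [mem_filter]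
    refine ⟨hp1.1, hp1.2.1, ?_⟩
    rw [← Nat.modEq_and_modEq_iff_modEq_mul hgQ.symm]
    exact ⟨hp1.2.2.trans hx'.symm, (Nat.modEq_iff_dvd).2 hp2⟩
  have h1 : ((((PQ Q r M).filter (fun x' => x' ≠ x ∧ (g : ℤ) ∣ (x : ℤ) - (x' : ℤ))).card : ℕ) : ℝ)
      ≤ 2 * ((M : ℝ) / (Q * g : ℕ)) * Pool.Agent.H5.W.rho (Q * g) / Real.log J + (J : ℝ) ^ 4 + J := by
    refine le_trans ?_ (pd_bt M J (Q * g) x hJ2 hq0)
    exact_mod_cast card_le_card hsub
  refine h1.trans ?_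
  have hQ0 : (0 : ℝ) < Q := by exact_mod_cast hQ
  have hg0' : (0 : ℝ) < g := by exact_mod_cast hg0
  have hM0 : (0 : ℝ) < M := by
    have : 0 < 3 ^ 40 := by positivity
    exact_mod_cast lt_of_lt_of_le this hM3
  have hlogM : 0 < Real.log M := Real.log_pos (by
    have : 1 < 3 ^ 40 := by norm_num
    exact_mod_cast lt_of_lt_of_le this hM3)
  have hJ0 : (2 : ℝ) ≤ J := by exact_mod_cast hJ2
  have hlogJ : 0 < Real.log J := Real.log_pos (by linarith)
  have hphi : (0 : ℝ) < Q.totient := by exact_mod_cast Nat.totient_pos.2 hQ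
  have h2 : (1 : ℝ) ≤ 2 ^ g.primeFactors.card := one_le_pow₀ (by norm_num)
  have hnR : (1 : ℝ) ≤ n := by exact_mod_cast hn1
  -- main term
  have hmain : 2 * ((M : ℝ) / (Q * g : ℕ)) * Pool.Agent.H5.W.rho (Q * g) / Real.log J ≤
      400 * 2 ^ g.primeFactors.card * ((n : ℝ) / g) := by
    rw [pd_rho_mul Q g hgQ]
    have hr1 := pd_rho_le g
    have hr2 := pd_rho_totient Q
    have hr3 := Pool.Agent.H5.W.rho_ge_one Q
    have hr4 := Pool.Agent.H5.W.rho_ge_one g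
    set A := Pool.Agent.H5.W.rho Q with hA
    set B := Pool.Agent.H5.W.rho g with hB
    have e1 : A ≤ (Q : ℝ) / Q.totient := by
      rw [le_div_iff₀ hphi]
      exact hr2
    have e2 : (M : ℝ) / Real.log J ≤ 160 * Q.totient * n := by
      have e3 : (M : ℝ) ≤ n * (2 * Q.totient * Real.log M) := by
        rwa [div_le_iff₀ (by positivity)] at hlow
      rw [div_le_iff₀ hlogJ]
      calc (M : ℝ) ≤ n * (2 * Q.totient * Real.log M) := e3
        _ = 160 * Q.totient * n * (Real.log M / 80) := by ring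
        _ ≤ 160 * Q.totient * n * Real.log J := by
            refine mul_le_mul_of_nonneg_left hJlog (by positivity)
    push_cast
    calc 2 * ((M : ℝ) / (Q * g)) * (A * B) / Real.log J
        = 2 * ((M : ℝ) / Real.log J) * (A * B) / (Q * g) := by
          field_simp
      _ ≤ 2 * (160 * Q.totient * n) * ((Q : ℝ) / Q.totient * 2 ^ g.primeFactors.card) / (Q * g) := by
          gcongr
      _ = 320 * 2 ^ g.primeFactors.card * ((n : ℝ) / g) := by
          field_simp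
          ring
      _ ≤ 400 * 2 ^ g.primeFactors.card * ((n : ℝ) / g) := by
          gcongr
          norm_num
  -- error term
  have herr : (J : ℝ) ^ 4 + J ≤ 400 * 2 ^ g.primeFactors.card * (n : ℝ) ^ (2 / 3 : ℝ) := by
    have e1 : (J : ℝ) ^ 4 ≤ (M : ℝ) ^ (1 / 10 : ℝ) := by
      calc (J : ℝ) ^ 4 ≤ ((M : ℝ) ^ (1 / 40 : ℝ)) ^ 4 := pow_le_pow_left₀ (by positivity) hJM 4
        _ = (M : ℝ) ^ (1 / 10 : ℝ) := by
            rw [← Real.rpow_natCast, ← Real.rpow_mul hM0.le]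
            norm_num
    have e2 : (M : ℝ) ^ (1 / 10 : ℝ) ≤ (n : ℝ) ^ (2 / 3 : ℝ) := by
      have e3 : (M : ℝ) ≤ (n : ℝ) ^ 4 := by exact_mod_cast hpow
      calc (M : ℝ) ^ (1 / 10 : ℝ) ≤ ((n : ℝ) ^ 4) ^ (1 / 10 : ℝ) :=
            Real.rpow_le_rpow hM0.le e3 (by norm_num)
        _ = (n : ℝ) ^ (2 / 5 : ℝ) := by
            rw [← Real.rpow_natCast, ← Real.rpow_mul (by positivity)]
            norm_num
        _ ≤ (n : ℝ) ^ (2 / 3 : ℝ) := Real.rpow_le_rpow_of_exponent_le hnR (by norm_num)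
    have e3 : (J : ℝ) ≤ (J : ℝ) ^ 4 := le_self_pow₀ (by linarith) (by norm_num)
    have e4 : (0 : ℝ) ≤ (n : ℝ) ^ (2 / 3 : ℝ) := by positivity
    calc (J : ℝ) ^ 4 + J ≤ 2 * (n : ℝ) ^ (2 / 3 : ℝ) := by linarith
      _ ≤ 400 * 2 ^ g.primeFactors.card * (n : ℝ) ^ (2 / 3 : ℝ) := by
          refine mul_le_mul_of_nonneg_right ?_ e4
          linarith
  calc _ = 2 * ((M : ℝ) / (Q * g : ℕ)) * Pool.Agent.H5.W.rho (Q * g) / Real.log J +
        ((J : ℝ) ^ 4 + J) := by ring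
    _ ≤ 400 * 2 ^ g.primeFactors.card * ((n : ℝ) / g) +
        400 * 2 ^ g.primeFactors.card * (n : ℝ) ^ (2 / 3 : ℝ) := add_le_add hmain herr
    _ = _ := by ring

end Pool.Agent.H75.AP
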