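import Pool.Agent.H75.AP.PairGen
import Pool.Agent.H5.W.BT
import Pool.Agent.H33.Cubic.Many

/-!
# Module PRIMELOW (helpwanted, easy): primes of a class, lower bound. (The header also describes PRIMEDIST)

`PQ Q r M` = primes `N ≤ M`, `N ≡ r (mod Q)`. `Pool.Agent.H33.Cubic.lower_primes` (PNT in progressions): for `M ≥ M0(Q)` and `r` coprime to `Q`:
`|PQ| ≥ M / (2 φ(Q) log M)`. So `M ≤ |PQ|^(1.01)` for `M` large, in particular `N ≤ M ≤ |PQ|^4`.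
`prime_dist`: for `x ∈ PQ` and `g` squarefree, coprime to `Q`, the `x' ∈ PQ` with `g ∣ x - x'` are primes `≤ M` in one class mod `Q g`.
If `g ≤ M^(0.4)`: Brun-Titchmarsh (`Pool.Agent.H5.W.block_count` over the dyadic intervals `(Y, 2Y]`, with `J = Y^(1/10)`, down to `Y = √M`, plus the trivial bound `√M + 1`; or
`selberg_count` on `[1, M]` directly) gives `≤ K M / (Q g) ρ(Q g) / log M + M^(0.55)`, where `ρ(n) = ∏_{p ∣ n} (1 + 1/p)`; and
`ρ(Q)/Q ≤ 1/φ(Q)` (`(1 + 1/p)(1 - 1/p) ≤ 1`), `ρ(g) ≤ 2^ω(g)`; so it is `≤ K' 2^ω(g) |PQ| / g + M^(0.55)` and `M^(0.55) ≤ |PQ|^(2/3)`, with `K'` absolute.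
(The constant must not depend on `Q`; `M0` may. To have `Q g` small compared with the sieve level take `M ≥ M0(Q)`, e.g. `Q g ≤ M^(0.45)`.)
If `g > M^(0.4)`: trivially `≤ M/g + 1 ≤ M^(0.6) + 1 ≤ |PQ|^(2/3)`.
-/

namespace Pool.Agent.H75.AP

open Finset

/-- primes `≤ M` congruent to `r` modulo `Q` -/
def PQ (Q r M : ℕ) : Finset ℕ := (Icc 1 M).filter (fun N => N.Prime ∧ N ≡ r [MOD Q])

theorem prime_lower (Q : ℕ) (hQ : 1 ≤ Q) : ∃ M0 : ℕ, ∀ M : ℕ, M0 ≤ M → ∀ r : ℕ, r.Coprime Q →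
    (M : ℝ) / (2 * Q.totient * Real.log M) ≤ ((PQ Q r M).card : ℝ) ∧ M ≤ (PQ Q r M).card ^ 4 := by
  have : NeZero Q := ⟨by omega⟩
  have h1 := Pool.Agent.H33.Cubic.lower_primes Q
  have hphi : (0 : ℝ) < Q.totient := by exact_mod_cast Nat.totient_pos.2 hQ
  -- `2 φ(Q) log M ≤ M ^ (3/4)` for large `M`
  have h2 : ∀ᶠ M : ℕ in Filter.atTop, 2 * (Q.totient : ℝ) * Real.log M ≤ (M : ℝ) ^ (3 / 4 : ℝ) := by
    have h3 := (isLittleO_log_rpow_atTop (show (0 : ℝ) < 3 / 4 by norm_num)).bound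
      (show (0 : ℝ) < 1 / (2 * Q.totient) by positivity)
    have h4 := tendsto_natCast_atTop_atTop (R := ℝ) |>.eventually h3
    filter_upwards [h4, Filter.eventually_ge_atTop 1] with M hM hM1
    have hM1' : (1 : ℝ) ≤ M := by exact_mod_cast hM1
    rw [Real.norm_of_nonneg (Real.log_nonneg hM1'), Real.norm_of_nonneg (by positivity)] at hM
    calc 2 * (Q.totient : ℝ) * Real.log M ≤ 2 * (Q.totient : ℝ) *
        (1 / (2 * Q.totient) * (M : ℝ) ^ (3 / 4 : ℝ)) := by gcongr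
      _ = _ := by field_simp
  obtain ⟨M0, hM0⟩ := Filter.eventually_atTop.1 (h1.and (h2.and (Filter.eventually_gt_atTop 1)))
  refine ⟨M0, fun M hM r hr => ?_⟩
  obtain ⟨a1, a2, a3⟩ := hM0 M hM
  have hu : IsUnit (r : ZMod Q) := (ZMod.isUnit_iff_coprime r Q).2 hr
  have b1 := a1 (r : ZMod Q) hu
  have hsub : Pool.Agent.H33.Cubic.PP Q (r : ZMod Q) M ⊆ PQ Q r M := by
    intro n hn
    unfold Pool.Agent.H33.Cubic.PP at hn
    unfold PQ
    rw [mem_filter, mem_Ioc] at hn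
    rw [mem_filter, mem_Icc]
    refine ⟨⟨by omega, hn.1.2⟩, hn.2.1, ?_⟩
    exact (ZMod.natCast_eq_natCast_iff _ _ _).1 hn.2.2
  have b2 : (M : ℝ) / (2 * Q.totient * Real.log M) ≤ ((PQ Q r M).card : ℝ) :=
    b1.trans (by exact_mod_cast card_le_card hsub)
  refine ⟨b2, ?_⟩
  have hM1 : (1 : ℝ) < M := by exact_mod_cast a3
  have hlog : 0 < Real.log M := Real.log_pos hM1
  have b3 : (M : ℝ) ^ (1 / 4 : ℝ) ≤ ((PQ Q r M).card : ℝ) := by
    refine le_trans ?_ b2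
    rw [le_div_iff₀ (by positivity)]
    calc (M : ℝ) ^ (1 / 4 : ℝ) * (2 * Q.totient * Real.log M) ≤
        (M : ℝ) ^ (1 / 4 : ℝ) * (M : ℝ) ^ (3 / 4 : ℝ) := by gcongr
      _ = (M : ℝ) := by
        rw [← Real.rpow_add (by linarith)]
        norm_num
  have b4 : ((M : ℝ) ^ (1 / 4 : ℝ)) ^ 4 ≤ ((PQ Q r M).card : ℝ) ^ 4 := by gcongr
  have b5 : ((M : ℝ) ^ (1 / 4 : ℝ)) ^ 4 = M := by
    rw [← Real.rpow_natCast, ← Real.rpow_mul (by linarith)]
    norm_num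
  rw [b5] at b4
  exact_mod_cast b4

end Pool.Agent.H75.AP
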