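import Pool.Agent.H75.AP.PrimeDist

/-!
# Module PRIMEPAIR2 (helpwanted, easy): pair sums over primes

`prime_pair`: apply `pair_gen` (with `A = 2` and `K1` from `prime_dist`) to `B = PQ (primorial y) r M`; the hypothesis on `g` (all primes of `g` are `> y`) gives `g.Coprime (primorial y)`.
`card ≥ N0` for `M` large from `prime_lower`.
`prime_pair_all`: the same with modulus `Q = 1` (`PQ 1 0 M` = all primes `≤ M`).
-/

namespace Pool.Agent.H75.AP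

open Finset

theorem pp2_card (N0 M c : ℕ) (h : M ≤ c ^ 4) (hM : N0 ^ 4 ≤ M) : N0 ≤ c := by
  by_contra hc
  have h1 : c < N0 := by omega
  have h2 : c ^ 4 < N0 ^ 4 := Nat.pow_lt_pow_left h1 (by norm_num)
  omega

theorem pp2_le (Q r M x : ℕ) (hx : x ∈ PQ Q r M) : x ≤ M := by
  unfold PQ at hx
  rw [mem_filter, mem_Icc] at hx
  exact hx.1.2

theorem pp2_gen (κ : ℝ) (hκ : 0 < κ) (Q : ℕ → ℕ) (hQ : ∀ y, 1 ≤ Q y)
    (hg : ∀ y g : ℕ, (∀ p : ℕ, p.Prime → p ∣ g → y < p) → g.Coprime (Q y)) :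
    ∃ K : ℝ, 0 < K ∧ ∃ y0 : ℕ, ∀ y : ℕ, y0 ≤ y →
    ∃ M0 : ℕ, ∀ M r : ℕ, M0 ≤ M → r.Coprime (Q y) →
    Pair y κ (PQ (Q y) r M) ≤ K / y * ((PQ (Q y) r M).card : ℝ) ^ 2 := by
  obtain ⟨K1, hK1, hd⟩ := prime_dist
  obtain ⟨K, hK, y0, hy0⟩ := pair_gen κ K1 2 hκ hK1 (by norm_num)
  refine ⟨K, hK, y0, fun y hy => ?_⟩
  obtain ⟨N0, hN0⟩ := hy0 y hy
  obtain ⟨M1, hM1⟩ := hd (Q y) (hQ y)
  obtain ⟨M2, hM2⟩ := prime_lower (Q y) (hQ y)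
  refine ⟨max (max M1 M2) (N0 ^ 4), fun M r hM hr => ?_⟩
  have h1 : M1 ≤ M := le_trans (le_trans (le_max_left _ _) (le_max_left _ _)) hM
  have h2 : M2 ≤ M := le_trans (le_trans (le_max_right _ _) (le_max_left _ _)) hM
  have h3 : N0 ^ 4 ≤ M := le_trans (le_max_right _ _) hM
  have h4 := (hM2 M h2 r hr).2
  refine hN0 _ (pp2_card N0 M _ h4 h3) ?_ ?_
  · intro x hx
    exact (pp2_le _ _ _ _ hx).trans h4
  · intro x hx g hsq hg1 hgp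
    exact hM1 M h1 r hr x hx g hsq hg1 (hg y g hgp)

theorem pp2_coprime (y g : ℕ) (h : ∀ p : ℕ, p.Prime → p ∣ g → y < p) :
    g.Coprime (primorial y) := by
  rw [Nat.coprime_iff_gcd_eq_one]
  by_contra hne
  obtain ⟨p, hp, hpd⟩ := Nat.exists_prime_and_dvd hne
  have h1 := h p hp (hpd.trans (Nat.gcd_dvd_left _ _))
  have h2 : p ∣ primorial y := hpd.trans (Nat.gcd_dvd_right _ _)
  unfold primorial at h2
  obtain ⟨q, hq, hpq⟩ := (Prime.dvd_finset_prod_iff hp.prime _).1 h2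
  rw [mem_filter, mem_range] at hq
  have h3 := (Nat.prime_dvd_prime_iff_eq hp hq.2).1 hpq
  omega

theorem prime_pair (κ : ℝ) (hκ : 0 < κ) : ∃ K : ℝ, 0 < K ∧ ∃ y0 : ℕ, ∀ y : ℕ, y0 ≤ y →
    ∃ M0 : ℕ, ∀ M r : ℕ, M0 ≤ M → r.Coprime (primorial y) →
    Pair y κ (PQ (primorial y) r M) ≤ K / y * ((PQ (primorial y) r M).card : ℝ) ^ 2 :=
  pp2_gen κ hκ (fun y => primorial y) (fun y => primorial_pos y)
    (fun y g h => pp2_coprime y g h)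

theorem prime_pair_all (κ : ℝ) (hκ : 0 < κ) : ∃ K : ℝ, 0 < K ∧ ∃ y0 : ℕ, ∀ y : ℕ, y0 ≤ y →
    ∃ M0 : ℕ, ∀ M : ℕ, M0 ≤ M →
    Pair y κ (PQ 1 0 M) ≤ K / y * ((PQ 1 0 M).card : ℝ) ^ 2 := by
  obtain ⟨K, hK, y0, hy0⟩ := pp2_gen κ hκ (fun _ => 1) (fun _ => le_refl 1)
    (fun y g _ => Nat.coprime_one_right g)
  refine ⟨K, hK, y0, fun y hy => ?_⟩
  obtain ⟨M0, hM0⟩ := hy0 y hy
  exact ⟨M0, fun M hM => hM0 M 0 hM (Nat.coprime_one_right 0)⟩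

end Pool.Agent.H75.AP
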