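import Pool.Agent.H5.Short.Contact
import Pool.Agent.H5.Short.Cover

/-!
# Module PRIMESHIFT (helpwanted, easy): primes in `(N, N + X]`, `N ≤ X`

From the prime number theorem (`Pool.Agent.H5.PNT.PNT`: `pi_tendsto`, `theta_tendsto`; `Pool/Agent/H5/Short/Cover.lean`: `theta_unif`, `pnt_unif`; `Contact.lean`: `F_lower`). E.g.
`θ(N+X) - θ(N) ≥ (1-δ)(N+X) - (1+δ) N ≥ (1 - 3δ) X` for `X ≥ X0(δ)` (if `N` is small use `θ(N) ≤ log 4 * N` or `θ(N) ≤ (1+δ) max N N0`), and each prime contributes at most `log (2X) ≤ 2 log X`. Any `c0 > 0` is fine.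
-/

namespace Pool.Agent.H75.AP

open Finset

theorem prime_shift : ∃ c0 : ℝ, 0 < c0 ∧ ∃ X0 : ℕ, ∀ X N : ℕ, X0 ≤ X → N ≤ X →
    c0 * X / Real.log X ≤ (((Icc 1 X).filter (fun a => (N + a).Prime)).card : ℝ) := by
  obtain ⟨X1, hX1⟩ := Pool.Agent.H5.Short.theta_unif (1 / 10) (by norm_num)
  refine ⟨7 / 20, by norm_num, max 2 (100 * X1), ?_⟩
  intro X N hX hN
  have hX2 : 2 ≤ X := le_trans (le_max_left _ _) hX
  have hX3 : 100 * X1 ≤ X := le_trans (le_max_right _ _) hX
  have hcard : ((Icc 1 X).filter (fun a => (N + a).Prime)).card =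
      Pool.Agent.H5.Short.pc N X := by
    unfold Pool.Agent.H5.Short.pc
    refine Finset.card_bij (fun a _ => N + a) ?_ ?_ ?_
    · intro a ha
      rw [mem_filter, mem_Icc] at ha
      rw [mem_filter, mem_Ioc]
      exact ⟨⟨by omega, by omega⟩, ha.2⟩
    · intro a _ b _ h
      exact Nat.add_left_cancel h
    · intro b hb
      rw [mem_filter, mem_Ioc] at hb
      refine ⟨b - N, ?_, by omega⟩
      rw [mem_filter, mem_Icc]
      refine ⟨⟨by omega, by omega⟩, ?_⟩
      have : N + (b - N) = b := by omega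
      rw [this]
      exact hb.2
  rw [hcard]
  have hXr : (2 : ℝ) ≤ X := by exact_mod_cast hX2
  have hNr : (N : ℝ) ≤ X := by exact_mod_cast hN
  have hX3r : 100 * (X1 : ℝ) ≤ X := by exact_mod_cast hX3
  have h1 := hX1 (N + X) (by omega)
  have h2 : Chebyshev.theta (N : ℝ) ≤ 11 / 10 * max (N : ℝ) X1 := by
    rcases le_total X1 N with h | h
    · have h3 := hX1 N h
      have hm : max (N : ℝ) X1 = N := max_eq_left (by exact_mod_cast h)
      rw [hm]
      have := abs_le.mp h3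
      linarith [this.2]
    · have h3 := hX1 X1 le_rfl
      have hm : max (N : ℝ) X1 = X1 := max_eq_right (by exact_mod_cast h)
      rw [hm]
      have h4 : Chebyshev.theta (N : ℝ) ≤ Chebyshev.theta (X1 : ℝ) :=
        Chebyshev.theta_mono (by exact_mod_cast h)
      have := abs_le.mp h3
      linarith [this.2]
  have h3 : (7 / 10 : ℝ) * X ≤ Chebyshev.theta ((N + X : ℕ) : ℝ) - Chebyshev.theta (N : ℝ) := by
    have h4 := (abs_le.mp h1).1
    push_cast at h4 ⊢
    have hN0 : (0 : ℝ) ≤ N := Nat.cast_nonneg N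
    rcases le_total (N : ℝ) X1 with h | h
    · rw [max_eq_right h] at h2
      linarith
    · rw [max_eq_left h] at h2
      linarith
  have h4 := Pool.Agent.H5.Short.le_pc_mul_log N X
  have h5 : Real.log ((N + X : ℕ) : ℝ) ≤ 2 * Real.log X := by
    have h6 : ((N + X : ℕ) : ℝ) ≤ (X : ℝ) ^ 2 := by
      push_cast
      nlinarith
    calc Real.log ((N + X : ℕ) : ℝ) ≤ Real.log ((X : ℝ) ^ 2) :=
          Real.log_le_log (by exact_mod_cast (by omega : 0 < N + X)) h6
      _ = 2 * Real.log X := by rw [Real.log_pow]; norm_num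
  have hlog : 0 < Real.log X := Real.log_pos (by linarith)
  rw [div_le_iff₀ hlog]
  have h6 : (Pool.Agent.H5.Short.pc N X : ℝ) * Real.log ((N + X : ℕ) : ℝ) ≤
      (Pool.Agent.H5.Short.pc N X : ℝ) * (2 * Real.log X) :=
    mul_le_mul_of_nonneg_left h5 (Nat.cast_nonneg _)
  linarith

end Pool.Agent.H75.AP
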