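import Pool.Agent.H75.AP.Core

/-!
# Module ROUGHCOUNT (helpwanted): upper bounds for all shifts `1 ≤ a ≤ X`

Only the last three parts of `core` are used. Every `a ∈ [1, X]` is `a = b + Q l` with `b = a % Q < Q = primorial y`, `l = a / Q < L := X / Q + 1`, and `X ≤ L Q ≤ X + Q ≤ 2 X` (`X ≥ Q`).
So `#{a ≤ X : P (N + a)} ≤ ∑_{b < Q} #{l < L : P ((N + b) + Q l)}`.
* `rough_single` (take `y = y0` of `core`): `≤ Q * K L W ≤ 2 K X * C / log X`.
* `rough_pair`: `≤ Q * K L W^2 exp (κ hh y (N+b) (N'+b)) ≤ 2 K X (C/log X)^2 exp (κ hh y N N')`, as `hh` depends only on the difference.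
-/

namespace Pool.Agent.H75.AP

open Finset

theorem count_split (P : ℕ → Prop) [DecidablePred P] (X Q : ℕ) (hQ : 0 < Q) :
    ((Icc 1 X).filter P).card ≤
      ∑ b ∈ range Q, ((range (X / Q + 1)).filter (fun l => P (b + Q * l))).card := by
  have hsub : (Icc 1 X).filter P ⊆ (range Q).biUnion (fun b =>
      ((range (X / Q + 1)).filter (fun l => P (b + Q * l))).image (fun l => b + Q * l)) := by
    intro a ha
    rw [mem_filter, mem_Icc] at ha
    rw [mem_biUnion]
    refine ⟨a % Q, mem_range.mpr (Nat.mod_lt _ hQ), ?_⟩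
    rw [mem_image]
    refine ⟨a / Q, ?_, Nat.mod_add_div a Q⟩
    rw [mem_filter, mem_range, Nat.mod_add_div]
    exact ⟨Nat.lt_succ_of_le (Nat.div_le_div_right ha.1.2), ha.2⟩
  exact (card_le_card hsub).trans (card_biUnion_le.trans (sum_le_sum fun b _ => card_image_le))

open Classical in
theorem rough_single : ∃ C : ℝ, 0 < C ∧ ∃ X0 : ℕ, ∀ X N : ℕ, X0 ≤ X →
    (((Icc 1 X).filter (fun a => rough X (N + a))).card : ℝ) ≤ C * X / Real.log X := by
  obtain ⟨κ, K, c, hκ, hK, hc, y0, hy0, hcore⟩ := core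
  obtain ⟨C, hC, X0, h⟩ := hcore y0 le_rfl
  refine ⟨2 * K * C, by positivity, max X0 (max 2 (primorial y0)), ?_⟩
  intro X N hX
  have hX0 : X0 ≤ X := le_trans (le_max_left _ _) hX
  have hX2 : 2 ≤ X := le_trans (le_trans (le_max_left _ _) (le_max_right _ _)) hX
  have hXQ : primorial y0 ≤ X := le_trans (le_trans (le_max_right _ _) (le_max_right _ _)) hX
  obtain ⟨hW1, hW2, -, -, hs⟩ := h X hX0
  have hQ0 : 0 < primorial y0 := primorial_pos y0
  have hlog : 0 < Real.log X := Real.log_pos (by exact_mod_cast hX2)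
  set Q := primorial y0 with hQ
  have hL1 : X ≤ (X / Q + 1) * Q := by
    have := Nat.lt_div_mul_add (a := X) hQ0
    rw [Nat.add_mul, one_mul]
    exact this.le
  have hL2 : (X / Q + 1) * Q ≤ 2 * X := by
    have := Nat.div_mul_le_self X Q
    rw [Nat.add_mul, one_mul]
    omega
  have hcount := count_split (fun a => rough X (N + a)) X Q hQ0
  have hb : ∀ b ∈ range Q, (((range (X / Q + 1)).filter
      (fun l => rough X (N + (b + Q * l)))).card : ℝ) ≤
      K * (((X / Q + 1 : ℕ) : ℝ) * WW X y0) := by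
    intro b _
    have h1 := hs (N + b) (X / Q + 1) hL1
    have h2 : (range (X / Q + 1)).filter (fun l => rough X (N + (b + Q * l))) =
        (range (X / Q + 1)).filter (fun l => rough X (N + b + Q * l)) := by
      apply filter_congr
      intro l _
      rw [add_assoc]
    rw [h2]
    exact h1
  have h3 : (((Icc 1 X).filter (fun a => rough X (N + a))).card : ℝ) ≤
      ∑ b ∈ range Q, (((range (X / Q + 1)).filter
        (fun l => rough X (N + (b + Q * l)))).card : ℝ) := by
    exact_mod_cast hcount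
  have h4 := h3.trans (sum_le_sum hb)
  rw [sum_const, card_range, nsmul_eq_mul] at h4
  have h5 : (((X / Q + 1 : ℕ) : ℝ)) * (Q : ℝ) ≤ 2 * X := by exact_mod_cast hL2
  have hWn : 0 ≤ WW X y0 := le_trans (by positivity) hW1
  calc (((Icc 1 X).filter (fun a => rough X (N + a))).card : ℝ)
      ≤ (Q : ℝ) * (K * (((X / Q + 1 : ℕ) : ℝ) * WW X y0)) := h4
    _ = K * ((((X / Q + 1 : ℕ) : ℝ)) * (Q : ℝ)) * WW X y0 := by ring
    _ ≤ K * (2 * X) * (C / Real.log X) := by
        apply mul_le_mul (mul_le_mul_of_nonneg_left h5 hK.le) hW2 hWn (by positivity)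
    _ = 2 * K * C * X / Real.log X := by ring

theorem hh_add_right (y N N' b : ℕ) : hh y (N + b) (N' + b) = hh y N N' := by
  have h : ((N + b : ℕ) : ℤ) - ((N' + b : ℕ) : ℤ) = (N : ℤ) - (N' : ℤ) := by
    push_cast
    ring
  unfold hh
  rw [h]

open Classical in
theorem rough_pair : ∃ κ : ℝ, 0 < κ ∧ ∃ y0 : ℕ, ∀ y : ℕ, y0 ≤ y → ∃ C : ℝ, 0 < C ∧ ∃ X0 : ℕ,
    ∀ X N N' : ℕ, X0 ≤ X → N ≠ N' →
    (((Icc 1 X).filter (fun a => rough X (N + a) ∧ rough X (N' + a))).card : ℝ) ≤
      C * X / (Real.log X) ^ 2 * Real.exp (κ * hh y N N') := by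
  obtain ⟨κ, K, c, hκ, hK, hc, y0, hy0, hcore⟩ := core
  refine ⟨κ, hκ, y0, ?_⟩
  intro y hy
  obtain ⟨C, hC, X0, h⟩ := hcore y hy
  refine ⟨2 * K * C ^ 2, by positivity, max X0 (max 2 (primorial y)), ?_⟩
  intro X N N' hX hNN
  have hX0 : X0 ≤ X := le_trans (le_max_left _ _) hX
  have hX2 : 2 ≤ X := le_trans (le_trans (le_max_left _ _) (le_max_right _ _)) hX
  have hXQ : primorial y ≤ X := le_trans (le_trans (le_max_right _ _) (le_max_right _ _)) hX
  obtain ⟨hW1, hW2, -, hp, -⟩ := h X hX0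
  have hQ0 : 0 < primorial y := primorial_pos y
  have hlog : 0 < Real.log X := Real.log_pos (by exact_mod_cast hX2)
  set Q := primorial y with hQ
  have hL1 : X ≤ (X / Q + 1) * Q := by
    have := Nat.lt_div_mul_add (a := X) hQ0
    rw [Nat.add_mul, one_mul]
    exact this.le
  have hL2 : (X / Q + 1) * Q ≤ 2 * X := by
    have := Nat.div_mul_le_self X Q
    rw [Nat.add_mul, one_mul]
    omega
  have hcount := count_split (fun a => rough X (N + a) ∧ rough X (N' + a)) X Q hQ0
  set E := Real.exp (κ * hh y N N') with hE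
  have hb : ∀ b ∈ range Q, (((range (X / Q + 1)).filter
      (fun l => rough X (N + (b + Q * l)) ∧ rough X (N' + (b + Q * l)))).card : ℝ) ≤
      K * (((X / Q + 1 : ℕ) : ℝ) * (WW X y) ^ 2 * E) := by
    intro b _
    have h1 := hp (N + b) (N' + b) (X / Q + 1) (by omega) hL1
    have h2 : (range (X / Q + 1)).filter
        (fun l => rough X (N + (b + Q * l)) ∧ rough X (N' + (b + Q * l))) =
        (range (X / Q + 1)).filter
          (fun l => rough X (N + b + Q * l) ∧ rough X (N' + b + Q * l)) := by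
      apply filter_congr
      intro l _
      rw [add_assoc, add_assoc]
    rw [h2]
    rw [hh_add_right] at h1
    exact h1
  have h3 : (((Icc 1 X).filter (fun a => rough X (N + a) ∧ rough X (N' + a))).card : ℝ) ≤
      ∑ b ∈ range Q, (((range (X / Q + 1)).filter
        (fun l => rough X (N + (b + Q * l)) ∧ rough X (N' + (b + Q * l)))).card : ℝ) := by
    exact_mod_cast hcount
  have h4 := h3.trans (sum_le_sum hb)
  rw [sum_const, card_range, nsmul_eq_mul] at h4
  have h5 : (((X / Q + 1 : ℕ) : ℝ)) * (Q : ℝ) ≤ 2 * X := by exact_mod_cast hL2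
  have hWn : 0 ≤ WW X y := le_trans (by positivity) hW1
  have hE0 : 0 < E := Real.exp_pos _
  have hW2' : (WW X y) ^ 2 ≤ (C / Real.log X) ^ 2 := by gcongr
  calc (((Icc 1 X).filter (fun a => rough X (N + a) ∧ rough X (N' + a))).card : ℝ)
      ≤ (Q : ℝ) * (K * (((X / Q + 1 : ℕ) : ℝ) * (WW X y) ^ 2 * E)) := h4
    _ = K * ((((X / Q + 1 : ℕ) : ℝ)) * (Q : ℝ)) * (WW X y) ^ 2 * E := by ring
    _ ≤ K * (2 * X) * (C / Real.log X) ^ 2 * E := by
        apply mul_le_mul_of_nonneg_right _ hE0.le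
        apply mul_le_mul (mul_le_mul_of_nonneg_left h5 hK.le) hW2' (by positivity) (by positivity)
    _ = 2 * K * C ^ 2 * X / (Real.log X) ^ 2 * E := by ring

end Pool.Agent.H75.AP
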