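import Pool.Agent.H75.AP.RoughCount
import Pool.Agent.H75.AP.PrimePair2

/-!
# Module SECONDM (helpwanted): second moment over the tuples

`κ`, `y0` from `rough_pair`; `K'`, `y0'` from `prime_pair_all (k κ)` (with `k ≥ 1`); fix `y = max y0 y0' ⊔ 1`, then `C` from `rough_pair` (at this `y`) and `C'` from `rough_single`; `M0` from `prime_pair_all`.
`B = PQ 1 0 M` (all primes `≤ M`), `n = |B|`. A number `N + a` that is prime is `rough X` unless `N + a ≤ X^(1/50)`, and at most `X^(1/50)` of the `a` satisfy this. So for `N ≠ N'`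
the count is `≤ C X/(log X)^2 exp (κ hh y N N') + X^(1/50) ≤ 2 C X/(log X)^2 exp (κ hh)` (`X ≥ X0`), whose `k`-th power summed over `N ≠ N'` is
`≤ (2 C X/(log X)^2)^k ∑_{N ≠ N'} exp (k κ hh) ≤ (2 C)^k (X/(log X)^2)^k (n^2 + Pair y (k κ) B) ≤ (2C)^k (1 + K'/y) (X/(log X)^2)^k n^2`. `N = N'`: `≤ n (2 C' X / log X)^k`.
-/

namespace Pool.Agent.H75.AP

open Finset

theorem sm_grow : ∃ X2 : ℕ, ∀ X : ℕ, X2 ≤ X → 1 ≤ Real.log X ∧
    (X : ℝ) ^ (1 / 50 : ℝ) * (Real.log X) ^ 2 ≤ X := by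
  have h1 : ∀ᶠ x : ℝ in Filter.atTop, ‖Real.log x‖ ≤ 1 * ‖x ^ (1 / 50 : ℝ)‖ :=
    (isLittleO_log_rpow_atTop (by norm_num : (0 : ℝ) < 1 / 50)).bound one_pos
  have h2 : ∀ᶠ x : ℝ in Filter.atTop, 1 ≤ Real.log x :=
    Real.tendsto_log_atTop.eventually_ge_atTop 1
  have h3 : ∀ᶠ x : ℝ in Filter.atTop, (1 : ℝ) ≤ x := Filter.eventually_ge_atTop 1
  have h4 := (h1.and (h2.and h3))
  have h5 := tendsto_natCast_atTop_atTop (R := ℝ) |>.eventually h4
  obtain ⟨X2, hX2⟩ := Filter.eventually_atTop.mp h5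
  refine ⟨X2, fun X hX => ?_⟩
  obtain ⟨g1, g2, g3⟩ := hX2 X hX
  refine ⟨g2, ?_⟩
  have hXp : 0 < (X : ℝ) := by linarith
  have hr : 0 < (X : ℝ) ^ (1 / 50 : ℝ) := Real.rpow_pos_of_pos hXp _
  rw [Real.norm_of_nonneg (by linarith), Real.norm_of_nonneg hr.le, one_mul] at g1
  calc (X : ℝ) ^ (1 / 50 : ℝ) * (Real.log X) ^ 2
      ≤ (X : ℝ) ^ (1 / 50 : ℝ) * ((X : ℝ) ^ (1 / 50 : ℝ)) ^ 2 := by gcongr
    _ = (X : ℝ) ^ (3 / 50 : ℝ) := by
        rw [← Real.rpow_natCast, ← Real.rpow_mul hXp.le, ← Real.rpow_add hXp]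
        norm_num
    _ ≤ (X : ℝ) ^ (1 : ℝ) := Real.rpow_le_rpow_of_exponent_le g3 (by norm_num)
    _ = X := Real.rpow_one _

theorem rough_of_prime (X n : ℕ) (hn : n.Prime) (h : (X : ℝ) ^ (1 / 50 : ℝ) < (n : ℝ)) :
    rough X n := by
  intro p hp hpn
  have : p = n := (Nat.prime_dvd_prime_iff_eq hp hn).mp hpn
  rw [this]
  exact h

theorem small_count (X : ℕ) (hX : 1 ≤ X) :
    (((Icc 1 X).filter (fun a : ℕ => (a : ℝ) ≤ (X : ℝ) ^ (1 / 50 : ℝ))).card : ℝ) ≤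
      (X : ℝ) ^ (1 / 50 : ℝ) := by
  have h0 : 0 ≤ (X : ℝ) ^ (1 / 50 : ℝ) := by positivity
  have h1 : (Icc 1 X).filter (fun a : ℕ => (a : ℝ) ≤ (X : ℝ) ^ (1 / 50 : ℝ)) ⊆
      Icc 1 ⌊(X : ℝ) ^ (1 / 50 : ℝ)⌋₊ := by
    intro a ha
    rw [mem_filter, mem_Icc] at ha
    rw [mem_Icc]
    exact ⟨ha.1.1, Nat.le_floor ha.2⟩
  have h2 := card_le_card h1
  rw [Nat.card_Icc, Nat.add_sub_cancel] at h2
  exact (Nat.cast_le.mpr h2).trans (Nat.floor_le h0)

open Classical in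
theorem pair_le_rough (X N N' : ℕ) (hX : 1 ≤ X) :
    (((Icc 1 X).filter (fun a => (N + a).Prime ∧ (N' + a).Prime)).card : ℝ) ≤
      (((Icc 1 X).filter (fun a => rough X (N + a) ∧ rough X (N' + a))).card : ℝ) +
        (X : ℝ) ^ (1 / 50 : ℝ) := by
  have hsub : (Icc 1 X).filter (fun a => (N + a).Prime ∧ (N' + a).Prime) ⊆
      (Icc 1 X).filter (fun a => rough X (N + a) ∧ rough X (N' + a)) ∪
        (Icc 1 X).filter (fun a : ℕ => (a : ℝ) ≤ (X : ℝ) ^ (1 / 50 : ℝ)) := by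
    intro a ha
    rw [mem_filter] at ha
    obtain ⟨ha0, ha1, ha2⟩ := ha
    rw [mem_union, mem_filter, mem_filter]
    by_cases h : (a : ℝ) ≤ (X : ℝ) ^ (1 / 50 : ℝ)
    · exact Or.inr ⟨ha0, h⟩
    · left
      refine ⟨ha0, rough_of_prime X _ ha1 ?_, rough_of_prime X _ ha2 ?_⟩
      · have h' := not_le.mp h
        push_cast
        have : (0 : ℝ) ≤ N := Nat.cast_nonneg N
        linarith
      · have h' := not_le.mp h
        push_cast
        have : (0 : ℝ) ≤ N' := Nat.cast_nonneg N'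
        linarith
  have h1 : (((Icc 1 X).filter (fun a => (N + a).Prime ∧ (N' + a).Prime)).card : ℝ) ≤
      (((Icc 1 X).filter (fun a => rough X (N + a) ∧ rough X (N' + a))).card : ℝ) +
      (((Icc 1 X).filter (fun a : ℕ => (a : ℝ) ≤ (X : ℝ) ^ (1 / 50 : ℝ))).card : ℝ) := by
    exact_mod_cast (card_le_card hsub).trans (card_union_le _ _)
  exact h1.trans (by linarith [small_count X hX])

theorem second_moment (k : ℕ) (hk : 1 ≤ k) : ∃ K : ℝ, 0 < K ∧ ∃ X0 M0 : ℕ, ∀ X M : ℕ, X0 ≤ X →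
    M0 ≤ M → M ≤ X →
    ∑ N ∈ PQ 1 0 M, ∑ N' ∈ PQ 1 0 M,
      (((Icc 1 X).filter (fun a => (N + a).Prime ∧ (N' + a).Prime)).card : ℝ) ^ k ≤
    K * (((PQ 1 0 M).card : ℝ) ^ 2 * ((X : ℝ) / (Real.log X) ^ 2) ^ k +
      ((PQ 1 0 M).card : ℝ) * ((X : ℝ) / Real.log X) ^ k) := by
  classical
  obtain ⟨κ, hκ, y0, hpair⟩ := rough_pair
  obtain ⟨K', hK', y0', hpp⟩ := prime_pair_all (k * κ) (by
    have : (1 : ℝ) ≤ k := by exact_mod_cast hk
    positivity)
  set y : ℕ := max (max y0 y0') 1 with hy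
  obtain ⟨C, hC, X1, hrp⟩ := hpair y (le_trans (le_max_left _ _) (le_max_left _ _))
  obtain ⟨M0, hpp'⟩ := hpp y (le_trans (le_max_right _ _) (le_max_left _ _))
  obtain ⟨C', hC', X1', hrs⟩ := rough_single
  obtain ⟨X2, hX2⟩ := sm_grow
  have hy1 : (1 : ℝ) ≤ y := by exact_mod_cast (le_max_right (max y0 y0') 1)
  refine ⟨(C + 1) ^ k * (1 + K' / y) + (C' + 1) ^ k, by positivity,
    max (max X1 X1') (max X2 2), M0, ?_⟩
  intro X M hX hM hMX
  have hX1 : X1 ≤ X := le_trans (le_trans (le_max_left _ _) (le_max_left _ _)) hX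
  have hX1' : X1' ≤ X := le_trans (le_trans (le_max_right _ _) (le_max_left _ _)) hX
  have hX2' : X2 ≤ X := le_trans (le_trans (le_max_left _ _) (le_max_right _ _)) hX
  have hXtwo : 2 ≤ X := le_trans (le_trans (le_max_right _ _) (le_max_right _ _)) hX
  obtain ⟨hlog, hgr⟩ := hX2 X hX2'
  have hXp : (0 : ℝ) < X := by
    have : (2 : ℝ) ≤ X := by exact_mod_cast hXtwo
    linarith
  set ℓ := Real.log X with hℓ
  set B := PQ 1 0 M with hB
  set n : ℝ := (B.card : ℝ) with hn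
  have hℓ0 : 0 < ℓ := by linarith
  have hsm2 : (X : ℝ) ^ (1 / 50 : ℝ) ≤ X / ℓ ^ 2 := by
    rw [le_div_iff₀ (by positivity)]
    exact hgr
  have hsm1 : (X : ℝ) / ℓ ^ 2 ≤ X / ℓ := by
    apply div_le_div_of_nonneg_left hXp.le hℓ0
    nlinarith
  -- off diagonal
  have hoff : ∀ N N' : ℕ, N ≠ N' →
      (((Icc 1 X).filter (fun a => (N + a).Prime ∧ (N' + a).Prime)).card : ℝ) ^ k ≤
      (C + 1) ^ k * (X / ℓ ^ 2) ^ k * Real.exp (k * κ * hh y N N') := by
    intro N N' hNN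
    have h1 := hrp X N N' hX1 hNN
    have h2 := pair_le_rough X N N' (by omega)
    have hE1 : 1 ≤ Real.exp (κ * hh y N N') := by
      rw [← Real.exp_zero]
      exact Real.exp_le_exp.mpr (mul_nonneg hκ.le (hh_nonneg _ _ _))
    have h3 : (((Icc 1 X).filter (fun a => (N + a).Prime ∧ (N' + a).Prime)).card : ℝ) ≤
        (C + 1) * (X / ℓ ^ 2) * Real.exp (κ * hh y N N') := by
      have h4 : (X : ℝ) ^ (1 / 50 : ℝ) ≤ X / ℓ ^ 2 * Real.exp (κ * hh y N N') := by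
        have : (0 : ℝ) ≤ X / ℓ ^ 2 := by positivity
        nlinarith
      calc _ ≤ _ := h2
        _ ≤ C * X / ℓ ^ 2 * Real.exp (κ * hh y N N') +
            X / ℓ ^ 2 * Real.exp (κ * hh y N N') := add_le_add h1 h4
        _ = _ := by ring
    calc _ ≤ ((C + 1) * (X / ℓ ^ 2) * Real.exp (κ * hh y N N')) ^ k :=
          pow_le_pow_left₀ (Nat.cast_nonneg _) h3 k
      _ = _ := by
          rw [mul_pow, mul_pow, ← Real.exp_nat_mul]
          congr 2
          ring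
  have hdiag : ∀ N : ℕ,
      (((Icc 1 X).filter (fun a => (N + a).Prime ∧ (N + a).Prime)).card : ℝ) ^ k ≤
      (C' + 1) ^ k * (X / ℓ) ^ k := by
    intro N
    have h1 := hrs X N hX1'
    have h2 := pair_le_rough X N N (by omega)
    have h3 : (Icc 1 X).filter (fun a => rough X (N + a) ∧ rough X (N + a)) =
        (Icc 1 X).filter (fun a => rough X (N + a)) := by
      apply filter_congr
      intro a _
      exact and_self_iff
    rw [h3] at h2
    have h4 : (((Icc 1 X).filter (fun a => (N + a).Prime ∧ (N + a).Prime)).card : ℝ) ≤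
        (C' + 1) * (X / ℓ) := by
      calc _ ≤ _ := h2
        _ ≤ C' * X / ℓ + X / ℓ := add_le_add h1 (hsm2.trans hsm1)
        _ = _ := by ring
    rw [← mul_pow]
    exact pow_le_pow_left₀ (Nat.cast_nonneg _) h4 k
  -- summation
  set D : ℝ := (C + 1) ^ k * (X / ℓ ^ 2) ^ k with hD
  set D' : ℝ := (C' + 1) ^ k * (X / ℓ) ^ k with hD'
  have hD0 : 0 ≤ D := by positivity
  have hD0' : 0 ≤ D' := by positivity
  have hterm : ∀ N ∈ B, ∀ N' ∈ B,
      (((Icc 1 X).filter (fun a => (N + a).Prime ∧ (N' + a).Prime)).card : ℝ) ^ k ≤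
      D * ((if N ≠ N' then Real.exp (k * κ * hh y N N') - 1 else 0) + 1) +
        (if N = N' then D' else 0) := by
    intro N _ N' _
    by_cases h : N = N'
    · subst h
      rw [if_neg (by simp), if_pos rfl]
      have := hdiag N
      linarith
    · rw [if_pos h, if_neg h]
      have := hoff N N' h
      linarith
  have hsum := sum_le_sum fun N hN => sum_le_sum fun N' hN' => hterm N hN N' hN'
  have hcalc : ∑ N ∈ B, ∑ N' ∈ B,
      (D * ((if N ≠ N' then Real.exp (k * κ * hh y N N') - 1 else 0) + 1) +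
        (if N = N' then D' else 0)) = D * (Pair y (k * κ) B + n ^ 2) + n * D' := by
    have e1 : ∀ N ∈ B, ∑ N' ∈ B,
        (D * ((if N ≠ N' then Real.exp (k * κ * hh y N N') - 1 else 0) + 1) +
        (if N = N' then D' else 0)) =
        D * (∑ N' ∈ B, (if N ≠ N' then Real.exp (k * κ * hh y N N') - 1 else 0) + n) + D' := by
      intro N hN
      rw [sum_add_distrib, ← mul_sum, sum_add_distrib, sum_const, nsmul_eq_mul, mul_one,
        sum_ite_eq, if_pos hN]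
    rw [sum_congr rfl e1, sum_add_distrib, ← mul_sum, sum_add_distrib, sum_const, sum_const,
      nsmul_eq_mul, nsmul_eq_mul]
    unfold Pair
    ring
  rw [hcalc] at hsum
  have hP := hpp' M hM
  rw [← hB, ← hn] at hP
  calc _ ≤ _ := hsum
    _ ≤ D * (K' / y * n ^ 2 + n ^ 2) + n * D' := by gcongr
    _ = (C + 1) ^ k * (1 + K' / y) * (n ^ 2 * (X / ℓ ^ 2) ^ k) +
        (C' + 1) ^ k * (n * (X / ℓ) ^ k) := by
        rw [hD, hD']
        ring
    _ ≤ ((C + 1) ^ k * (1 + K' / y) + (C' + 1) ^ k) * (n ^ 2 * (X / ℓ ^ 2) ^ k) +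
        ((C + 1) ^ k * (1 + K' / y) + (C' + 1) ^ k) * (n * (X / ℓ) ^ k) := by
        have hn0 : 0 ≤ n := Nat.cast_nonneg _
        apply add_le_add
        · apply mul_le_mul_of_nonneg_right _ (by positivity)
          have : 0 ≤ (C' + 1) ^ k := by positivity
          linarith
        · apply mul_le_mul_of_nonneg_right _ (by positivity)
          have : 0 ≤ (C + 1) ^ k * (1 + K' / y) := by positivity
          linarith
    _ = _ := by ring

end Pool.Agent.H75.AP
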