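import Pool.Agent.H75.AP.Iter
import Pool.Agent.H75.AP.PrimePair2

/-!
# Module TUPLEMAIN (helper75)
-/

namespace Pool.Agent.H75.AP

open Finset

/-- admissibility of `(0, a_1, …, a_k)` -/
def Adm {k : ℕ} (a : Fin k → ℕ) : Prop :=
  ∀ p : ℕ, p.Prime → ∃ r : ℕ, ¬ p ∣ r ∧ ∀ i, ¬ p ∣ r + a i

theorem coprime_primorial {n y : ℕ} (h : ∀ p : ℕ, p.Prime → p ≤ y → ¬ p ∣ n) :
    n.Coprime (primorial y) := by
  unfold primorial
  apply Nat.Coprime.prod_right
  intro p hp
  rw [mem_filter, mem_range] at hp
  rw [Nat.coprime_comm, Nat.Prime.coprime_iff_not_dvd hp.2]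
  exact h p hp.2 (by omega)

/-- for an admissible tuple there is a class `r` modulo `primorial y` coprime to `primorial y` such that all `r + b_i` are
coprime to it (Chinese remainder theorem) -/
theorem exists_class (y k : ℕ) (b : Fin k → ℕ)
    (h : ∀ p : ℕ, p.Prime → p ≤ y → ∃ r : ℕ, ¬ p ∣ r ∧ ∀ i, ¬ p ∣ r + b i) :
    ∃ r : ℕ, r.Coprime (primorial y) ∧ ∀ i, (r + b i).Coprime (primorial y) := by
  classical
  choose! f hf using h
  set t := (range (y + 1)).filter Nat.Prime with ht
  have hmem : ∀ p, p ∈ t ↔ p.Prime ∧ p ≤ y := by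
    intro p
    rw [ht, mem_filter, mem_range]
    constructor
    · rintro ⟨h1, h2⟩; exact ⟨h2, by omega⟩
    · rintro ⟨h1, h2⟩; exact ⟨by omega, h1⟩
  obtain ⟨r, hr⟩ := Nat.chineseRemainderOfFinset f id t
    (fun p hp => ((hmem p).1 hp).1.ne_zero)
    (by
      intro p hp q hq hpq
      exact (Nat.coprime_primes ((hmem p).1 hp).1 ((hmem q).1 hq).1).2 hpq)
  refine ⟨r, ?_, ?_⟩
  · apply coprime_primorial
    intro p hp hpy hdvd
    have h1 := hr p ((hmem p).2 ⟨hp, hpy⟩)
    have h2 := (hf p hp hpy).1
    exact h2 ((Nat.ModEq.dvd_iff h1 (dvd_refl p)).1 hdvd)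
  · intro i
    apply coprime_primorial
    intro p hp hpy hdvd
    have h1 := (hr p ((hmem p).2 ⟨hp, hpy⟩)).add_right (b i)
    have h2 := (hf p hp hpy).2 i
    exact h2 ((Nat.ModEq.dvd_iff h1 (dvd_refl p)).1 hdvd)

theorem card_residue_le (k X Q : ℕ) (hQ : 0 < Q) (P : (Fin k → ℕ) → Prop) [DecidablePred P] :
    (((Fintype.piFinset (fun _ : Fin k => Icc 1 X)).filter P).card : ℝ) ≤
      ∑ b ∈ Fintype.piFinset (fun _ : Fin k => range Q),
        (((Fintype.piFinset (fun _ : Fin k => range (X / Q + 1))).filter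
        (fun l => P (fun i => b i + Q * l i))).card : ℝ) := by
  have h1 : ((Fintype.piFinset (fun _ : Fin k => Icc 1 X)).filter P).card ≤
      (((Fintype.piFinset (fun _ : Fin k => range Q)) ×ˢ
        (Fintype.piFinset (fun _ : Fin k => range (X / Q + 1)))).filter
        (fun q => P (fun i => q.1 i + Q * q.2 i))).card := by
    apply card_le_card_of_injOn (fun a => (fun i => a i % Q, fun i => a i / Q))
    · intro a ha
      rw [mem_coe, mem_filter, Fintype.mem_piFinset] at ha
      rw [mem_coe, mem_filter, mem_product, Fintype.mem_piFinset, Fintype.mem_piFinset]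
      refine ⟨⟨fun i => mem_range.2 (Nat.mod_lt _ hQ), fun i => ?_⟩, ?_⟩
      · have := (mem_Icc.1 (ha.1 i)).2
        rw [mem_range]
        exact Nat.lt_succ_of_le (Nat.div_le_div_right this)
      · have : (fun i => a i % Q + Q * (a i / Q)) = a := by
          funext i; exact Nat.mod_add_div _ _
        simp only [this]
        exact ha.2
    · intro a _ a' _ h
      simp only [Prod.mk.injEq] at h
      funext i
      rw [← Nat.mod_add_div (a i) Q, ← Nat.mod_add_div (a' i) Q]
      have e1 := congrFun h.1 i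
      have e2 := congrFun h.2 i
      rw [e1, e2]
  have h2 : (((Fintype.piFinset (fun _ : Fin k => range Q)) ×ˢ
        (Fintype.piFinset (fun _ : Fin k => range (X / Q + 1)))).filter
        (fun q => P (fun i => q.1 i + Q * q.2 i))).card =
      ∑ b ∈ Fintype.piFinset (fun _ : Fin k => range Q),
        ((Fintype.piFinset (fun _ : Fin k => range (X / Q + 1))).filter
        (fun l => P (fun i => b i + Q * l i))).card := by
    rw [card_filter, sum_product]
    apply sum_congr rfl; intro l0 _
    rw [card_filter]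
  rw [h2] at h1
  exact_mod_cast h1

/-- `M / log M` is large when `M ≥ C (log X)^k log log X` -/
theorem ratio_large (k : ℕ) (C : ℝ) (hC : 0 < C) : ∃ X0 : ℕ, ∀ X M : ℕ, X0 ≤ X →
    C * (Real.log X) ^ k * Real.log (Real.log X) ≤ M →
    C / (k + 2) * (Real.log X) ^ k ≤ M / Real.log M := by
  -- eventually `log (C (log X)^k loglog X) ≤ (k+2) loglog X`
  have hlog : Filter.Tendsto (fun X : ℕ => Real.log (X : ℝ)) Filter.atTop Filter.atTop :=
    Real.tendsto_log_atTop.comp tendsto_natCast_atTop_atTop
  have hll : Filter.Tendsto (fun X : ℕ => Real.log (Real.log (X : ℝ))) Filter.atTop Filter.atTop :=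
    Real.tendsto_log_atTop.comp hlog
  have hlll : Filter.Tendsto (fun X : ℕ => Real.log (Real.log (Real.log (X : ℝ)))) Filter.atTop
      Filter.atTop := Real.tendsto_log_atTop.comp hll
  have e1 := hll.eventually_ge_atTop (max 3 (max (2 * Real.log C) (3 / C)))
  have e2 := hlog.eventually_ge_atTop 1
  obtain ⟨X0, hX0⟩ := Filter.eventually_atTop.1 (e1.and e2)
  refine ⟨X0, ?_⟩
  intro X M hX hM
  obtain ⟨h1, h2⟩ := hX0 X hX
  set ℓ := Real.log X with hℓ
  set ll := Real.log ℓ with hll'
  have h3 : 3 ≤ ll := (le_max_left _ _).trans h1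
  have h4 : 2 * Real.log C ≤ ll := (le_max_left _ _).trans ((le_max_right _ _).trans h1)
  have h5 : 3 / C ≤ ll := (le_max_right _ _).trans ((le_max_right _ _).trans h1)
  have hℓpos : 0 < ℓ := by linarith
  have hllpos : 0 < ll := by linarith
  set M1 : ℝ := C * ℓ ^ k * ll with hM1
  have hM1pos : 0 < M1 := by positivity
  have hℓk : 1 ≤ ℓ ^ k := one_le_pow₀ h2
  have hM1e : Real.exp 1 ≤ M1 := by
    have h6 : 3 ≤ C * ll := by
      rw [div_le_iff₀ hC] at h5
      linarith
    have h7 : C * ll ≤ M1 := by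
      rw [hM1]
      have : C * ll * 1 ≤ C * ll * ℓ ^ k := mul_le_mul_of_nonneg_left hℓk (by positivity)
      linarith
    linarith [Real.exp_one_lt_three]
  have hlogM1 : Real.log M1 ≤ (k + 2) * ll := by
    rw [hM1, Real.log_mul (by positivity) (by positivity), Real.log_mul (by positivity)
      (by positivity), Real.log_pow]
    have h8 : Real.log ll ≤ ll / 2 := by
      have h9 := Real.add_one_le_exp (ll / 2 - 1)
      have h10 : Real.log (ll / 2) ≤ ll / 2 - 1 := Real.log_le_sub_one_of_pos (by positivity)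
      have h11 : Real.log ll = Real.log (ll / 2) + Real.log 2 := by
        rw [← Real.log_mul (by positivity) (by norm_num)]
        congr 1; ring
      have := Real.log_two_lt_d9
      linarith
    have : (k : ℝ) * Real.log ℓ = k * ll := rfl
    rw [this]
    linarith
  have hlogM1pos : 0 < Real.log M1 := by
    have := Real.log_le_log (Real.exp_pos 1) hM1e
    rw [Real.log_exp] at this
    linarith
  have hanti := Real.log_div_self_antitoneOn
  have hMe : Real.exp 1 ≤ (M : ℝ) := hM1e.trans hM
  have hlogM : 0 < Real.log M := by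
    have := Real.log_le_log (Real.exp_pos 1) hMe
    rw [Real.log_exp] at this
    linarith
  have h12 : Real.log M / M ≤ Real.log M1 / M1 := hanti hM1e hMe hM
  have hMpos : (0 : ℝ) < M := lt_of_lt_of_le (Real.exp_pos 1) hMe
  have h13 : M1 / Real.log M1 ≤ M / Real.log M := by
    rw [div_le_div_iff₀ hlogM1pos hlogM]
    rw [div_le_div_iff₀ hMpos hM1pos] at h12
    linarith
  refine le_trans ?_ h13
  rw [le_div_iff₀ hlogM1pos]
  calc C / (k + 2) * ℓ ^ k * Real.log M1 ≤ C / (k + 2) * ℓ ^ k * ((k + 2) * ll) :=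
        mul_le_mul_of_nonneg_left hlogM1 (by positivity)
    _ = M1 := by rw [hM1]; field_simp

open Classical in
theorem tuple_many (k : ℕ) (hk : 1 ≤ k) (η : ℝ) (hη : 0 < η) : ∃ c C : ℝ, 0 < c ∧ 0 < C ∧
    ∃ X0 : ℕ, ∀ X M : ℕ, X0 ≤ X → C * (Real.log X) ^ k * Real.log (Real.log X) ≤ M → M ≤ X →
    (((Fintype.piFinset (fun _ : Fin k => Icc 1 X)).filter (fun a : Fin k → ℕ => Adm a ∧
      (((Icc 1 M).filter (fun N => N.Prime ∧ ∀ i, good X (N + a i))).card : ℝ) <
        c * M / (Real.log M * (Real.log X) ^ k))).card : ℝ) ≤ η * (X : ℝ) ^ k := by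
  obtain ⟨κ, hκ, hiter⟩ := iter
  obtain ⟨ε, hε, y1, hy1, H1⟩ := hiter k (η / 2 ^ k) (by positivity)
  have hk0 : (0 : ℝ) < k := by exact_mod_cast hk
  obtain ⟨K', hK', y2, H2⟩ := prime_pair (κ * k) (by positivity)
  set y := max (max y1 y2) ⌈K' / ε⌉₊ with hy
  have hyy1 : y1 ≤ y := le_trans (le_max_left _ _) (le_max_left _ _)
  have hyy2 : y2 ≤ y := le_trans (le_max_right _ _) (le_max_left _ _)
  have hyK : K' / ε ≤ (y : ℝ) := (Nat.le_ceil _).trans (by exact_mod_cast (le_max_right _ _))
  have hy0 : (0 : ℝ) < y := lt_of_lt_of_le (by positivity) hyK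
  obtain ⟨C, c, hC, hc, X1, HX⟩ := H1 y hyy1
  obtain ⟨M0, HM⟩ := H2 y hyy2
  set Q := primorial y with hQ
  have hQpos : 0 < Q := primorial_pos y
  have hQR : (0 : ℝ) < Q := by exact_mod_cast hQpos
  obtain ⟨M1, HL⟩ := prime_lower Q hQpos
  set Cf : ℝ := 2 * Q * (k + 2) * C with hCf
  have hCfpos : 0 < Cf := by positivity
  obtain ⟨X2, HR⟩ := ratio_large k Cf hCfpos
  -- `M` is large
  have hlog : Filter.Tendsto (fun X : ℕ => Real.log (X : ℝ)) Filter.atTop Filter.atTop :=
    Real.tendsto_log_atTop.comp tendsto_natCast_atTop_atTop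
  have hll : Filter.Tendsto (fun X : ℕ => Real.log (Real.log (X : ℝ))) Filter.atTop Filter.atTop :=
    Real.tendsto_log_atTop.comp hlog
  obtain ⟨X3, hX3⟩ := Filter.eventually_atTop.1
    ((hll.eventually_ge_atTop (max 1 ((max M0 M1 : ℕ) / Cf))).and (hlog.eventually_ge_atTop 1))
  refine ⟨c / (2 * Q), Cf, by positivity, hCfpos, max (max X1 X2) (max X3 Q), ?_⟩
  intro X M hX hM hMX
  have hX1 : X1 ≤ X := le_trans (le_trans (le_max_left _ _) (le_max_left _ _)) hX
  have hX2 : X2 ≤ X := le_trans (le_trans (le_max_right _ _) (le_max_left _ _)) hX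
  have hX3' : X3 ≤ X := le_trans (le_trans (le_max_left _ _) (le_max_right _ _)) hX
  have hXQ : Q ≤ X := le_trans (le_trans (le_max_right _ _) (le_max_right _ _)) hX
  obtain ⟨hll1, hl1⟩ := hX3 X hX3'
  have hratio := HR X M hX2 hM
  have hℓpos : 0 < Real.log X := by linarith
  have hMbig : max M0 M1 ≤ M := by
    have h1 : ((max M0 M1 : ℕ) : ℝ) / Cf ≤ Real.log (Real.log X) := (le_max_right _ _).trans hll1
    rw [div_le_iff₀ hCfpos] at h1
    have h2 : Real.log (Real.log X) * Cf ≤ Cf * (Real.log X) ^ k * Real.log (Real.log X) := by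
      have h3 : 1 ≤ (Real.log X) ^ k := one_le_pow₀ hl1
      have h4 : 1 ≤ Real.log (Real.log X) := (le_max_left _ _).trans hll1
      have h5 : 0 < Real.log (Real.log X) * Cf := by positivity
      nlinarith
    exact_mod_cast h1.trans (h2.trans hM)
  have hMM0 : M0 ≤ M := (le_max_left _ _).trans hMbig
  have hMM1 : M1 ≤ M := (le_max_right _ _).trans hMbig
  set L := X / Q + 1 with hL
  have hXL : X ≤ L * Q := by
    have := Nat.lt_div_mul_add (a := X) hQpos
    have : L * Q = X / Q * Q + Q := by rw [hL]; ring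
    omega
  have hLX : L * Q ≤ X + Q := by
    have h1 := Nat.div_mul_le_self X Q
    have : L * Q = X / Q * Q + Q := by rw [hL]; ring
    omega
  refine (card_residue_le k X Q hQpos _).trans ?_
  -- each residue tuple
  have hres : ∀ b ∈ Fintype.piFinset (fun _ : Fin k => range Q),
      (((Fintype.piFinset (fun _ : Fin k => range L)).filter
        (fun l : Fin k → ℕ => Adm (fun i => b i + Q * l i) ∧
          (((Icc 1 M).filter (fun N => N.Prime ∧ ∀ i, good X (N + (b i + Q * l i)))).card : ℝ) <
          c / (2 * Q) * M / (Real.log M * (Real.log X) ^ k))).card : ℝ) ≤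
        η / 2 ^ k * (L : ℝ) ^ k := by
    intro b hb
    rw [Fintype.mem_piFinset] at hb
    by_cases hadm : ∀ p : ℕ, p.Prime → p ≤ y → ∃ r : ℕ, ¬ p ∣ r ∧ ∀ i, ¬ p ∣ r + b i
    · obtain ⟨r, hr, hrb⟩ := exists_class y k b hadm
      have hB := HL M hMM1 r hr
      set B := PQ Q r M with hBdef
      have hlogM : 0 < Real.log M := by
        by_contra hcon
        push Not at hcon
        have h1 : (M : ℝ) / Real.log M ≤ 0 := by
          apply div_nonpos_of_nonneg_of_nonpos (by positivity) hcon
        have h2 : 0 < Cf / (k + 2) * (Real.log X) ^ k := by positivity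
        linarith
      have hphi : (Q.totient : ℝ) ≤ Q := by exact_mod_cast Nat.totient_le Q
      have hphi0 : (0 : ℝ) < Q.totient := by exact_mod_cast Nat.totient_pos.2 hQpos
      have hBcard : (M : ℝ) / (2 * Q * Real.log M) ≤ (B.card : ℝ) := by
        refine le_trans ?_ hB.1
        apply div_le_div_of_nonneg_left (by positivity) (by positivity)
        apply mul_le_mul_of_nonneg_right _ hlogM.le
        linarith
      have h1 : C * (Real.log X) ^ k ≤ (B.card : ℝ) := by
        refine le_trans ?_ hBcard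
        have e1 : (M : ℝ) / (2 * Q * Real.log M) = (M / Real.log M) / (2 * Q) := by
          field_simp
        rw [e1, le_div_iff₀ (by positivity)]
        refine le_trans (le_of_eq ?_) hratio
        rw [hCf]; field_simp
      have h2 : Pair y (κ * k) B ≤ ε * (B.card : ℝ) ^ 2 := by
        refine (HM M r hMM0 hr).trans ?_
        apply mul_le_mul_of_nonneg_right _ (by positivity)
        rw [div_le_iff₀ hy0]
        rw [div_le_iff₀ hε] at hyK
        linarith
      have h3 := HX X hX1 B r L b
        (fun x hx => by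
          rw [hBdef, PQ, mem_filter, mem_Icc] at hx
          exact ⟨hx.1.2.trans hMX, hx.1.1, hx.2.2⟩)
        (fun i => ⟨(mem_range.1 (hb i)).le, hrb i⟩) hXL hLX h1 h2
      refine le_trans ?_ h3
      have h4 : (Fintype.piFinset (fun _ : Fin k => range L)).filter
        (fun l : Fin k → ℕ => Adm (fun i => b i + Q * l i) ∧
          (((Icc 1 M).filter (fun N => N.Prime ∧ ∀ i, good X (N + (b i + Q * l i)))).card : ℝ) <
          c / (2 * Q) * M / (Real.log M * (Real.log X) ^ k)) ⊆
        (Fintype.piFinset (fun _ : Fin k => range L)).filter (fun l : Fin k → ℕ =>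
        ((B.filter (fun x => ∀ i, good X (x + b i + Q * l i))).card : ℝ) <
          c * B.card / (Real.log X) ^ k) := by
        intro l hl
        rw [mem_filter] at hl ⊢
        refine ⟨hl.1, ?_⟩
        have h5 := hl.2.2
        have h6 : ((B.filter (fun x => ∀ i, good X (x + b i + Q * l i))).card : ℝ) ≤
            (((Icc 1 M).filter (fun N => N.Prime ∧ ∀ i, good X (N + (b i + Q * l i)))).card : ℝ) := by
          have : B.filter (fun x => ∀ i, good X (x + b i + Q * l i)) ⊆
            (Icc 1 M).filter (fun N => N.Prime ∧ ∀ i, good X (N + (b i + Q * l i))) := by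
            intro x hx
            rw [mem_filter, hBdef, PQ, mem_filter] at hx
            rw [mem_filter]
            refine ⟨hx.1.1, hx.1.2.1, fun i => ?_⟩
            have := hx.2 i
            rwa [add_assoc] at this
          exact_mod_cast card_le_card this
        refine (h6.trans_lt h5).trans_le ?_
        have e1 : c / (2 * Q) * M / (Real.log M * (Real.log X) ^ k) =
          c * (M / (2 * Q * Real.log M)) / (Real.log X) ^ k := by
          field_simp
        rw [e1]
        apply div_le_div_of_nonneg_right _ (by positivity)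
        exact mul_le_mul_of_nonneg_left hBcard hc.le
      exact_mod_cast card_le_card h4
    · rw [filter_false_of_mem]
      · simp only [card_empty, Nat.cast_zero]
        positivity
      · intro l _ hcon
        apply hadm
        intro p hp hpy
        obtain ⟨r, hr, hri⟩ := hcon.1 p hp
        refine ⟨r, hr, fun i hdvd => hri i ?_⟩
        have hpQ : p ∣ Q := by
          rw [hQ, primorial]
          exact dvd_prod_of_mem _ (mem_filter.2 ⟨mem_range.2 (by omega), hp⟩)
        have : r + (b i + Q * l i) = (r + b i) + Q * l i := by ring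
        rw [this]
        exact dvd_add hdvd (Dvd.dvd.mul_right hpQ _)
  refine (sum_le_sum hres).trans ?_
  rw [sum_const, Fintype.card_piFinset, nsmul_eq_mul]
  simp only [card_range, prod_const, card_univ, Fintype.card_fin]
  push_cast
  have h5 : (L : ℝ) * Q ≤ 2 * X := by
    have h6 : L * Q ≤ 2 * X := by omega
    exact_mod_cast h6
  calc (Q : ℝ) ^ k * (η / 2 ^ k * (L : ℝ) ^ k) = η / 2 ^ k * ((L : ℝ) * Q) ^ k := by
        rw [mul_pow]; ring
    _ ≤ η / 2 ^ k * (2 * X) ^ k := by
        apply mul_le_mul_of_nonneg_left _ (by positivity)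
        exact pow_le_pow_left₀ (by positivity) h5 k
    _ = η * (X : ℝ) ^ k := by
        rw [mul_pow]; field_simp

end Pool.Agent.H75.AP
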