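import Pool.Agent.H75.AP.Iter3
import Pool.Agent.H75.AP.TupleMain

/-!
# Module TUPLE2 (helper75): the binomial theorem for tuples
-/

namespace Pool.Agent.H75.AP

open Finset

/-- admissibility with respect to the primes `≤ y` -/
def AdmY {k : ℕ} (y : ℕ) (b : Fin k → ℕ) : Prop :=
  ∀ p : ℕ, p.Prime → p ≤ y → ∃ r : ℕ, ¬ p ∣ r ∧ ∀ i, ¬ p ∣ r + b i

theorem dvd_primorial {p y : ℕ} (hp : p.Prime) (hpy : p ≤ y) : p ∣ primorial y := by
  rw [primorial]
  exact dvd_prod_of_mem _ (mem_filter.2 ⟨mem_range.2 (by omega), hp⟩)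

theorem admY_of_adm {k y : ℕ} {b l : Fin k → ℕ} (h : Adm (fun i => b i + primorial y * l i)) :
    AdmY y b := by
  intro p hp hpy
  obtain ⟨r, hr, hri⟩ := h p hp
  refine ⟨r, hr, fun i hdvd => hri i ?_⟩
  have : r + (b i + primorial y * l i) = (r + b i) + primorial y * l i := by ring
  rw [this]
  exact dvd_add hdvd (Dvd.dvd.mul_right (dvd_primorial hp hpy) _)

/-- a prime `p > k + 1` is never an obstruction -/
theorem adm_large {k p : ℕ} (hp : p.Prime) (hpk : k + 1 < p) (a : Fin k → ℕ) :
    ∃ r : ℕ, ¬ p ∣ r ∧ ∀ i, ¬ p ∣ r + a i := by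
  classical
  by_contra hcon
  push Not at hcon
  have hsub : range p ⊆ insert 0 (univ.image (fun i : Fin k => (p - a i % p) % p)) := by
    intro r hr
    rw [mem_range] at hr
    rw [mem_insert, mem_image]
    by_cases h0 : p ∣ r
    · left
      exact Nat.eq_zero_of_dvd_of_lt h0 hr
    · right
      obtain ⟨i, hi⟩ := hcon r h0
      refine ⟨i, mem_univ _, ?_⟩
      have h1 : a i % p < p := Nat.mod_lt _ hp.pos
      have h2 : p ∣ r + a i % p := by
        have h3 : a i = p * (a i / p) + a i % p := (Nat.div_add_mod _ _).symm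
        have h4 : r + a i = (r + a i % p) + p * (a i / p) := by omega
        rw [h4] at hi
        exact (Nat.dvd_add_left (Dvd.intro _ rfl)).1 hi
      obtain ⟨c, hc⟩ := h2
      by_cases hz : a i % p = 0
      · exfalso
        rw [hz, add_zero] at hc
        exact h0 ⟨c, hc⟩
      · have hc1 : c = 1 := by
          have h5 : 0 < c := by
            rcases Nat.eq_zero_or_pos c with h | h
            · rw [h, mul_zero] at hc; omega
            · exact h
          have h6 : c < 2 := by
            by_contra h7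
            push Not at h7
            have : p * 2 ≤ p * c := Nat.mul_le_mul_left _ h7
            omega
          omega
        rw [hc1, mul_one] at hc
        have h8 : p - a i % p = r := by omega
        rw [h8, Nat.mod_eq_of_lt hr]
  have h1 := card_le_card hsub
  rw [card_range] at h1
  have h2 := card_insert_le 0 (univ.image (fun i : Fin k => (p - a i % p) % p))
  have h3 : (univ.image (fun i : Fin k => (p - a i % p) % p)).card ≤ k := by
    refine card_image_le.trans ?_
    rw [card_univ, Fintype.card_fin]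
  omega

theorem adm_of_admY {k y : ℕ} (hk : k + 1 ≤ y) {b : Fin k → ℕ} (l : Fin k → ℕ)
    (h : AdmY y b) : Adm (fun i => b i + primorial y * l i) := by
  intro p hp
  by_cases hpy : p ≤ y
  · obtain ⟨r, hr, hri⟩ := h p hp hpy
    refine ⟨r, hr, fun i hdvd => hri i ?_⟩
    have h1 : r + (b i + primorial y * l i) = (r + b i) + primorial y * l i := by ring
    simp only [h1] at hdvd
    exact (Nat.dvd_add_left (Dvd.dvd.mul_right (dvd_primorial hp hpy) _)).1 hdvd
  · exact adm_large hp (by omega) _

open Classical in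
theorem card_adm_ge (k X y : ℕ) (hk : k + 1 ≤ y) :
    (((Fintype.piFinset (fun _ : Fin k => range (primorial y))).filter (AdmY y)).card : ℝ) *
      ((X / primorial y - 1 : ℕ) : ℝ) ^ k ≤
    (((Fintype.piFinset (fun _ : Fin k => Icc 1 X)).filter (fun a => Adm a)).card : ℝ) := by
  set Q := primorial y with hQ
  have hQpos : 0 < Q := primorial_pos y
  have h1 : (((Fintype.piFinset (fun _ : Fin k => range Q)).filter (AdmY y)) ×ˢ
      (Fintype.piFinset (fun _ : Fin k => range (X / Q - 1)))).card ≤
      ((Fintype.piFinset (fun _ : Fin k => Icc 1 X)).filter (fun a => Adm a)).card := by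
    apply card_le_card_of_injOn (fun q => fun i => q.1 i + Q * (q.2 i + 1))
    · intro q hq
      rw [mem_coe, mem_product, mem_filter, Fintype.mem_piFinset, Fintype.mem_piFinset] at hq
      rw [mem_coe, mem_filter, Fintype.mem_piFinset]
      refine ⟨fun i => ?_, adm_of_admY hk (fun i => q.2 i + 1) hq.1.2⟩
      have h2 := mem_range.1 (hq.1.1 i)
      have h3 := mem_range.1 (hq.2 i)
      have h4 : Q * (q.2 i + 1) + Q ≤ X := by
        have h5 : Q * (q.2 i + 1) + Q = Q * (q.2 i + 2) := by ring
        rw [h5]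
        have h6 : q.2 i + 2 ≤ X / Q := by omega
        calc Q * (q.2 i + 2) ≤ Q * (X / Q) := Nat.mul_le_mul_left _ h6
          _ ≤ X := Nat.mul_div_le _ _
      rw [mem_Icc]
      have h7 : Q * 1 ≤ Q * (q.2 i + 1) := Nat.mul_le_mul_left _ (by omega)
      have h8 : q.1 i < Q := h2
      show 1 ≤ q.1 i + Q * (q.2 i + 1) ∧ q.1 i + Q * (q.2 i + 1) ≤ X
      constructor <;> omega
    · intro q hq q' hq' h
      rw [mem_coe, mem_product, mem_filter, Fintype.mem_piFinset, Fintype.mem_piFinset] at hq hq'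
      have h2 : ∀ i, q.1 i = q'.1 i ∧ q.2 i = q'.2 i := by
        intro i
        have h3 := congrFun h i
        simp only at h3
        have h4 := mem_range.1 (hq.1.1 i)
        have h5 := mem_range.1 (hq'.1.1 i)
        have h6 : (q.1 i + Q * (q.2 i + 1)) % Q = (q'.1 i + Q * (q'.2 i + 1)) % Q := by rw [h3]
        rw [Nat.add_mul_mod_self_left, Nat.add_mul_mod_self_left, Nat.mod_eq_of_lt h4,
          Nat.mod_eq_of_lt h5] at h6
        refine ⟨h6, ?_⟩
        rw [h6] at h3
        have h7 : Q * (q.2 i + 1) = Q * (q'.2 i + 1) := by omega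
        have h8 := Nat.eq_of_mul_eq_mul_left hQpos h7
        omega
      exact Prod.ext (funext fun i => (h2 i).1) (funext fun i => (h2 i).2)
  rw [card_product, Fintype.card_piFinset] at h1
  simp only [card_range, prod_const, card_univ, Fintype.card_fin] at h1
  exact_mod_cast h1

/-- comparison of the number of blocks -/
theorem block_ratio (k Q : ℕ) (hQ : 0 < Q) (η : ℝ) (hη : 0 < η) : ∃ X0 : ℕ, ∀ X : ℕ, X0 ≤ X →
    ((X / Q + 1 : ℕ) : ℝ) ^ k ≤ (1 + η) * ((X / Q - 1 : ℕ) : ℝ) ^ k := by
  obtain ⟨T, hT⟩ := exists_nat_ge (max 1 (2 * k / Real.log (1 + η)))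
  have hT1 : (1 : ℝ) ≤ T := (le_max_left _ _).trans hT
  have hlog : 0 < Real.log (1 + η) := Real.log_pos (by linarith)
  have hT2 : 2 * k / Real.log (1 + η) ≤ T := (le_max_right _ _).trans hT
  refine ⟨Q * (T + 1), ?_⟩
  intro X hX
  have h1 : T + 1 ≤ X / Q := by
    rw [Nat.le_div_iff_mul_le hQ, mul_comm]; exact hX
  set s := X / Q - 1 with hs
  have h2 : X / Q + 1 = s + 2 := by omega
  have h3 : T ≤ s := by omega
  have hsR : (T : ℝ) ≤ s := by exact_mod_cast h3
  have hs0 : (0 : ℝ) < s := by linarith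
  rw [h2]
  have h4 : ((s + 2 : ℕ) : ℝ) = s * (1 + 2 / s) := by push_cast; field_simp
  rw [h4, mul_pow, mul_comm]
  apply mul_le_mul_of_nonneg_right _ (by positivity)
  have h5 : (1 + 2 / (s : ℝ)) ^ k ≤ Real.exp (2 / s) ^ k := by
    apply pow_le_pow_left₀ (by positivity)
    have := Real.add_one_le_exp (2 / (s : ℝ))
    linarith
  refine h5.trans ?_
  rw [← Real.exp_nat_mul, ← Real.le_log_iff_exp_le (by linarith)]
  rw [div_le_iff₀ hlog] at hT2
  have h6 : (k : ℝ) * (2 / s) = 2 * k / s := by ring
  rw [h6, div_le_iff₀ hs0]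
  nlinarith

/-- the event of the theorem: at least `c M / (log M (log X)^k)` primes `N ≤ M` such that all `N + a_i` are
products of at most four primes `> X^(1/50)` and `N + a_i` is prime for all `i ∈ I`, for some `I` with `j` elements -/
def Rich (X M k j : ℕ) (c : ℝ) (a : Fin k → ℕ) : Prop := by
  classical
  exact ∃ I : Finset (Fin k), I.card = j ∧ c * M / (Real.log M * (Real.log X) ^ k) ≤
    (((Icc 1 M).filter (fun N => N.Prime ∧ (∀ i, good X (N + a i)) ∧
      ∀ i ∈ I, (N + a i).Prime)).card : ℝ)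

/-- complementary event -/
def Poor (X M k j : ℕ) (c : ℝ) (a : Fin k → ℕ) : Prop := Adm a ∧ ¬ Rich X M k j c a

open Classical in
theorem tuple_binom : ∃ δ : ℝ, 0 < δ ∧ δ ≤ 1 ∧ ∀ k : ℕ, 1 ≤ k → ∀ η : ℝ, 0 < η →
    ∃ c C : ℝ, 0 < c ∧ 0 < C ∧ ∃ X0 : ℕ, ∀ X M : ℕ, X0 ≤ X →
    C * (Real.log X) ^ k * Real.log (Real.log X) ≤ M → M ≤ X → ∀ j : ℕ,
    (((Fintype.piFinset (fun _ : Fin k => Icc 1 X)).filter (Poor X M k j c)).card : ℝ) ≤
      (bt δ k j + η) *
        (((Fintype.piFinset (fun _ : Fin k => Icc 1 X)).filter (fun a => Adm a)).card : ℝ) := by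
  obtain ⟨κ, δ, hκ, hδ, hδ1, hiter⟩ := iter2
  refine ⟨δ, hδ, hδ1, ?_⟩
  intro k hk η hη
  set η1 := min (η / 4) 1 with hη1
  have hη1pos : 0 < η1 := lt_min (by positivity) one_pos
  obtain ⟨ε, hε, y1, hy1, H1⟩ := hiter k η1 hη1pos
  have hk0 : (0 : ℝ) < k := by exact_mod_cast hk
  obtain ⟨K', hK', y2, H2⟩ := prime_pair (κ * k) (by positivity)
  set y := max (max y1 y2) (max ⌈K' / ε⌉₊ (k + 1)) with hy
  have hyy1 : y1 ≤ y := le_trans (le_max_left _ _) (le_max_left _ _)
  have hyy2 : y2 ≤ y := le_trans (le_max_right _ _) (le_max_left _ _)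
  have hyk : k + 1 ≤ y := le_trans (le_max_right _ _) (le_max_right _ _)
  have hyK : K' / ε ≤ (y : ℝ) := (Nat.le_ceil _).trans
    (by exact_mod_cast le_trans (le_max_left _ _) (le_max_right _ _))
  have hy0 : (0 : ℝ) < y := lt_of_lt_of_le (by positivity) hyK
  obtain ⟨C, c, hC, hc, X1, HX⟩ := H1 y hyy1
  obtain ⟨M0, HM⟩ := H2 y hyy2
  set Q := primorial y with hQ
  have hQpos : 0 < Q := primorial_pos y
  have hQR : (0 : ℝ) < Q := by exact_mod_cast hQpos
  obtain ⟨M1, HL⟩ := prime_lower Q hQpos
  set Cf : ℝ := 2 * Q * (k + 2) * C with hCf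
  have hCfpos : 0 < Cf := by positivity
  obtain ⟨X2, HR⟩ := ratio_large k Cf hCfpos
  obtain ⟨X4, HB⟩ := block_ratio k Q hQpos (η / 4) (by positivity)
  have hlog : Filter.Tendsto (fun X : ℕ => Real.log (X : ℝ)) Filter.atTop Filter.atTop :=
    Real.tendsto_log_atTop.comp tendsto_natCast_atTop_atTop
  have hll : Filter.Tendsto (fun X : ℕ => Real.log (Real.log (X : ℝ))) Filter.atTop Filter.atTop :=
    Real.tendsto_log_atTop.comp hlog
  obtain ⟨X3, hX3⟩ := Filter.eventually_atTop.1
    ((hll.eventually_ge_atTop (max 1 ((max M0 M1 : ℕ) / Cf))).and (hlog.eventually_ge_atTop 1))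
  refine ⟨c / (2 * Q), Cf, by positivity, hCfpos, max (max X1 X2) (max X3 (max Q X4)), ?_⟩
  intro X M hX hM hMX j
  have hX1 : X1 ≤ X := le_trans (le_trans (le_max_left _ _) (le_max_left _ _)) hX
  have hX2 : X2 ≤ X := le_trans (le_trans (le_max_right _ _) (le_max_left _ _)) hX
  have hX3' : X3 ≤ X := le_trans (le_trans (le_max_left _ _) (le_max_right _ _)) hX
  have hXQ : Q ≤ X := le_trans (le_trans (le_max_left _ _)
    (le_trans (le_max_right _ _) (le_max_right _ _))) hX
  have hX4 : X4 ≤ X := le_trans (le_trans (le_max_right _ _)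
    (le_trans (le_max_right _ _) (le_max_right _ _))) hX
  obtain ⟨hll1, hl1⟩ := hX3 X hX3'
  have hratio := HR X M hX2 hM
  have hblock := HB X hX4
  have hℓpos : 0 < Real.log X := by linarith
  have hMbig : max M0 M1 ≤ M := by
    have h1 : ((max M0 M1 : ℕ) : ℝ) / Cf ≤ Real.log (Real.log X) := (le_max_right _ _).trans hll1
    rw [div_le_iff₀ hCfpos] at h1
    have h2 : Real.log (Real.log X) * Cf ≤ Cf * (Real.log X) ^ k * Real.log (Real.log X) := by
      have h3 : 1 ≤ (Real.log X) ^ k := one_le_pow₀ hl1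
      have h4 : 1 ≤ Real.log (Real.log X) := (le_max_left _ _).trans hll1
      have h5 : 0 < Real.log (Real.log X) * Cf := by positivity
      nlinarith
    exact_mod_cast h1.trans (h2.trans hM)
  have hMM0 : M0 ≤ M := (le_max_left _ _).trans hMbig
  have hMM1 : M1 ≤ M := (le_max_right _ _).trans hMbig
  set L := X / Q + 1 with hL
  have hXL : X ≤ L * Q := by
    have := Nat.lt_div_mul_add (a := X) hQpos
    have : L * Q = X / Q * Q + Q := by rw [hL]; ring
    omega
  have hLX : L * Q ≤ X + Q := by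
    have h1 := Nat.div_mul_le_self X Q
    have : L * Q = X / Q * Q + Q := by rw [hL]; ring
    omega
  have hbt0 : 0 ≤ bt δ k j := bt_nonneg δ hδ.le hδ1 k j
  have hbt1 : bt δ k j ≤ 1 := bt_le_one δ hδ.le hδ1 k j
  refine (card_residue_le k X Q hQpos (Poor X M k j (c / (2 * Q)))).trans ?_
  -- each residue tuple
  have hres : ∀ b ∈ Fintype.piFinset (fun _ : Fin k => range Q),
      (((Fintype.piFinset (fun _ : Fin k => range L)).filter
        (fun l : Fin k → ℕ => Poor X M k j (c / (2 * Q)) (fun i => b i + Q * l i))).card : ℝ) ≤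
        (if AdmY y b then (η1 + bt δ k j) * (L : ℝ) ^ k else 0) := by
    intro b hb
    rw [Fintype.mem_piFinset] at hb
    by_cases hadm : AdmY y b
    · rw [if_pos hadm]
      obtain ⟨r, hr, hrb⟩ := exists_class y k b hadm
      have hB := HL M hMM1 r hr
      set B := PQ Q r M with hBdef
      have hlogM : 0 < Real.log M := by
        by_contra hcon
        push Not at hcon
        have h1 : (M : ℝ) / Real.log M ≤ 0 := by
          apply div_nonpos_of_nonneg_of_nonpos (by positivity) hcon
        have h2 : 0 < Cf / (k + 2) * (Real.log X) ^ k := by positivity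
        linarith
      have hphi : (Q.totient : ℝ) ≤ Q := by exact_mod_cast Nat.totient_le Q
      have hphi0 : (0 : ℝ) < Q.totient := by exact_mod_cast Nat.totient_pos.2 hQpos
      have hBcard : (M : ℝ) / (2 * Q * Real.log M) ≤ (B.card : ℝ) := by
        refine le_trans ?_ hB.1
        apply div_le_div_of_nonneg_left (by positivity) (by positivity)
        apply mul_le_mul_of_nonneg_right _ hlogM.le
        linarith
      have h1 : C * (Real.log X) ^ k ≤ (B.card : ℝ) := by
        refine le_trans ?_ hBcard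
        have e1 : (M : ℝ) / (2 * Q * Real.log M) = (M / Real.log M) / (2 * Q) := by
          field_simp
        rw [e1, le_div_iff₀ (by positivity)]
        refine le_trans (le_of_eq ?_) hratio
        rw [hCf]; field_simp
      have h2 : Pair y (κ * k) B ≤ ε * (B.card : ℝ) ^ 2 := by
        refine (HM M r hMM0 hr).trans ?_
        apply mul_le_mul_of_nonneg_right _ (by positivity)
        rw [div_le_iff₀ hy0]
        rw [div_le_iff₀ hε] at hyK
        linarith
      have h3 := HX X hX1 B r L b
        (fun x hx => by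
          rw [hBdef, PQ, mem_filter, mem_Icc] at hx
          exact ⟨hx.1.2.trans hMX, hx.1.1, hx.2.2⟩)
        (fun i => ⟨(mem_range.1 (hb i)).le, hrb i⟩) hXL hLX h1 h2 j
      refine le_trans ?_ h3
      have h4 : (Fintype.piFinset (fun _ : Fin k => range L)).filter
        (fun l : Fin k → ℕ => Poor X M k j (c / (2 * Q)) (fun i => b i + Q * l i)) ⊆
        (Fintype.piFinset (fun _ : Fin k => range L)).filter (fun l : Fin k → ℕ =>
          Fail X y k j B (c * B.card / (Real.log X) ^ k) b l) := by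
        intro l hl
        rw [mem_filter] at hl ⊢
        refine ⟨hl.1, fun hs => hl.2.2 ?_⟩
        obtain ⟨I, hI, B', hB', ht, hx⟩ := hs
        refine ⟨I, hI, ?_⟩
        have h6 : (B'.card : ℝ) ≤
            (((Icc 1 M).filter (fun N => N.Prime ∧ (∀ i, good X (N + (b i + Q * l i))) ∧
              ∀ i ∈ I, (N + (b i + Q * l i)).Prime)).card : ℝ) := by
          have : B' ⊆ (Icc 1 M).filter (fun N => N.Prime ∧
              (∀ i, good X (N + (b i + Q * l i))) ∧ ∀ i ∈ I, (N + (b i + Q * l i)).Prime) := by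
            intro x hxB
            have hxB2 := hB' hxB
            rw [hBdef, PQ, mem_filter] at hxB2
            rw [mem_filter]
            obtain ⟨g1, g2⟩ := hx x hxB
            refine ⟨hxB2.1, hxB2.2.1, fun i => ?_, fun i hi => ?_⟩
            · have := g1 i
              rwa [add_assoc] at this
            · have := (g2 i hi).1
              rwa [add_assoc] at this
          exact_mod_cast card_le_card this
        refine le_trans ?_ (ht.trans h6)
        have e1 : c / (2 * Q) * M / (Real.log M * (Real.log X) ^ k) =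
          c * (M / (2 * Q * Real.log M)) / (Real.log X) ^ k := by
          field_simp
        rw [e1]
        apply div_le_div_of_nonneg_right _ (by positivity)
        exact mul_le_mul_of_nonneg_left hBcard hc.le
      exact_mod_cast card_le_card h4
    · rw [if_neg hadm, filter_false_of_mem]
      · simp only [card_empty, Nat.cast_zero, le_refl]
      · intro l _ hcon
        exact hadm (admY_of_adm hcon.1)
  refine (sum_le_sum hres).trans ?_
  rw [← sum_filter, sum_const, nsmul_eq_mul]
  have hadmge := card_adm_ge k X y hyk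
  set nb : ℝ := (((Fintype.piFinset (fun _ : Fin k => range Q)).filter (AdmY y)).card : ℝ)
    with hnb
  set na : ℝ := (((Fintype.piFinset (fun _ : Fin k => Icc 1 X)).filter
    (fun a => Adm a)).card : ℝ) with hna
  have hnb0 : 0 ≤ nb := by rw [hnb]; positivity
  have h1 : nb * (L : ℝ) ^ k ≤ (1 + η / 4) * na := by
    calc nb * (L : ℝ) ^ k ≤ nb * ((1 + η / 4) * ((X / Q - 1 : ℕ) : ℝ) ^ k) :=
          mul_le_mul_of_nonneg_left hblock hnb0
      _ = (1 + η / 4) * (nb * ((X / Q - 1 : ℕ) : ℝ) ^ k) := by ring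
      _ ≤ (1 + η / 4) * na := mul_le_mul_of_nonneg_left hadmge (by positivity)
  have hna0 : 0 ≤ na := by rw [hna]; positivity
  calc nb * ((η1 + bt δ k j) * (L : ℝ) ^ k) = (η1 + bt δ k j) * (nb * (L : ℝ) ^ k) := by ring
    _ ≤ (η1 + bt δ k j) * ((1 + η / 4) * na) := mul_le_mul_of_nonneg_left h1 (by positivity)
    _ = ((η1 + bt δ k j) * (1 + η / 4)) * na := by ring
    _ ≤ (bt δ k j + η) * na := by
        apply mul_le_mul_of_nonneg_right _ hna0
        have h2 : η1 ≤ η / 4 := min_le_left _ _
        have h3 : η1 ≤ 1 := min_le_right _ _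
        nlinarith

end Pool.Agent.H75.AP
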