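import Pool.Agent.H75.AP.RoughCount
import Pool.Agent.H75.AP.PrimePair

/-!
# Module TUPLENONE (helpwanted, easy): no small `N` for almost all tuples

Union bound: the number of tuples is `≤ ∑_{N prime, N ≤ Y} ∏_i #{a_i ≤ X : rough X (N + a_i)} ≤ π(Y) (C X/log X)^k` with `Y = c (log X)^k log log X`, `C` from `rough_single`
(the tuples with a given `N` form `Fintype.piFinset` of the sets). Chebyshev: `π(Y) ≤ 4 Y / log Y` for `Y ≥ Y0` (`Pool.Agent.H33.Cubic.upper_primes` with `Q = 1`, or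
`Pool.Agent.H5` PNT `pi_tendsto`), and `log Y ≥ (1/2) log log X` (`k ≥ 1`, `X ≥ X0(c)`), so `π(Y) ≤ 8 c (log X)^k`. Total `≤ 8 c C^k X^k ≤ η X^k` for `c` small.
-/

namespace Pool.Agent.H75.AP

open Finset

namespace TupleNoneAux

open Filter Topology

theorem pi_small (k : ℕ) (hk : 1 ≤ k) (c : ℝ) (hc : 0 < c) : ∃ X0 : ℕ, ∀ X : ℕ, X0 ≤ X →
    0 < Real.log X ∧ 0 ≤ c * (Real.log X) ^ k * Real.log (Real.log X) ∧
    ((Nat.primeCounting ⌊c * (Real.log X) ^ k * Real.log (Real.log X)⌋₊ : ℕ) : ℝ) ≤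
      8 * c * (Real.log X) ^ k := by
  have hpi := Chebyshev.eventually_primeCounting_le (ε := 4 - Real.log 4)
    (by
      have : Real.log 4 < 4 := by
        have := Real.log_lt_sub_one_of_pos (x := 4) (by norm_num) (by norm_num)
        linarith
      linarith)
  have hlog : Tendsto (fun X : ℕ => Real.log X) atTop atTop :=
    Real.tendsto_log_atTop.comp tendsto_natCast_atTop_atTop
  have hloglog : Tendsto (fun X : ℕ => Real.log (Real.log X)) atTop atTop :=
    Real.tendsto_log_atTop.comp hlog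
  have hY : Tendsto (fun X : ℕ => c * (Real.log X) ^ k * Real.log (Real.log X)) atTop atTop := by
    apply Tendsto.atTop_mul_atTop₀ _ hloglog
    exact Tendsto.const_mul_atTop hc ((tendsto_pow_atTop (by omega)).comp hlog)
  have h1 := hY.eventually hpi
  have hev : ∀ᶠ X : ℕ in atTop, 0 < Real.log X ∧
      0 ≤ c * (Real.log X) ^ k * Real.log (Real.log X) ∧
      ((Nat.primeCounting ⌊c * (Real.log X) ^ k * Real.log (Real.log X)⌋₊ : ℕ) : ℝ) ≤
      8 * c * (Real.log X) ^ k := by
    filter_upwards [h1, hlog.eventually_ge_atTop 1, hlog.eventually_ge_atTop ((1 / c) ^ 2),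
      hloglog.eventually_ge_atTop 1] with X h2 h3 h4 h5
    set L := Real.log X with hL
    have hL0 : 0 < L := by linarith
    have hLL : 0 < Real.log L := by linarith
    have hYpos : 0 < c * L ^ k * Real.log L := by positivity
    refine ⟨hL0, hYpos.le, ?_⟩
    refine h2.trans ?_
    have hsq : Real.sqrt L ≤ c * L ^ k * Real.log L := by
      have h6 : 1 / c ≤ Real.sqrt L := by
        apply Real.le_sqrt_of_sq_le
        exact h4
      have h7 : 1 ≤ c * Real.sqrt L := by
        rw [div_le_iff₀ hc] at h6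
        linarith
      have h8 : L ≤ L ^ k := le_self_pow₀ h3 (by omega)
      have hs0 : 0 ≤ Real.sqrt L := Real.sqrt_nonneg _
      calc Real.sqrt L = 1 * Real.sqrt L := by ring
        _ ≤ (c * Real.sqrt L) * Real.sqrt L := mul_le_mul_of_nonneg_right h7 hs0
        _ = c * L := by rw [mul_assoc, Real.mul_self_sqrt hL0.le]
        _ ≤ c * L ^ k := mul_le_mul_of_nonneg_left h8 hc.le
        _ = c * L ^ k * 1 := by ring
        _ ≤ c * L ^ k * Real.log L := mul_le_mul_of_nonneg_left h5 (by positivity)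
    have hlogY : Real.log L / 2 ≤ Real.log (c * L ^ k * Real.log L) := by
      have := Real.log_le_log (Real.sqrt_pos.2 hL0) hsq
      rwa [Real.log_sqrt hL0.le] at this
    have h9 : Real.log 4 + (4 - Real.log 4) = 4 := by ring
    rw [h9]
    rw [div_le_iff₀ (by linarith)]
    have h10 : 8 * c * L ^ k * (Real.log L / 2) ≤ 8 * c * L ^ k * Real.log (c * L ^ k * Real.log L) :=
      mul_le_mul_of_nonneg_left hlogY (by positivity)
    calc 4 * (c * L ^ k * Real.log L) = 8 * c * L ^ k * (Real.log L / 2) := by ring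
      _ ≤ _ := h10
  exact eventually_atTop.1 hev

end TupleNoneAux

open Classical in
theorem tuple_none (k : ℕ) (hk : 1 ≤ k) (η : ℝ) (hη : 0 < η) : ∃ c : ℝ, 0 < c ∧ ∃ X0 : ℕ,
    ∀ X : ℕ, X0 ≤ X →
    (((Fintype.piFinset (fun _ : Fin k => Icc 1 X)).filter (fun a : Fin k → ℕ =>
      ∃ N : ℕ, N.Prime ∧ (N : ℝ) ≤ c * (Real.log X) ^ k * Real.log (Real.log X) ∧
        ∀ i, rough X (N + a i))).card : ℝ) ≤ η * (X : ℝ) ^ k := by
  obtain ⟨C, hC, X1, hX1⟩ := rough_single
  obtain ⟨X2, hX2⟩ := TupleNoneAux.pi_small k hk (η / (8 * C ^ k)) (by positivity)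
  refine ⟨η / (8 * C ^ k), by positivity, max X1 X2, fun X hX => ?_⟩
  obtain ⟨hL0, hY0, hpi⟩ := hX2 X ((le_max_right _ _).trans hX)
  set c := η / (8 * C ^ k) with hcdef
  set Y := c * (Real.log X) ^ k * Real.log (Real.log X) with hYdef
  set PS := (range (⌊Y⌋₊ + 1)).filter Nat.Prime with hPS
  have hPSc : PS.card = Nat.primeCounting ⌊Y⌋₊ := by
    rw [Nat.primeCounting, Nat.primeCounting', Nat.count_eq_card_filter_range]
  have hsub : (Fintype.piFinset (fun _ : Fin k => Icc 1 X)).filter (fun a : Fin k → ℕ =>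
      ∃ N : ℕ, N.Prime ∧ (N : ℝ) ≤ Y ∧ ∀ i, rough X (N + a i)) ⊆
      PS.biUnion (fun N => Fintype.piFinset (fun _ : Fin k =>
        (Icc 1 X).filter (fun a => rough X (N + a)))) := by
    intro a ha
    rw [mem_filter, Fintype.mem_piFinset] at ha
    obtain ⟨ha1, N, hN, hNY, hr⟩ := ha
    rw [mem_biUnion]
    refine ⟨N, ?_, ?_⟩
    · rw [hPS, mem_filter, mem_range]
      exact ⟨Nat.lt_succ_of_le (Nat.le_floor hNY), hN⟩
    · rw [Fintype.mem_piFinset]
      intro i
      rw [mem_filter]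
      exact ⟨ha1 i, hr i⟩
  have h1 : (((Fintype.piFinset (fun _ : Fin k => Icc 1 X)).filter (fun a : Fin k → ℕ =>
      ∃ N : ℕ, N.Prime ∧ (N : ℝ) ≤ Y ∧ ∀ i, rough X (N + a i))).card : ℝ) ≤
      ∑ N ∈ PS, (((Icc 1 X).filter (fun a => rough X (N + a))).card : ℝ) ^ k := by
    have h2 := (card_le_card hsub).trans card_biUnion_le
    have h3 : ∀ N ∈ PS, (Fintype.piFinset (fun _ : Fin k =>
        (Icc 1 X).filter (fun a => rough X (N + a)))).card =
        (((Icc 1 X).filter (fun a => rough X (N + a))).card) ^ k := by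
      intro N _
      rw [Fintype.card_piFinset, prod_const, card_univ, Fintype.card_fin]
    rw [sum_congr rfl h3] at h2
    exact_mod_cast h2
  refine h1.trans ?_
  have h4 : ∀ N ∈ PS, (((Icc 1 X).filter (fun a => rough X (N + a))).card : ℝ) ^ k ≤
      (C * X / Real.log X) ^ k := fun N _ =>
    pow_le_pow_left₀ (Nat.cast_nonneg _) (hX1 X N ((le_max_left _ _).trans hX)) k
  refine (sum_le_sum h4).trans ?_
  rw [sum_const, nsmul_eq_mul, hPSc]
  have h5 : 0 ≤ (C * X / Real.log X) ^ k := by positivity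
  refine (mul_le_mul_of_nonneg_right hpi h5).trans ?_
  have hLk : (Real.log X) ^ k ≠ 0 := (pow_pos hL0 k).ne'
  have hCk : C ^ k ≠ 0 := (pow_pos hC k).ne'
  rw [div_pow, mul_pow, hcdef]
  apply le_of_eq
  field_simp

end Pool.Agent.H75.AP
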