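import Pool.Agent.H75.AP.SecondM
import Pool.Agent.H75.AP.PrimeShift

/-!
# Module TUPLEPRIMES (helpwanted): a positive proportion of tuples with all `N + a_i` prime

`B = PQ 1 0 M` (all primes `≤ M`), `n = |B| ≥ M/(2 log M)` (`prime_lower` with `Q = 1`). For `a ∈ [1,X]^k` let `R(a) = #{N ∈ B : all N + a_i prime}`.
First moment: `∑_a R(a) = ∑_{N ∈ B} (#{a ≤ X : N + a prime})^k ≥ n (c0 X/log X)^k` (`prime_shift`).
Second moment: `∑_a R(a)^2 = ∑_{N,N' ∈ B} (#{a ≤ X : N + a, N' + a prime})^k ≤ K (n^2 (X/(log X)^2)^k + n (X/log X)^k)` (`second_moment`).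
(The tuples `a` with a given property in each coordinate form `Fintype.piFinset`; `Fintype.card_piFinset`.)
Let `E = n (c0/log X)^k`: `E ≥ 1` when `M ≥ C (log X)^k log log X` with `C` large (`M/log M` is increasing for `M ≥ 3`; at `M1 = C (log X)^k loglog X` one has `log M1 ≤ (k+2) loglog X` for `X ≥ X0`, so `n ≥ C (log X)^k / (2 (k+2))`).
So `X^{-k} ∑ R^2 ≤ K c0^(-2k) E^2 + K c0^(-k) E ≤ K'' E^2`. Cauchy-Schwarz: `E X^k ≤ ∑ R ≤ (E/2) X^k + ∑_{R ≥ E/2} R ≤ (E/2) X^k + (#{R ≥ E/2})^(1/2) (K'' E^2 X^k)^(1/2)`, so `#{R ≥ E/2} ≥ X^k/(4 K'')`.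
The tuples with two equal coordinates are at most `k^2 X^(k-1) ≤ X^k / (8 K'')`. Final `δ = 1/(8 K'')`, `c = c0^k/4` (`E/2 ≥ (1/2) (M/(2 log M)) (c0/log X)^k`).
-/

namespace Pool.Agent.H75.AP

open Finset

/-- first moment -/
theorem tp_first (k : ℕ) (B A : Finset ℕ) (P : ℕ → ℕ → Prop) [∀ N a, Decidable (P N a)] :
    ∑ a ∈ Fintype.piFinset (fun _ : Fin k => A), ((B.filter (fun N => ∀ i, P N (a i))).card : ℝ) =
      ∑ N ∈ B, ((A.filter (fun a => P N a)).card : ℝ) ^ k := by
  have h1 : ∀ a : Fin k → ℕ, ((B.filter (fun N => ∀ i, P N (a i))).card : ℝ) =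
      ∑ N ∈ B, if (∀ i, P N (a i)) then (1 : ℝ) else 0 := by
    intro a
    rw [Finset.sum_boole]
  simp_rw [h1]
  rw [Finset.sum_comm]
  refine Finset.sum_congr rfl (fun N _ => ?_)
  rw [Finset.sum_boole]
  have h2 : (Fintype.piFinset (fun _ : Fin k => A)).filter (fun a => ∀ i, P N (a i)) =
      Fintype.piFinset (fun _ : Fin k => A.filter (fun a => P N a)) := by
    ext a
    simp only [mem_filter, Fintype.mem_piFinset]
    constructor
    · rintro ⟨h, h'⟩ i
      exact ⟨h i, h' i⟩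
    · intro h
      exact ⟨fun i => (h i).1, fun i => (h i).2⟩
  rw [h2, Fintype.card_piFinset]
  simp

/-- second moment -/
theorem tp_second (k : ℕ) (B A : Finset ℕ) (P : ℕ → ℕ → Prop) [∀ N a, Decidable (P N a)] :
    ∑ a ∈ Fintype.piFinset (fun _ : Fin k => A),
        ((B.filter (fun N => ∀ i, P N (a i))).card : ℝ) ^ 2 =
      ∑ N ∈ B, ∑ N' ∈ B, ((A.filter (fun a => P N a ∧ P N' a)).card : ℝ) ^ k := by
  have h1 : ∀ a : Fin k → ℕ, ((B.filter (fun N => ∀ i, P N (a i))).card : ℝ) ^ 2 =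
      ∑ N ∈ B, ∑ N' ∈ B, if (∀ i, P N (a i) ∧ P N' (a i)) then (1 : ℝ) else 0 := by
    intro a
    have h0 : ((B.filter (fun N => ∀ i, P N (a i))).card : ℝ) =
      ∑ N ∈ B, if (∀ i, P N (a i)) then (1 : ℝ) else 0 := by
      rw [Finset.sum_boole]
    rw [h0, sq, Finset.sum_mul_sum]
    refine Finset.sum_congr rfl (fun N _ => Finset.sum_congr rfl (fun N' _ => ?_))
    by_cases hN : ∀ i, P N (a i)
    · by_cases hN' : ∀ i, P N' (a i)
      · rw [if_pos hN, if_pos hN', if_pos (fun i => ⟨hN i, hN' i⟩)]; ring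
      · rw [if_neg hN', if_neg (fun h : (∀ i, P N (a i) ∧ P N' (a i)) => hN' (fun i => (h i).2))]; ring
    · rw [if_neg hN, if_neg (fun h : (∀ i, P N (a i) ∧ P N' (a i)) => hN (fun i => (h i).1))]; ring
  simp_rw [h1]
  rw [Finset.sum_comm]
  refine Finset.sum_congr rfl (fun N _ => ?_)
  rw [Finset.sum_comm]
  refine Finset.sum_congr rfl (fun N' _ => ?_)
  rw [Finset.sum_boole]
  have h2 : (Fintype.piFinset (fun _ : Fin k => A)).filter (fun a => ∀ i, P N (a i) ∧ P N' (a i)) =
      Fintype.piFinset (fun _ : Fin k => A.filter (fun a => P N a ∧ P N' a)) := by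
    ext a
    simp only [mem_filter, Fintype.mem_piFinset]
    constructor
    · rintro ⟨h, h'⟩ i
      exact ⟨h i, h' i⟩
    · intro h
      exact ⟨fun i => (h i).1, fun i => (h i).2⟩
  rw [h2, Fintype.card_piFinset]
  simp

/-- Paley-Zygmund -/
theorem tp_pz {α : Type*} [DecidableEq α] (T : Finset α) (R : α → ℝ) (E K P : ℝ) (hE : 0 < E)
    (hK : 0 < K) (hP : 0 < P) (hT : (T.card : ℝ) = P)
    (h1 : E * P ≤ ∑ a ∈ T, R a) (h2 : ∑ a ∈ T, R a ^ 2 ≤ K * E ^ 2 * P) :
    P / (4 * K) ≤ ((T.filter (fun a => E / 2 ≤ R a)).card : ℝ) := by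
  set G := T.filter (fun a => E / 2 ≤ R a) with hG
  have hsplit : ∑ a ∈ T, R a = ∑ a ∈ G, R a + ∑ a ∈ T.filter (fun a => ¬ (E / 2 ≤ R a)), R a := by
    rw [hG, Finset.sum_filter_add_sum_filter_not]
  have hsmall : ∑ a ∈ T.filter (fun a => ¬ (E / 2 ≤ R a)), R a ≤ E / 2 * P := by
    calc ∑ a ∈ T.filter (fun a => ¬ (E / 2 ≤ R a)), R a
        ≤ ∑ a ∈ T.filter (fun a => ¬ (E / 2 ≤ R a)), E / 2 := by
          refine Finset.sum_le_sum (fun a ha => ?_)
          have := (mem_filter.1 ha).2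
          push Not at this
          exact this.le
      _ = ((T.filter (fun a => ¬ (E / 2 ≤ R a))).card : ℝ) * (E / 2) := by
          rw [Finset.sum_const, nsmul_eq_mul]
      _ ≤ (T.card : ℝ) * (E / 2) := by
          have : ((T.filter (fun a => ¬ (E / 2 ≤ R a))).card : ℝ) ≤ (T.card : ℝ) := by
            exact_mod_cast Finset.card_filter_le _ _
          nlinarith
      _ = E / 2 * P := by rw [hT]; ring
  have hbig : E / 2 * P ≤ ∑ a ∈ G, R a := by linarith
  have hcs : (∑ a ∈ G, R a) ^ 2 ≤ (G.card : ℝ) * ∑ a ∈ G, R a ^ 2 := by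
    exact sq_sum_le_card_mul_sum_sq
  have hG2 : ∑ a ∈ G, R a ^ 2 ≤ K * E ^ 2 * P := by
    refine le_trans ?_ h2
    refine Finset.sum_le_sum_of_subset_of_nonneg (Finset.filter_subset _ _) (fun a _ _ => sq_nonneg _)
  have hEP : 0 < E / 2 * P := by positivity
  have h3 : (E / 2 * P) ^ 2 ≤ (G.card : ℝ) * (K * E ^ 2 * P) := by
    calc (E / 2 * P) ^ 2 ≤ (∑ a ∈ G, R a) ^ 2 := by
          exact pow_le_pow_left₀ hEP.le hbig 2
      _ ≤ _ := hcs
      _ ≤ _ := mul_le_mul_of_nonneg_left hG2 (by positivity)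
  rw [div_le_iff₀ (by positivity)]
  have h4 : E ^ 2 * P * P ≤ E ^ 2 * P * ((G.card : ℝ) * (4 * K)) := by nlinarith
  exact le_of_mul_le_mul_left h4 (by positivity)

/-- tuples with two equal coordinates -/
theorem tp_coinc (k X : ℕ) (i j : Fin k) (hij : i ≠ j) :
    (((Fintype.piFinset (fun _ : Fin k => Icc 1 X)).filter (fun a : Fin k → ℕ => a i = a j)).card) * X
      ≤ X ^ k := by
  classical
  have hX : X = (Icc 1 X).card := by simp
  have hk : X ^ k = (Fintype.piFinset (fun _ : Fin k => Icc 1 X)).card := by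
    rw [Fintype.card_piFinset]; simp
  rw [hk]
  nth_rewrite 2 [hX]
  rw [← Finset.card_product]
  refine Finset.card_le_card_of_injOn (fun p : (Fin k → ℕ) × ℕ => Function.update p.1 j p.2) ?_ ?_
  · rintro ⟨a, x⟩ h
    simp only [coe_product, Set.mem_prod, mem_coe, mem_filter, Fintype.mem_piFinset] at h
    simp only [mem_coe, Fintype.mem_piFinset]
    intro l
    by_cases hl : l = j
    · subst hl
      simpa using h.2
    · rw [Function.update_of_ne hl]
      exact h.1.1 l
  · rintro ⟨a, x⟩ h ⟨b, z⟩ h' he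
    simp only [coe_product, Set.mem_prod, mem_coe, mem_filter, Fintype.mem_piFinset] at h h'
    simp only at he
    have hx : x = z := by
      have := congrFun he j
      simpa using this
    have hne : ∀ l, l ≠ j → a l = b l := by
      intro l hl
      have := congrFun he l
      rwa [Function.update_of_ne hl, Function.update_of_ne hl] at this
    have hab : a = b := by
      funext l
      by_cases hl : l = j
      · subst hl
        rw [← h.1.2, ← h'.1.2]
        exact hne i hij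
      · exact hne l hl
    rw [hx, hab]

theorem tp_noninj (k X : ℕ) :
    (((Fintype.piFinset (fun _ : Fin k => Icc 1 X)).filter
      (fun a : Fin k → ℕ => ¬ Function.Injective a)).card : ℝ) * X ≤ (k : ℝ) ^ 2 * (X : ℝ) ^ k := by
  classical
  have hsub : (Fintype.piFinset (fun _ : Fin k => Icc 1 X)).filter
      (fun a : Fin k → ℕ => ¬ Function.Injective a) ⊆
      ((univ : Finset (Fin k × Fin k)).filter (fun p => p.1 ≠ p.2)).biUnion (fun p =>
        (Fintype.piFinset (fun _ : Fin k => Icc 1 X)).filter (fun a : Fin k → ℕ => a p.1 = a p.2)) := by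
    intro a ha
    rw [mem_filter] at ha
    rw [mem_biUnion]
    have h2 := ha.2
    unfold Function.Injective at h2
    push Not at h2
    obtain ⟨i, j, hij, hne⟩ := h2
    exact ⟨(i, j), by simp [hne], mem_filter.2 ⟨ha.1, hij⟩⟩
  have h1 : ((Fintype.piFinset (fun _ : Fin k => Icc 1 X)).filter
      (fun a : Fin k → ℕ => ¬ Function.Injective a)).card * X ≤ k ^ 2 * X ^ k := by
    calc _ ≤ (((univ : Finset (Fin k × Fin k)).filter (fun p => p.1 ≠ p.2)).biUnion (fun p =>
        (Fintype.piFinset (fun _ : Fin k => Icc 1 X)).filter (fun a : Fin k → ℕ => a p.1 = a p.2))).card * X :=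
          Nat.mul_le_mul_right _ (Finset.card_le_card hsub)
      _ ≤ (∑ p ∈ (univ : Finset (Fin k × Fin k)).filter (fun p => p.1 ≠ p.2),
          ((Fintype.piFinset (fun _ : Fin k => Icc 1 X)).filter (fun a : Fin k → ℕ => a p.1 = a p.2)).card) * X :=
          Nat.mul_le_mul_right _ Finset.card_biUnion_le
      _ = ∑ p ∈ (univ : Finset (Fin k × Fin k)).filter (fun p => p.1 ≠ p.2),
          ((Fintype.piFinset (fun _ : Fin k => Icc 1 X)).filter (fun a : Fin k → ℕ => a p.1 = a p.2)).card * X := by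
          rw [Finset.sum_mul]
      _ ≤ ∑ p ∈ (univ : Finset (Fin k × Fin k)).filter (fun p => p.1 ≠ p.2), X ^ k := by
          refine Finset.sum_le_sum (fun p hp => ?_)
          exact tp_coinc k X p.1 p.2 (mem_filter.1 hp).2
      _ = ((univ : Finset (Fin k × Fin k)).filter (fun p => p.1 ≠ p.2)).card * X ^ k := by
          rw [Finset.sum_const, smul_eq_mul]
      _ ≤ k ^ 2 * X ^ k := by
          refine Nat.mul_le_mul_right _ ?_
          refine le_trans (Finset.card_filter_le _ _) ?_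
          simp [sq]
  exact_mod_cast h1

/-- the size of the set of primes -/
theorem tp_size (k : ℕ) (c0 : ℝ) (hc0 : 0 < c0) (D : ℝ) : ∃ X0 : ℕ, ∀ X M : ℕ, X0 ≤ X →
    2 * (k + 2) / c0 ^ k * (Real.log X) ^ k * Real.log (Real.log X) ≤ M →
    1 ≤ Real.log X ∧ D ≤ M ∧ 1 < (M : ℝ) ∧ (Real.log X / c0) ^ k ≤ M / (2 * Real.log M) := by
  set C : ℝ := 2 * (k + 2) / c0 ^ k with hC
  have hCpos : 0 < C := by positivity
  have e1 : ∀ᶠ X : ℕ in Filter.atTop, max (max C (Real.exp 1)) (Real.exp (max 1 ((max D (Real.exp 1)) / C))) ≤ Real.log X := by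
    have := (Real.tendsto_log_atTop.comp tendsto_natCast_atTop_atTop (α := ℕ)).eventually_ge_atTop
      (max (max C (Real.exp 1)) (Real.exp (max 1 ((max D (Real.exp 1)) / C))))
    exact this
  obtain ⟨X0, hX0⟩ := Filter.eventually_atTop.1 e1
  refine ⟨X0, fun X M hX hM => ?_⟩
  have h := hX0 X hX
  set L := Real.log (X : ℝ) with hL
  have hLC : C ≤ L := le_trans (le_trans (le_max_left _ _) (le_max_left _ _)) h
  have hLe : Real.exp 1 ≤ L := le_trans (le_trans (le_max_right _ _) (le_max_left _ _)) h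
  have hLL : Real.exp (max 1 ((max D (Real.exp 1)) / C)) ≤ L := le_trans (le_max_right _ _) h
  have he1 : (1 : ℝ) < Real.exp 1 := by
    have := Real.add_one_lt_exp (one_ne_zero (α := ℝ))
    linarith
  have hL1 : 1 ≤ L := le_trans he1.le hLe
  have hLpos : 0 < L := by linarith
  have hll : max 1 ((max D (Real.exp 1)) / C) ≤ Real.log L := by
    rw [Real.le_log_iff_exp_le hLpos]
    exact hLL
  have hll1 : 1 ≤ Real.log L := le_trans (le_max_left _ _) hll
  have hllD : (max D (Real.exp 1)) / C ≤ Real.log L := le_trans (le_max_right _ _) hll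
  have hLk : (1 : ℝ) ≤ L ^ k := one_le_pow₀ hL1
  set M1 : ℝ := C * L ^ k * Real.log L with hM1
  have hM1D : max D (Real.exp 1) ≤ M1 := by
    rw [div_le_iff₀ hCpos] at hllD
    calc max D (Real.exp 1) ≤ Real.log L * C := hllD
      _ ≤ (Real.log L * C) * L ^ k := by
          have : 0 < Real.log L * C := by positivity
          nlinarith
      _ = M1 := by rw [hM1]; ring
  have hM1e : Real.exp 1 ≤ M1 := le_trans (le_max_right _ _) hM1D
  have hMe : Real.exp 1 ≤ (M : ℝ) := le_trans hM1e hM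
  refine ⟨hL1, le_trans (le_trans (le_max_left _ _) hM1D) hM, lt_of_lt_of_le he1 hMe, ?_⟩
  have hanti : Real.log M / M ≤ Real.log M1 / M1 :=
    Real.log_div_self_antitoneOn (by simpa using hM1e) (by simpa using hMe) hM
  have hM1pos : 0 < M1 := lt_of_lt_of_le (Real.exp_pos _) hM1e
  have hMpos : 0 < (M : ℝ) := lt_of_lt_of_le (Real.exp_pos _) hMe
  have hlogM1 : Real.log M1 ≤ (k + 2) * Real.log L := by
    have : M1 ≤ L ^ (k + 2) := by
      rw [hM1, pow_add]
      have h2 : Real.log L ≤ L := by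
        have := Real.log_le_sub_one_of_pos hLpos
        linarith
      have h3 : C * Real.log L ≤ L ^ 2 := by
        rw [sq]
        exact mul_le_mul hLC h2 (by linarith) hLpos.le
      nlinarith
    calc Real.log M1 ≤ Real.log (L ^ (k + 2)) := Real.log_le_log hM1pos this
      _ = (k + 2) * Real.log L := by
          rw [Real.log_pow]; push_cast; ring
  have hq : Real.log M / M ≤ c0 ^ k / (2 * L ^ k) := by
    refine le_trans hanti ?_
    calc Real.log M1 / M1 ≤ (k + 2) * Real.log L / M1 := by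
          exact div_le_div_of_nonneg_right hlogM1 hM1pos.le
      _ = c0 ^ k / (2 * L ^ k) := by
          rw [hM1, hC]
          have h1 : Real.log L ≠ 0 := (lt_of_lt_of_le one_pos hll1).ne'
          have h2 : ((k : ℝ) + 2) ≠ 0 := by positivity
          field_simp
  have hlogM : 0 < Real.log M := Real.log_pos (lt_of_lt_of_le he1 hMe)
  rw [div_pow, div_le_div_iff₀ (by positivity) (by positivity)]
  rw [div_le_div_iff₀ hMpos (by positivity)] at hq
  nlinarith

open Classical in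
theorem tuple_primes (k : ℕ) (hk : 1 ≤ k) : ∃ δ c C : ℝ, 0 < δ ∧ 0 < c ∧ 0 < C ∧ ∃ X0 : ℕ,
    ∀ X M : ℕ, X0 ≤ X → C * (Real.log X) ^ k * Real.log (Real.log X) ≤ M → M ≤ X →
    δ * (X : ℝ) ^ k ≤
    (((Fintype.piFinset (fun _ : Fin k => Icc 1 X)).filter (fun a : Fin k → ℕ =>
      Function.Injective a ∧ c * M / (Real.log M * (Real.log X) ^ k) ≤
        (((Icc 1 M).filter (fun N => N.Prime ∧ ∀ i, (N + a i).Prime)).card : ℝ))).card : ℝ) := by
  obtain ⟨K, hK, X1, M1, hsec⟩ := second_moment k hk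
  obtain ⟨c0, hc0, X2, hsh⟩ := prime_shift
  obtain ⟨M2, hlow⟩ := prime_lower 1 le_rfl
  obtain ⟨X3, hsize⟩ := tp_size k c0 hc0 (max (M1 : ℝ) M2)
  set K2 : ℝ := K * (1 / c0 ^ (2 * k) + 1 / c0 ^ k) with hK2
  have hK2pos : 0 < K2 := by positivity
  refine ⟨1 / (8 * K2), c0 ^ k / 4, 2 * (k + 2) / c0 ^ k, by positivity, by positivity, by positivity,
    max (max X1 X2) (max X3 (⌈8 * K2 * (k : ℝ) ^ 2⌉₊ + 1)), fun X M hX hM hMX => ?_⟩
  have hX1 : X1 ≤ X := le_trans (le_trans (le_max_left _ _) (le_max_left _ _)) hX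
  have hX2 : X2 ≤ X := le_trans (le_trans (le_max_right _ _) (le_max_left _ _)) hX
  have hX3 : X3 ≤ X := le_trans (le_trans (le_max_left _ _) (le_max_right _ _)) hX
  have hX4 : ⌈8 * K2 * (k : ℝ) ^ 2⌉₊ + 1 ≤ X := le_trans (le_trans (le_max_right _ _) (le_max_right _ _)) hX
  have hX5 : 8 * K2 * (k : ℝ) ^ 2 ≤ X := by
    refine le_trans (Nat.le_ceil _) ?_
    exact_mod_cast le_trans (Nat.le_succ _) hX4
  have hXpos : 0 < (X : ℝ) := by
    have : 0 < X := lt_of_lt_of_le (Nat.succ_pos _) hX4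
    exact_mod_cast this
  obtain ⟨hL1, hMD, hM1', hn0⟩ := hsize X M hX3 hM
  have hMM1 : M1 ≤ M := by exact_mod_cast le_trans (le_max_left _ _) hMD
  have hMM2 : M2 ≤ M := by exact_mod_cast le_trans (le_max_right _ _) hMD
  set L := Real.log (X : ℝ) with hL
  have hLpos : 0 < L := by linarith
  have hlogM : 0 < Real.log (M : ℝ) := Real.log_pos hM1'
  set n : ℝ := ((PQ 1 0 M).card : ℝ) with hn
  have hnlow : (M : ℝ) / (2 * Real.log M) ≤ n := by
    have := (hlow M hMM2 0 (by simp)).1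
    simpa using this
  have hnL : (L / c0) ^ k ≤ n := le_trans hn0 hnlow
  set E : ℝ := n * (c0 / L) ^ k with hE
  have hE1 : 1 ≤ E := by
    have h1 : (L / c0) ^ k * (c0 / L) ^ k = 1 := by
      rw [← mul_pow]
      have : L / c0 * (c0 / L) = 1 := by field_simp
      rw [this, one_pow]
    rw [hE, ← h1]
    exact mul_le_mul_of_nonneg_right hnL (by positivity)
  set T := Fintype.piFinset (fun _ : Fin k => Icc 1 X) with hT
  have hTcard : (T.card : ℝ) = (X : ℝ) ^ k := by
    rw [hT, Fintype.card_piFinset]; simp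
  set R : (Fin k → ℕ) → ℝ := fun a => (((PQ 1 0 M).filter (fun N => ∀ i, (N + a i).Prime)).card : ℝ) with hR
  have hfirst : E * (X : ℝ) ^ k ≤ ∑ a ∈ T, R a := by
    have h1 := tp_first k (PQ 1 0 M) (Icc 1 X) (fun N a => (N + a).Prime)
    rw [hR]
    simp only
    rw [hT]
    rw [h1]
    have h2 : ∀ N ∈ PQ 1 0 M, (c0 * X / L) ^ k ≤
        (((Icc 1 X).filter (fun a => (N + a).Prime)).card : ℝ) ^ k := by
      intro N hN
      have hNM : N ≤ X := by
        have := (mem_Icc.1 (mem_filter.1 hN).1).2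
        exact le_trans this hMX
      exact pow_le_pow_left₀ (by positivity) (hsh X N hX2 hNM) k
    calc E * (X : ℝ) ^ k = ∑ N ∈ PQ 1 0 M, (c0 * X / L) ^ k := by
          rw [Finset.sum_const, nsmul_eq_mul, hE, hn]
          rw [mul_assoc, ← mul_pow]
          congr 2
          ring
      _ ≤ _ := Finset.sum_le_sum h2
  have hsecond : ∑ a ∈ T, R a ^ 2 ≤ K2 * E ^ 2 * (X : ℝ) ^ k := by
    have h1 := tp_second k (PQ 1 0 M) (Icc 1 X) (fun N a => (N + a).Prime)
    rw [hR]
    simp only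
    rw [hT, h1]
    refine le_trans (hsec X M hX1 hMM1 hMX) ?_
    rw [← hn, ← hL]
    have h2 : n ^ 2 * ((X : ℝ) / L ^ 2) ^ k = 1 / c0 ^ (2 * k) * E ^ 2 * (X : ℝ) ^ k := by
      rw [hE]
      rw [pow_mul c0 2 k]
      have hc : (c0 ^ 2) ^ k ≠ 0 := by positivity
      have hLk : (L ^ k) ≠ 0 := by positivity
      rw [div_pow, div_pow]
      field_simp
      ring
    have h3 : n * ((X : ℝ) / L) ^ k = 1 / c0 ^ k * E * (X : ℝ) ^ k := by
      rw [hE, div_pow, div_pow]
      have hc : c0 ^ k ≠ 0 := by positivity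
      field_simp
    rw [h2, h3, hK2]
    have hEE : E ≤ E ^ 2 := by nlinarith
    have h4 : 1 / c0 ^ k * E * (X : ℝ) ^ k ≤ 1 / c0 ^ k * E ^ 2 * (X : ℝ) ^ k := by
      refine mul_le_mul_of_nonneg_right ?_ (by positivity)
      exact mul_le_mul_of_nonneg_left hEE (by positivity)
    calc K * (1 / c0 ^ (2 * k) * E ^ 2 * (X : ℝ) ^ k + 1 / c0 ^ k * E * (X : ℝ) ^ k)
        ≤ K * (1 / c0 ^ (2 * k) * E ^ 2 * (X : ℝ) ^ k + 1 / c0 ^ k * E ^ 2 * (X : ℝ) ^ k) := by
          refine mul_le_mul_of_nonneg_left ?_ hK.le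
          linarith
      _ = _ := by ring
  have hpz := tp_pz T R E K2 ((X : ℝ) ^ k) (by linarith) hK2pos (by positivity) hTcard hfirst hsecond
  have hnon := tp_noninj k X
  have hnon2 : ((T.filter (fun a : Fin k → ℕ => ¬ Function.Injective a)).card : ℝ) ≤ (X : ℝ) ^ k / (8 * K2) := by
    rw [le_div_iff₀ (by positivity)]
    have h5 : ((T.filter (fun a : Fin k → ℕ => ¬ Function.Injective a)).card : ℝ) * X ≤ (k : ℝ) ^ 2 * (X : ℝ) ^ k := hnon
    have h6 : (((T.filter (fun a : Fin k → ℕ => ¬ Function.Injective a)).card : ℝ) * (8 * K2)) * X ≤ (X : ℝ) ^ k * X := by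
      calc (((T.filter (fun a : Fin k → ℕ => ¬ Function.Injective a)).card : ℝ) * (8 * K2)) * X
          = (8 * K2) * (((T.filter (fun a : Fin k → ℕ => ¬ Function.Injective a)).card : ℝ) * X) := by ring
        _ ≤ (8 * K2) * ((k : ℝ) ^ 2 * (X : ℝ) ^ k) := mul_le_mul_of_nonneg_left h5 (by positivity)
        _ = (X : ℝ) ^ k * (8 * K2 * (k : ℝ) ^ 2) := by ring
        _ ≤ (X : ℝ) ^ k * X := mul_le_mul_of_nonneg_left hX5 (by positivity)
    exact le_of_mul_le_mul_right h6 hXpos
  have hsub : T.filter (fun a => E / 2 ≤ R a) ⊆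
      T.filter (fun a : Fin k → ℕ => ¬ Function.Injective a) ∪
      T.filter (fun a : Fin k → ℕ =>
      Function.Injective a ∧ c0 ^ k / 4 * M / (Real.log M * L ^ k) ≤
        (((Icc 1 M).filter (fun N => N.Prime ∧ ∀ i, (N + a i).Prime)).card : ℝ)) := by
    intro a ha
    rw [mem_filter] at ha
    rw [mem_union]
    by_cases hinj : Function.Injective a
    · right
      rw [mem_filter]
      refine ⟨ha.1, hinj, ?_⟩
      have hRa : R a = (((Icc 1 M).filter (fun N => N.Prime ∧ ∀ i, (N + a i).Prime)).card : ℝ) := by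
        rw [hR]
        simp only [PQ]
        congr 2
        ext N
        simp only [mem_filter, Nat.modEq_one, and_true]
        tauto
      rw [← hRa]
      refine le_trans ?_ ha.2
      calc c0 ^ k / 4 * M / (Real.log M * L ^ k) = (M : ℝ) / (2 * Real.log M) * (c0 / L) ^ k / 2 := by
            rw [div_pow]
            have h7 : Real.log (M : ℝ) ≠ 0 := hlogM.ne'
            field_simp
            norm_num
        _ ≤ n * (c0 / L) ^ k / 2 := by
            have : (M : ℝ) / (2 * Real.log M) * (c0 / L) ^ k ≤ n * (c0 / L) ^ k :=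
              mul_le_mul_of_nonneg_right hnlow (by positivity)
            linarith
        _ = E / 2 := by rw [hE]
    · left
      exact mem_filter.2 ⟨ha.1, hinj⟩
  have hcard := le_trans (Finset.card_le_card hsub) (Finset.card_union_le _ _)
  have hcardR : ((T.filter (fun a => E / 2 ≤ R a)).card : ℝ) ≤
      ((T.filter (fun a : Fin k → ℕ => ¬ Function.Injective a)).card : ℝ) +
      ((T.filter (fun a : Fin k → ℕ =>
      Function.Injective a ∧ c0 ^ k / 4 * M / (Real.log M * L ^ k) ≤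
        (((Icc 1 M).filter (fun N => N.Prime ∧ ∀ i, (N + a i).Prime)).card : ℝ))).card : ℝ) := by
    exact_mod_cast hcard
  have h8 : (X : ℝ) ^ k / (4 * K2) = 2 * ((X : ℝ) ^ k / (8 * K2)) := by
    field_simp
    norm_num
  have h9 : 1 / (8 * K2) * (X : ℝ) ^ k = (X : ℝ) ^ k / (8 * K2) := by ring
  rw [h9]
  linarith

end Pool.Agent.H75.AP
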