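import Pool.Agent.H75.AP.TupleNone
import Pool.Agent.H75.AP.Tuple2
import Pool.Agent.H75.AP.CubeMain
import Pool.Agent.H75.AP.CubeNone

/-!
# Upper bounds relative to the number of admissible tuples; upper bound for the cubes (helper75)
-/

namespace Pool.Agent.H75.AP

open Finset

open Classical in
/-- the admissible tuples have positive density -/
theorem card_adm_pos (k : ℕ) (hk : 1 ≤ k) : ∃ c : ℝ, 0 < c ∧ ∃ X0 : ℕ, ∀ X : ℕ, X0 ≤ X →
    c * (X : ℝ) ^ k ≤
      (((Fintype.piFinset (fun _ : Fin k => Icc 1 X)).filter (fun a => Adm a)).card : ℝ) := by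
  set Q := primorial (k + 1) with hQ
  have hQpos : 0 < Q := primorial_pos _
  have hQR : (0 : ℝ) < Q := by exact_mod_cast hQpos
  refine ⟨(1 / (4 * (Q : ℝ))) ^ k, by positivity, 4 * Q, ?_⟩
  intro X hX
  have h1 := card_adm_ge k X (k + 1) le_rfl
  refine le_trans ?_ h1
  have h2 : (1 : ℝ) ≤ (((Fintype.piFinset (fun _ : Fin k => range (primorial (k + 1)))).filter
      (AdmY (k + 1))).card : ℝ) := by
    have : 0 < ((Fintype.piFinset (fun _ : Fin k => range (primorial (k + 1)))).filter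
      (AdmY (k + 1))).card := by
      rw [card_pos]
      refine ⟨fun _ => 0, ?_⟩
      rw [mem_filter, Fintype.mem_piFinset]
      refine ⟨fun i => mem_range.2 hQpos, ?_⟩
      intro p hp _
      refine ⟨1, ?_, fun i => ?_⟩
      · exact fun h => hp.one_lt.ne' (Nat.dvd_one.1 h)
      · rw [add_zero]
        exact fun h => hp.one_lt.ne' (Nat.dvd_one.1 h)
    exact_mod_cast this
  have h3 : (1 / (4 * (Q : ℝ))) * X ≤ ((X / Q - 1 : ℕ) : ℝ) := by
    have h4 : X ≤ Q * (X / Q) + Q := by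
      have := Nat.lt_div_mul_add (a := X) hQpos
      have h5 : X / Q * Q = Q * (X / Q) := Nat.mul_comm _ _
      omega
    have h6 : 4 ≤ X / Q := by
      rw [Nat.le_div_iff_mul_le hQpos]; exact hX
    have h7 : ((X / Q - 1 : ℕ) : ℝ) = ((X / Q : ℕ) : ℝ) - 1 := by
      rw [Nat.cast_sub (by omega), Nat.cast_one]
    rw [h7]
    have h8 : (X : ℝ) ≤ Q * ((X / Q : ℕ) : ℝ) + Q := by exact_mod_cast h4
    have h9 : (4 : ℝ) ≤ ((X / Q : ℕ) : ℝ) := by exact_mod_cast h6
    rw [one_div_mul_eq_div, div_le_iff₀ (by positivity)]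
    nlinarith
  calc (1 / (4 * (Q : ℝ))) ^ k * (X : ℝ) ^ k = 1 * ((1 / (4 * (Q : ℝ))) * X) ^ k := by
        rw [mul_pow, one_mul]
    _ ≤ _ := by
        apply mul_le_mul h2 _ (by positivity) (by positivity)
        exact pow_le_pow_left₀ (by positivity) h3 k

open Classical in
/-- no small `N` for almost all admissible tuples -/
theorem tuple_none_adm (k : ℕ) (hk : 1 ≤ k) (η : ℝ) (hη : 0 < η) : ∃ c : ℝ, 0 < c ∧
    ∃ X0 : ℕ, ∀ X : ℕ, X0 ≤ X →
    (((Fintype.piFinset (fun _ : Fin k => Icc 1 X)).filter (fun a : Fin k → ℕ => Adm a ∧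
      ∃ N : ℕ, N.Prime ∧ (N : ℝ) ≤ c * (Real.log X) ^ k * Real.log (Real.log X) ∧
        ∀ i, rough X (N + a i))).card : ℝ) ≤
      η * (((Fintype.piFinset (fun _ : Fin k => Icc 1 X)).filter (fun a => Adm a)).card : ℝ) := by
  obtain ⟨c0, hc0, X1, h1⟩ := card_adm_pos k hk
  obtain ⟨c, hc, X2, h2⟩ := tuple_none k hk (η * c0) (by positivity)
  refine ⟨c, hc, max X1 X2, ?_⟩
  intro X hX
  have h3 := h1 X (le_trans (le_max_left _ _) hX)
  have h4 := h2 X (le_trans (le_max_right _ _) hX)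
  have h5 : (((Fintype.piFinset (fun _ : Fin k => Icc 1 X)).filter (fun a : Fin k → ℕ => Adm a ∧
      ∃ N : ℕ, N.Prime ∧ (N : ℝ) ≤ c * (Real.log X) ^ k * Real.log (Real.log X) ∧
        ∀ i, rough X (N + a i))).card : ℝ) ≤
      (((Fintype.piFinset (fun _ : Fin k => Icc 1 X)).filter (fun a : Fin k → ℕ =>
      ∃ N : ℕ, N.Prime ∧ (N : ℝ) ≤ c * (Real.log X) ^ k * Real.log (Real.log X) ∧
        ∀ i, rough X (N + a i))).card : ℝ) := by
    have : (Fintype.piFinset (fun _ : Fin k => Icc 1 X)).filter (fun a : Fin k → ℕ => Adm a ∧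
      ∃ N : ℕ, N.Prime ∧ (N : ℝ) ≤ c * (Real.log X) ^ k * Real.log (Real.log X) ∧
        ∀ i, rough X (N + a i)) ⊆ (Fintype.piFinset (fun _ : Fin k => Icc 1 X)).filter
        (fun a : Fin k → ℕ =>
      ∃ N : ℕ, N.Prime ∧ (N : ℝ) ≤ c * (Real.log X) ^ k * Real.log (Real.log X) ∧
        ∀ i, rough X (N + a i)) := by
      intro a ha
      rw [mem_filter] at ha ⊢
      exact ⟨ha.1, ha.2.2⟩
    exact_mod_cast card_le_card this
  calc _ ≤ _ := h5
    _ ≤ η * c0 * (X : ℝ) ^ k := h4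
    _ = η * (c0 * (X : ℝ) ^ k) := by ring
    _ ≤ _ := mul_le_mul_of_nonneg_left h3 hη.le

end Pool.Agent.H75.AP
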